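import Pool.Agent.Work.MP_f7ef37_lc.OP.Stmts3

/-!
# Item BOARD
-/

set_option autoImplicit false

open Classical

namespace Pool.Agent.Work.MP_f7ef37_lc.OP.NBOARD

theorem mem_CoN {I J : Type} [Fintype I] [Fintype J] (D : Ln I J) (Y : Finset (I ⊕ J))
    (e : I × J) (v : I ⊕ J) (f : I × J) :
    f ∈ CoN D Y e v ↔ Inc v f ∧ Avd Y f ∧ ∃ T ∈ D, e ∈ T.1 ∧ f ∈ T.1 := by
  unfold CoN
  rw [Finset.mem_filter, mem_star]

variable {m n : ℕ}

/-- Positive edges of a term on the board. -/
noncomputable def pos (M : Finset (Fin m)) (T : Finset (Fin m × Fin n × Bool)) :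
    Finset ({i // i ∈ M} × Fin n) :=
  Finset.univ.filter (fun e => (e.1.val, e.2, true) ∈ T)

/-- Negated edges of a term on the board. -/
noncomputable def neg (M : Finset (Fin m)) (T : Finset (Fin m × Fin n × Bool)) :
    Finset ({i // i ∈ M} × Fin n) :=
  Finset.univ.filter (fun e => (e.1.val, e.2, false) ∈ T)

/-- A term on the board. -/
noncomputable def tr (M : Finset (Fin m)) (T : Finset (Fin m × Fin n × Bool)) :
    Finset ({i // i ∈ M} × Fin n) × Finset ({i // i ∈ M} × Fin n) := (pos M T, neg M T)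

/-- A literal is satisfied by `b`. -/
def LS (M : Finset (Fin m)) (b : Finset ({i // i ∈ M} × Fin n)) (l : Fin m × Fin n × Bool) :
    Prop :=
  ∀ e : {i // i ∈ M} × Fin n, e.1.val = l.1 → e.2 = l.2.1 →
    (l.2.2 = true → e ∈ b) ∧ (l.2.2 = false → e ∉ b ∧ ¬ NA b e)

theorem sat_iff (M : Finset (Fin m)) (D : Finset (Finset (Fin m × Fin n × Bool)))
    (b : Finset ({i // i ∈ M} × Fin n)) :
    Sat (D.image (tr M)) b ↔ ∃ T ∈ D, ∀ l ∈ T, LS M b l := by
  constructor
  · rintro ⟨T', hT', h1, h2⟩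
    obtain ⟨T, hT, rfl⟩ := Finset.mem_image.1 hT'
    refine ⟨T, hT, fun l hl e he1 he2 => ⟨fun hb => ?_, fun hb => ?_⟩⟩
    · apply h1
      show e ∈ pos M T
      unfold pos
      rw [Finset.mem_filter]
      refine ⟨Finset.mem_univ _, ?_⟩
      have : (e.1.val, e.2, true) = l := by
        rw [he1, he2, ← hb]
      rw [this]; exact hl
    · apply h2
      show e ∈ neg M T
      unfold neg
      rw [Finset.mem_filter]
      refine ⟨Finset.mem_univ _, ?_⟩
      have : (e.1.val, e.2, false) = l := by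
        rw [he1, he2, ← hb]
      rw [this]; exact hl
  · rintro ⟨T, hT, h⟩
    refine ⟨tr M T, Finset.mem_image_of_mem _ hT, ?_, ?_⟩
    · intro e he
      change e ∈ pos M T at he
      unfold pos at he
      rw [Finset.mem_filter] at he
      exact (h _ he.2 e rfl rfl).1 rfl
    · intro e he
      change e ∈ neg M T at he
      unfold neg at he
      rw [Finset.mem_filter] at he
      exact (h _ he.2 e rfl rfl).2 rfl

/-- Contradictory literals. -/
theorem ls_neg {M : Finset (Fin m)} {b : Finset ({i // i ∈ M} × Fin n)}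
    {l : Fin m × Fin n × Bool} (hM : l.1 ∈ M) (h1 : LS M b l)
    (h2 : LS M b (l.1, l.2.1, !l.2.2)) : False := by
  have a1 := h1 (⟨l.1, hM⟩, l.2.1) rfl rfl
  have a2 := h2 (⟨l.1, hM⟩, l.2.1) rfl rfl
  cases hb : l.2.2 with
  | true =>
    have b1 := a1.1 hb
    have b2 := a2.2 (by simp [hb])
    exact b2.1 b1
  | false =>
    have b1 := a1.2 hb
    have b2 := a2.1 (by simp [hb])
    exact b1.1 b2

theorem mem_tr_single_true (M : Finset (Fin m)) (f : {i // i ∈ M} × Fin n)
    (D : Finset (Finset (Fin m × Fin n × Bool)))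
    (h : ({(f.1.val, f.2, true)} : Finset (Fin m × Fin n × Bool)) ∈ D) :
    (({f}, ∅) : Finset ({i // i ∈ M} × Fin n) × Finset ({i // i ∈ M} × Fin n)) ∈
      D.image (tr M) := by
  refine Finset.mem_image.2 ⟨_, h, ?_⟩
  unfold tr
  refine Prod.ext ?_ ?_
  · show pos M _ = {f}
    unfold pos
    ext e
    rw [Finset.mem_filter, Finset.mem_singleton, Finset.mem_singleton]
    constructor
    · rintro ⟨-, he⟩
      simp only [Prod.mk.injEq, and_true] at he
      exact Prod.ext (Subtype.ext he.1) he.2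
    · rintro rfl
      exact ⟨Finset.mem_univ _, rfl⟩
  · show neg M _ = ∅
    unfold neg
    rw [Finset.filter_eq_empty_iff]
    intro e _ he
    rw [Finset.mem_singleton] at he
    simp at he

theorem mem_tr_single_false (M : Finset (Fin m)) (f : {i // i ∈ M} × Fin n)
    (D : Finset (Finset (Fin m × Fin n × Bool)))
    (h : ({(f.1.val, f.2, false)} : Finset (Fin m × Fin n × Bool)) ∈ D) :
    ((∅, {f}) : Finset ({i // i ∈ M} × Fin n) × Finset ({i // i ∈ M} × Fin n)) ∈
      D.image (tr M) := by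
  refine Finset.mem_image.2 ⟨_, h, ?_⟩
  unfold tr
  refine Prod.ext ?_ ?_
  · show pos M _ = ∅
    unfold pos
    rw [Finset.filter_eq_empty_iff]
    intro e _ he
    rw [Finset.mem_singleton] at he
    simp at he
  · show neg M _ = {f}
    unfold neg
    ext e
    rw [Finset.mem_filter, Finset.mem_singleton, Finset.mem_singleton]
    constructor
    · rintro ⟨-, he⟩
      simp only [Prod.mk.injEq, and_true] at he
      exact Prod.ext (Subtype.ext he.1) he.2
    · rintro rfl
      exact ⟨Finset.mem_univ _, rfl⟩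

/-- The size of the negative part. -/
theorem neg_card (M : Finset (Fin m)) (T : Finset (Fin m × Fin n × Bool)) :
    (neg M T).card ≤ T.card := by
  refine Finset.card_le_card_of_injOn (fun e => (e.1.val, e.2, false)) ?_ ?_
  · intro e he
    have he' : e ∈ neg M T := he
    unfold neg at he'
    exact (Finset.mem_filter.1 he').2
  · intro e _ f _ hef
    simp only [Prod.mk.injEq, and_true] at hef
    exact Prod.ext (Subtype.ext hef.1) hef.2

/-- The embedding of the vertices. -/
def emb (M : Finset (Fin m)) : {i // i ∈ M} ⊕ Fin n → Fin m ⊕ Fin n :=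
  Sum.map Subtype.val id

theorem inc_emb (M : Finset (Fin m)) (v : {i // i ∈ M} ⊕ Fin n) (f : {i // i ∈ M} × Fin n) :
    Inc (emb M v) ((f.1.val, f.2) : Fin m × Fin n) ↔ Inc v f := by
  cases v with
  | inl i =>
    show f.1.val = i.val ↔ f.1 = i
    exact Subtype.ext_iff.symm
  | inr j => exact Iff.rfl

theorem emb_inj (M : Finset (Fin m)) : Function.Injective (emb (n := n) M) :=
  Sum.map_injective.2 ⟨Subtype.val_injective, Function.injective_id⟩

/-- The tame condition on the board. -/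
theorem tame (M : Finset (Fin m)) (L N : ℕ) (D : Finset (Finset (Fin m × Fin n × Bool)))
    (h : TameLine L N D) :
    ∃ Y : Finset ({i // i ∈ M} ⊕ Fin n), Y.card ≤ L ∧ TameAt (D.image (tr M)) Y N := by
  obtain ⟨Y, hY, hD⟩ := h
  let Y' : Finset ({i // i ∈ M} ⊕ Fin n) := Finset.univ.filter (fun v => emb M v ∈ Y)
  have hY' : ∀ v, v ∈ Y' ↔ emb M v ∈ Y := fun v => by
    show v ∈ Finset.univ.filter (fun v => emb M v ∈ Y) ↔ _
    rw [Finset.mem_filter]
    exact ⟨fun h => h.2, fun h => ⟨Finset.mem_univ _, h⟩⟩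
  have havd : ∀ f : {i // i ∈ M} × Fin n, Avd Y' f → Avd Y ((f.1.val, f.2) : Fin m × Fin n) := by
    intro f hf w hw hinc
    cases w with
    | inl i =>
      have hi : f.1.val = i := hinc
      subst hi
      exact hf (Sum.inl f.1) ((hY' _).2 hw) rfl
    | inr j =>
      have hi : f.2 = j := hinc
      subst hi
      exact hf (Sum.inr f.2) ((hY' _).2 hw) rfl
  refine ⟨Y', ?_, ?_⟩
  · refine le_trans ?_ hY
    refine Finset.card_le_card_of_injOn (emb M) ?_ ((emb_inj M).injOn)
    intro v hv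
    exact (hY' v).1 hv
  · intro e v hev hae hv
    refine le_trans ?_ (hD (e.1.val, e.2) (emb M v) (fun h => hev ((inc_emb M v e).1 h))
      (havd e hae) (fun h => hv ((hY' v).2 h)))
    refine Finset.card_le_card_of_injOn
      (fun f : {i // i ∈ M} × Fin n => ((f.1.val, f.2) : Fin m × Fin n)) ?_ ?_
    · intro f hf
      obtain ⟨h1, h2, T', hT', h3, h4⟩ := (mem_CoN _ _ _ _ _).1 (Finset.mem_coe.1 hf)
      obtain ⟨T, hT, rfl⟩ := Finset.mem_image.1 hT'
      have h3' : e ∈ pos M T := h3
      have h4' : f ∈ pos M T := h4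
      unfold pos at h3' h4'
      rw [Finset.mem_filter] at h3' h4'
      show ((f.1.val, f.2) : Fin m × Fin n) ∈ (Finset.univ.filter _ : Finset (Fin m × Fin n))
      rw [Finset.mem_filter]
      exact ⟨Finset.mem_univ _, (inc_emb M v f).2 h1, havd f h2, T, hT, h3'.2, h4'.2⟩
    · intro f _ f' _ hff
      simp only [Prod.mk.injEq] at hff
      exact Prod.ext (Subtype.ext hff.1) hff.2

theorem prf : S_BOARD := by
  intro t m n k P L N hn hnm hP htame
  obtain ⟨hT, hlast, hrules⟩ := hP
  -- the first empty line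
  have hex : ∃ s : ℕ, ∃ h : s < k + 1, P ⟨s, h⟩ = ∅ := ⟨k, Nat.lt_succ_self k, hlast⟩
  obtain ⟨hs0, hemp⟩ := Nat.find_spec hex
  set s0 : ℕ := Nat.find hex with hs0def
  have hmin : ∀ s : Fin (k + 1), s.val < s0 → P s ≠ ∅ := by
    intro s hs h0
    exact Nat.find_min hex hs ⟨s.isLt, h0⟩
  -- mentioned pigeons
  let B : Finset (Fin (k + 1)) := Finset.univ.filter (fun s => s.val < s0)
  have hB : ∀ s, s ∈ B ↔ s.val < s0 := fun s => by
    show s ∈ Finset.univ.filter (fun s : Fin (k + 1) => s.val < s0) ↔ _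
    rw [Finset.mem_filter]
    exact ⟨fun h => h.2, fun h => ⟨Finset.mem_univ _, h⟩⟩
  let M0 : Finset (Fin m) := B.biUnion (fun s => (P s).biUnion (fun T => T.image (fun l => l.1)))
  have hM0 : ∀ s : Fin (k + 1), s.val < s0 → ∀ T ∈ P s, ∀ l ∈ T, l.1 ∈ M0 := by
    intro s hs T hTs l hl
    refine Finset.mem_biUnion.2 ⟨s, (hB s).2 hs, Finset.mem_biUnion.2 ⟨T, hTs, ?_⟩⟩
    exact Finset.mem_image_of_mem _ hl
  have hsize1 : (∑ s ∈ B, ∑ T ∈ P s, (T.card : ℝ)) ≤ size P := by
    unfold size
    exact Finset.sum_le_sum_of_subset_of_nonneg (Finset.subset_univ _)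
      (fun s _ _ => Finset.sum_nonneg (fun T _ => Nat.cast_nonneg _))
  have hMcard : (M0.card : ℝ) ≤ size P := by
    refine le_trans ?_ hsize1
    have : M0.card ≤ ∑ s ∈ B, ∑ T ∈ P s, T.card := by
      refine le_trans Finset.card_biUnion_le (Finset.sum_le_sum (fun s _ => ?_))
      refine le_trans Finset.card_biUnion_le (Finset.sum_le_sum (fun T _ => ?_))
      exact Finset.card_image_le
    exact_mod_cast this
  have hs0size : (s0 : ℝ) ≤ size P := by
    refine le_trans ?_ hsize1
    have hBc : s0 ≤ B.card := by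
      have h1 : (Finset.univ : Finset (Fin s0)).card ≤ B.card := by
        refine Finset.card_le_card_of_injOn
          (fun i : Fin s0 => (⟨i.val, lt_trans i.isLt hs0⟩ : Fin (k + 1))) ?_ ?_
        · intro i _
          exact (hB _).2 i.isLt
        · intro i _ j _ hij
          simp only [Fin.mk.injEq] at hij
          exact Fin.ext hij
      simpa using h1
    have h2 : (B.card : ℝ) ≤ ∑ s ∈ B, ∑ T ∈ P s, (T.card : ℝ) := by
      have h3 : (B.card : ℝ) = ∑ s ∈ B, (1 : ℝ) := by simp
      rw [h3]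
      refine Finset.sum_le_sum (fun s hs => ?_)
      have hne : (P s).Nonempty := Finset.nonempty_iff_ne_empty.2 (hmin s ((hB s).1 hs))
      obtain ⟨T, hTs⟩ := hne
      have h4 : (1 : ℝ) ≤ (T.card : ℝ) := by exact_mod_cast (hT s T hTs).1
      exact le_trans h4 (Finset.single_le_sum (f := fun T : Finset (Fin m × Fin n × Bool) =>
        (T.card : ℝ)) (fun T _ => Nat.cast_nonneg _) hTs)
    exact le_trans (by exact_mod_cast hBc) h2
  -- the board
  have hM0m : M0.card ≤ m := by
    have := Finset.card_le_univ M0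
    simpa using this
  obtain ⟨M, hM0M, -, hMc⟩ := Finset.exists_subsuperset_card_eq (Finset.subset_univ M0)
    (le_max_left M0.card n) (by
      rw [Finset.card_univ, Fintype.card_fin]
      exact max_le hM0m hnm.le)
  have hMO : ∀ s : Fin (k + 1), s.val < s0 → ∀ T ∈ P s, ∀ l ∈ T, l.1 ∈ M :=
    fun s hs T hTs l hl => hM0M (hM0 s hs T hTs l hl)
  have hle : s0 + 1 ≤ k + 1 := hs0
  refine ⟨{i // i ∈ M}, inferInstance, s0 + 1,
    fun s => (P (Fin.castLE hle s)).image (tr M), ?_, ?_, ?_, ?_, ?_, ?_, ?_⟩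
  · rw [Fintype.card_coe, hMc]
    exact le_max_right _ _
  · rw [Fintype.card_coe, hMc]
    push_cast
    exact max_le_max hMcard le_rfl
  · push_cast
    linarith
  · intro s T' hT'
    obtain ⟨T, hTs, rfl⟩ := Finset.mem_image.1 hT'
    exact le_trans (neg_card M T) (hT _ T hTs).2
  · intro s
    set s' : Fin (k + 1) := Fin.castLE hle s with hs'
    have hs'le : s'.val ≤ s0 := Nat.lt_succ_iff.1 s.isLt
    have hlt : P s' ≠ ∅ → s'.val < s0 := by
      intro h
      rcases lt_or_eq_of_le hs'le with h1 | h1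
      · exact h1
      · exfalso
        apply h
        have : s' = ⟨s0, hs0⟩ := Fin.ext h1
        rw [this]
        exact hemp
    -- premises
    have hprem : ∀ r : Fin (k + 1), r < s' → ∃ r1 : Fin (s0 + 1), r1 < s ∧
        Fin.castLE hle r1 = r ∧ r.val < s0 := by
      intro r hr
      have hr' : r.val < s'.val := hr
      have hss : s'.val = s.val := rfl
      exact ⟨⟨r.val, by omega⟩, by
        show r.val < s.val
        omega, rfl, by omega⟩
    rcases hrules s' with ⟨i, hi⟩ | ⟨j, hj⟩ | ⟨i, i', j, hii, h⟩ | ⟨i, j, j', hjj, h⟩ | ⟨i, j, h⟩ |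
      ⟨r, hr, h⟩ | ⟨r, r', hr, hr', T, hTr, T', hTr', h⟩ | ⟨r, hr, T, hTr, l, hl, h⟩ |
      ⟨r, r', hr, hr', T, hTr, h1, h2⟩
    · -- pigeon axiom
      left; left
      have hmem : ∀ j : Fin n, ({(i, j, true)} : Finset (Fin m × Fin n × Bool)) ∈ P s' := by
        intro j
        rw [hi]
        exact Finset.mem_image_of_mem _ (Finset.mem_univ _)
      have hs1 : s'.val < s0 := by
        apply hlt
        intro h0
        have := hmem ⟨0, hn⟩
        rw [h0] at this
        exact absurd this (Finset.notMem_empty _)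
      have hiM : i ∈ M := hMO s' hs1 _ (hmem ⟨0, hn⟩) (i, ⟨0, hn⟩, true)
        (Finset.mem_singleton_self _)
      refine ⟨Sum.inl ⟨i, hiM⟩, fun f hf => ?_⟩
      have hf1 : f.1 = ⟨i, hiM⟩ := hf
      apply mem_tr_single_true
      rw [hf1]
      exact hmem f.2
    · -- hole axiom
      left; left
      refine ⟨Sum.inr j, fun f hf => ?_⟩
      have hf1 : f.2 = j := hf
      apply mem_tr_single_true
      rw [hf1, hj]
      exact Finset.mem_image_of_mem (fun i : Fin m =>
        ({(i, j, true)} : Finset (Fin m × Fin n × Bool))) (Finset.mem_univ _)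
    · left; right; left
      have m1 : ({(i, j, false)} : Finset (Fin m × Fin n × Bool)) ∈ P s' := by rw [h]; simp
      have m2 : ({(i', j, false)} : Finset (Fin m × Fin n × Bool)) ∈ P s' := by rw [h]; simp
      have hs1 : s'.val < s0 := hlt (Finset.ne_empty_of_mem m1)
      have hiM : i ∈ M := hMO s' hs1 _ m1 (i, j, false) (Finset.mem_singleton_self _)
      have hiM' : i' ∈ M := hMO s' hs1 _ m2 (i', j, false) (Finset.mem_singleton_self _)
      refine ⟨(⟨i, hiM⟩, j), (⟨i', hiM'⟩, j), ?_, Or.inr rfl, ?_, ?_⟩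
      · intro he
        apply hii
        have := congrArg (fun x : {i // i ∈ M} × Fin n => x.1.val) he
        exact this
      · exact mem_tr_single_false M (⟨i, hiM⟩, j) _ m1
      · exact mem_tr_single_false M (⟨i', hiM'⟩, j) _ m2
    · left; right; left
      have m1 : ({(i, j, false)} : Finset (Fin m × Fin n × Bool)) ∈ P s' := by rw [h]; simp
      have m2 : ({(i, j', false)} : Finset (Fin m × Fin n × Bool)) ∈ P s' := by rw [h]; simp
      have hs1 : s'.val < s0 := hlt (Finset.ne_empty_of_mem m1)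
      have hiM : i ∈ M := hMO s' hs1 _ m1 (i, j, false) (Finset.mem_singleton_self _)
      refine ⟨(⟨i, hiM⟩, j), (⟨i, hiM⟩, j'), ?_, Or.inl rfl, ?_, ?_⟩
      · intro he
        apply hjj
        have := congrArg (fun x : {i // i ∈ M} × Fin n => x.2) he
        exact this
      · exact mem_tr_single_false M (⟨i, hiM⟩, j) _ m1
      · exact mem_tr_single_false M (⟨i, hiM⟩, j') _ m2
    · left; right; right
      have m1 : ({(i, j, true)} : Finset (Fin m × Fin n × Bool)) ∈ P s' := by rw [h]; simp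
      have m2 : ({(i, j, false)} : Finset (Fin m × Fin n × Bool)) ∈ P s' := by rw [h]; simp
      have hs1 : s'.val < s0 := hlt (Finset.ne_empty_of_mem m1)
      have hiM : i ∈ M := hMO s' hs1 _ m1 (i, j, true) (Finset.mem_singleton_self _)
      exact ⟨(⟨i, hiM⟩, j), mem_tr_single_true M (⟨i, hiM⟩, j) _ m1,
        mem_tr_single_false M (⟨i, hiM⟩, j) _ m2⟩
    · -- weakening
      right
      obtain ⟨r1, hr1, hc, -⟩ := hprem r hr
      refine ⟨r1, r1, hr1, hr1, fun b _ hb _ => ?_⟩
      simp only [hc] at hb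
      rw [sat_iff] at hb ⊢
      obtain ⟨T, hTT, hl⟩ := hb
      exact ⟨T, h hTT, hl⟩
    · -- conjunction introduction
      right
      obtain ⟨r1, hr1, hc, -⟩ := hprem r hr
      obtain ⟨r2, hr2, hc', -⟩ := hprem r' hr'
      refine ⟨r1, r2, hr1, hr2, fun b _ hb hb' => ?_⟩
      simp only [hc] at hb
      simp only [hc'] at hb'
      rw [sat_iff] at hb hb' ⊢
      obtain ⟨T1, hT1, hl1⟩ := hb
      obtain ⟨T2, hT2, hl2⟩ := hb'
      by_cases c1 : T1 = T
      · by_cases c2 : T2 = T'
        · refine ⟨T ∪ T', h (by simp), fun l hl => ?_⟩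
          rcases Finset.mem_union.1 hl with hl | hl
          · exact hl1 l (c1 ▸ hl)
          · exact hl2 l (c2 ▸ hl)
        · exact ⟨T2, h (by simp [c2, hT2]), hl2⟩
      · exact ⟨T1, h (by simp [c1, hT1]), hl1⟩
    · -- conjunction elimination
      right
      obtain ⟨r1, hr1, hc, -⟩ := hprem r hr
      refine ⟨r1, r1, hr1, hr1, fun b _ hb _ => ?_⟩
      simp only [hc] at hb
      rw [sat_iff] at hb ⊢
      obtain ⟨T1, hT1, hl1⟩ := hb
      by_cases c1 : T1 = T
      · refine ⟨{l}, h (by simp), fun l' hl' => ?_⟩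
        rw [Finset.mem_singleton] at hl'
        rw [hl']
        exact hl1 l (c1 ▸ hl)
      · exact ⟨T1, h (by simp [c1, hT1]), hl1⟩
    · -- cut
      right
      obtain ⟨r1, hr1, hc, hrs⟩ := hprem r hr
      obtain ⟨r2, hr2, hc', -⟩ := hprem r' hr'
      refine ⟨r1, r2, hr1, hr2, fun b _ hb hb' => ?_⟩
      simp only [hc] at hb
      simp only [hc'] at hb'
      rw [sat_iff] at hb hb' ⊢
      obtain ⟨T1, hT1, hl1⟩ := hb
      obtain ⟨T2, hT2, hl2⟩ := hb'
      by_cases c1 : T1 = T
      · by_cases c2 : T2 ∈ T.image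
            (fun l => ({(l.1, l.2.1, !l.2.2)} : Finset (Fin m × Fin n × Bool)))
        · exfalso
          obtain ⟨l, hl, hlT⟩ := Finset.mem_image.1 c2
          have hl' : LS M b l := hl1 l (c1 ▸ hl)
          have hl'' : LS M b (l.1, l.2.1, !l.2.2) := hl2 _ (by rw [← hlT]; simp)
          exact ls_neg (hMO r hrs T hTr l hl) hl' hl''
        · exact ⟨T2, h2 (Finset.mem_union_right _ (Finset.mem_sdiff.2 ⟨hT2, c2⟩)), hl2⟩
      · exact ⟨T1, h2 (Finset.mem_union_left _ (Finset.mem_erase.2 ⟨c1, hT1⟩)), hl1⟩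
  · refine ⟨⟨s0, Nat.lt_succ_self s0⟩, ?_⟩
    have : Fin.castLE hle ⟨s0, Nat.lt_succ_self s0⟩ = ⟨s0, hs0⟩ := rfl
    simp only [this]
    rw [hemp]
    exact Finset.image_empty _
  · intro s
    exact tame M L N _ (htame _)

end Pool.Agent.Work.MP_f7ef37_lc.OP.NBOARD
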