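import Pool.Agent.Work.MP_f7ef37_lc.OP.Defs

/-!
# Basic lemmas for the block [f7ef37 OP] (all proved)
-/

set_option autoImplicit false

open Classical

namespace Pool.Agent.Work.MP_f7ef37_lc.OP

variable {I J : Type} [Fintype I] [Fintype J]

omit [Fintype I] [Fintype J] in
theorem adj_refl (e : I × J) : Adj e e := Or.inl rfl

omit [Fintype I] [Fintype J] in
theorem adj_symm {e f : I × J} (h : Adj e f) : Adj f e := h.elim (fun h => Or.inl h.symm) (fun h => Or.inr h.symm)

omit [Fintype I] [Fintype J] in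
theorem adj_iff (e f : I × J) : Adj e f ↔ ∃ v : I ⊕ J, Inc v e ∧ Inc v f := by
  constructor
  · rintro (h | h)
    · exact ⟨Sum.inl e.1, rfl, h.symm⟩
    · exact ⟨Sum.inr e.2, rfl, h.symm⟩
  · rintro ⟨v, h1, h2⟩
    cases v with
    | inl i => exact Or.inl (h1.trans h2.symm)
    | inr j => exact Or.inr (h1.trans h2.symm)

omit [Fintype I] [Fintype J] in
theorem Mat.mono {b c : Finset (I × J)} (h : Mat b) (hc : c ⊆ b) : Mat c :=
  fun e he f hf h' => h e (hc he) f (hc hf) h'

omit [Fintype I] [Fintype J] in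
theorem mat_empty : Mat (∅ : Finset (I × J)) := fun e he => absurd he (Finset.notMem_empty e)

omit [Fintype I] [Fintype J] in
theorem Mat.insert {b : Finset (I × J)} {f : I × J} (h : Mat b) (hf : NA b f) :
    Mat (insert f b) := by
  intro e he g hg hadj
  rcases Finset.mem_insert.1 he with he1 | he1 <;> rcases Finset.mem_insert.1 hg with hg1 | hg1
  · rw [he1, hg1]
  · subst he1
    exact absurd (adj_symm hadj) (hf g hg1)
  · subst hg1
    exact absurd hadj (hf e he1)
  · exact h e he1 g hg1 hadj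

omit [Fintype I] [Fintype J] in
/-- In a matching `b` an edge `f ∈ b` outside `a ⊆ b` is disjoint from `a`. -/
theorem Mat.na {a b : Finset (I × J)} {f : I × J} (h : Mat b) (hab : a ⊆ b) (hf : f ∈ b)
    (hfa : f ∉ a) : NA a f := by
  intro e he hadj
  have := h e (hab he) f hf hadj
  exact hfa (this ▸ he)

omit [Fintype I] [Fintype J] in
theorem NA.mono {a b : Finset (I × J)} {f : I × J} (h : NA b f) (hab : a ⊆ b) : NA a f :=
  fun e he => h e (hab he)

omit [Fintype I] [Fintype J] in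
theorem NA.notMem {a : Finset (I × J)} {f : I × J} (h : NA a f) : f ∉ a :=
  fun hf => h f hf (adj_refl f)

omit [Fintype I] [Fintype J] in
theorem Cov.mono {a b : Finset (I × J)} {v : I ⊕ J} (h : Cov a v) (hab : a ⊆ b) : Cov b v := by
  obtain ⟨e, he, hv⟩ := h
  exact ⟨e, hab he, hv⟩

omit [Fintype I] [Fintype J] in
theorem sat_opn {D : Ln I J} {b : Finset (I × J)} (h : Sat D b) : Opn D b := by
  obtain ⟨T, hT, h1, h2⟩ := h
  exact ⟨T, hT, h1, fun e he => (h2 e he).1⟩

omit [Fintype I] [Fintype J] in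
/-- A satisfied line stays satisfied in a larger matching. -/
theorem sat_mono {D : Ln I J} {b b' : Finset (I × J)} (h : Sat D b) (hb : b ⊆ b')
    (hm : Mat b') : Sat D b' := by
  obtain ⟨T, hT, h1, h2⟩ := h
  refine ⟨T, hT, h1.trans hb, fun e he => ⟨fun heb => ?_, fun hna => (h2 e he).2 (hna.mono hb)⟩⟩
  obtain ⟨h3, h4⟩ := h2 e he
  apply h4
  intro g hg hadj
  exact h3 ((hm g (hb hg) e heb hadj) ▸ hg)

omit [Fintype I] [Fintype J] in
theorem wit_spec {D : Ln I J} {c : Finset (I × J)} (h : Opn D c) :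
    ∃ T ∈ D, T.1 ⊆ c ∧ (∀ e ∈ T.2, e ∉ c) ∧ wit D c = T.2 := by
  refine ⟨h.choose, h.choose_spec.1, h.choose_spec.2.1, h.choose_spec.2.2, ?_⟩
  unfold wit
  rw [dif_pos h]

omit [Fintype I] [Fintype J] in
theorem wit_notMem {D : Ln I J} {c : Finset (I × J)} {e : I × J} (h : e ∈ wit D c) : e ∉ c := by
  by_cases hO : Opn D c
  · obtain ⟨T, _, _, h3, h4⟩ := wit_spec hO
    rw [h4] at h
    exact h3 e h
  · unfold wit at h
    rw [dif_neg hO] at h
    exact absurd h (Finset.notMem_empty e)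

omit [Fintype I] [Fintype J] in
theorem wit_card {D : Ln I J} {t : ℕ} (ht : ∀ T ∈ D, T.2.card ≤ t) (c : Finset (I × J)) :
    (wit D c).card ≤ t := by
  by_cases hO : Opn D c
  · obtain ⟨T, h1, _, _, h4⟩ := wit_spec hO
    rw [h4]
    exact ht T h1
  · unfold wit
    rw [dif_neg hO]
    simp

theorem mem_star {v : I ⊕ J} {e : I × J} : e ∈ star v ↔ Inc v e := by
  unfold star
  simp

theorem mem_Xs {lam : I ⊕ J → ℕ} {v : I ⊕ J} {e : I × J} :
    e ∈ Xs lam v ↔ Inc v e ∧ lam (oth v e) = 0 := by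
  unfold Xs
  rw [Finset.mem_filter, mem_star]

theorem mem_supset {lam : I ⊕ J → ℕ} {R : ℕ} {D : Ln I J} {a : Finset (I × J)} {v : I ⊕ J} :
    v ∈ supset lam R D a ↔ Sup lam R D a v := by
  unfold supset
  simp

theorem mem_hevset {lam : I ⊕ J → ℕ} {R : ℕ} {D : Ln I J} {a : Finset (I × J)} {v : I ⊕ J} :
    v ∈ hevset lam R D a ↔ Hev lam R D a v := by
  unfold hevset
  simp

theorem W0_sub {lam : I ⊕ J → ℕ} {R w0 : ℕ} {D : Ln I J} {a : Finset (I × J)} {v : I ⊕ J}
    (hv : v ∈ W0 lam R w0 D a) : Sup lam R D a v := by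
  unfold W0 at hv
  split_ifs at hv with h
  · exact mem_supset.1 ((Finset.exists_subset_card_eq h).choose_spec.1 hv)
  · exact absurd hv (Finset.notMem_empty v)

theorem W0_card {lam : I ⊕ J → ℕ} {R w0 : ℕ} {D : Ln I J} {a : Finset (I × J)}
    (h : w0 ≤ (supset lam R D a).card) : (W0 lam R w0 D a).card = w0 := by
  unfold W0
  rw [dif_pos h]
  exact (Finset.exists_subset_card_eq h).choose_spec.2

theorem W0_card_le {lam : I ⊕ J → ℕ} {R w0 : ℕ} {D : Ln I J} {a : Finset (I × J)} :
    (W0 lam R w0 D a).card ≤ w0 := by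
  by_cases h : w0 ≤ (supset lam R D a).card
  · exact (W0_card h).le
  · unfold W0
    rw [dif_neg h]
    simp

omit [Fintype I] [Fintype J] in
/-- At an active vertex `v`, an edge from `v` to a passive partner is active-passive with active
end `v`. -/
theorem act_eq {lam : I ⊕ J → ℕ} {v : I ⊕ J} {e : I × J} (hv : lam v ≠ 0) (h1 : Inc v e)
    (h2 : lam (oth v e) = 0) : AP lam e ∧ act lam e = v := by
  cases v with
  | inl i =>
    simp only [Inc] at h1
    simp only [oth] at h2
    subst h1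
    refine ⟨Or.inl ⟨hv, h2⟩, ?_⟩
    unfold act
    rw [if_pos hv]
  | inr j =>
    simp only [Inc] at h1
    simp only [oth] at h2
    subst h1
    refine ⟨Or.inr ⟨h2, hv⟩, ?_⟩
    unfold act
    rw [if_neg (by simpa using h2)]

theorem reach_card {E : Type} [Fintype E] {O : Finset E → Finset E} {k s : ℕ} {a : Finset E}
    (h : a ∈ Reach O k s) : a.card ≤ k + s := by
  induction s generalizing a with
  | zero => simpa [Reach] using h
  | succ s ih =>
    simp only [Reach, Finset.mem_biUnion, Finset.mem_image, Finset.mem_sdiff] at h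
    obtain ⟨a', ha', e, _, rfl⟩ := h
    have := ih ha'
    have h2 := Finset.card_insert_le e a'
    omega

end Pool.Agent.Work.MP_f7ef37_lc.OP
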