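import Pool.Agent.Work.MP_f7ef37_lc.OP.Stmts3

/-!
# Assembly of the core theorem of the block [f7ef37 OP]
-/

set_option autoImplicit false

open Classical

namespace Pool.Agent.Work.MP_f7ef37_lc.OP

variable {I J : Type} [Fintype I] [Fintype J]

theorem sum_biUnion_le' {ι α : Type*} [DecidableEq α] (s : Finset ι) (t : ι → Finset α) (f : α → ℝ)
    (hf : ∀ a, 0 ≤ f a) : ∑ a ∈ s.biUnion t, f a ≤ ∑ i ∈ s, ∑ a ∈ t i, f a := by
  induction s using Finset.induction_on with
  | empty => simp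
  | insert i s hi ih =>
    rw [Finset.biUnion_insert, Finset.sum_insert hi]
    have h := Finset.sum_union_inter (s₁ := t i) (s₂ := s.biUnion t) (f := f)
    have h2 : 0 ≤ ∑ a ∈ t i ∩ s.biUnion t, f a := Finset.sum_nonneg fun a _ => hf a
    linarith

theorem star_inl_card (i : I) : (star (Sum.inl i : I ⊕ J)).card = Fintype.card J := by
  have h : star (Sum.inl i : I ⊕ J) = (Finset.univ : Finset J).image (fun j => (i, j)) := by
    ext e
    rw [mem_star, Finset.mem_image]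
    constructor
    · intro h
      exact ⟨e.2, Finset.mem_univ _, by
        have h' : e.1 = i := h
        rw [← h']⟩
    · rintro ⟨j, _, rfl⟩
      exact rfl
  rw [h, Finset.card_image_of_injective _ (fun a b hab => (Prod.mk.inj hab).2), Finset.card_univ]

theorem star_inr_card (j : J) : (star (Sum.inr j : I ⊕ J)).card = Fintype.card I := by
  have h : star (Sum.inr j : I ⊕ J) = (Finset.univ : Finset I).image (fun i => (i, j)) := by
    ext e
    rw [mem_star, Finset.mem_image]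
    constructor
    · intro h
      exact ⟨e.1, Finset.mem_univ _, by
        have h' : e.2 = j := h
        rw [← h']⟩
    · rintro ⟨i, _, rfl⟩
      exact rfl
  rw [h, Finset.card_image_of_injective _ (fun a b hab => (Prod.mk.inj hab).1), Finset.card_univ]

theorem star_card_ge {n : ℕ} (hI : n ≤ Fintype.card I) (hJ : n ≤ Fintype.card J) (v : I ⊕ J) :
    n ≤ (star v).card := by
  cases v with
  | inl i => rw [star_inl_card]; exact hJ
  | inr j => rw [star_inr_card]; exact hI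

omit [Fintype I] [Fintype J] in
theorem act_lam {lam : I ⊕ J → ℕ} {e : I × J} (h : AP lam e) : lam (act lam e) ≠ 0 := by
  unfold act
  rcases h with h | h
  · rw [if_pos h.1]
    exact h.1
  · rw [if_neg (by simpa using h.1)]
    exact h.2

theorem kap_le {lam : I ⊕ J → ℕ} {R : ℕ} {p κm : ℝ} (hp : p ≤ κm) (h0 : 0 ≤ κm)
    (hd : ∀ v : I ⊕ J, 1 ≤ κm * (del R v : ℝ)) (e : I × J) : kap lam R p e ≤ κm := by
  unfold kap
  split_ifs with h1 h2
  · have hlam := act_lam h1
    have hd1 := hd (act lam e)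
    have hdpos : (0 : ℝ) < (del R (act lam e) : ℝ) := by
      rcases Nat.eq_zero_or_pos (del R (act lam e)) with h | h
      · rw [h] at hd1
        norm_num at hd1
      · exact_mod_cast h
    have hle : (del R (act lam e) : ℝ) ≤ (lv lam R (act lam e) : ℝ) := by
      have : del R (act lam e) ≤ lv lam R (act lam e) := by
        unfold lv
        exact Nat.le_mul_of_pos_left _ (Nat.pos_of_ne_zero hlam)
      exact_mod_cast this
    rw [div_le_iff₀ (lt_of_lt_of_le hdpos hle)]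
    nlinarith
  · exact hp
  · exact h0

theorem core_of (hAlive : S_ALIVE) (hAdv : S_ADV) (hTotal : S_TOTAL) (hGP : S_GP)
    (hLevels : S_LEVELS) (nA : S_NUMA) (nB : S_NUMB) (nC : S_NUMC) (nD : S_NUMD) : S_CORE := by
  obtain ⟨LA, nA⟩ := nA
  obtain ⟨LB, nB⟩ := nB
  obtain ⟨LC, nC⟩ := nC
  obtain ⟨LD, hLD, nD⟩ := nD
  refine ⟨LA + LB + LC + LD + 1, ?_⟩
  intro L hL I J _ _ hn hIJ hI K Ds hK ht hOk hT
  have hLA : LA ≤ L := by omega
  have hLB : LB ≤ L := by omega
  have hLC : LC ≤ L := by omega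
  have hLD' : LD ≤ L := by omega
  have hL1 : 1 ≤ L := by omega
  set n := Fintype.card J with hndef
  set N := n / L ^ 80 with hNdef
  have hNn : N * L ^ 80 ≤ n := Nat.div_mul_le_self n (L ^ 80)
  have hstar : ∀ v : I ⊕ J, n ≤ (star v).card := star_card_ge hIJ le_rfl
  have hL80 : 64 * L ≤ n := by
    have h1 := (nD L hLD' n N n hn hNn (by nlinarith)).2.2.2.2.2.2.2
    have h2 : 128 * L ≤ L ^ 15 := h1.1
    have h3 : L ^ 15 ≤ n := h1.2.1
    omega
  have hdel : ∀ v : I ⊕ J, n ≤ 128 * L * del (8 * L) v := by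
    intro v
    have h1 := hstar v
    unfold del
    have h2 : 8 * (8 * L) = 64 * L := by ring
    rw [h2]
    have h64 : 0 < 64 * L := by omega
    have h3 : (star v).card < 64 * L * ((star v).card / (64 * L) + 1) := by
      have := Nat.lt_div_mul_add (a := (star v).card) h64
      calc (star v).card < (star v).card / (64 * L) * (64 * L) + 64 * L := this
        _ = _ := by ring
    have h4 : 1 ≤ (star v).card / (64 * L) := by
      rw [Nat.one_le_div_iff h64]
      omega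
    calc n ≤ (star v).card := h1
      _ ≤ 64 * L * ((star v).card / (64 * L) + 1) := h3.le
      _ ≤ 64 * L * ((star v).card / (64 * L) + (star v).card / (64 * L)) :=
          Nat.mul_le_mul_left _ (Nat.add_le_add_left h4 _)
      _ = _ := by ring
  have hn1 : 1 ≤ n := le_trans (by omega) hL80
  have hnum := fun v : I ⊕ J => nD L hLD' n N (del (8 * L) v) hn hNn (hdel v)
  have hdel1 : ∀ v : I ⊕ J, 1 ≤ del (8 * L) v := by
    intro v
    rcases Nat.eq_zero_or_pos (del (8 * L) v) with h | h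
    · have := hdel v
      rw [h] at this
      omega
    · exact h
  have hnR : (0 : ℝ) < (n : ℝ) := by exact_mod_cast hn1
  have hLR : (1 : ℝ) ≤ (L : ℝ) := by exact_mod_cast hL1
  have hn80 : (L : ℝ) ^ 80 ≤ (n : ℝ) := by exact_mod_cast hn
  have hK0 : (0 : ℝ) ≤ (K : ℝ) := Nat.cast_nonneg K
  -- sizes
  have hJle : (n : ℝ) ≤ Real.exp (2 * L) := le_trans (by exact_mod_cast hIJ) hI
  have hEc0 : (0 : ℝ) ≤ ((Fintype.card I * Fintype.card J : ℕ) : ℝ) := Nat.cast_nonneg _
  have hexp1 : ∀ x : ℝ, 1 ≤ x → 2 ≤ Real.exp x := by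
    intro x hx
    have := Real.add_one_le_exp x
    linarith
  have hEc : ((Fintype.card I * Fintype.card J : ℕ) : ℝ) + 1 ≤ Real.exp (5 * L) := by
    push_cast
    have h1 : (Fintype.card I : ℝ) * (Fintype.card J : ℝ) ≤ Real.exp (2 * L) * Real.exp (2 * L) :=
      mul_le_mul hI hJle (Nat.cast_nonneg _) (Real.exp_pos _).le
    have h2 : Real.exp (5 * L) = Real.exp (2 * L) * Real.exp (2 * L) * Real.exp L := by
      rw [← Real.exp_add, ← Real.exp_add]
      congr 1
      ring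
    have h3 := hexp1 L hLR
    have h4 : 1 ≤ Real.exp (2 * (L : ℝ)) := Real.one_le_exp (by positivity)
    rw [h2]
    nlinarith [mul_le_mul h4 h4 (by norm_num) (by positivity)]
  have hV : ((Fintype.card I + Fintype.card J : ℕ) : ℝ) ≤ Real.exp (3 * L) := by
    push_cast
    have h2 : Real.exp (3 * L) = Real.exp (2 * L) * Real.exp L := by
      rw [← Real.exp_add]
      congr 1
      ring
    have h3 := hexp1 L hLR
    rw [h2]
    nlinarith [Real.exp_pos (2 * (L : ℝ))]
  have hV2 : Fintype.card I + Fintype.card J ≤ 2 ^ (8 * L) := by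
    have h1 : Real.exp (3 * (L : ℝ)) ≤ (2 : ℝ) ^ (8 * L) := by
      rw [show (2 : ℝ) ^ (8 * L) = Real.exp ((8 * L : ℕ) * Real.log 2) by
        rw [Real.exp_nat_mul, Real.exp_log (by norm_num)]]
      apply Real.exp_le_exp.2
      push_cast
      have := Real.log_two_gt_d9
      nlinarith
    have h2 := hV.trans h1
    exact_mod_cast h2
  -- the sets `Y`
  choose Y0 hY0 using hT
  let Ys : Fin K → Finset (I ⊕ J) := fun s => if Ds s = ∅ then ∅ else Y0 s
  have hYcard : ∀ s, (Ys s).card ≤ L := by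
    intro s
    simp only [Ys]
    split_ifs
    · simp
    · exact (hY0 s).1
  have hYtame : ∀ s, TameAt (Ds s) (Ys s) N := by
    intro s
    simp only [Ys]
    split_ifs with h
    · intro e v _ _ _
      have : CoN (Ds s) ∅ e v = ∅ := by
        unfold CoN
        rw [h]
        simp
      rw [this]
      simp
    · exact (hY0 s).2
  have hYempty : ∀ s, Ds s = ∅ → Ys s = ∅ := fun s h => by
    simp only [Ys]
    rw [if_pos h]
  -- levels
  obtain ⟨lam, hlamR, hlamX, hfilt⟩ := hLevels I J (8 * L) (L ^ 6) K (L + 20 * L ^ 2) n Ds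
    (by omega) (Nat.one_le_pow _ _ hL1) hstar hdel1 hV2
    (nB L hLB n _ K _ hn80 hEc0 hEc hK0 hK (Nat.cast_nonneg _) hV)
  -- certificates
  let C : Finset (Finset (I × J)) := (Finset.univ : Finset (Fin K)).biUnion (fun s =>
    Certs lam (8 * L) (L ^ 6) (L ^ 36) (L ^ 4) L (20 * L ^ 2) (100 * L ^ 6) (600 * L ^ 7) (Ds s))
  by_cases hne : Nonempty (I ⊕ J)
  swap
  · -- impossible: there are at least `64 L` holes
    exfalso
    have : Fintype.card J = 0 := by
      rw [Fintype.card_eq_zero_iff]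
      exact ⟨fun j => hne ⟨Sum.inr j⟩⟩
    omega
  obtain ⟨v0⟩ := hne
  obtain ⟨d1, -, d3, d4, d5, d6, d7, d8, d9, d10⟩ := hnum v0
  have hκ0 : (0 : ℝ) ≤ (L : ℝ) ^ 15 / n := by positivity
  have hκ1 : (L : ℝ) ^ 15 / n ≤ 1 := by
    rw [div_le_one hnR]
    exact_mod_cast d9
  have hκd : ∀ v : I ⊕ J, 1 ≤ (L : ℝ) ^ 15 / n * (del (8 * L) v : ℝ) := by
    intro v
    have h1 : (n : ℝ) ≤ 128 * L * (del (8 * L) v : ℝ) := by exact_mod_cast hdel v
    have h2 : 128 * (L : ℝ) ≤ (L : ℝ) ^ 15 := by exact_mod_cast d8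
    rw [div_mul_eq_mul_div, le_div_iff₀ hnR, one_mul]
    calc (n : ℝ) ≤ 128 * L * (del (8 * L) v : ℝ) := h1
      _ ≤ (L : ℝ) ^ 15 * (del (8 * L) v : ℝ) :=
          mul_le_mul_of_nonneg_right h2 (Nat.cast_nonneg _)
  have hkapκ : ∀ e : I × J, kap lam (8 * L) ((L : ℝ) ^ 15 / n) e ≤ (L : ℝ) ^ 15 / n :=
    fun e => kap_le le_rfl hκ0 hκd e
  have hkap0 : ∀ e : I × J, 0 ≤ kap lam (8 * L) ((L : ℝ) ^ 15 / n) e := by
    intro e
    unfold kap
    split_ifs
    · positivity
    · exact hκ0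
    · exact le_rfl
  have hsum : ∑ γ ∈ C, ∏ e ∈ γ, kap lam (8 * L) ((L : ℝ) ^ 15 / n) e ≤ 1 / 8 := by
    have hA := nA L hLA n ((Fintype.card I * Fintype.card J : ℕ) : ℝ) K hn80 hEc0 hEc hK0 hK
    refine le_trans ?_ hA
    have hbi := sum_biUnion_le' (Finset.univ : Finset (Fin K)) (fun s =>
      Certs lam (8 * L) (L ^ 6) (L ^ 36) (L ^ 4) L (20 * L ^ 2) (100 * L ^ 6) (600 * L ^ 7) (Ds s))
      (fun γ : Finset (I × J) => ∏ e ∈ γ, kap lam (8 * L) ((L : ℝ) ^ 15 / n) e)
      (fun γ => Finset.prod_nonneg fun e _ => hkap0 e)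
    refine le_trans hbi ?_
    have hone : ∀ s : Fin K, ∑ γ ∈ Certs lam (8 * L) (L ^ 6) (L ^ 36) (L ^ 4) L (20 * L ^ 2)
        (100 * L ^ 6) (600 * L ^ 7) (Ds s), ∏ e ∈ γ, kap lam (8 * L) ((L : ℝ) ^ 15 / n) e ≤ _ :=
      fun s => hTotal I J lam (8 * L) (L ^ 6) (L ^ 36) (L ^ 4) L (20 * L ^ 2)
        (100 * L ^ 6) (600 * L ^ 7) L (128 * L ^ 44) ((L : ℝ) ^ 15 / n) ((L : ℝ) ^ 15 / n) (Ds s)
        (by omega) hlamR hdel1 hκ0 hkapκ hκ0 hκ1 hL1 (Nat.one_le_pow _ _ hL1) d4 d5 d6 d7 (ht s)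
    refine le_trans (Finset.sum_le_sum fun s _ => hone s) ?_
    rw [Finset.sum_const, Finset.card_univ, Fintype.card_fin, nsmul_eq_mul]
  -- the random set
  obtain ⟨nC1, nC2⟩ := nC L hLC n ((Fintype.card I * Fintype.card J : ℕ) : ℝ) K
    ((Fintype.card I + Fintype.card J : ℕ) : ℝ) N hn80 hEc0 hEc hK0 hK (Nat.cast_nonneg _) hV
    (Nat.cast_nonneg _) (by exact_mod_cast hNn)
  obtain ⟨G, hG1, hG2, hG3⟩ := hGP I J lam (8 * L) n (L ^ 15) K (100 * L ^ 6 + 600 * L ^ 7) N
    (20 * L) ((n : ℝ) / (128 * L)) C Ds Ys hn1 d9 (by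
      have : ((L ^ 15 : ℕ) : ℝ) / n = (L : ℝ) ^ 15 / n := by push_cast; rfl
      rw [this]
      exact hsum)
    (fun v => by
      rw [div_le_iff₀ (by positivity)]
      have h1 : (n : ℝ) ≤ 128 * L * (del (8 * L) v : ℝ) := by exact_mod_cast hdel v
      linarith)
    (by
      have : ((L ^ 15 : ℕ) : ℝ) / n = (L : ℝ) ^ 15 / n := by push_cast; rfl
      rw [this]
      exact nC1)
    (fun s e v h1 h2 h3 => hYtame s e v h1 h2 h3)
    (by
      have : ((L ^ 15 : ℕ) : ℝ) / n = (L : ℝ) ^ 15 / n := by push_cast; rfl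
      rw [this]
      exact nC2)
  -- the adversary
  obtain ⟨A, hA⟩ := hAlive I J lam (8 * L) G C (fun v hv => by
    have hlv : lv lam (8 * L) v ≤ (8 * L) * del (8 * L) v := by
      unfold lv
      exact Nat.mul_le_mul_right _ (hlamR v)
    have hd8 : 8 * (8 * L) * del (8 * L) v ≤ (star v).card := by
      unfold del
      exact Nat.mul_div_le _ _
    refine ⟨?_, ?_⟩
    · unfold lv
      exact Nat.one_le_iff_ne_zero.2 (Nat.mul_ne_zero hv (by have := hdel1 v; omega))
    · have := hlamX v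
      nlinarith) hG1
  refine hAdv I J lam (8 * L) (L ^ 6) (60 * L ^ 6) (L ^ 36) (L ^ 4) L (20 * L ^ 2) (100 * L ^ 6)
    (600 * L ^ 7) N (20 * L) L (L ^ 11) K G C A Ds Ys hA (by omega)
    (Nat.one_le_pow _ _ hL1) hlamR hlamX hOk hYcard ht hYtame hYempty ?_ hfilt ?_ hG3 d1
    (fun v => (hnum v).2.1) (Nat.one_le_pow _ _ hL1) d3
  · intro s γ hγ
    exact Finset.mem_biUnion.2 ⟨s, Finset.mem_univ s, hγ⟩
  · intro s c hc v hv _ hphi
    have h1 := hG2 s c hc v hphi
    have h2 : (del (8 * L) v : ℝ) ≤ 8 * (phi (Ds s) c (Xs lam v) : ℝ) := by exact_mod_cast hphi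
    have h3 := hκd v
    have h4 : (1 : ℝ) ≤ (L : ℝ) ^ 15 := one_le_pow₀ hLR
    have h5 : (n : ℝ) ≤ 128 * L * (del (8 * L) v : ℝ) := by exact_mod_cast hdel v
    have h6 : ((L ^ 15 : ℕ) : ℝ) / n * (phi (Ds s) c (Xs lam v) : ℝ)
        ≥ (L : ℝ) ^ 15 / (8 * 128 * L) := by
      push_cast
      rw [ge_iff_le, div_mul_eq_mul_div, div_le_div_iff₀ (by positivity) hnR]
      have h7 : (n : ℝ) ≤ (phi (Ds s) c (Xs lam v) : ℝ) * (8 * 128 * L) := by nlinarith
      calc (L : ℝ) ^ 15 * n ≤ (L : ℝ) ^ 15 * ((phi (Ds s) c (Xs lam v) : ℝ) * (8 * 128 * L)) :=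
            mul_le_mul_of_nonneg_left h7 (by positivity)
        _ = _ := by ring
    have h8 : (32 * 128 * L * (L ^ 11 * (20 * L + 1) + 1) : ℝ) ≤ (L : ℝ) ^ 15 := by
      exact_mod_cast d10
    have h9 : ((L : ℝ) ^ 11 * (20 * L + 1) + 1) ≤ (phi (Ds s) c (Xs lam v ∩ G) : ℝ) := by
      have h10 : (L : ℝ) ^ 15 / (8 * 128 * L) ≤ 4 * (phi (Ds s) c (Xs lam v ∩ G) : ℝ) :=
        le_trans h6 h1
      rw [div_le_iff₀ (by positivity)] at h10
      have h11 : (0 : ℝ) < 32 * 128 * L := by positivity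
      by_contra hcon
      push Not at hcon
      nlinarith
    exact_mod_cast h9

end Pool.Agent.Work.MP_f7ef37_lc.OP
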