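import Mathlib

/-!
# Definitions for the block [f7ef37 OP]

Board: pigeons `I`, holes `J`. An edge is a pair `(i, j)`, a vertex is an element of `I ⊕ J`.
A line is a finite set of terms; a term is a pair (positive edges, negated edges).
Everything is classical: no `DecidableEq` arguments are used in this block.
-/

set_option autoImplicit false

open Classical

namespace Pool.Agent.Work.MP_f7ef37_lc.OP

variable {I J : Type} [Fintype I] [Fintype J]

/-- A line: a finite set of terms (positive edges, negated edges). -/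
abbrev Ln (I J : Type) := Finset (Finset (I × J) × Finset (I × J))

/-- The vertex `v` is an end of the edge `e`. -/
def Inc : I ⊕ J → I × J → Prop
  | Sum.inl i, e => e.1 = i
  | Sum.inr j, e => e.2 = j

/-- The end of `e` on the other side of `v` (for an edge `e` at `v` the other end). -/
def oth : I ⊕ J → I × J → I ⊕ J
  | Sum.inl _, e => Sum.inr e.2
  | Sum.inr _, e => Sum.inl e.1

/-- The edges `e`, `f` share a vertex (possibly `e = f`). -/
def Adj (e f : I × J) : Prop := e.1 = f.1 ∨ e.2 = f.2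

/-- `c` is a matching. -/
def Mat (c : Finset (I × J)) : Prop := ∀ e ∈ c, ∀ f ∈ c, Adj e f → e = f

/-- `f` has no vertex in common with an edge of `c`. -/
def NA (c : Finset (I × J)) (f : I × J) : Prop := ∀ e ∈ c, ¬ Adj e f

/-- The vertex `v` is covered by `c`. -/
def Cov (c : Finset (I × J)) (v : I ⊕ J) : Prop := ∃ e ∈ c, Inc v e

/-- The line `D` is open at `c`: a term with all positive edges in `c` and no negated edge
in `c`. -/
def Opn (D : Ln I J) (c : Finset (I × J)) : Prop := ∃ T ∈ D, T.1 ⊆ c ∧ ∀ e ∈ T.2, e ∉ c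

/-- The line `D` is satisfied by `b`: a term with all positive edges in `b` and all negated edges
false: not in `b`, but meeting an edge of `b`. -/
def Sat (D : Ln I J) (b : Finset (I × J)) : Prop :=
  ∃ T ∈ D, T.1 ⊆ b ∧ ∀ e ∈ T.2, e ∉ b ∧ ¬ NA b e

/-- The edges at the vertex `v`. -/
noncomputable def star (v : I ⊕ J) : Finset (I × J) := Finset.univ.filter (fun e => Inc v e)

/-- Number of edges `f` of `Z` disjoint from `c` such that `D` is not open at `c + f`. -/
noncomputable def phi (D : Ln I J) (c : Finset (I × J)) (Z : Finset (I × J)) : ℕ :=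
  (Z.filter (fun f => NA c f ∧ ¬ Opn D (insert f c))).card

/-- The edge `e` has no end in `Y`. -/
def Avd (Y : Finset (I ⊕ J)) (e : I × J) : Prop := ∀ v ∈ Y, ¬ Inc v e

/-- The edges at `v` (outside `Y`) which occur positively together with `e` in a term of `D`. -/
noncomputable def CoN (D : Ln I J) (Y : Finset (I ⊕ J)) (e : I × J) (v : I ⊕ J) :
    Finset (I × J) :=
  (star v).filter (fun f => Avd Y f ∧ ∃ T ∈ D, e ∈ T.1 ∧ f ∈ T.1)

/-- Outside `Y` all positive co-degrees of `D` are at most `N`. -/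
def TameAt (D : Ln I J) (Y : Finset (I ⊕ J)) (N : ℕ) : Prop :=
  ∀ (e : I × J) (v : I ⊕ J), ¬ Inc v e → Avd Y e → v ∉ Y → (CoN D Y e v).card ≤ N

/-! ## Levels -/

/-- Unit of the levels at `v`. -/
noncomputable def del (R : ℕ) (v : I ⊕ J) : ℕ := (star v).card / (8 * R)

/-- Threshold at `v`: level times unit; `0` for passive vertices (level `0`). -/
noncomputable def lv (lam : I ⊕ J → ℕ) (R : ℕ) (v : I ⊕ J) : ℕ := lam v * del R v

/-- The edges from `v` to passive partners. -/
noncomputable def Xs (lam : I ⊕ J → ℕ) (v : I ⊕ J) : Finset (I × J) :=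
  (star v).filter (fun f => lam (oth v f) = 0)

/-- `v` is superheavy for `(D, a)`. -/
def Sup (lam : I ⊕ J → ℕ) (R : ℕ) (D : Ln I J) (a : Finset (I × J)) (v : I ⊕ J) : Prop :=
  ¬ Cov a v ∧ lam v ≠ 0 ∧ 2 * phi D a (Xs lam v) + del R v ≤ 2 * lv lam R v

/-- `v` is heavy for `(D, a)`. -/
def Hev (lam : I ⊕ J → ℕ) (R : ℕ) (D : Ln I J) (a : Finset (I × J)) (v : I ⊕ J) : Prop :=
  ¬ Cov a v ∧ 4 * phi D a (Xs lam v) < 4 * lv lam R v + del R v

noncomputable def supset (lam : I ⊕ J → ℕ) (R : ℕ) (D : Ln I J) (a : Finset (I × J)) :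
    Finset (I ⊕ J) := Finset.univ.filter (fun v => Sup lam R D a v)

noncomputable def hevset (lam : I ⊕ J → ℕ) (R : ℕ) (D : Ln I J) (a : Finset (I × J)) :
    Finset (I ⊕ J) := Finset.univ.filter (fun v => Hev lam R D a v)

/-- `c` is `D`-stable. -/
def Stb (lam : I ⊕ J → ℕ) (R : ℕ) (D : Ln I J) (Y : Finset (I ⊕ J)) (c : Finset (I × J)) :
    Prop :=
  ¬ Opn D c ∧ (∀ y ∈ Y, Cov c y) ∧
    ∀ v, ¬ Cov c v → 8 * lv lam R v + del R v ≤ 8 * phi D c (Xs lam v)

/-- Active-passive edge. -/
def AP (lam : I ⊕ J → ℕ) (e : I × J) : Prop :=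
  (lam (Sum.inl e.1) ≠ 0 ∧ lam (Sum.inr e.2) = 0) ∨
    (lam (Sum.inl e.1) = 0 ∧ lam (Sum.inr e.2) ≠ 0)

/-- Passive-passive edge. -/
def PP (lam : I ⊕ J → ℕ) (e : I × J) : Prop :=
  lam (Sum.inl e.1) = 0 ∧ lam (Sum.inr e.2) = 0

/-- The active end of an active-passive edge. -/
noncomputable def act (lam : I ⊕ J → ℕ) (e : I × J) : I ⊕ J :=
  if lam (Sum.inl e.1) ≠ 0 then Sum.inl e.1 else Sum.inr e.2

/-- Legal edges: active-passive, or passive-passive and in the random set `G`. -/
def Legal (lam : I ⊕ J → ℕ) (G : Finset (I × J)) (e : I × J) : Prop :=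
  AP lam e ∨ (PP lam e ∧ e ∈ G)

/-- Weight of a certificate. -/
noncomputable def wt (lam : I ⊕ J → ℕ) (R : ℕ) (γ : Finset (I × J)) : ℝ :=
  ∏ e ∈ γ, if AP lam e then 1 / (lv lam R (act lam e) : ℝ) else 1

/-- Expected weight of an edge (`p` = probability that a passive-passive edge is kept). -/
noncomputable def kap (lam : I ⊕ J → ℕ) (R : ℕ) (p : ℝ) (e : I × J) : ℝ :=
  if AP lam e then 1 / (lv lam R (act lam e) : ℝ) else if PP lam e then p else 0

/-! ## Certificates -/

/-- The negated edges of a witness for `Opn D c` (`∅` if there is none). -/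
noncomputable def wit (D : Ln I J) (c : Finset (I × J)) : Finset (I × J) :=
  if h : Opn D c then h.choose.2 else ∅

/-- A set of exactly `w0` superheavy vertices (if there are that many, otherwise `∅`). -/
noncomputable def W0 (lam : I ⊕ J → ℕ) (R w0 : ℕ) (D : Ln I J) (a : Finset (I × J)) :
    Finset (I ⊕ J) :=
  if h : w0 ≤ (supset lam R D a).card then (Finset.exists_subset_card_eq h).choose else ∅

/-- The free edges at `v`: disjoint from `a`, and `D` is not open at `a + f`. -/
noncomputable def Fr (lam : I ⊕ J → ℕ) (D : Ln I J) (a : Finset (I × J)) (v : I ⊕ J) :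
    Finset (I × J) := (Xs lam v).filter (fun f => NA a f ∧ ¬ Opn D (insert f a))

/-- The bound edges at `v`: disjoint from `a`, and `D` is open at `a + f`. -/
noncomputable def Bd (lam : I ⊕ J → ℕ) (D : Ln I J) (a : Finset (I × J)) (v : I ⊕ J) :
    Finset (I × J) := (Xs lam v).filter (fun f => NA a f ∧ Opn D (insert f a))

/-- The popular edges. -/
noncomputable def Qs (lam : I ⊕ J → ℕ) (R w0 x1 : ℕ) (D : Ln I J) (a : Finset (I × J)) :
    Finset (I × J) :=
  Finset.univ.filter (fun e => ∃ v ∈ W0 lam R w0 D a,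
    lv lam R v < x1 * ((Bd lam D a v).filter (fun f => e ∈ wit D (insert f a))).card)

/-- The options of stage 1. -/
noncomputable def O1 (lam : I ⊕ J → ℕ) (R w0 x1 : ℕ) (D : Ln I J) (a : Finset (I × J)) :
    Finset (I × J) :=
  if Opn D a then wit D a
  else if w0 ≤ (supset lam R D a).card then Qs lam R w0 x1 D a else ∅

/-- The sets reachable from a set with at most `k` elements in exactly `s` steps. -/
noncomputable def Reach {E : Type} [Fintype E] (O : Finset E → Finset E) (k : ℕ) :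
    ℕ → Finset (Finset E)
  | 0 => Finset.univ.filter (fun a => a.card ≤ k)
  | s + 1 => (Reach O k s).biUnion (fun a => ((O a) \ a).image (fun e => insert e a))

/-- Certificates of the first kind: many of the vertices of `W0` are matched by free edges. -/
noncomputable def CB1 (lam : I ⊕ J → ℕ) (R w0 b1 : ℕ) (D : Ln I J) (a : Finset (I × J)) :
    Finset (Finset (I × J)) :=
  Finset.univ.filter (fun γ => ∃ B ⊆ W0 lam R w0 D a, B.card < 6 * b1 ∧
    ∃ h : I ⊕ J → I × J, (∀ v ∈ W0 lam R w0 D a \ B, h v ∈ Fr lam D a v) ∧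
      γ = (W0 lam R w0 D a \ B).image h)

/-- Certificates of the second kind: `b1` bound vertices with distinct new hits. -/
noncomputable def CB2 (lam : I ⊕ J → ℕ) (R w0 b1 : ℕ) (D : Ln I J) (a : Finset (I × J)) :
    Finset (Finset (I × J)) :=
  Finset.univ.filter (fun γ => ∃ U ⊆ W0 lam R w0 D a, U.card = b1 ∧
    ∃ h g : I ⊕ J → I × J,
      (∀ v ∈ U, h v ∈ Bd lam D a v ∧ g v ∈ wit D (insert (h v) a)) ∧
      γ = U.image h ∪ U.image g ∧ γ.card = 2 * b1)

/-- Certificates of the third kind: few distinct hits, none of them popular. -/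
noncomputable def CB3 (lam : I ⊕ J → ℕ) (R w0 x1 b1 : ℕ) (D : Ln I J) (a : Finset (I × J)) :
    Finset (Finset (I × J)) :=
  Finset.univ.filter (fun γ => ∃ K ⊆ W0 lam R w0 D a, ∃ M ⊆ W0 lam R w0 D a, Disjoint K M ∧
    K.card ≤ 3 * b1 ∧ K.card + M.card = 6 * b1 ∧
    ∃ h g : I ⊕ J → I × J,
      (∀ v ∈ K, h v ∈ Bd lam D a v ∧ g v ∈ wit D (insert (h v) a) ∧
        g v ∉ Qs lam R w0 x1 D a) ∧
      (∀ v ∈ M, h v ∈ Bd lam D a v ∧ ∃ r ∈ K, g r ∈ wit D (insert (h v) a)) ∧
      γ = (K ∪ M).image h)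

/-- All certificates of the line `D`. -/
noncomputable def Certs (lam : I ⊕ J → ℕ) (R w0 x1 b1 k g k2 g2 : ℕ) (D : Ln I J) :
    Finset (Finset (I × J)) :=
  Reach (O1 lam R w0 x1 D) k (g + 1) ∪ Reach (wit D) k2 (g2 + 1) ∪
    (Finset.univ.filter (fun a : Finset (I × J) => a.card ≤ k + g ∧
      w0 ≤ (supset lam R D a).card)).biUnion
      (fun a => CB1 lam R w0 b1 D a ∪ CB2 lam R w0 b1 D a ∪ CB3 lam R w0 x1 b1 D a)

/-! ## The adversary -/

/-- `A` is the set of alive matchings of an adversary which avoids the certificates `C`. -/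
structure AliveSys (lam : I ⊕ J → ℕ) (R : ℕ) (G : Finset (I × J))
    (C : Finset (Finset (I × J))) (A : Finset (I × J) → Prop) : Prop where
  empty : A ∅
  mono : ∀ b b', A b → b' ⊆ b → A b'
  mat : ∀ b, A b → Mat b
  legal : ∀ b, A b → ∀ e ∈ b, Legal lam G e
  avoid : ∀ b, A b → ∀ γ ∈ C, ¬ γ ⊆ b
  active : ∀ b v S, A b → lam v ≠ 0 → ¬ Cov b v → S ⊆ Xs lam v → lv lam R v ≤ S.card →
    (∀ f ∈ S, NA b f) → ∃ f ∈ S, A (insert f b)
  passive : ∀ b f, A b → PP lam f → f ∈ G → NA b f → A (insert f b)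

/-- From every good matching with fewer than `W` edges every vertex can be matched. -/
structure ExtSys (A Gd : Finset (I × J) → Prop) (W : ℕ) : Prop where
  alive : ∀ b, Gd b → A b
  ext : ∀ b v, Gd b → b.card < W → ∃ b', b ⊆ b' ∧ Gd b' ∧ Cov b' v ∧ b'.card ≤ b.card + 1

end Pool.Agent.Work.MP_f7ef37_lc.OP
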