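import Pool.Agent.Work.MP_f7ef37_lc.OP.Stmts3

/-!
# From the core theorem to the theorem on refutations, and its corollaries
-/

set_option autoImplicit false

open Classical

namespace Pool.Agent.Work.MP_f7ef37_lc.OP

theorem final_of (hCore : S_CORE) (hBoard : S_BOARD) : S_FINAL := by
  obtain ⟨L0, hCore⟩ := hCore
  refine ⟨⌈Real.exp (L0 + 1)⌉₊, ?_⟩
  intro n hn m hm L hL hLn t ht k P hP hsize
  by_contra hcon
  push Not at hcon
  have hexp : Real.exp (L0 + 1) ≤ (n : ℝ) := le_trans (Nat.le_ceil _) (by exact_mod_cast hn)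
  have hnpos : (0 : ℝ) < n := lt_of_lt_of_le (Real.exp_pos _) hexp
  have hn1 : 1 ≤ n := by exact_mod_cast hnpos
  have hlog : (L0 : ℝ) + 1 ≤ Real.log n := by
    rw [Real.le_log_iff_exp_le hnpos]
    exact hexp
  have hL0 : (L0 : ℝ) + 1 ≤ (L : ℝ) := hlog.trans hL
  have hL0' : L0 + 1 ≤ L := by exact_mod_cast hL0
  have hLR : (1 : ℝ) ≤ (L : ℝ) := by exact_mod_cast (show 1 ≤ L by omega)
  obtain ⟨I, hI, K, Ds, h1, h2, h3, h4, h5, ⟨s, h6⟩, h7⟩ := hBoard t m n k P L (n / L ^ 80)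
    hn1 hm hP hcon
  have hE : Real.exp (2 * (L : ℝ)) = Real.exp L * Real.exp L := by
    rw [← Real.exp_add]
    congr 1
    ring
  have hE2 : 2 ≤ Real.exp (L : ℝ) := by
    have := Real.add_one_le_exp (L : ℝ)
    linarith
  have hnE : (n : ℝ) ≤ Real.exp L := by
    rw [← Real.log_le_iff_le_exp hnpos]
    exact hL
  refine hCore L (by omega) I (Fin n) ?_ ?_ ?_ K Ds ?_ ?_ h5 ?_ s h6
  · rw [Fintype.card_fin]
    exact hLn
  · rw [Fintype.card_fin]
    exact h1
  · refine h2.trans (max_le ?_ ?_)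
    · refine hsize.trans ?_
      rw [hE]
      nlinarith
    · refine hnE.trans ?_
      rw [hE]
      nlinarith
  · refine h3.trans ?_
    rw [hE]
    nlinarith
  · intro s T hT
    exact (h4 s T hT).trans ht
  · intro s
    rw [Fintype.card_fin]
    exact h7 s

/-- The number of conjunctions of `D` with at least two unnegated literals. -/
noncomputable def bad {m n : ℕ} (D : Finset (Finset (Fin m × Fin n × Bool))) : ℕ :=
  (D.filter (fun T => 2 ≤ (T.filter (fun l => l.2.2 = true)).card)).card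

/-- A line with few conjunctions with two unnegated literals is tame. -/
theorem tame_of_bad {m n t L N : ℕ} (D : Finset (Finset (Fin m × Fin n × Bool)))
    (hT : ∀ T ∈ D, T.card ≤ t) (h : bad D * t ≤ N) : TameLine L N D := by
  refine ⟨∅, by simp, ?_⟩
  intro e v hv _ _
  refine le_trans ?_ h
  unfold bad
  refine le_trans (Finset.card_le_card (t := (D.filter (fun T =>
    2 ≤ (T.filter (fun l => l.2.2 = true)).card)).biUnion (fun T => T.image (fun l => (l.1, l.2.1))))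
    ?_) ?_
  · intro f hf
    rw [Finset.mem_filter] at hf
    obtain ⟨_, hvf, _, T, hTD, h1, h2⟩ := hf
    rw [Finset.mem_biUnion]
    refine ⟨T, ?_, ?_⟩
    · rw [Finset.mem_filter]
      refine ⟨hTD, ?_⟩
      have hne : e ≠ f := fun hef => hv (hef ▸ hvf)
      have hsub : ({(e.1, e.2, true), (f.1, f.2, true)} : Finset (Fin m × Fin n × Bool)) ⊆
          T.filter (fun l => l.2.2 = true) := by
        intro l hl
        rw [Finset.mem_insert, Finset.mem_singleton] at hl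
        rw [Finset.mem_filter]
        rcases hl with rfl | rfl
        · exact ⟨h1, rfl⟩
        · exact ⟨h2, rfl⟩
      refine le_trans (le_of_eq ?_) (Finset.card_le_card hsub)
      rw [Finset.card_pair]
      intro heq
      apply hne
      have e1 : e.1 = f.1 := congrArg (fun l => l.1) heq
      have e2 : e.2 = f.2 := congrArg (fun l => l.2.1) heq
      exact Prod.ext e1 e2
    · rw [Finset.mem_image]
      exact ⟨(f.1, f.2, true), h2, rfl⟩
  · refine Finset.card_biUnion_le_card_mul _ _ _ ?_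
    intro T hTD
    exact (Finset.card_image_le).trans (hT T (Finset.mem_filter.1 hTD).1)

/-- First corollary: many conjunctions with two unnegated literals in one line. -/
theorem count_of (h : S_FINAL) : ∃ n0 : ℕ, ∀ n ≥ n0, ∀ m > n, ∀ L : ℕ, Real.log n ≤ L →
    L ^ 80 ≤ n → ∀ t ≤ L, ∀ (k : ℕ) (P : Fin (k + 1) → Finset (Finset (Fin m × Fin n × Bool))),
    IsRef t m n k P → size P ≤ Real.exp L →
    ∃ s, ¬ TameLine L (n / L ^ 80) (P s) ∧ n < L ^ 81 * bad (P s) := by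
  obtain ⟨n0, h⟩ := h
  refine ⟨n0 + 2, ?_⟩
  intro n hn m hm L hL hLn t ht k P hP hsize
  obtain ⟨s, hs⟩ := h n (by omega) m hm L hL hLn t ht k P hP hsize
  refine ⟨s, hs, ?_⟩
  by_contra hcon
  push Not at hcon
  apply hs
  have hL1 : 1 ≤ L := by
    have h1 : (0 : ℝ) < Real.log n := Real.log_pos (by exact_mod_cast (show 1 < n by omega))
    have h2 : (0 : ℝ) < (L : ℝ) := lt_of_lt_of_le h1 hL
    exact_mod_cast h2
  refine tame_of_bad (P s) (fun T hT => ((hP.1 s T hT).2.trans ht)) ?_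
  rw [Nat.le_div_iff_mul_le (Nat.pow_pos (by omega))]
  calc bad (P s) * L * L ^ 80 = L ^ 81 * bad (P s) := by ring
    _ ≤ n := hcon

/-- Second corollary, in the form of the question: quasi-polynomial size. -/
theorem quasi_of (h : S_FINAL) : ∀ t c : ℕ, ∃ C : ℕ, ∀ᶠ n : ℕ in Filter.atTop, ∀ m > n,
    ∀ (k : ℕ) (P : Fin (k + 1) → Finset (Finset (Fin m × Fin n × Bool))),
    IsRef t m n k P → size P ≤ Real.exp ((Real.log (n : ℝ)) ^ c) →
    ∃ s, (n : ℝ) < (Real.log n) ^ C * bad (P s) := by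
  intro t c
  obtain ⟨n0, h⟩ := count_of h
  refine ⟨81 * (c + 2), ?_⟩
  have hlogt : Filter.Tendsto (fun n : ℕ => Real.log (n : ℝ)) Filter.atTop Filter.atTop :=
    Real.tendsto_log_atTop.comp tendsto_natCast_atTop_atTop
  -- `L = ⌈(log n) ^ (c + 1)⌉`
  have hev1 : ∀ᶠ n : ℕ in Filter.atTop, (2 : ℝ) + t ≤ Real.log n := hlogt.eventually_ge_atTop _
  have hev2 : ∀ᶠ n : ℕ in Filter.atTop, (Real.log (n : ℝ)) ^ ((c + 2) * 80) ≤ (n : ℝ) := by
    have h1 := (isLittleO_log_rpow_atTop (r := 1 / ((((c + 2) * 80 : ℕ) : ℝ))) (by positivity))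
    have h2 := (h1.bound (c := 1) one_pos)
    have h3 := tendsto_natCast_atTop_atTop (R := ℝ)
    filter_upwards [h3.eventually h2, h3.eventually_ge_atTop 1, hev1] with n hn hn1 hn2
    have hlog0 : (0 : ℝ) ≤ Real.log n := by linarith [Nat.cast_nonneg (α := ℝ) t]
    rw [Real.norm_of_nonneg hlog0, one_mul, Real.norm_of_nonneg (by positivity)] at hn
    calc (Real.log (n : ℝ)) ^ ((c + 2) * 80)
        ≤ ((n : ℝ) ^ (1 / ((((c + 2) * 80 : ℕ) : ℝ)))) ^ ((c + 2) * 80) :=
          pow_le_pow_left₀ hlog0 hn _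
      _ = (n : ℝ) := by
          rw [← Real.rpow_natCast, ← Real.rpow_mul (by positivity)]
          rw [one_div, inv_mul_cancel₀ (by positivity), Real.rpow_one]
  filter_upwards [hev1, hev2, Filter.eventually_ge_atTop n0] with n h1 h2 h3
  intro m hm k P hP hsize
  have ht0 : (0 : ℝ) ≤ t := Nat.cast_nonneg t
  have hlog2 : (2 : ℝ) ≤ Real.log n := by linarith
  have hlog1 : (1 : ℝ) ≤ Real.log n := by linarith
  have hpow1 : Real.log n ≤ (Real.log n) ^ (c + 1) := le_self_pow₀ hlog1 (by omega)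
  obtain ⟨s, hs⟩ := h n h3 m hm ⌈(Real.log n) ^ (c + 1)⌉₊ (hpow1.trans (Nat.le_ceil _)) (by
    have hceil : ((⌈(Real.log n) ^ (c + 1)⌉₊ : ℕ) : ℝ) ≤ (Real.log n) ^ (c + 2) := by
      have h4 := Nat.ceil_lt_add_one (a := (Real.log (n : ℝ)) ^ (c + 1)) (by positivity)
      have h5 : (1 : ℝ) ≤ (Real.log n) ^ (c + 1) := one_le_pow₀ hlog1
      have h6 : (Real.log (n : ℝ)) ^ (c + 2) = (Real.log n) ^ (c + 1) * Real.log n := pow_succ _ _
      rw [h6]
      nlinarith
    have h7 : ((⌈(Real.log n) ^ (c + 1)⌉₊ : ℕ) : ℝ) ^ 80 ≤ (n : ℝ) := by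
      refine le_trans (pow_le_pow_left₀ (Nat.cast_nonneg _) hceil 80) ?_
      rw [← pow_mul]
      exact h2
    exact_mod_cast h7) t (by
      have h8 : (t : ℝ) ≤ ((⌈(Real.log n) ^ (c + 1)⌉₊ : ℕ) : ℝ) :=
        le_trans (by linarith) (hpow1.trans (Nat.le_ceil _))
      exact_mod_cast h8) k P hP (by
      refine hsize.trans (Real.exp_le_exp.2 ?_)
      exact le_trans (pow_le_pow_right₀ hlog1 (by omega)) (Nat.le_ceil _))
  refine ⟨s, ?_⟩
  have hceil : ((⌈(Real.log n) ^ (c + 1)⌉₊ : ℕ) : ℝ) ≤ (Real.log n) ^ (c + 2) := by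
    have h4 := Nat.ceil_lt_add_one (a := (Real.log (n : ℝ)) ^ (c + 1)) (by positivity)
    have h5 : (1 : ℝ) ≤ (Real.log n) ^ (c + 1) := one_le_pow₀ hlog1
    have h6 : (Real.log (n : ℝ)) ^ (c + 2) = (Real.log n) ^ (c + 1) * Real.log n := pow_succ _ _
    rw [h6]
    nlinarith
  have h9 : (n : ℝ) < ((⌈(Real.log n) ^ (c + 1)⌉₊ : ℕ) : ℝ) ^ 81 * (bad (P s) : ℝ) := by
    exact_mod_cast hs.2
  refine lt_of_lt_of_le h9 (mul_le_mul_of_nonneg_right ?_ (Nat.cast_nonneg _))
  refine le_trans (pow_le_pow_left₀ (Nat.cast_nonneg _) hceil 81) (le_of_eq ?_)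
  rw [← pow_mul]
  congr 1
  ring

end Pool.Agent.Work.MP_f7ef37_lc.OP
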