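import Pool.Agent.Work.MP_f7ef37_lc.OP.Stmts

/-!
# Item ADV: the adversary argument
-/

set_option autoImplicit false

open Classical

namespace Pool.Agent.Work.MP_f7ef37_lc.OP.NADV

theorem prf : S_EXT → S_PROC → S_AX → S_EMPTY → S_ADV := by
  intro hEXT hPROC hAX hEMPTY I J _ _ lam R w0 w1 x1 b1 k g k2 g2 N K2 t W K G C A Ds Ys hAl hR
    hw0 hlamR hstar hOk hYk ht htame hempty hcert hsup hphi hcon hk2 hdel hW hbudget
  have hkW : k2 + g2 ≤ W := le_trans (Nat.le_add_right _ _) hbudget
  have hdelk : ∀ v : I ⊕ J, 8 * ((k2 + g2) * (N + 1)) ≤ del R v := fun v =>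
    le_trans (Nat.mul_le_mul_left 8 (Nat.mul_le_mul_right _ hkW)) (hdel v)
  have hdel1 : ∀ v : I ⊕ J, 1 ≤ del R v := by
    intro v
    refine le_trans ?_ (hdel v)
    have h1 : 1 ≤ W * (N + 1) := Nat.mul_pos hW (Nat.succ_pos N)
    omega
  have key : ∀ n : ℕ, ∀ s : Fin K, s.val = n → ∀ c, A c → c.card ≤ k2 + g2 →
      ¬ Stb lam R (Ds s) (Ys s) c := by
    intro n
    induction n using Nat.strong_induction_on with
    | _ n ih =>
      intro s hs c hc hcard hstb
      rcases hOk s with hax | ⟨r, r', hr, hr', himp⟩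
      · exact hAX I J lam R (Ds s) (Ys s) c hax hdel1 (hAl.mat c hc) hstb
      · have hext : ExtSys A (fun b => c ⊆ b ∧ A b ∧ ¬ Opn (Ds s) b) W := by
          refine hEXT I J lam R G C A (Ds s) (Ys s) c N K2 W hAl (htame s) hc hstb hdel ?_ (hcon s)
          intro v hv hcov
          refine hphi s c hcard v hv hcov ?_
          have := hstb.2.2 v hcov
          omega
        obtain ⟨b', hcb, hG1, hb1card, h1⟩ := hPROC I J lam R w0 w1 x1 b1 k g k2 g2 N t G C A _ W
          hAl hext (Ds r) (Ys r) c hw0 (hYk r) (ht r) (htame r) (hcert r) (hsup r) hk2 hdelk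
          ⟨Finset.Subset.refl c, hc, hstb.1⟩ (by omega)
        rcases h1 with hsat1 | ⟨a, hab, hacard, hastb⟩
        · obtain ⟨b'', hbb, hG2, hb2card, h2⟩ := hPROC I J lam R w0 w1 x1 b1 k g k2 g2 N t G C A _
            W hAl hext (Ds r') (Ys r') b' hw0 (hYk r') (ht r') (htame r') (hcert r') (hsup r')
            hk2 hdelk hG1 (by omega)
          rcases h2 with hsat2 | ⟨a, hab, hacard, hastb⟩
          · have hm : Mat b'' := hAl.mat b'' hG2.2.1
            exact hG2.2.2 (sat_opn (himp b'' hm (sat_mono hsat1 hbb hm) hsat2))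
          · exact ih r'.val (by have := Fin.lt_def.1 hr'; omega) r' rfl a
              (hAl.mono _ _ hG2.2.1 hab) hacard hastb
        · exact ih r.val (by have := Fin.lt_def.1 hr; omega) r rfl a
            (hAl.mono _ _ hG1.2.1 hab) hacard hastb
  intro s hs
  have hY := hempty s hs
  refine key s.val s rfl ∅ hAl.empty (by simp) ?_
  rw [hs, hY]
  exact hEMPTY I J lam R hR hlamR hstar

end Pool.Agent.Work.MP_f7ef37_lc.OP.NADV
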