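import Mathlib

/-!
# MP_f7ef37_lc, block OP: the key lemma

A nonzero function on total maps which has few zeros in every direction and vanishes on all
extensions of the given certificates.
-/

set_option autoImplicit false

namespace Pool.Agent.Work.MP_f7ef37_lc.OP

open Finset

namespace KeyAux

variable {A W : Type*} [Fintype A] [DecidableEq A]

/-- The multi-indices. -/
abbrev Idx (l : A → ℕ) := (v : A) → Fin (l v)

/-- The function with coefficients `c`. -/
noncomputable def fn (l : A → ℕ) (ι : W → ℚ) (c : Idx l → ℚ) (z : A → W) : ℚ :=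
  ∑ k : Idx l, c k * ∏ v, ι (z v) ^ (k v : ℕ)

theorem fn_update (l : A → ℕ) (ι : W → ℚ) (c : Idx l → ℚ) (z : A → W) (v : A) (x : W) :
    fn l ι c (Function.update z v x) =
      Polynomial.eval (ι x) (∑ k : Idx l,
        Polynomial.C (c k * ∏ u ∈ Finset.univ.erase v, ι (z u) ^ (k u : ℕ)) *
          Polynomial.X ^ (k v : ℕ)) := by
  unfold fn
  rw [Polynomial.eval_finsetSum]
  refine Finset.sum_congr rfl fun k _ => ?_
  rw [Polynomial.eval_mul, Polynomial.eval_C, Polynomial.eval_pow, Polynomial.eval_X]
  rw [← Finset.mul_prod_erase Finset.univ _ (Finset.mem_univ v), Function.update_self]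
  have h : ∏ u ∈ Finset.univ.erase v, ι (Function.update z v x u) ^ (k u : ℕ) =
      ∏ u ∈ Finset.univ.erase v, ι (z u) ^ (k u : ℕ) := by
    refine Finset.prod_congr rfl fun u hu => ?_
    rw [Function.update_of_ne (Finset.ne_of_mem_erase hu)]
  rw [h]
  ring

theorem line (l : A → ℕ) (h1 : ∀ v, 1 ≤ l v) (ι : W → ℚ) (hι : Function.Injective ι)
    (c : Idx l → ℚ) (z : A → W) (v : A) (S : Finset W) (hS : l v ≤ S.card)
    (h0 : ∀ x ∈ S, fn l ι c (Function.update z v x) = 0) (x : W) :
    fn l ι c (Function.update z v x) = 0 := by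
  classical
  set p : Polynomial ℚ := ∑ k : Idx l,
        Polynomial.C (c k * ∏ u ∈ Finset.univ.erase v, ι (z u) ^ (k u : ℕ)) *
          Polynomial.X ^ (k v : ℕ) with hp
  have hdeg : p.natDegree < (S.image ι).card := by
    rw [Finset.card_image_of_injective _ hι]
    refine lt_of_lt_of_le ?_ hS
    have h1v := h1 v
    refine lt_of_le_of_lt (b := l v - 1) ?_ (by omega)
    rw [hp]
    refine Polynomial.natDegree_sum_le_of_forall_le _ _ fun k _ => ?_
    refine le_trans (Polynomial.natDegree_C_mul_X_pow_le _ _) ?_
    have := (k v).2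
    omega
  have hz : p = 0 := by
    refine Polynomial.eq_zero_of_natDegree_lt_card_of_eval_eq_zero' p (S.image ι) ?_ hdeg
    intro y hy
    rw [Finset.mem_image] at hy
    obtain ⟨s, hs, rfl⟩ := hy
    have := h0 s hs
    rwa [fn_update] at this
  rw [fn_update, ← hp, hz, Polynomial.eval_zero]

theorem inj (l : A → ℕ) (h1 : ∀ v, 1 ≤ l v) (ι : W → ℚ) (hι : Function.Injective ι)
    (c : Idx l → ℚ) (X : A → Finset W) (hX : ∀ v, l v ≤ (X v).card)
    (h0 : ∀ z : A → W, (∀ v, z v ∈ X v) → fn l ι c z = 0) : c = 0 := by
  classical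
  let e : Idx l → (A →₀ ℕ) := fun k => Finsupp.equivFunOnFinite.symm fun v => (k v : ℕ)
  have he : Function.Injective e := by
    intro k k' h
    funext v
    have := DFunLike.congr_fun h v
    simp only [e, Finsupp.equivFunOnFinite_symm_apply_apply] at this
    exact Fin.ext this
  let P : MvPolynomial A ℚ := ∑ k : Idx l, MvPolynomial.monomial (e k) (c k)
  have hP : P = 0 := by
    refine MvPolynomial.eq_zero_of_eval_zero_at_prod_finset P (fun v => (X v).image ι) ?_ ?_
    · intro v
      rw [Finset.card_image_of_injective _ hι]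
      refine lt_of_lt_of_le ?_ (hX v)
      refine lt_of_le_of_lt (b := l v - 1) ?_ (by have := h1 v; omega)
      refine le_trans (MvPolynomial.degreeOf_sum_le v _ _) ?_
      refine Finset.sup_le fun k _ => ?_
      by_cases hc : c k = 0
      · simp [hc]
      · rw [MvPolynomial.degreeOf_monomial_eq _ _ hc]
        simp only [e, Finsupp.equivFunOnFinite_symm_apply_apply]
        have := (k v).2
        omega
    · intro x hx
      have hx' : ∀ v, ∃ w ∈ X v, ι w = x v := by
        intro v
        have := hx v
        simpa [Finset.mem_image] using this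
      choose z hz hzx using hx'
      have := h0 z hz
      unfold fn at this
      rw [MvPolynomial.eval_sum]
      rw [← this]
      refine Finset.sum_congr rfl fun k _ => ?_
      rw [MvPolynomial.eval_monomial, Finsupp.prod_fintype _ _ (fun _ => pow_zero _)]
      congr 1
      refine Finset.prod_congr rfl fun v _ => ?_
      rw [hzx v]
      simp only [e, Finsupp.equivFunOnFinite_symm_apply_apply]
  funext k
  have hk := congrArg (MvPolynomial.coeff (e k)) hP
  rw [MvPolynomial.coeff_zero, MvPolynomial.coeff_sum] at hk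
  rw [Finset.sum_eq_single k] at hk
  · rwa [MvPolynomial.coeff_monomial, if_pos rfl] at hk
  · intro k' _ hk'
    rw [MvPolynomial.coeff_monomial, if_neg (fun h => hk' (he h))]
  · intro h
    exact absurd (Finset.mem_univ k) h

end KeyAux

open KeyAux in
/-- Key lemma: a nonzero function `F` on total maps such that in every direction `v` it has fewer
than `l v` zeros on a line or vanishes on the line, and `F z = 0` whenever `z` contains one of the
certificates `g ∈ G`, if the total weight of the certificates is less than one. -/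
theorem key {A W : Type*} [Fintype A] [DecidableEq A] [Fintype W] [DecidableEq W]
    (X : A → Finset W) (l : A → ℕ) (h1 : ∀ v, 1 ≤ l v) (hX : ∀ v, l v ≤ (X v).card)
    (G : Finset (Finset (A × W)))
    (hG : ∑ g ∈ G, ∏ e ∈ g, (1 / (l e.1 : ℝ)) < 1) :
    ∃ F : (A → W) → ℚ, (∃ z, (∀ v, z v ∈ X v) ∧ F z ≠ 0) ∧
      (∀ z, (∀ v, z v ∈ X v) → ∀ v, ∀ S : Finset W, S ⊆ X v → l v ≤ S.card →
        (∀ x ∈ S, F (Function.update z v x) = 0) → F z = 0) ∧
      (∀ g ∈ G, ∀ z, (∀ v, z v ∈ X v) → (∀ e ∈ g, z e.1 = e.2) → F z = 0) := by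
  classical
  obtain ⟨ι, hι⟩ : ∃ ι : W → ℚ, Function.Injective ι :=
    ⟨fun w => ((Fintype.equivFin W w : ℕ) : ℚ), fun a b h => by
      have h' : (Fintype.equivFin W a : ℕ) = (Fintype.equivFin W b : ℕ) := Nat.cast_injective h
      exact (Fintype.equivFin W).injective (Fin.ext h')⟩
  have hΓ : ∀ v, ∃ Γ ⊆ X v, Γ.card = l v := fun v => Finset.exists_subset_card_eq (hX v)
  choose Γ hΓX hΓc using hΓ
  -- the grid of a certificate
  let Y : Finset (A × W) → A → Finset W := fun g v =>
    if ∃ w, (v, w) ∈ g then Finset.univ.filter (fun w => (v, w) ∈ g) else Γ v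
  let ok : Finset (A × W) → Prop := fun g => ∀ e ∈ g, ∀ e' ∈ g, e.1 = e'.1 → e = e'
  let G' := G.filter ok
  let D : Type _ := Σ g : {g // g ∈ G'}, {z : A → W // z ∈ Fintype.piFinset (Y g.1)}
  have hYcard : ∀ g, ok g → ∀ v, (Y g v).card = if ∃ w, (v, w) ∈ g then 1 else l v := by
    intro g hg v
    by_cases h : ∃ w, (v, w) ∈ g
    · simp only [Y, if_pos h]
      obtain ⟨w, hw⟩ := h
      rw [Finset.card_eq_one]
      refine ⟨w, ?_⟩
      ext w'
      simp only [Finset.mem_filter, Finset.mem_univ, true_and, Finset.mem_singleton]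
      constructor
      · intro h'
        exact (Prod.ext_iff.mp (hg _ h' _ hw rfl)).2
      · rintro rfl
        exact hw
    · simp only [Y, if_neg h, hΓc v]
  have hcount : ∀ g, ok g → ((Fintype.piFinset (Y g)).card : ℝ) =
      (∏ v, (l v : ℝ)) * ∏ e ∈ g, (1 / (l e.1 : ℝ)) := by
    intro g hg
    rw [Fintype.card_piFinset]
    push_cast
    have himg : ∏ e ∈ g, (1 / (l e.1 : ℝ)) = ∏ v ∈ g.image Prod.fst, (1 / (l v : ℝ)) := by
      rw [Finset.prod_image]
      intro e he e' he' h
      exact hg e he e' he' h
    rw [himg]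
    have hsplit : ∏ v ∈ g.image Prod.fst, (1 / (l v : ℝ)) =
        ∏ v, (if ∃ w, (v, w) ∈ g then (1 / (l v : ℝ)) else 1) := by
      rw [← Finset.prod_filter]
      refine Finset.prod_congr ?_ fun _ _ => rfl
      ext v
      simp only [Finset.mem_image, Finset.mem_filter, Finset.mem_univ, true_and]
      constructor
      · rintro ⟨e, he, rfl⟩
        exact ⟨e.2, he⟩
      · rintro ⟨w, hw⟩
        exact ⟨(v, w), hw, rfl⟩
    rw [hsplit, ← Finset.prod_mul_distrib]
    refine Finset.prod_congr rfl fun v _ => ?_
    rw [hYcard g hg v]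
    have hl0 : (l v : ℝ) ≠ 0 := by
      have := h1 v
      positivity
    by_cases h : ∃ w, (v, w) ∈ g
    · rw [if_pos h, if_pos h]
      push_cast
      field_simp
    · rw [if_neg h, if_neg h]
      ring
  have hD : Fintype.card D < Fintype.card (Idx l) := by
    have h2 : (Fintype.card D : ℝ) = ∑ g ∈ G', ((Fintype.piFinset (Y g)).card : ℝ) := by
      simp only [D, Fintype.card_sigma, Fintype.card_coe]
      push_cast
      rw [Finset.sum_coe_sort G' (fun g => ((Fintype.piFinset (Y g)).card : ℝ))]
    have h3 : (Fintype.card (Idx l) : ℝ) = ∏ v, (l v : ℝ) := by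
      simp only [Idx, Fintype.card_pi, Fintype.card_fin]
      push_cast
      rfl
    have hpos : 0 < ∏ v, (l v : ℝ) := by
      refine Finset.prod_pos fun v _ => ?_
      have := h1 v
      positivity
    have h4 : ∑ g ∈ G', ((Fintype.piFinset (Y g)).card : ℝ) < ∏ v, (l v : ℝ) := by
      calc ∑ g ∈ G', ((Fintype.piFinset (Y g)).card : ℝ)
          = ∑ g ∈ G', (∏ v, (l v : ℝ)) * ∏ e ∈ g, (1 / (l e.1 : ℝ)) := by
            refine Finset.sum_congr rfl fun g hg => hcount g ?_
            exact (Finset.mem_filter.mp hg).2
        _ = (∏ v, (l v : ℝ)) * ∑ g ∈ G', ∏ e ∈ g, (1 / (l e.1 : ℝ)) := by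
            rw [Finset.mul_sum]
        _ ≤ (∏ v, (l v : ℝ)) * ∑ g ∈ G, ∏ e ∈ g, (1 / (l e.1 : ℝ)) := by
            refine mul_le_mul_of_nonneg_left ?_ hpos.le
            refine Finset.sum_le_sum_of_subset_of_nonneg (Finset.filter_subset _ _) ?_
            intro g _ _
            exact Finset.prod_nonneg fun e _ => by positivity
        _ < (∏ v, (l v : ℝ)) * 1 := mul_lt_mul_of_pos_left hG hpos
        _ = _ := mul_one _
    have h5 : (Fintype.card D : ℝ) < (Fintype.card (Idx l) : ℝ) := by rw [h2, h3]; exact h4
    exact_mod_cast h5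
  -- the linear map of the conditions
  let Φ : (Idx l → ℚ) →ₗ[ℚ] (D → ℚ) :=
    { toFun := fun c d => fn l ι c d.2.1
      map_add' := by
        intro c c'
        funext d
        simp only [fn, Pi.add_apply, add_mul, Finset.sum_add_distrib]
      map_smul' := by
        intro a c
        funext d
        simp only [fn, Pi.smul_apply, smul_eq_mul, RingHom.id_apply, Finset.mul_sum]
        refine Finset.sum_congr rfl fun k _ => ?_
        ring }
  have hker : LinearMap.ker Φ ≠ ⊥ := by
    apply LinearMap.ker_ne_bot_of_finrank_lt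
    rw [Module.finrank_fintype_fun_eq_card, Module.finrank_fintype_fun_eq_card]
    exact hD
  obtain ⟨c, hc, hc0⟩ := (Submodule.ne_bot_iff _).mp hker
  rw [LinearMap.mem_ker] at hc
  have hzero : ∀ g ∈ G', ∀ z ∈ Fintype.piFinset (Y g), fn l ι c z = 0 := by
    intro g hg z hz
    exact congrFun hc (⟨⟨g, hg⟩, ⟨z, hz⟩⟩ : D)
  refine ⟨fn l ι c, ?_, ?_, ?_⟩
  · by_contra hcon
    push Not at hcon
    exact hc0 (inj l h1 ι hι c X hX hcon)
  · intro z _ v S _ hS h0
    have := line l h1 ι hι c z v S hS h0 (z v)
    rwa [Function.update_eq_self] at this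
  · intro g hg z hz hzg
    have hok : ok g := by
      intro e he e' he' h
      have h2 := hzg e he
      have h3 := hzg e' he'
      refine Prod.ext h ?_
      rw [← h2, ← h3, h]
    have hgG' : g ∈ G' := Finset.mem_filter.mpr ⟨hg, hok⟩
    -- replace the coordinates one by one
    have key : ∀ T : Finset A, ∀ y : A → W, (∀ v, (¬ ∃ w, (v, w) ∈ g) → v ∉ T → y v ∈ Γ v) →
        (∀ e ∈ g, y e.1 = e.2) → fn l ι c y = 0 := by
      intro T
      induction T using Finset.induction_on with
      | empty =>
        intro y hy1 hy2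
        refine hzero g hgG' y ?_
        rw [Fintype.mem_piFinset]
        intro v
        by_cases h : ∃ w, (v, w) ∈ g
        · simp only [Y, if_pos h, Finset.mem_filter, Finset.mem_univ, true_and]
          obtain ⟨w, hw⟩ := h
          rw [hy2 _ hw]
          exact hw
        · simp only [Y, if_neg h]
          exact hy1 v h (Finset.notMem_empty v)
      | insert a T ha ih =>
        intro y hy1 hy2
        by_cases h : ∃ w, (a, w) ∈ g
        · refine ih y ?_ hy2
          intro v hv hvT
          refine hy1 v hv ?_
          intro h'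
          rcases Finset.mem_insert.mp h' with h' | h'
          · exact hv (h' ▸ h)
          · exact hvT h'
        · have h0 : ∀ x ∈ Γ a, fn l ι c (Function.update y a x) = 0 := by
            intro x hx
            refine ih _ ?_ ?_
            · intro v hv hvT
              by_cases hva : v = a
              · subst hva
                rwa [Function.update_self]
              · rw [Function.update_of_ne hva]
                refine hy1 v hv ?_
                intro h'
                rcases Finset.mem_insert.mp h' with h' | h'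
                · exact hva h'
                · exact hvT h'
            · intro e he
              have hea : e.1 ≠ a := by
                rintro rfl
                exact h ⟨e.2, he⟩
              rw [Function.update_of_ne hea]
              exact hy2 e he
          have := line l h1 ι hι c y a (Γ a) (hΓc a).ge h0 (y a)
          rwa [Function.update_eq_self] at this
    exact key Finset.univ z (fun v _ hv => absurd (Finset.mem_univ v) hv) hzg

end Pool.Agent.Work.MP_f7ef37_lc.OP
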