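import Pool.Agent.Work.MP_f7ef37_lc.OP.Stmts
import Pool.Agent.Work.MP_f7ef37_lc.OP.Key

set_option autoImplicit false

open Classical

namespace Pool.Agent.Work.MP_f7ef37_lc.OP.NALIVE

variable {I J : Type} [Fintype I] [Fintype J]

/-- The active-passive part of `γ` as a set of pairs (active end, edge). -/
noncomputable def cert (lam : I ⊕ J → ℕ) (γ : Finset (I × J)) :
    Finset ({v : I ⊕ J // lam v ≠ 0} × (I × J)) :=
  Finset.univ.filter (fun p => p.2 ∈ γ ∧ AP lam p.2 ∧ act lam p.2 = p.1.1)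

omit [Fintype I] [Fintype J] in
theorem inc_act (lam : I ⊕ J → ℕ) (e : I × J) : Inc (act lam e) e := by
  unfold act
  split_ifs <;> rfl

omit [Fintype I] [Fintype J] in
theorem act_ne (lam : I ⊕ J → ℕ) (e : I × J) (h : AP lam e) : lam (act lam e) ≠ 0 := by
  unfold act
  rcases h with h | h
  · rw [if_pos h.1]
    exact h.1
  · rw [if_neg (by simpa using h.1)]
    exact h.2

omit [Fintype I] [Fintype J] in
theorem not_ap_of_pp (lam : I ⊕ J → ℕ) (e : I × J) (h : PP lam e) : ¬ AP lam e := by
  rintro (h' | h')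
  · exact h'.1 h.1
  · exact h'.2 h.2

theorem prod_cert (lam : I ⊕ J → ℕ) (R : ℕ) (γ : Finset (I × J)) :
    ∏ e ∈ cert lam γ, (1 / ((lv lam R e.1.1 : ℕ) : ℝ)) = wt lam R γ := by
  unfold wt
  rw [← Finset.prod_filter]
  refine Finset.prod_bij (fun p _ => p.2) ?_ ?_ ?_ ?_
  · intro p hp
    simp only [cert, Finset.mem_filter, Finset.mem_univ, true_and] at hp
    exact Finset.mem_filter.2 ⟨hp.1, hp.2.1⟩
  · intro p hp q hq h
    simp only [cert, Finset.mem_filter, Finset.mem_univ, true_and] at hp hq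
    refine Prod.ext (Subtype.ext ?_) h
    rw [← hp.2.2, ← hq.2.2, h]
  · intro e he
    rw [Finset.mem_filter] at he
    refine ⟨(⟨act lam e, act_ne lam e he.2⟩, e), ?_, rfl⟩
    simp only [cert, Finset.mem_filter, Finset.mem_univ, true_and]
    exact ⟨he.1, he.2, trivial⟩
  · intro p hp
    simp only [cert, Finset.mem_filter, Finset.mem_univ, true_and] at hp
    rw [hp.2.2]

theorem sum_image_le' {α β : Type*} [DecidableEq β] (s : Finset α) (g : α → β) (f : β → ℝ)
    (hf : ∀ b, 0 ≤ f b) : ∑ b ∈ s.image g, f b ≤ ∑ a ∈ s, f (g a) := by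
  induction s using Finset.induction_on with
  | empty => simp
  | insert a s ha ih =>
    rw [Finset.image_insert, Finset.sum_insert ha]
    by_cases h : g a ∈ s.image g
    · rw [Finset.insert_eq_of_mem h]
      have := hf (g a)
      linarith
    · rw [Finset.sum_insert h]
      linarith

theorem prf : S_ALIVE := by
  intro I J _ _ lam R G C hlv hC
  set C' := C.filter (fun γ => Mat γ ∧ ∀ e ∈ γ, Legal lam G e) with hC'
  obtain ⟨F, ⟨z0, hz0, hF0⟩, hline, hcert⟩ := key (A := {v : I ⊕ J // lam v ≠ 0}) (W := I × J)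
    (fun v => Xs lam v.1) (fun v => lv lam R v.1) (fun v => (hlv v.1 v.2).1)
    (fun v => (hlv v.1 v.2).2) (C'.image (cert lam)) (by
      refine lt_of_le_of_lt (sum_image_le' C' (cert lam) _ ?_) ?_
      · intro g
        exact Finset.prod_nonneg fun e _ => by positivity
      · refine lt_of_le_of_lt (le_of_eq ?_) hC
        exact Finset.sum_congr rfl fun γ _ => prod_cert lam R γ)
  refine ⟨fun b => Mat b ∧ (∀ e ∈ b, Legal lam G e) ∧
    ∃ z : {v : I ⊕ J // lam v ≠ 0} → I × J, (∀ v, z v ∈ Xs lam v.1) ∧ F z ≠ 0 ∧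
      ∀ e ∈ b, AP lam e → ∀ u : {v : I ⊕ J // lam v ≠ 0}, act lam e = u.1 → z u = e, ?_⟩
  refine ⟨?_, ?_, ?_, ?_, ?_, ?_, ?_⟩
  · exact ⟨mat_empty, fun e he => absurd he (Finset.notMem_empty e), z0, hz0, hF0,
      fun e he => absurd he (Finset.notMem_empty e)⟩
  · rintro b b' ⟨h1, h2, z, h3, h4, h5⟩ hb
    exact ⟨h1.mono hb, fun e he => h2 e (hb he), z, h3, h4, fun e he => h5 e (hb he)⟩
  · exact fun b hb => hb.1
  · exact fun b hb => hb.2.1
  · rintro b ⟨h1, h2, z, h3, h4, h5⟩ γ hγ hγb
    apply h4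
    refine hcert (cert lam γ) (Finset.mem_image_of_mem _ ?_) z h3 ?_
    · rw [hC', Finset.mem_filter]
      exact ⟨hγ, h1.mono hγb, fun e he => h2 e (hγb he)⟩
    · intro p hp
      simp only [cert, Finset.mem_filter, Finset.mem_univ, true_and] at hp
      exact h5 p.2 (hγb hp.1) hp.2.1 p.1 hp.2.2
  · rintro b v S ⟨h1, h2, z, h3, h4, h5⟩ hv hcov hS hcard hna
    by_contra hcon
    apply h4
    refine hline z h3 ⟨v, hv⟩ S hS hcard ?_
    intro f hf
    by_contra hne
    have hfX := hS hf
    rw [mem_Xs] at hfX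
    obtain ⟨hAP, hact⟩ := act_eq hv hfX.1 hfX.2
    refine hcon ⟨f, hf, h1.insert (hna f hf), ?_, _, ?_, hne, ?_⟩
    · intro e he
      rcases Finset.mem_insert.1 he with rfl | he
      · exact Or.inl hAP
      · exact h2 e he
    · intro u
      by_cases hu : u = ⟨v, hv⟩
      · subst hu
        rw [Function.update_self]
        exact hS hf
      · rw [Function.update_of_ne hu]
        exact h3 u
    · intro e he hAPe u hu
      rcases Finset.mem_insert.1 he with rfl | he
      · have huv : u = ⟨v, hv⟩ := Subtype.ext (by rw [← hu, hact])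
        subst huv
        rw [Function.update_self]
      · have huv : u ≠ ⟨v, hv⟩ := by
          rintro rfl
          apply hcov
          refine ⟨e, he, ?_⟩
          have := inc_act lam e
          rwa [hu] at this
        rw [Function.update_of_ne huv]
        exact h5 e he hAPe u hu
  · rintro b f ⟨h1, h2, z, h3, h4, h5⟩ hPP hfG hna
    refine ⟨h1.insert hna, ?_, z, h3, h4, ?_⟩
    · intro e he
      rcases Finset.mem_insert.1 he with rfl | he
      · exact Or.inr ⟨hPP, hfG⟩
      · exact h2 e he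
    · intro e he hAPe u hu
      rcases Finset.mem_insert.1 he with rfl | he
      · exact absurd hAPe (not_ap_of_pp lam e hPP)
      · exact h5 e he hAPe u hu

end Pool.Agent.Work.MP_f7ef37_lc.OP.NALIVE
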