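import Pool.Agent.Work.MP_f7ef37_lc.OP.Stmts

set_option autoImplicit false

open Classical

namespace Pool.Agent.Work.MP_f7ef37_lc.OP.NAX

/-- An axiom line has no stable matching. -/
theorem prf : S_AX := by
  intro I J _ _ lam R D Y c hax hdel hmat hstb
  obtain ⟨hno, _, hv⟩ := hstb
  rcases hax with ⟨v, hall⟩ | ⟨e, f, hne, hadj, he, hf⟩ | ⟨e, he1, he2⟩
  · -- vertex axiom
    have hcov : ¬ Cov c v := by
      rintro ⟨f, hfc, hvf⟩
      apply hno
      refine ⟨({f}, ∅), hall f hvf, ?_, ?_⟩
      · intro x hx
        rw [Finset.mem_singleton] at hx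
        rw [hx]
        exact hfc
      · intro x hx
        exact absurd hx (Finset.notMem_empty x)
    have h1 := hv v hcov
    have hphi : phi D c (Xs lam v) = 0 := by
      unfold phi
      rw [Finset.card_eq_zero]
      apply Finset.filter_eq_empty_iff.2
      intro f hf hh
      apply hh.2
      refine ⟨({f}, ∅), hall f (mem_Xs.1 hf).1, ?_, ?_⟩
      · intro x hx
        rw [Finset.mem_singleton] at hx
        rw [hx]
        exact Finset.mem_insert_self f c
      · intro x hx
        exact absurd hx (Finset.notMem_empty x)
    have h2 := hdel v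
    omega
  · -- two adjacent negated edges
    by_cases hec : e ∈ c
    · have hfc : f ∉ c := fun hfc => hne (hmat e hec f hfc hadj)
      apply hno
      refine ⟨(∅, {f}), hf, Finset.empty_subset c, ?_⟩
      intro x hx
      rw [Finset.mem_singleton] at hx
      rw [hx]
      exact hfc
    · apply hno
      refine ⟨(∅, {e}), he, Finset.empty_subset c, ?_⟩
      intro x hx
      rw [Finset.mem_singleton] at hx
      rw [hx]
      exact hec
  · -- excluded middle
    by_cases hec : e ∈ c
    · apply hno
      refine ⟨({e}, ∅), he1, ?_, ?_⟩
      · intro x hx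
        rw [Finset.mem_singleton] at hx
        rw [hx]
        exact hec
      · intro x hx
        exact absurd hx (Finset.notMem_empty x)
    · apply hno
      refine ⟨(∅, {e}), he2, Finset.empty_subset c, ?_⟩
      intro x hx
      rw [Finset.mem_singleton] at hx
      rw [hx]
      exact hec

end Pool.Agent.Work.MP_f7ef37_lc.OP.NAX
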