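import Pool.Agent.Work.MP_f7ef37_lc.OP.Stmts2

/-!
# Item [f7ef37 OP BW1]: weight of the certificates of the first kind
-/

set_option autoImplicit false

open Classical

namespace Pool.Agent.Work.MP_f7ef37_lc.OP.NBW1

theorem sum_biUnion_le' {ι α : Type} [DecidableEq α] (s : Finset ι) (t : ι → Finset α)
    (f : α → ℝ) (hf : ∀ x, 0 ≤ f x) : ∑ x ∈ s.biUnion t, f x ≤ ∑ i ∈ s, ∑ x ∈ t i, f x := by
  induction s using Finset.induction_on with
  | empty => simp
  | insert i s hi ih =>
    rw [Finset.biUnion_insert, Finset.sum_insert hi]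
    have h := Finset.sum_union_inter (s₁ := t i) (s₂ := s.biUnion t) (f := f)
    have h2 : 0 ≤ ∑ x ∈ t i ∩ s.biUnion t, f x := Finset.sum_nonneg (fun x _ => hf x)
    linarith

theorem few_subsets {V : Type} (W : Finset V) (k : ℕ) :
    (W.powerset.filter (fun B => B.card ≤ k)).card ≤ (W.card + 1) ^ k := by
  induction k with
  | zero =>
    have : W.powerset.filter (fun B => B.card ≤ 0) ⊆ {∅} := by
      intro B hB
      rw [Finset.mem_filter] at hB
      rw [Finset.mem_singleton]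
      exact Finset.card_eq_zero.1 (Nat.le_zero.1 hB.2)
    simpa using Finset.card_le_card this
  | succ k ih =>
    have hsub : W.powerset.filter (fun B => B.card ≤ k + 1) ⊆
        ((W.powerset.filter (fun B => B.card ≤ k)) ∪
          ((W.powerset.filter (fun B => B.card ≤ k)) ×ˢ W).image (fun q => insert q.2 q.1)) := by
      intro B hB
      rw [Finset.mem_filter, Finset.mem_powerset] at hB
      rw [Finset.mem_union]
      by_cases h : B.card ≤ k
      · left
        rw [Finset.mem_filter, Finset.mem_powerset]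
        exact ⟨hB.1, h⟩
      · right
        have hpos : 0 < B.card := by omega
        obtain ⟨x, hx⟩ := Finset.card_pos.1 hpos
        rw [Finset.mem_image]
        refine ⟨(B.erase x, x), ?_, Finset.insert_erase hx⟩
        rw [Finset.mem_product, Finset.mem_filter, Finset.mem_powerset]
        have h3 := Finset.card_erase_of_mem hx
        exact ⟨⟨(Finset.erase_subset _ _).trans hB.1, by simp only; omega⟩, hB.1 hx⟩
    refine (Finset.card_le_card hsub).trans ((Finset.card_union_le _ _).trans ?_)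
    have h4 := Finset.card_image_le (s := (W.powerset.filter (fun B => B.card ≤ k)) ×ˢ W)
      (f := fun q : Finset V × V => insert q.2 q.1)
    rw [Finset.card_product] at h4
    have h5 : (W.card + 1) ^ (k + 1) = (W.card + 1) ^ k + (W.card + 1) ^ k * W.card := by ring
    rw [h5]
    exact Nat.add_le_add ih (h4.trans (Nat.mul_le_mul_right _ ih))

/-- The sections of `Z` over `U`. -/
noncomputable def SecG (V E : Type) [Fintype V] [Fintype E] (U : Finset V) (Z : V → Finset E) :
    Finset (Finset E) :=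
  (Finset.univ : Finset (Finset E)).filter
    (fun γ => ∃ h : V → E, (∀ v ∈ U, h v ∈ Z v) ∧ γ = U.image h)

theorem mem_SecG {V E : Type} [Fintype V] [Fintype E] {U : Finset V} {Z : V → Finset E}
    {γ : Finset E} (h : V → E) (h1 : ∀ v ∈ U, h v ∈ Z v) (h2 : ∀ e, e ∈ γ ↔ ∃ v ∈ U, h v = e) :
    γ ∈ SecG V E U Z := by
  unfold SecG
  rw [Finset.mem_filter]
  refine ⟨Finset.mem_univ _, h, h1, ?_⟩
  ext e
  rw [h2 e, Finset.mem_image]

theorem prf : S_SECW → S_BW1 := by
  intro hSECW I J _ _ lam R w0 b1 p D a hR hlam hdel hp hw0 hb1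
  have hkap : ∀ e, 0 ≤ kap lam R p e := by
    intro e
    unfold kap
    split_ifs
    · positivity
    · exact hp
    · exact le_refl 0
  set W := W0 lam R w0 D a with hWdef
  have hWc : W.card = w0 := W0_card hw0
  have hRpos : (0 : ℝ) < R := by exact_mod_cast hR
  have hR1 : (1 : ℝ) ≤ R := by exact_mod_cast hR
  have hc0 : (0 : ℝ) ≤ 1 - 1 / (2 * (R : ℝ)) := by
    have : 1 / (2 * (R : ℝ)) ≤ 1 := by
      rw [div_le_one (by positivity)]
      linarith
    linarith
  have hc1 : 1 - 1 / (2 * (R : ℝ)) ≤ 1 := by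
    have : 0 ≤ 1 / (2 * (R : ℝ)) := by positivity
    linarith
  -- one vertex
  have hone : ∀ v ∈ W, ∑ f ∈ Fr lam D a v, kap lam R p f ≤ 1 - 1 / (2 * (R : ℝ)) := by
    intro v hv
    obtain ⟨_, hl0, hph⟩ := W0_sub hv
    have hk : ∀ f ∈ Fr lam D a v, kap lam R p f = 1 / (lv lam R v : ℝ) := by
      intro f hf
      unfold Fr at hf
      rw [Finset.mem_filter, mem_Xs] at hf
      obtain ⟨h1, h2⟩ := act_eq hl0 hf.1.1 hf.1.2
      unfold kap
      rw [if_pos h1, h2]
    rw [Finset.sum_congr rfl hk, Finset.sum_const, nsmul_eq_mul]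
    have hcard : (Fr lam D a v).card = phi D a (Xs lam v) := rfl
    rw [hcard]
    have hlv1 : 1 ≤ lv lam R v := by
      unfold lv
      exact Nat.mul_pos (Nat.pos_of_ne_zero hl0) (hdel v)
    have hlvR : lv lam R v ≤ R * del R v := Nat.mul_le_mul_right _ (hlam v)
    have hlv : (0 : ℝ) < lv lam R v := by exact_mod_cast hlv1
    have h1 : (2 : ℝ) * phi D a (Xs lam v) + del R v ≤ 2 * lv lam R v := by exact_mod_cast hph
    have h2 : (lv lam R v : ℝ) ≤ R * del R v := by exact_mod_cast hlvR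
    rw [mul_one_div, div_le_iff₀ hlv]
    have h3 : (1 - 1 / (2 * (R : ℝ))) * (lv lam R v : ℝ) =
        lv lam R v - (lv lam R v : ℝ) / (2 * R) := by
      field_simp
    have h4 : (lv lam R v : ℝ) / (2 * R) ≤ (del R v : ℝ) / 2 := by
      rw [div_le_div_iff₀ (by positivity) (by norm_num)]
      nlinarith
    rw [h3]
    linarith
  have hdisj : ∀ v ∈ W, ∀ v' ∈ W, v ≠ v' → Disjoint (Fr lam D a v) (Fr lam D a v') := by
    intro v hv v' hv' hne
    rw [Finset.disjoint_left]
    intro f hf hf'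
    unfold Fr at hf hf'
    rw [Finset.mem_filter, mem_Xs] at hf hf'
    have h1 := (act_eq (W0_sub hv).2.1 hf.1.1 hf.1.2).2
    have h2 := (act_eq (W0_sub hv').2.1 hf'.1.1 hf'.1.2).2
    exact hne (h1.symm.trans h2)
  -- the families
  let Sec : Finset (I ⊕ J) → Finset (Finset (I × J)) := fun B =>
    SecG (I ⊕ J) (I × J) (W \ B) (fun v => Fr lam D a v)
  have hsub : CB1 lam R w0 b1 D a ⊆
      (W.powerset.filter (fun B => B.card ≤ 6 * b1)).biUnion Sec := by
    intro γ hγ
    unfold CB1 at hγ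
    rw [Finset.mem_filter] at hγ
    obtain ⟨_, B, hB, hBc, h, hh, hg⟩ := hγ
    rw [Finset.mem_biUnion]
    refine ⟨B, ?_, ?_⟩
    · rw [Finset.mem_filter, Finset.mem_powerset]
      exact ⟨hB, hBc.le⟩
    · refine mem_SecG h hh (fun e => ?_)
      rw [hg, Finset.mem_image]
  have hprod0 : ∀ γ : Finset (I × J), 0 ≤ ∏ e ∈ γ, kap lam R p e :=
    fun γ => Finset.prod_nonneg (fun e _ => hkap e)
  have hsec : ∀ B ∈ W.powerset.filter (fun B => B.card ≤ 6 * b1),
      ∑ γ ∈ Sec B, ∏ e ∈ γ, kap lam R p e ≤ (1 - 1 / (2 * (R : ℝ))) ^ (w0 - 6 * b1) := by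
    intro B hB
    rw [Finset.mem_filter, Finset.mem_powerset] at hB
    have h1 := hSECW (I ⊕ J) (I × J) (W \ B) (fun v => Fr lam D a v) (kap lam R p) hkap
      (fun v hv v' hv' hne => hdisj v (Finset.mem_sdiff.1 hv).1 v' (Finset.mem_sdiff.1 hv').1 hne)
    refine le_trans h1 ?_
    have h2 : ∏ v ∈ W \ B, ∑ f ∈ Fr lam D a v, kap lam R p f ≤
        ∏ v ∈ W \ B, (1 - 1 / (2 * (R : ℝ))) :=
      Finset.prod_le_prod (fun v _ => Finset.sum_nonneg (fun f _ => hkap f))
        (fun v hv => hone v (Finset.mem_sdiff.1 hv).1)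
    refine h2.trans ?_
    rw [Finset.prod_const]
    apply pow_le_pow_of_le_one hc0 hc1
    have h3 := Finset.card_sdiff_add_card_inter W B
    have h4 := Finset.card_le_card (Finset.inter_subset_right : W ∩ B ⊆ B)
    omega
  calc ∑ γ ∈ CB1 lam R w0 b1 D a, ∏ e ∈ γ, kap lam R p e
      ≤ ∑ γ ∈ (W.powerset.filter (fun B => B.card ≤ 6 * b1)).biUnion Sec,
          ∏ e ∈ γ, kap lam R p e :=
        Finset.sum_le_sum_of_subset_of_nonneg hsub (fun γ _ _ => hprod0 γ)
    _ ≤ ∑ B ∈ W.powerset.filter (fun B => B.card ≤ 6 * b1),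
          ∑ γ ∈ Sec B, ∏ e ∈ γ, kap lam R p e := sum_biUnion_le' _ _ _ hprod0
    _ ≤ ∑ B ∈ W.powerset.filter (fun B => B.card ≤ 6 * b1),
          (1 - 1 / (2 * (R : ℝ))) ^ (w0 - 6 * b1) := Finset.sum_le_sum hsec
    _ = ((W.powerset.filter (fun B => B.card ≤ 6 * b1)).card : ℝ) *
          (1 - 1 / (2 * (R : ℝ))) ^ (w0 - 6 * b1) := by
        rw [Finset.sum_const, nsmul_eq_mul]
    _ ≤ ((w0 : ℝ) + 1) ^ (6 * b1) * (1 - 1 / (2 * (R : ℝ))) ^ (w0 - 6 * b1) := by
        apply mul_le_mul_of_nonneg_right _ (pow_nonneg hc0 _)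
        have h5 := few_subsets W (6 * b1)
        rw [hWc] at h5
        exact_mod_cast h5

end Pool.Agent.Work.MP_f7ef37_lc.OP.NBW1
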