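import Pool.Agent.Work.MP_f7ef37_lc.OP.Stmts2

/-!
# Block [f7ef37 OP], item BW2: weight of the certificates of the second kind
-/

set_option autoImplicit false

open Classical

namespace Pool.Agent.Work.MP_f7ef37_lc.OP.NBW2

theorem sum_le_of_surj {α β : Type} (T : Finset β) (S : Finset α) (F : α → β) (w : β → ℝ)
    (w' : α → ℝ) (h0 : ∀ x ∈ S, 0 ≤ w' x) (h : ∀ γ ∈ T, ∃ x ∈ S, F x = γ ∧ w γ ≤ w' x) :
    ∑ γ ∈ T, w γ ≤ ∑ x ∈ S, w' x := by
  have h' : ∀ γ : {γ // γ ∈ T}, ∃ x, x ∈ S ∧ F x = γ.1 ∧ w γ.1 ≤ w' x := fun γ => by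
    obtain ⟨x, hx, h1, h2⟩ := h γ.1 γ.2
    exact ⟨x, hx, h1, h2⟩
  choose x hxS hxF hxw using h'
  have hinj : Function.Injective x := by
    intro γ γ' he
    apply Subtype.ext
    rw [← hxF γ, ← hxF γ', he]
  calc ∑ γ ∈ T, w γ = ∑ γ : {γ // γ ∈ T}, w γ.1 := (Finset.sum_coe_sort T w).symm
    _ ≤ ∑ γ : {γ // γ ∈ T}, w' (x γ) := Finset.sum_le_sum fun γ _ => hxw γ
    _ = ∑ y ∈ Finset.univ.image x, w' y := (Finset.sum_image (fun a _ b _ h => hinj h)).symm
    _ ≤ ∑ y ∈ S, w' y := Finset.sum_le_sum_of_subset_of_nonneg (by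
        intro y hy
        rw [Finset.mem_image] at hy
        obtain ⟨γ, _, rfl⟩ := hy
        exact hxS γ) (fun y hy _ => h0 y hy)

variable {I J : Type} [Fintype I] [Fintype J]

theorem kap_nonneg (lam : I ⊕ J → ℕ) (R : ℕ) (p : ℝ) (hp : 0 ≤ p) (e : I × J) :
    0 ≤ kap lam R p e := by
  unfold kap
  split_ifs
  · positivity
  · exact hp
  · exact le_rfl

theorem kap_Xs {lam : I ⊕ J → ℕ} {R : ℕ} {p : ℝ} {v : I ⊕ J} {f : I × J} (hv : lam v ≠ 0)
    (hf : f ∈ Xs lam v) : kap lam R p f = 1 / (lv lam R v : ℝ) := by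
  rw [mem_Xs] at hf
  obtain ⟨h1, h2⟩ := act_eq hv hf.1 hf.2
  unfold kap
  rw [if_pos h1, h2]

theorem star_le {R : ℕ} (hR : 1 ≤ R) {v : I ⊕ J} (h : 1 ≤ del R v) :
    (star v).card ≤ 16 * R * del R v := by
  have h1 : (star v).card < 8 * R * (del R v + 1) := by
    unfold del
    exact Nat.lt_mul_div_succ _ (by omega)
  nlinarith [Nat.mul_le_mul (le_refl (8 * R)) h]

/-- The certificates of the second kind for a set `U`. -/
noncomputable def Gam (b1 : ℕ) (lam : I ⊕ J → ℕ) (D : Ln I J) (a : Finset (I × J))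
    (U : Finset (I ⊕ J)) : Finset (Finset (I × J)) :=
  Finset.univ.filter (fun γ => ∃ h g : I ⊕ J → I × J,
      (∀ v ∈ U, h v ∈ Bd lam D a v ∧ g v ∈ wit D (insert (h v) a)) ∧
      γ = U.image h ∪ U.image g ∧ γ.card = 2 * b1)

theorem set_bound (lam : I ⊕ J → ℕ) (R w0 b1 t : ℕ) (p κm : ℝ) (D : Ln I J)
    (a : Finset (I × J)) (hR : 1 ≤ R) (hdel : ∀ v : I ⊕ J, 1 ≤ del R v) (hp : 0 ≤ p)
    (hκ : ∀ e, kap lam R p e ≤ κm) (hκ0 : 0 ≤ κm) (ht : ∀ T ∈ D, T.2.card ≤ t)
    (U : Finset (I ⊕ J)) (hU : U ⊆ W0 lam R w0 D a) (hUc : U.card = b1) :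
    ∑ γ ∈ Gam b1 lam D a U, ∏ e ∈ γ, kap lam R p e ≤ (16 * (R : ℝ) * t * κm) ^ b1 := by
  let P : {v // v ∈ U} → Finset ((I × J) × (I × J)) := fun v =>
    Finset.univ.filter (fun q => q.1 ∈ Bd lam D a v.1 ∧ q.2 ∈ wit D (insert q.1 a))
  have hSup : ∀ v ∈ W0 lam R w0 D a, lam v ≠ 0 := fun v hv => (W0_sub hv).2.1
  have hlv : ∀ v ∈ W0 lam R w0 D a, (del R v : ℝ) ≤ (lv lam R v : ℝ) := by
    intro v hv
    have h1 : 1 ≤ lam v := Nat.one_le_iff_ne_zero.mpr (hSup v hv)
    have h2 : del R v ≤ lv lam R v := by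
      unfold lv
      exact Nat.le_mul_of_pos_left _ h1
    exact_mod_cast h2
  have hdelr : ∀ v : I ⊕ J, (1 : ℝ) ≤ (del R v : ℝ) := fun v => by exact_mod_cast hdel v
  have hBX : ∀ v, Bd lam D a v ⊆ Xs lam v := fun v => Finset.filter_subset _ _
  have hnn : ∀ e, 0 ≤ kap lam R p e := kap_nonneg lam R p hp
  have step1 : ∑ γ ∈ Gam b1 lam D a U, ∏ e ∈ γ, kap lam R p e ≤
      ∑ x ∈ Fintype.piFinset P, ∏ v, (kap lam R p (x v).1 * kap lam R p (x v).2) := by
    refine sum_le_of_surj _ _ (fun x => (Finset.univ.image fun v => (x v).1) ∪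
      (Finset.univ.image fun v => (x v).2)) _ _ ?_ ?_
    · intro x _
      exact Finset.prod_nonneg fun v _ => mul_nonneg (hnn _) (hnn _)
    · intro γ hγ
      unfold Gam at hγ
      rw [Finset.mem_filter] at hγ
      obtain ⟨-, h, g, h1, h2, h3⟩ := hγ
      refine ⟨fun v => (h v.1, g v.1), ?_, ?_, ?_⟩
      · rw [Fintype.mem_piFinset]
        intro v
        simp only [P, Finset.mem_filter, Finset.mem_univ, true_and]
        exact h1 v.1 v.2
      · rw [h2]
        ext e
        simp only [Finset.mem_union, Finset.mem_image, Finset.mem_univ, true_and,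
          Subtype.exists, exists_prop]
      · have hch : (U.image h).card ≤ b1 := hUc ▸ Finset.card_image_le
        have hcg : (U.image g).card ≤ b1 := hUc ▸ Finset.card_image_le
        have hcu : (U.image h ∪ U.image g).card = 2 * b1 := h2 ▸ h3
        have hcs := Finset.card_union_add_card_inter (U.image h) (U.image g)
        have hih : (U.image h).card = U.card := by omega
        have hig : (U.image g).card = U.card := by omega
        have hii : (U.image h ∩ U.image g).card = 0 := by omega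
        have hdis : Disjoint (U.image h) (U.image g) := by
          rw [Finset.disjoint_iff_inter_eq_empty]
          exact Finset.card_eq_zero.1 hii
        rw [h2, Finset.prod_union hdis, Finset.prod_image (Finset.card_image_iff.1 hih),
          Finset.prod_image (Finset.card_image_iff.1 hig), ← Finset.prod_mul_distrib]
        exact (Finset.prod_coe_sort U
          (fun v => kap lam R p (h v) * kap lam R p (g v))).symm.le
  have hPsum : ∀ v : {v // v ∈ U}, ∑ q ∈ P v, kap lam R p q.1 * kap lam R p q.2 ≤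
      16 * (R : ℝ) * t * κm := by
    intro v
    have hvW := hU v.2
    have hPsub : P v ⊆ (Bd lam D a v.1).biUnion (fun f => (wit D (insert f a)).image
        (fun e => (f, e))) := by
      intro q hq
      simp only [P, Finset.mem_filter, Finset.mem_univ, true_and] at hq
      rw [Finset.mem_biUnion]
      refine ⟨q.1, hq.1, ?_⟩
      rw [Finset.mem_image]
      exact ⟨q.2, hq.2, rfl⟩
    have hPcard : (P v).card ≤ (star v.1).card * t := by
      refine (Finset.card_le_card hPsub).trans ?_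
      refine Finset.card_biUnion_le.trans ?_
      calc ∑ f ∈ Bd lam D a v.1, ((wit D (insert f a)).image (fun e => (f, e))).card
          ≤ ∑ f ∈ Bd lam D a v.1, t :=
            Finset.sum_le_sum fun f _ => Finset.card_image_le.trans (wit_card ht _)
        _ = (Bd lam D a v.1).card * t := by rw [Finset.sum_const, smul_eq_mul]
        _ ≤ (star v.1).card * t := by
            refine Nat.mul_le_mul_right _ (Finset.card_le_card ?_)
            exact (hBX v.1).trans (Finset.filter_subset _ _)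
    have hd1 := hdelr v.1
    have hl1 := hlv v.1 hvW
    have hlpos : (0 : ℝ) < (lv lam R v.1 : ℝ) := by linarith
    have hval : ∀ q ∈ P v, kap lam R p q.1 * kap lam R p q.2 ≤
        1 / (lv lam R v.1 : ℝ) * κm := by
      intro q hq
      simp only [P, Finset.mem_filter, Finset.mem_univ, true_and] at hq
      rw [kap_Xs (hSup v.1 hvW) (hBX v.1 hq.1)]
      exact mul_le_mul_of_nonneg_left (hκ _) (by positivity)
    refine (Finset.sum_le_sum hval).trans ?_
    rw [Finset.sum_const, nsmul_eq_mul, ← mul_assoc]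
    refine mul_le_mul_of_nonneg_right ?_ hκ0
    rw [mul_one_div, div_le_iff₀ hlpos]
    have hs : ((star v.1).card : ℝ) ≤ 16 * R * del R v.1 := by
      exact_mod_cast star_le hR (hdel v.1)
    have hPc : ((P v).card : ℝ) ≤ (star v.1).card * t := by exact_mod_cast hPcard
    have ht0 : (0 : ℝ) ≤ (t : ℝ) := Nat.cast_nonneg t
    calc ((P v).card : ℝ) ≤ (star v.1).card * t := hPc
      _ ≤ (16 * R * del R v.1) * t := mul_le_mul_of_nonneg_right hs ht0
      _ ≤ (16 * R * lv lam R v.1) * t :=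
          mul_le_mul_of_nonneg_right (mul_le_mul_of_nonneg_left hl1 (by positivity)) ht0
      _ = 16 * (R : ℝ) * t * lv lam R v.1 := by ring
  calc ∑ γ ∈ Gam b1 lam D a U, ∏ e ∈ γ, kap lam R p e
      ≤ ∑ x ∈ Fintype.piFinset P, ∏ v, (kap lam R p (x v).1 * kap lam R p (x v).2) := step1
    _ = ∏ v, ∑ q ∈ P v, kap lam R p q.1 * kap lam R p q.2 := by rw [Finset.prod_univ_sum]
    _ ≤ ∏ _v : {v // v ∈ U}, (16 * (R : ℝ) * t * κm) := by
        refine Finset.prod_le_prod (fun v _ => ?_) (fun v _ => hPsum v)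
        exact Finset.sum_nonneg fun f _ => mul_nonneg (hnn _) (hnn _)
    _ = (16 * (R : ℝ) * t * κm) ^ b1 := by
        rw [Finset.prod_const, Finset.card_univ, Fintype.card_coe, hUc]

theorem prf : S_BW2 := by
  intro I J _ _ lam R w0 b1 t p κm D a hR _ hdel hp hκ hκ0 ht
  have hnn : ∀ γ : Finset (I × J), 0 ≤ ∏ e ∈ γ, kap lam R p e := fun γ =>
    Finset.prod_nonneg fun e _ => kap_nonneg lam R p hp e
  have hcard : (((W0 lam R w0 D a).powersetCard b1).card : ℝ) ≤ (w0 : ℝ) ^ b1 := by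
    have h1 : ((W0 lam R w0 D a).powersetCard b1).card ≤ w0 ^ b1 := by
      rw [Finset.card_powersetCard]
      exact (Nat.choose_le_pow _ _).trans (Nat.pow_le_pow_left W0_card_le _)
    exact_mod_cast h1
  calc ∑ γ ∈ CB2 lam R w0 b1 D a, ∏ e ∈ γ, kap lam R p e
      ≤ ∑ x ∈ ((W0 lam R w0 D a).powersetCard b1).sigma (fun U => Gam b1 lam D a U),
          ∏ e ∈ x.2, kap lam R p e := by
        refine sum_le_of_surj _ _ (fun x => x.2) _ _ (fun x _ => hnn x.2) ?_
        intro γ hγ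
        unfold CB2 at hγ
        rw [Finset.mem_filter] at hγ
        obtain ⟨-, U, hU, hUc, h, g, h1, h2, h3⟩ := hγ
        refine ⟨⟨U, γ⟩, Finset.mem_sigma.2 ⟨Finset.mem_powersetCard.2 ⟨hU, hUc⟩, ?_⟩,
          rfl, le_rfl⟩
        unfold Gam
        rw [Finset.mem_filter]
        exact ⟨Finset.mem_univ _, h, g, h1, h2, h3⟩
    _ = ∑ U ∈ (W0 lam R w0 D a).powersetCard b1,
          ∑ γ ∈ Gam b1 lam D a U, ∏ e ∈ γ, kap lam R p e := by
        rw [Finset.sum_sigma]
    _ ≤ ∑ U ∈ (W0 lam R w0 D a).powersetCard b1, (16 * (R : ℝ) * t * κm) ^ b1 := by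
        refine Finset.sum_le_sum fun U hU => ?_
        rw [Finset.mem_powersetCard] at hU
        exact set_bound lam R w0 b1 t p κm D a hR hdel hp hκ hκ0 ht U hU.1 hU.2
    _ = (((W0 lam R w0 D a).powersetCard b1).card : ℝ) * (16 * (R : ℝ) * t * κm) ^ b1 := by
        rw [Finset.sum_const, nsmul_eq_mul]
    _ ≤ (w0 : ℝ) ^ b1 * (16 * (R : ℝ) * t * κm) ^ b1 := by
        refine mul_le_mul_of_nonneg_right hcard ?_
        positivity
    _ = ((w0 : ℝ) * (16 * R * t * κm)) ^ b1 := (mul_pow _ _ _).symm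

end Pool.Agent.Work.MP_f7ef37_lc.OP.NBW2
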