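import Pool.Agent.Work.MP_f7ef37_lc.OP.Stmts2

/-!
# Block [f7ef37 OP], item BW3: weight of the certificates of the third kind
-/

set_option autoImplicit false

open Classical

namespace Pool.Agent.Work.MP_f7ef37_lc.OP.NBW3

theorem sum_le_of_surj {α β : Type} (T : Finset β) (S : Finset α) (F : α → β) (w : β → ℝ)
    (w' : α → ℝ) (h0 : ∀ x ∈ S, 0 ≤ w' x) (h : ∀ γ ∈ T, ∃ x ∈ S, F x = γ ∧ w γ ≤ w' x) :
    ∑ γ ∈ T, w γ ≤ ∑ x ∈ S, w' x := by
  have h' : ∀ γ : {γ // γ ∈ T}, ∃ x, x ∈ S ∧ F x = γ.1 ∧ w γ.1 ≤ w' x := fun γ => by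
    obtain ⟨x, hx, h1, h2⟩ := h γ.1 γ.2
    exact ⟨x, hx, h1, h2⟩
  choose x hxS hxF hxw using h'
  have hinj : Function.Injective x := by
    intro γ γ' he
    apply Subtype.ext
    rw [← hxF γ, ← hxF γ', he]
  calc ∑ γ ∈ T, w γ = ∑ γ : {γ // γ ∈ T}, w γ.1 := (Finset.sum_coe_sort T w).symm
    _ ≤ ∑ γ : {γ // γ ∈ T}, w' (x γ) := Finset.sum_le_sum fun γ _ => hxw γ
    _ = ∑ y ∈ Finset.univ.image x, w' y := (Finset.sum_image (fun a _ b _ h => hinj h)).symm
    _ ≤ ∑ y ∈ S, w' y := Finset.sum_le_sum_of_subset_of_nonneg (by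
        intro y hy
        rw [Finset.mem_image] at hy
        obtain ⟨γ, _, rfl⟩ := hy
        exact hxS γ) (fun y hy _ => h0 y hy)

/-- Number of small subsets. -/
theorem card_small {V : Type} (W : Finset V) (k : ℕ) :
    (W.powerset.filter (fun s => s.card ≤ k)).card ≤ (W.card + 1) ^ k := by
  induction k with
  | zero =>
    rw [pow_zero, Finset.card_le_one]
    intro s hs s' hs'
    rw [Finset.mem_filter, Nat.le_zero, Finset.card_eq_zero] at hs hs'
    rw [hs.2, hs'.2]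
  | succ k ih =>
    have hsub : W.powerset.filter (fun s => s.card ≤ k + 1) ⊆
        (W.powerset.filter (fun s => s.card ≤ k)) ∪
          ((W.powerset.filter (fun s => s.card ≤ k)) ×ˢ W).image
            (fun q => insert q.2 q.1) := by
      intro s hs
      rw [Finset.mem_filter, Finset.mem_powerset] at hs
      rw [Finset.mem_union, Finset.mem_filter, Finset.mem_powerset, Finset.mem_image]
      by_cases hk : s.card ≤ k
      · exact Or.inl ⟨hs.1, hk⟩
      · right
        have hne : s.Nonempty := by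
          rw [← Finset.card_pos]
          omega
        obtain ⟨y, hy⟩ := hne
        refine ⟨(s.erase y, y), ?_, ?_⟩
        · rw [Finset.mem_product, Finset.mem_filter, Finset.mem_powerset]
          refine ⟨⟨(Finset.erase_subset _ _).trans hs.1, ?_⟩, hs.1 hy⟩
          have h1 := Finset.card_erase_of_mem hy
          have h2 := hs.2
          simp only at h1 ⊢
          omega
        · exact Finset.insert_erase hy
    calc (W.powerset.filter (fun s => s.card ≤ k + 1)).card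
        ≤ _ := Finset.card_le_card hsub
      _ ≤ (W.powerset.filter (fun s => s.card ≤ k)).card +
          ((W.powerset.filter (fun s => s.card ≤ k)) ×ˢ W).card :=
          (Finset.card_union_le _ _).trans (Nat.add_le_add_left Finset.card_image_le _)
      _ = (W.powerset.filter (fun s => s.card ≤ k)).card * (W.card + 1) := by
          rw [Finset.card_product]
          ring
      _ ≤ (W.card + 1) ^ k * (W.card + 1) := Nat.mul_le_mul_right _ ih
      _ = (W.card + 1) ^ (k + 1) := by rw [pow_succ]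

variable {I J : Type} [Fintype I] [Fintype J]

theorem kap_nonneg (lam : I ⊕ J → ℕ) (R : ℕ) (p : ℝ) (hp : 0 ≤ p) (e : I × J) :
    0 ≤ kap lam R p e := by
  unfold kap
  split_ifs
  · positivity
  · exact hp
  · exact le_rfl

theorem kap_Xs {lam : I ⊕ J → ℕ} {R : ℕ} {p : ℝ} {v : I ⊕ J} {f : I × J} (hv : lam v ≠ 0)
    (hf : f ∈ Xs lam v) : kap lam R p f = 1 / (lv lam R v : ℝ) := by
  rw [mem_Xs] at hf
  obtain ⟨h1, h2⟩ := act_eq hv hf.1 hf.2
  unfold kap
  rw [if_pos h1, h2]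

theorem star_le {R : ℕ} (hR : 1 ≤ R) {v : I ⊕ J} (h : 1 ≤ del R v) :
    (star v).card ≤ 16 * R * del R v := by
  have h1 : (star v).card < 8 * R * (del R v + 1) := by
    unfold del
    exact Nat.lt_mul_div_succ _ (by omega)
  nlinarith [Nat.mul_le_mul (le_refl (8 * R)) h]

/-- The certificates of the third kind for a pair `(K, M)`. -/
noncomputable def Gam (lam : I ⊕ J → ℕ) (R w0 x1 : ℕ) (D : Ln I J) (a : Finset (I × J))
    (K M : Finset (I ⊕ J)) : Finset (Finset (I × J)) :=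
  Finset.univ.filter (fun γ => ∃ h g : I ⊕ J → I × J,
      (∀ v ∈ K, h v ∈ Bd lam D a v ∧ g v ∈ wit D (insert (h v) a) ∧
        g v ∉ Qs lam R w0 x1 D a) ∧
      (∀ v ∈ M, h v ∈ Bd lam D a v ∧ ∃ r ∈ K, g r ∈ wit D (insert (h v) a)) ∧
      γ = (K ∪ M).image h)

theorem pair_bound (lam : I ⊕ J → ℕ) (R w0 x1 t : ℕ) (p : ℝ) (D : Ln I J)
    (a : Finset (I × J)) (hR : 1 ≤ R) (hdel : ∀ v : I ⊕ J, 1 ≤ del R v) (hp : 0 ≤ p)
    (hx1 : 1 ≤ x1) (ht : ∀ T ∈ D, T.2.card ≤ t) (K M : Finset (I ⊕ J))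
    (hK : K ⊆ W0 lam R w0 D a) (hM : M ⊆ W0 lam R w0 D a) (hKM : Disjoint K M) :
    ∑ γ ∈ Gam lam R w0 x1 D a K M, ∏ e ∈ γ, kap lam R p e ≤
      (16 * (R : ℝ) * t) ^ K.card * ((K.card : ℝ) / x1) ^ M.card := by
  let P : {v // v ∈ K} → Finset ((I × J) × (I × J)) := fun v =>
    Finset.univ.filter (fun q => q.1 ∈ Bd lam D a v.1 ∧ q.2 ∈ wit D (insert q.1 a) ∧
      q.2 ∉ Qs lam R w0 x1 D a)
  let Z : ({v // v ∈ K} → (I × J) × (I × J)) → {v // v ∈ M} → Finset (I × J) := fun φ v =>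
    (Bd lam D a v.1).filter (fun f => ∃ r, (φ r).2 ∈ wit D (insert f a))
  let S : Finset (Σ _ : {v // v ∈ K} → (I × J) × (I × J), {v // v ∈ M} → I × J) :=
    (Fintype.piFinset P).sigma (fun φ => Fintype.piFinset (Z φ))
  have hSup : ∀ v ∈ W0 lam R w0 D a, lam v ≠ 0 := fun v hv => (W0_sub hv).2.1
  have hlv : ∀ v ∈ W0 lam R w0 D a, (del R v : ℝ) ≤ (lv lam R v : ℝ) := by
    intro v hv
    have h1 : 1 ≤ lam v := Nat.one_le_iff_ne_zero.mpr (hSup v hv)
    have h2 : del R v ≤ lv lam R v := by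
      unfold lv
      exact Nat.le_mul_of_pos_left _ h1
    exact_mod_cast h2
  have hdelr : ∀ v : I ⊕ J, (1 : ℝ) ≤ (del R v : ℝ) := fun v => by exact_mod_cast hdel v
  have hBX : ∀ v, Bd lam D a v ⊆ Xs lam v := fun v => Finset.filter_subset _ _
  have hact : ∀ v ∈ W0 lam R w0 D a, ∀ f ∈ Bd lam D a v, act lam f = v := by
    intro v hv f hf
    have := mem_Xs.1 (hBX v hf)
    exact (act_eq (hSup v hv) this.1 this.2).2
  have step1 : ∑ γ ∈ Gam lam R w0 x1 D a K M, ∏ e ∈ γ, kap lam R p e ≤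
      ∑ x ∈ S, (∏ v, kap lam R p (x.1 v).1) * ∏ v, kap lam R p (x.2 v) := by
    refine sum_le_of_surj _ S (fun x => (Finset.univ.image fun v => (x.1 v).1) ∪
      (Finset.univ.image fun v => x.2 v)) _ _ ?_ ?_
    · intro x _
      exact mul_nonneg (Finset.prod_nonneg fun v _ => kap_nonneg lam R p hp _)
        (Finset.prod_nonneg fun v _ => kap_nonneg lam R p hp _)
    · intro γ hγ
      unfold Gam at hγ
      rw [Finset.mem_filter] at hγ
      obtain ⟨-, h, g, h1, h2, rfl⟩ := hγ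
      refine ⟨⟨fun v => (h v.1, g v.1), fun v => h v.1⟩, ?_, ?_, ?_⟩
      · simp only [S, Finset.mem_sigma, Fintype.mem_piFinset]
        refine ⟨fun v => ?_, fun v => ?_⟩
        · simp only [P, Finset.mem_filter, Finset.mem_univ, true_and]
          exact h1 v.1 v.2
        · simp only [Z, Finset.mem_filter]
          refine ⟨(h2 v.1 v.2).1, ?_⟩
          obtain ⟨r, hr, hgr⟩ := (h2 v.1 v.2).2
          exact ⟨⟨r, hr⟩, hgr⟩
      · simp only
        ext e
        simp only [Finset.mem_union, Finset.mem_image, Finset.mem_univ, true_and,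
          Subtype.exists]
        constructor
        · rintro (⟨v, hv, rfl⟩ | ⟨v, hv, rfl⟩)
          · exact ⟨v, Or.inl hv, rfl⟩
          · exact ⟨v, Or.inr hv, rfl⟩
        · rintro ⟨v, hv | hv, rfl⟩
          · exact Or.inl ⟨v, hv, rfl⟩
          · exact Or.inr ⟨v, hv, rfl⟩
      · simp only
        have hinj : Set.InjOn h (↑(K ∪ M) : Set (I ⊕ J)) := by
          have key : ∀ v ∈ K ∪ M, act lam (h v) = v := by
            intro v hv
            rcases Finset.mem_union.1 hv with hv | hv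
            · exact hact v (hK hv) _ (h1 v hv).1
            · exact hact v (hM hv) _ (h2 v hv).1
          intro v hv v' hv' he
          rw [← key v hv, ← key v' hv', he]
        rw [Finset.prod_image hinj, Finset.prod_union hKM,
          Finset.prod_coe_sort K (fun v => kap lam R p (h v)),
          Finset.prod_coe_sort M (fun v => kap lam R p (h v))]
  have hPsum : ∀ v : {v // v ∈ K}, ∑ q ∈ P v, kap lam R p q.1 ≤ 16 * (R : ℝ) * t := by
    intro v
    have hvW := hK v.2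
    have hPsub : P v ⊆ (Bd lam D a v.1).biUnion (fun f => (wit D (insert f a)).image
        (fun e => (f, e))) := by
      intro q hq
      simp only [P, Finset.mem_filter, Finset.mem_univ, true_and] at hq
      rw [Finset.mem_biUnion]
      refine ⟨q.1, hq.1, ?_⟩
      rw [Finset.mem_image]
      exact ⟨q.2, hq.2.1, rfl⟩
    have hPcard : (P v).card ≤ (star v.1).card * t := by
      refine (Finset.card_le_card hPsub).trans ?_
      refine Finset.card_biUnion_le.trans ?_
      calc ∑ f ∈ Bd lam D a v.1, ((wit D (insert f a)).image (fun e => (f, e))).card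
          ≤ ∑ f ∈ Bd lam D a v.1, t :=
            Finset.sum_le_sum fun f _ => Finset.card_image_le.trans (wit_card ht _)
        _ = (Bd lam D a v.1).card * t := by rw [Finset.sum_const, smul_eq_mul]
        _ ≤ (star v.1).card * t := by
            refine Nat.mul_le_mul_right _ (Finset.card_le_card ?_)
            exact (hBX v.1).trans (Finset.filter_subset _ _)
    have hval : ∀ q ∈ P v, kap lam R p q.1 = 1 / (lv lam R v.1 : ℝ) := by
      intro q hq
      simp only [P, Finset.mem_filter, Finset.mem_univ, true_and] at hq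
      exact kap_Xs (hSup v.1 hvW) (hBX v.1 hq.1)
    rw [Finset.sum_congr rfl hval, Finset.sum_const, nsmul_eq_mul]
    have hd1 := hdelr v.1
    have hl1 := hlv v.1 hvW
    have hlpos : (0 : ℝ) < (lv lam R v.1 : ℝ) := by linarith
    rw [mul_one_div, div_le_iff₀ hlpos]
    have hs : ((star v.1).card : ℝ) ≤ 16 * R * del R v.1 := by
      exact_mod_cast star_le hR (hdel v.1)
    have hPc : ((P v).card : ℝ) ≤ (star v.1).card * t := by exact_mod_cast hPcard
    have ht0 : (0 : ℝ) ≤ (t : ℝ) := Nat.cast_nonneg t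
    have hR0 : (0 : ℝ) ≤ (R : ℝ) := Nat.cast_nonneg R
    calc ((P v).card : ℝ) ≤ (star v.1).card * t := hPc
      _ ≤ (16 * R * del R v.1) * t := mul_le_mul_of_nonneg_right hs ht0
      _ ≤ (16 * R * lv lam R v.1) * t :=
          mul_le_mul_of_nonneg_right (mul_le_mul_of_nonneg_left hl1 (by positivity)) ht0
      _ = 16 * (R : ℝ) * t * lv lam R v.1 := by ring
  have hZsum : ∀ φ ∈ Fintype.piFinset P, ∀ v : {v // v ∈ M},
      ∑ f ∈ Z φ v, kap lam R p f ≤ (K.card : ℝ) / x1 := by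
    intro φ hφ v
    have hvW := hM v.2
    have hval : ∀ f ∈ Z φ v, kap lam R p f = 1 / (lv lam R v.1 : ℝ) := by
      intro f hf
      simp only [Z, Finset.mem_filter] at hf
      exact kap_Xs (hSup v.1 hvW) (hBX v.1 hf.1)
    rw [Finset.sum_congr rfl hval, Finset.sum_const, nsmul_eq_mul]
    have hd1 := hdelr v.1
    have hl1 := hlv v.1 hvW
    have hlpos : (0 : ℝ) < (lv lam R v.1 : ℝ) := by linarith
    have hxpos : (0 : ℝ) < (x1 : ℝ) := by exact_mod_cast hx1
    rw [mul_one_div, div_le_div_iff₀ hlpos hxpos]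
    have hsub : Z φ v ⊆ (Finset.univ : Finset {v // v ∈ K}).biUnion (fun r =>
        (Bd lam D a v.1).filter (fun f => (φ r).2 ∈ wit D (insert f a))) := by
      intro f hf
      simp only [Z, Finset.mem_filter] at hf
      obtain ⟨hf1, r, hr⟩ := hf
      rw [Finset.mem_biUnion]
      exact ⟨r, Finset.mem_univ _, Finset.mem_filter.2 ⟨hf1, hr⟩⟩
    have hone : ∀ r : {v // v ∈ K}, x1 * ((Bd lam D a v.1).filter
        (fun f => (φ r).2 ∈ wit D (insert f a))).card ≤ lv lam R v.1 := by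
      intro r
      have hr := (Fintype.mem_piFinset.1 hφ) r
      simp only [P, Finset.mem_filter, Finset.mem_univ, true_and] at hr
      have hq := hr.2.2
      unfold Qs at hq
      rw [Finset.mem_filter] at hq
      by_contra hcon
      exact hq ⟨Finset.mem_univ _, v.1, hvW, not_le.1 hcon⟩
    have hcard : x1 * (Z φ v).card ≤ K.card * lv lam R v.1 := by
      calc x1 * (Z φ v).card
          ≤ x1 * ∑ r : {v // v ∈ K}, ((Bd lam D a v.1).filter
            (fun f => (φ r).2 ∈ wit D (insert f a))).card :=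
            Nat.mul_le_mul_left _ ((Finset.card_le_card hsub).trans Finset.card_biUnion_le)
        _ = ∑ r : {v // v ∈ K}, x1 * ((Bd lam D a v.1).filter
            (fun f => (φ r).2 ∈ wit D (insert f a))).card := by rw [Finset.mul_sum]
        _ ≤ ∑ r : {v // v ∈ K}, lv lam R v.1 := Finset.sum_le_sum fun r _ => hone r
        _ = K.card * lv lam R v.1 := by
            rw [Finset.sum_const, smul_eq_mul, Finset.card_univ, Fintype.card_coe]
    have hcr : (x1 : ℝ) * (Z φ v).card ≤ K.card * lv lam R v.1 := by exact_mod_cast hcard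
    linarith
  have hKx : (0 : ℝ) ≤ (K.card : ℝ) / x1 := by positivity
  calc ∑ γ ∈ Gam lam R w0 x1 D a K M, ∏ e ∈ γ, kap lam R p e
      ≤ ∑ x ∈ S, (∏ v, kap lam R p (x.1 v).1) * ∏ v, kap lam R p (x.2 v) := step1
    _ = ∑ φ ∈ Fintype.piFinset P, ∑ ψ ∈ Fintype.piFinset (Z φ),
        (∏ v, kap lam R p (φ v).1) * ∏ v, kap lam R p (ψ v) := by
        simp only [S]
        rw [Finset.sum_sigma]
    _ = ∑ φ ∈ Fintype.piFinset P, (∏ v, kap lam R p (φ v).1) *
        ∏ v, ∑ f ∈ Z φ v, kap lam R p f := by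
        refine Finset.sum_congr rfl fun φ _ => ?_
        rw [← Finset.mul_sum, Finset.prod_univ_sum]
    _ ≤ ∑ φ ∈ Fintype.piFinset P, (∏ v, kap lam R p (φ v).1) *
        ((K.card : ℝ) / x1) ^ M.card := by
        refine Finset.sum_le_sum fun φ hφ => ?_
        refine mul_le_mul_of_nonneg_left ?_
          (Finset.prod_nonneg fun v _ => kap_nonneg lam R p hp _)
        calc ∏ v, ∑ f ∈ Z φ v, kap lam R p f
            ≤ ∏ _v : {v // v ∈ M}, (K.card : ℝ) / x1 := by
              refine Finset.prod_le_prod (fun v _ => ?_) (fun v _ => hZsum φ hφ v)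
              exact Finset.sum_nonneg fun f _ => kap_nonneg lam R p hp _
          _ = ((K.card : ℝ) / x1) ^ M.card := by
              rw [Finset.prod_const, Finset.card_univ, Fintype.card_coe]
    _ = (∏ v, ∑ q ∈ P v, kap lam R p q.1) * ((K.card : ℝ) / x1) ^ M.card := by
        rw [← Finset.sum_mul, Finset.prod_univ_sum]
    _ ≤ (16 * (R : ℝ) * t) ^ K.card * ((K.card : ℝ) / x1) ^ M.card := by
        refine mul_le_mul_of_nonneg_right ?_ (pow_nonneg hKx _)
        calc ∏ v, ∑ q ∈ P v, kap lam R p q.1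
            ≤ ∏ _v : {v // v ∈ K}, (16 * (R : ℝ) * t) := by
              refine Finset.prod_le_prod (fun v _ => ?_) (fun v _ => hPsum v)
              exact Finset.sum_nonneg fun f _ => kap_nonneg lam R p hp _
          _ = (16 * (R : ℝ) * t) ^ K.card := by
              rw [Finset.prod_const, Finset.card_univ, Fintype.card_coe]

theorem prf : S_BW3 := by
  intro I J _ _ lam R w0 x1 b1 t p D a hR _ hdel hp ht1 hx1 hbx ht
  let PP : Finset (Finset (I ⊕ J) × Finset (I ⊕ J)) :=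
    (((W0 lam R w0 D a).powerset.filter (fun s => s.card ≤ 6 * b1)) ×ˢ
      ((W0 lam R w0 D a).powerset.filter (fun s => s.card ≤ 6 * b1))).filter
      (fun q => Disjoint q.1 q.2 ∧ q.1.card ≤ 3 * b1 ∧ q.1.card + q.2.card = 6 * b1)
  have hsub : CB3 lam R w0 x1 b1 D a ⊆ PP.biUnion (fun q => Gam lam R w0 x1 D a q.1 q.2) := by
    intro γ hγ
    unfold CB3 at hγ
    rw [Finset.mem_filter] at hγ
    obtain ⟨-, K, hK, M, hM, hd, hc1, hc2, hh⟩ := hγ
    rw [Finset.mem_biUnion]
    refine ⟨(K, M), ?_, ?_⟩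
    · simp only [PP, Finset.mem_filter, Finset.mem_product, Finset.mem_powerset]
      exact ⟨⟨⟨hK, by omega⟩, ⟨hM, by omega⟩⟩, hd, hc1, hc2⟩
    · unfold Gam
      rw [Finset.mem_filter]
      exact ⟨Finset.mem_univ _, hh⟩
  have hPPcard : (PP.card : ℝ) ≤ ((w0 : ℝ) + 1) ^ (12 * b1) := by
    have h1 : PP.card ≤ (w0 + 1) ^ (12 * b1) := by
      calc PP.card ≤ _ := Finset.card_filter_le _ _
        _ = ((W0 lam R w0 D a).powerset.filter (fun s => s.card ≤ 6 * b1)).card *
            ((W0 lam R w0 D a).powerset.filter (fun s => s.card ≤ 6 * b1)).card :=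
            Finset.card_product _ _
        _ ≤ (w0 + 1) ^ (6 * b1) * (w0 + 1) ^ (6 * b1) := by
            have h2 := (card_small (W0 lam R w0 D a) (6 * b1)).trans
              (Nat.pow_le_pow_left (Nat.add_le_add_right W0_card_le 1) (6 * b1))
            exact Nat.mul_le_mul h2 h2
        _ = (w0 + 1) ^ (12 * b1) := by
            rw [← pow_add]
            congr 1
            ring
    exact_mod_cast h1
  have hx0 : (0 : ℝ) < (x1 : ℝ) := by exact_mod_cast hx1
  have hA1 : (1 : ℝ) ≤ 16 * (R : ℝ) * t := by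
    have h1 : (1 : ℝ) ≤ (R : ℝ) := by exact_mod_cast hR
    have h2 : (1 : ℝ) ≤ (t : ℝ) := by exact_mod_cast ht1
    nlinarith
  have hy0 : (0 : ℝ) ≤ 3 * (b1 : ℝ) / x1 := by positivity
  have hy1 : 3 * (b1 : ℝ) / x1 ≤ 1 := by
    rw [div_le_one hx0]
    exact_mod_cast hbx
  have hpair : ∀ q ∈ PP, ∑ γ ∈ Gam lam R w0 x1 D a q.1 q.2, ∏ e ∈ γ, kap lam R p e ≤
      ((16 * (R : ℝ) * t) * (3 * b1) / (x1 : ℝ)) ^ (3 * b1) := by
    intro q hq
    simp only [PP, Finset.mem_filter, Finset.mem_product, Finset.mem_powerset] at hq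
    obtain ⟨⟨⟨hK, -⟩, ⟨hM, -⟩⟩, hd, hc1, hc2⟩ := hq
    refine (pair_bound lam R w0 x1 t p D a hR hdel hp hx1 ht q.1 q.2 hK hM hd).trans ?_
    have h1 : (16 * (R : ℝ) * t) ^ q.1.card ≤ (16 * (R : ℝ) * t) ^ (3 * b1) :=
      pow_le_pow_right₀ hA1 hc1
    have h2 : ((q.1.card : ℝ) / x1) ^ q.2.card ≤ (3 * (b1 : ℝ) / x1) ^ (3 * b1) := by
      have h3 : ((q.1.card : ℝ) / x1) ≤ 3 * (b1 : ℝ) / x1 := by
        refine div_le_div_of_nonneg_right ?_ hx0.le
        exact_mod_cast hc1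
      calc ((q.1.card : ℝ) / x1) ^ q.2.card ≤ (3 * (b1 : ℝ) / x1) ^ q.2.card :=
            pow_le_pow_left₀ (by positivity) h3 _
        _ ≤ (3 * (b1 : ℝ) / x1) ^ (3 * b1) :=
            pow_le_pow_of_le_one hy0 hy1 (by omega)
    calc (16 * (R : ℝ) * t) ^ q.1.card * ((q.1.card : ℝ) / x1) ^ q.2.card
        ≤ (16 * (R : ℝ) * t) ^ (3 * b1) * (3 * (b1 : ℝ) / x1) ^ (3 * b1) :=
          mul_le_mul h1 h2 (by positivity) (by positivity)
      _ = ((16 * (R : ℝ) * t) * (3 * b1) / (x1 : ℝ)) ^ (3 * b1) := by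
          rw [← mul_pow]
          congr 1
          ring
  have hnn : ∀ γ : Finset (I × J), 0 ≤ ∏ e ∈ γ, kap lam R p e := fun γ =>
    Finset.prod_nonneg fun e _ => kap_nonneg lam R p hp e
  calc ∑ γ ∈ CB3 lam R w0 x1 b1 D a, ∏ e ∈ γ, kap lam R p e
      ≤ ∑ γ ∈ PP.biUnion (fun q => Gam lam R w0 x1 D a q.1 q.2), ∏ e ∈ γ, kap lam R p e :=
        Finset.sum_le_sum_of_subset_of_nonneg hsub fun γ _ _ => hnn γ
    _ ≤ ∑ x ∈ PP.sigma (fun q => Gam lam R w0 x1 D a q.1 q.2), ∏ e ∈ x.2, kap lam R p e := by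
        refine sum_le_of_surj _ _ (fun x => x.2) _ _ (fun x _ => hnn x.2) ?_
        intro γ hγ
        rw [Finset.mem_biUnion] at hγ
        obtain ⟨q, hq, hγ⟩ := hγ
        exact ⟨⟨q, γ⟩, Finset.mem_sigma.2 ⟨hq, hγ⟩, rfl, le_rfl⟩
    _ = ∑ q ∈ PP, ∑ γ ∈ Gam lam R w0 x1 D a q.1 q.2, ∏ e ∈ γ, kap lam R p e := by
        rw [Finset.sum_sigma]
    _ ≤ ∑ q ∈ PP, ((16 * (R : ℝ) * t) * (3 * b1) / (x1 : ℝ)) ^ (3 * b1) :=
        Finset.sum_le_sum hpair
    _ = (PP.card : ℝ) * ((16 * (R : ℝ) * t) * (3 * b1) / (x1 : ℝ)) ^ (3 * b1) := by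
        rw [Finset.sum_const, nsmul_eq_mul]
    _ ≤ ((w0 : ℝ) + 1) ^ (12 * b1) *
        ((16 * (R : ℝ) * t) * (3 * b1) / (x1 : ℝ)) ^ (3 * b1) := by
        refine mul_le_mul_of_nonneg_right hPPcard ?_
        positivity

end Pool.Agent.Work.MP_f7ef37_lc.OP.NBW3
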