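import Pool.Agent.Work.MP_f7ef37_lc.OP.Stmts

/-!
# CLAIMB: certificates from a matching of the superheavy vertices
-/

set_option autoImplicit false

open Classical

namespace Pool.Agent.Work.MP_f7ef37_lc.OP.NCLAIMB

/-- Greedy choice. -/
theorem greedy {V E : Type} (h g : V → E) : ∀ (b : ℕ) (S : Finset V), 3 * b ≤ S.card →
    Set.InjOn h S → Set.InjOn g S → (∀ v ∈ S, g v ≠ h v) →
    ∃ U ⊆ S, U.card = b ∧ ∀ v ∈ U, ∀ v' ∈ U, h v ≠ g v' := by
  intro b
  induction b with
  | zero =>
    intro S _ _ _ _
    exact ⟨∅, Finset.empty_subset _, rfl, fun v hv => absurd hv (Finset.notMem_empty v)⟩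
  | succ b ih =>
    intro S hS hh hg hne
    obtain ⟨x, hx⟩ : S.Nonempty := Finset.card_pos.1 (by omega)
    have c1 : (S.filter (fun y => g y = h x)).card ≤ 1 := by
      rw [Finset.card_le_one]
      intro y hy z hz
      rw [Finset.mem_filter] at hy hz
      exact hg hy.1 hz.1 (hy.2.trans hz.2.symm)
    have c2 : (S.filter (fun y => h y = g x)).card ≤ 1 := by
      rw [Finset.card_le_one]
      intro y hy z hz
      rw [Finset.mem_filter] at hy hz
      exact hh hy.1 hz.1 (hy.2.trans hz.2.symm)
    set S' := S.filter (fun y => y ≠ x ∧ g y ≠ h x ∧ h y ≠ g x) with hS'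
    have hcov : S ⊆ S' ∪ ({x} ∪ ((S.filter (fun y => g y = h x)) ∪
        (S.filter (fun y => h y = g x)))) := by
      intro y hy
      simp only [hS', Finset.mem_union, Finset.mem_filter, Finset.mem_singleton]
      tauto
    have hcard : 3 * b ≤ S'.card := by
      have e1 := Finset.card_le_card hcov
      have e2 := Finset.card_union_le S' ({x} ∪ ((S.filter (fun y => g y = h x)) ∪
        (S.filter (fun y => h y = g x))))
      have e3 := Finset.card_union_le ({x} : Finset V) ((S.filter (fun y => g y = h x)) ∪
        (S.filter (fun y => h y = g x)))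
      have e4 := Finset.card_union_le (S.filter (fun y => g y = h x))
        (S.filter (fun y => h y = g x))
      rw [Finset.card_singleton] at e3
      omega
    have hsub : S' ⊆ S := Finset.filter_subset _ _
    obtain ⟨U, hU1, hU2, hU3⟩ := ih S' hcard (hh.mono (by exact_mod_cast hsub))
      (hg.mono (by exact_mod_cast hsub)) (fun v hv => hne v (hsub hv))
    have hxU : x ∉ U := by
      intro hxU
      have := hU1 hxU
      rw [hS', Finset.mem_filter] at this
      exact this.2.1 rfl
    refine ⟨insert x U, Finset.insert_subset hx (hU1.trans hsub), ?_, ?_⟩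
    · rw [Finset.card_insert_of_notMem hxU, hU2]
    · intro v hv v' hv'
      rcases Finset.mem_insert.1 hv with rfl | hv1 <;>
        rcases Finset.mem_insert.1 hv' with rfl | hv1'
      · exact fun h1 => hne _ hx h1.symm
      · have := hU1 hv1'
        rw [hS', Finset.mem_filter] at this
        exact fun h1 => this.2.2.1 h1.symm
      · have := hU1 hv1
        rw [hS', Finset.mem_filter] at this
        exact this.2.2.2
      · exact hU3 v hv1 v' hv1'

/-- Representatives of the values of a function. -/
theorem reps {V E : Type} [DecidableEq E] (g : V → E) (S : Finset V) : ∃ K ⊆ S, Set.InjOn g K ∧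
    K.image g = S.image g := by
  obtain ⟨u, hu1, hu2, hu3⟩ := Finset.exists_subset_injOn_image_eq_of_surjOn S
    ((S.image g)) (f := g) (by
      intro y hy
      simpa using hy)
  exact ⟨u, hu1, hu2, hu3⟩

theorem prf : S_CLAIMB := by
  intro I J _ _ lam R w0 x1 b1 D a b h hb hab hW hhit hpop
  set W := W0 lam R w0 D a with hWdef
  have hinj : Set.InjOn h W := by
    intro v hv v' hv' he
    have hv : v ∈ W := hv
    have hv' : v' ∈ W := hv'
    have s1 := W0_sub hv
    have s2 := W0_sub hv'
    obtain ⟨_, m1, _⟩ := hW v hv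
    obtain ⟨_, m2, _⟩ := hW v' hv'
    rw [mem_Xs] at m1 m2
    rw [← (act_eq s1.2.1 m1.1 m1.2).2, ← (act_eq s2.2.1 m2.1 m2.2).2, he]
  set Bnd := W.filter (fun v => h v ∈ Bd lam D a v) with hBnd
  by_cases hc : Bnd.card < 6 * b1
  · refine ⟨(W \ Bnd).image h, ?_, ?_⟩
    · refine Finset.mem_union_left _ (Finset.mem_union_left _ ?_)
      unfold CB1
      rw [Finset.mem_filter]
      refine ⟨Finset.mem_univ _, Bnd, Finset.filter_subset _ _, hc, h, ?_, rfl⟩
      intro v hv
      rw [Finset.mem_sdiff, hBnd, Finset.mem_filter, not_and] at hv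
      obtain ⟨hv1, hv2⟩ := hv
      obtain ⟨_, m1, m2⟩ := hW v hv1
      unfold Fr
      rw [Finset.mem_filter]
      refine ⟨m1, m2, fun ho => hv2 hv1 ?_⟩
      unfold Bd
      rw [Finset.mem_filter]
      exact ⟨m1, m2, ho⟩
    · intro e he
      rw [Finset.mem_image] at he
      obtain ⟨v, hv, rfl⟩ := he
      exact (hW v (Finset.mem_sdiff.1 hv).1).1
  · push Not at hc
    obtain ⟨V, hV1, hV2⟩ := Finset.exists_subset_card_eq hc
    have hVW : V ⊆ W := hV1.trans (Finset.filter_subset _ _)
    have hVB : ∀ v ∈ V, h v ∈ Bd lam D a v := fun v hv => (Finset.mem_filter.1 (hV1 hv)).2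
    have hex : ∀ v, ∃ e, v ∈ V → e ∈ wit D (insert (h v) a) ∧ e ∈ b := by
      intro v
      by_cases hv : v ∈ V
      · obtain ⟨e, he1, he2⟩ := hhit v (hVW hv) (hVB v hv)
        exact ⟨e, fun _ => ⟨he1, he2⟩⟩
      · exact ⟨h v, fun h1 => absurd h1 hv⟩
    choose g hg using hex
    have hgne : ∀ v ∈ V, g v ≠ h v := by
      intro v hv he
      have := wit_notMem (hg v hv).1
      rw [he] at this
      exact this (Finset.mem_insert_self _ _)
    obtain ⟨K, hK1, hK2, hK3⟩ := reps g V
    have hKc : K.card = (V.image g).card := by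
      rw [← hK3, Finset.card_image_of_injOn hK2]
    by_cases hc2 : 3 * b1 ≤ (V.image g).card
    · obtain ⟨U, hU1, hU2, hU3⟩ := greedy h g b1 K (by rw [hKc]; exact hc2)
        (hinj.mono (by exact_mod_cast hK1.trans hVW)) hK2 (fun v hv => hgne v (hK1 hv))
      have hUV : U ⊆ V := hU1.trans hK1
      refine ⟨U.image h ∪ U.image g, ?_, ?_⟩
      · refine Finset.mem_union_left _ (Finset.mem_union_right _ ?_)
        unfold CB2
        rw [Finset.mem_filter]
        refine ⟨Finset.mem_univ _, U, hUV.trans hVW, hU2, h, g,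
          fun v hv => ⟨hVB v (hUV hv), (hg v (hUV hv)).1⟩, rfl, ?_⟩
        rw [Finset.card_union_of_disjoint]
        · rw [Finset.card_image_of_injOn (hinj.mono (by exact_mod_cast hUV.trans hVW)),
            Finset.card_image_of_injOn (hK2.mono (by exact_mod_cast hU1)), hU2]
          ring
        · rw [Finset.disjoint_left]
          intro e he1 he2
          rw [Finset.mem_image] at he1 he2
          obtain ⟨v, hv, rfl⟩ := he1
          obtain ⟨v', hv', he⟩ := he2
          exact hU3 v hv v' hv' he.symm
      · intro e he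
        rw [Finset.mem_union, Finset.mem_image, Finset.mem_image] at he
        rcases he with ⟨v, hv, rfl⟩ | ⟨v, hv, rfl⟩
        · exact (hW v (hVW (hUV hv))).1
        · exact (hg v (hUV hv)).2
    · push Not at hc2
      refine ⟨(K ∪ (V \ K)).image h, ?_, ?_⟩
      · refine Finset.mem_union_right _ ?_
        unfold CB3
        rw [Finset.mem_filter]
        refine ⟨Finset.mem_univ _, K, hK1.trans hVW, V \ K, Finset.sdiff_subset.trans hVW,
          Finset.disjoint_sdiff, by rw [hKc]; exact hc2.le, ?_, h, g, ?_, ?_, rfl⟩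
        · rw [Finset.card_sdiff_of_subset hK1, hV2]
          have := Finset.card_le_card hK1
          rw [hV2] at this
          omega
        · intro v hv
          exact ⟨hVB v (hK1 hv), (hg v (hK1 hv)).1, hpop _ (hg v (hK1 hv)).2⟩
        · intro v hv
          have hvV := (Finset.mem_sdiff.1 hv).1
          refine ⟨hVB v hvV, ?_⟩
          have h1 : g v ∈ K.image g := by
            rw [hK3]
            exact Finset.mem_image_of_mem _ hvV
          rw [Finset.mem_image] at h1
          obtain ⟨r, hr, hr2⟩ := h1
          refine ⟨r, hr, ?_⟩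
          rw [hr2]
          exact (hg v hvV).1
      · intro e he
        rw [Finset.mem_image] at he
        obtain ⟨v, hv, rfl⟩ := he
        have hvV : v ∈ V := by
          rw [Finset.mem_union] at hv
          rcases hv with hv | hv
          · exact hK1 hv
          · exact (Finset.mem_sdiff.1 hv).1
        exact (hW v (hVW hvV)).1

end Pool.Agent.Work.MP_f7ef37_lc.OP.NCLAIMB
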