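import Pool.Agent.Work.MP_f7ef37_lc.OP.Stmts

/-!
# [f7ef37 OP EMPTY]: the empty matching is stable for the empty line
-/

set_option autoImplicit false

open Classical

namespace Pool.Agent.Work.MP_f7ef37_lc.OP.NEMPTY

open Pool.Agent.Work.MP_f7ef37_lc.OP

theorem prf : S_EMPTY := by
  intro I J _ _ lam R hR hlam hstar
  have hno : ∀ c : Finset (I × J), ¬ Opn (∅ : Ln I J) c := by
    rintro c ⟨T, hT, _⟩
    exact absurd hT (Finset.notMem_empty T)
  refine ⟨hno ∅, fun y hy => absurd hy (Finset.notMem_empty y), fun v _ => ?_⟩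
  have hphi : phi (∅ : Ln I J) ∅ (Xs lam v) = (Xs lam v).card := by
    unfold phi
    rw [Finset.filter_true_of_mem]
    intro f _
    exact ⟨fun e he => absurd he (Finset.notMem_empty e), hno _⟩
  rw [hphi]
  have h1 : lv lam R v ≤ R * del R v := Nat.mul_le_mul_right _ (hlam v)
  have h2 : 8 * R * del R v ≤ (star v).card := by
    unfold del
    exact Nat.mul_div_le _ _
  have h3 := hstar v
  have h4 : del R v ≤ R * del R v := Nat.le_mul_of_pos_left _ hR
  have h5 : 8 * R * del R v = 8 * (R * del R v) := by ring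
  omega

end Pool.Agent.Work.MP_f7ef37_lc.OP.NEMPTY
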