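import Pool.Agent.Work.MP_f7ef37_lc.OP.Stmts

/-!
# Item [f7ef37 OP EXT]: extension from a stable matching
-/

set_option autoImplicit false

open Classical

namespace Pool.Agent.Work.MP_f7ef37_lc.OP.NEXT

variable {I J : Type} [Fintype I] [Fintype J]

theorem exists_of_phi {D : Ln I J} {b Z : Finset (I × J)} (h : 1 ≤ phi D b Z) :
    ∃ f ∈ Z, NA b f ∧ ¬ Opn D (insert f b) := by
  unfold phi at h
  obtain ⟨f, hf⟩ := Finset.card_pos.1 h
  rw [Finset.mem_filter] at hf
  exact ⟨f, hf.1, hf.2⟩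

theorem pp_of {lam : I ⊕ J → ℕ} {v : I ⊕ J} {f : I × J} (hv : lam v = 0) (h1 : Inc v f)
    (h2 : lam (oth v f) = 0) : PP lam f := by
  cases v with
  | inl i =>
    simp only [Inc] at h1
    simp only [oth] at h2
    subst h1
    exact ⟨hv, h2⟩
  | inr j =>
    simp only [Inc] at h1
    simp only [oth] at h2
    subst h1
    exact ⟨h2, hv⟩

theorem prf : S_PHI → S_EXT := by
  intro hPHI I J _ _ lam R G C A D Y c N K2 W hA hT hAc hS hW hP hG
  refine ⟨fun b hb => hb.2.1, ?_⟩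
  intro b v hb hbW
  obtain ⟨hcb, hAb, hOb⟩ := hb
  by_cases hcov : Cov b v
  · exact ⟨b, Finset.Subset.refl b, ⟨hcb, hAb, hOb⟩, hcov, Nat.le_succ _⟩
  have hM : Mat b := hA.mat b hAb
  obtain ⟨hS1, hS2, hS3⟩ := hS
  have hvY : v ∉ Y := fun hv => hcov ((hS2 v hv).mono hcb)
  have hcovc : ¬ Cov c v := fun h => hcov (h.mono hcb)
  have fin : ∀ f : I × J, Inc v f → NA b f → ¬ Opn D (insert f b) → A (insert f b) →
      ∃ b', b ⊆ b' ∧ (c ⊆ b' ∧ A b' ∧ ¬ Opn D b') ∧ Cov b' v ∧ b'.card ≤ b.card + 1 := by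
    intro f h1 _ h3 h4
    exact ⟨insert f b, Finset.subset_insert f b,
      ⟨hcb.trans (Finset.subset_insert f b), h4, h3⟩,
      ⟨f, Finset.mem_insert_self f b, h1⟩, Finset.card_insert_le f b⟩
  by_cases hv0 : lam v = 0
  · have hsub : Xs lam v ∩ G ⊆ star v := by
      intro f hf
      exact mem_star.2 (mem_Xs.1 (Finset.mem_inter.1 hf).1).1
    have h1 := hPHI I J D Y c b (Xs lam v ∩ G) v K2 hsub hcb hM hOb hS2 hcov (by
      intro e he hav
      refine le_trans (Finset.card_le_card ?_) (hG e v he hav hvY)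
      intro f hf
      rw [Finset.mem_inter] at hf ⊢
      exact ⟨hf.1, (Finset.mem_inter.1 hf.2).2⟩)
    have h2 := hP v hv0 hcovc
    have h3 : b.card * (K2 + 1) ≤ W * (K2 + 1) := Nat.mul_le_mul_right _ hbW.le
    have h4 : 1 ≤ phi D b (Xs lam v ∩ G) := by omega
    obtain ⟨f, hf, hna, hno⟩ := exists_of_phi h4
    obtain ⟨hf1, hf2⟩ := Finset.mem_inter.1 hf
    obtain ⟨hi, ho⟩ := mem_Xs.1 hf1
    exact fin f hi hna hno (hA.passive b f hAb (pp_of hv0 hi ho) hf2 hna)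
  · have hsub : Xs lam v ⊆ star v := fun f hf => mem_star.2 (mem_Xs.1 hf).1
    have h1 := hPHI I J D Y c b (Xs lam v) v N hsub hcb hM hOb hS2 hcov (by
      intro e he hav
      exact le_trans (Finset.card_le_card Finset.inter_subset_left) (hT e v he hav hvY))
    have h2 := hS3 v hcovc
    have h3 : b.card * (N + 1) ≤ W * (N + 1) := Nat.mul_le_mul_right _ hbW.le
    have h5 := hW v
    have h4 : lv lam R v ≤ phi D b (Xs lam v) := by omega
    obtain ⟨f, hf, hAf⟩ := hA.active b v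
      ((Xs lam v).filter (fun f => NA b f ∧ ¬ Opn D (insert f b))) hAb hv0 hcov
      (Finset.filter_subset _ _) h4 (fun f hf => (Finset.mem_filter.1 hf).2.1)
    obtain ⟨hf1, hna, hno⟩ := Finset.mem_filter.1 hf
    exact fin f (mem_Xs.1 hf1).1 hna hno hAf

end Pool.Agent.Work.MP_f7ef37_lc.OP.NEXT
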