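import Pool.Agent.Work.MP_f7ef37_lc.OP.Stmts2

/-!
# Item FILT of the block [f7ef37 OP]
-/

set_option autoImplicit false

open Classical

namespace Pool.Agent.Work.MP_f7ef37_lc.OP.NFILT

/-- Exponential moments by counting. -/
theorem moment {V X : Type} [Fintype V] [Fintype X] (P : V → X → Prop)
    [∀ v x, Decidable (P v x)] (b : ℝ) :
    ∑ ω : V → X, b ^ (Finset.univ.filter (fun v => P v (ω v))).card
      = ∏ v : V, ((Fintype.card X : ℝ) +
          (b - 1) * ((Finset.univ.filter (fun x => P v x)).card : ℝ)) := by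
  have h1 : ∀ v : V, ((Fintype.card X : ℝ) +
      (b - 1) * ((Finset.univ.filter (fun x => P v x)).card : ℝ))
      = ∑ x : X, (if P v x then b else 1) := by
    intro v
    have h : ∀ x : X, (if P v x then b else (1 : ℝ)) = 1 + (b - 1) * (if P v x then 1 else 0) := by
      intro x
      split_ifs <;> ring
    rw [Finset.sum_congr rfl (fun x _ => h x), Finset.sum_add_distrib, ← Finset.mul_sum,
      Finset.sum_boole]
    simp
  have h2 : ∀ ω : V → X, b ^ (Finset.univ.filter (fun v => P v (ω v))).card
      = ∏ v : V, (if P v (ω v) then b else 1) := by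
    intro ω
    rw [Finset.prod_ite, Finset.prod_const, Finset.prod_const_one, mul_one]
  rw [Finset.sum_congr rfl (fun ω _ => h2 ω), Finset.prod_congr rfl (fun v _ => h1 v),
    Finset.prod_univ_sum]
  simp [Fintype.piFinset_univ]

/-- Markov for the lower tail. -/
theorem low {V X : Type} [Fintype V] [Fintype X] (P : V → X → Prop)
    [∀ v x, Decidable (P v x)] (w0 : ℕ) (hN : 0 < Fintype.card X) :
    (((Finset.univ : Finset (V → X)).filter
      (fun ω => (Finset.univ.filter (fun v => P v (ω v))).card < w0)).card : ℝ)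
      ≤ 2 ^ w0 * ((Fintype.card X : ℝ) ^ Fintype.card V *
        Real.exp (∑ v : V, -(((Finset.univ.filter (fun x => P v x)).card : ℝ) /
          (2 * Fintype.card X)))) := by
  have hN' : (0 : ℝ) < Fintype.card X := by exact_mod_cast hN
  have h1 : (((Finset.univ : Finset (V → X)).filter
      (fun ω => (Finset.univ.filter (fun v => P v (ω v))).card < w0)).card : ℝ)
      ≤ ∑ ω : V → X, 2 ^ w0 * (1 / 2 : ℝ) ^ (Finset.univ.filter (fun v => P v (ω v))).card := by
    rw [← Finset.sum_boole]
    apply Finset.sum_le_sum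
    intro ω _
    split_ifs with h
    · have h3 : (1 / 2 : ℝ) ^ w0 ≤
          (1 / 2 : ℝ) ^ (Finset.univ.filter (fun v => P v (ω v))).card :=
        pow_le_pow_of_le_one (by norm_num) (by norm_num) h.le
      calc (1 : ℝ) = 2 ^ w0 * (1 / 2 : ℝ) ^ w0 := by
            rw [← mul_pow]; norm_num
        _ ≤ _ := by
            apply mul_le_mul_of_nonneg_left h3 (by positivity)
    · positivity
  refine h1.trans ?_
  rw [← Finset.mul_sum, moment]
  apply mul_le_mul_of_nonneg_left _ (by positivity)
  rw [Real.exp_sum, ← Finset.card_univ (α := V), ← Finset.prod_const, ← Finset.prod_mul_distrib]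
  apply Finset.prod_le_prod
  · intro v _
    have h2 : ((Finset.univ.filter (fun x => P v x)).card : ℝ) ≤ Fintype.card X := by
      exact_mod_cast Finset.card_le_univ _
    linarith
  · intro v _
    have h2 := Real.add_one_le_exp
      (-(((Finset.univ.filter (fun x => P v x)).card : ℝ) / (2 * Fintype.card X)))
    calc (Fintype.card X : ℝ) + (1 / 2 - 1) * ((Finset.univ.filter (fun x => P v x)).card : ℝ)
        = (Fintype.card X : ℝ) *
          (-(((Finset.univ.filter (fun x => P v x)).card : ℝ) / (2 * Fintype.card X)) + 1) := by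
          field_simp
          ring
      _ ≤ _ := mul_le_mul_of_nonneg_left h2 hN'.le

/-- Markov for the upper tail. -/
theorem high {V X : Type} [Fintype V] [Fintype X] (P : V → X → Prop)
    [∀ v x, Decidable (P v x)] (K : ℕ) (hN : 0 < Fintype.card X) :
    (((Finset.univ : Finset (V → X)).filter
      (fun ω => K < (Finset.univ.filter (fun v => P v (ω v))).card)).card : ℝ)
      ≤ Real.exp (-(K : ℝ)) * ((Fintype.card X : ℝ) ^ Fintype.card V *
        Real.exp (∑ v : V, 2 * (((Finset.univ.filter (fun x => P v x)).card : ℝ) /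
          (Fintype.card X)))) := by
  have hN' : (0 : ℝ) < Fintype.card X := by exact_mod_cast hN
  have he : Real.exp 1 - 1 ≤ 2 := by
    have := Real.exp_one_lt_d9
    linarith
  have he1 : 1 ≤ Real.exp 1 := by
    have := Real.exp_one_gt_d9
    linarith
  have h1 : (((Finset.univ : Finset (V → X)).filter
      (fun ω => K < (Finset.univ.filter (fun v => P v (ω v))).card)).card : ℝ)
      ≤ ∑ ω : V → X, Real.exp (-(K : ℝ)) *
        (Real.exp 1) ^ (Finset.univ.filter (fun v => P v (ω v))).card := by
    rw [← Finset.sum_boole]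
    apply Finset.sum_le_sum
    intro ω _
    split_ifs with h
    · rw [← Real.exp_nat_mul, mul_one, ← Real.exp_add]
      have h3 : (K : ℝ) ≤ (Finset.univ.filter (fun v => P v (ω v))).card := by
        exact_mod_cast h.le
      apply Real.one_le_exp
      linarith
    · positivity
  refine h1.trans ?_
  rw [← Finset.mul_sum, moment]
  apply mul_le_mul_of_nonneg_left _ (by positivity)
  rw [Real.exp_sum, ← Finset.card_univ (α := V), ← Finset.prod_const, ← Finset.prod_mul_distrib]
  apply Finset.prod_le_prod
  · intro v _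
    have h2 : (0 : ℝ) ≤ ((Finset.univ.filter (fun x => P v x)).card : ℝ) := by positivity
    have h3 : 0 ≤ (Real.exp 1 - 1) * ((Finset.univ.filter (fun x => P v x)).card : ℝ) :=
      mul_nonneg (by linarith) h2
    linarith
  · intro v _
    have h2 := Real.add_one_le_exp
      (2 * (((Finset.univ.filter (fun x => P v x)).card : ℝ) / (Fintype.card X)))
    have h0 : (0 : ℝ) ≤ ((Finset.univ.filter (fun x => P v x)).card : ℝ) := by positivity
    calc (Fintype.card X : ℝ) +
          (Real.exp 1 - 1) * ((Finset.univ.filter (fun x => P v x)).card : ℝ)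
        ≤ (Fintype.card X : ℝ) + 2 * ((Finset.univ.filter (fun x => P v x)).card : ℝ) := by
          have := mul_le_mul_of_nonneg_right he h0
          linarith
      _ = (Fintype.card X : ℝ) *
          (2 * (((Finset.univ.filter (fun x => P v x)).card : ℝ) / (Fintype.card X)) + 1) := by
          field_simp
          ring
      _ ≤ _ := mul_le_mul_of_nonneg_left h2 hN'.le

/-- The number of `x` with `r < lev R x`, and with `r ≤ lev R x`. -/
theorem cnt (hL : S_LEV) (R r : ℕ) :
    ((Finset.univ : Finset (Fin (2 ^ R))).filter (fun x => r ≤ lev R x)).card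
      ≤ 2 * ((Finset.univ : Finset (Fin (2 ^ R))).filter (fun x => r < lev R x)).card + 1 := by
  obtain ⟨h1, h2⟩ := hL R
  rcases lt_trichotomy r R with h | h | h
  · rw [h2 r h.le]
    have h3 : ((Finset.univ : Finset (Fin (2 ^ R))).filter (fun x => r < lev R x)).card
        = 2 ^ (R - (r + 1)) := h2 (r + 1) h
    rw [h3, ← pow_succ']
    have h4 : R - (r + 1) + 1 = R - r := by omega
    rw [h4]
    omega
  · rw [h2 r h.le, h]
    simp
  · have h3 : ((Finset.univ : Finset (Fin (2 ^ R))).filter (fun x => r ≤ lev R x)) = ∅ := by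
      apply Finset.filter_false_of_mem
      intro x _ h4
      have := h1 x
      omega
    rw [h3]
    simp

theorem prf : S_LEV → S_FILT := by
  intro hL V _ R w0 r hw hV
  have hN : 0 < Fintype.card (Fin (2 ^ R)) := by
    rw [Fintype.card_fin]
    positivity
  have hNc : ((Fintype.card (Fin (2 ^ R)) : ℕ) : ℝ) = 2 ^ R := by
    rw [Fintype.card_fin]
    push_cast
    rfl
  have hp : (0 : ℝ) < 2 ^ R := by positivity
  have hw' : (1 : ℝ) ≤ w0 := by exact_mod_cast hw
  have hV' : ((Fintype.card V : ℕ) : ℝ) ≤ 2 ^ R := by exact_mod_cast hV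
  have hlow := low (V := V) (fun v (x : Fin (2 ^ R)) => r v < lev R x) w0 hN
  have hhigh := high (V := V) (fun v (x : Fin (2 ^ R)) => r v ≤ lev R x) (30 * w0) hN
  rw [hNc] at hlow hhigh
  by_cases hA : (4 * w0 : ℝ) ≤ ∑ v : V,
      (((Finset.univ : Finset (Fin (2 ^ R))).filter (fun x => r v < lev R x)).card : ℝ) / 2 ^ R
  · have hsub : (((Finset.univ : Finset (V → Fin (2 ^ R))).filter (fun ω =>
        (Finset.univ.filter (fun v => r v < lev R (ω v))).card < w0 ∧
        30 * w0 < (Finset.univ.filter (fun v => r v ≤ lev R (ω v))).card)).card : ℝ)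
        ≤ (((Finset.univ : Finset (V → Fin (2 ^ R))).filter (fun ω =>
        (Finset.univ.filter (fun v => r v < lev R (ω v))).card < w0)).card : ℝ) := by
      have := Finset.card_le_card (s := ((Finset.univ : Finset (V → Fin (2 ^ R))).filter (fun ω =>
        (Finset.univ.filter (fun v => r v < lev R (ω v))).card < w0 ∧
        30 * w0 < (Finset.univ.filter (fun v => r v ≤ lev R (ω v))).card)))
        (t := ((Finset.univ : Finset (V → Fin (2 ^ R))).filter (fun ω =>
        (Finset.univ.filter (fun v => r v < lev R (ω v))).card < w0)))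
        (fun ω hω => by
          rw [Finset.mem_filter] at hω ⊢
          exact ⟨hω.1, hω.2.1⟩)
      exact_mod_cast this
    refine hsub.trans (hlow.trans ?_)
    have h2 : (2 : ℝ) ^ w0 ≤ Real.exp w0 := by
      rw [← mul_one (w0 : ℝ), Real.exp_nat_mul]
      apply pow_le_pow_left₀ (by norm_num)
      have := Real.exp_one_gt_d9
      linarith
    have h3 : ∑ v : V, -((((Finset.univ : Finset (Fin (2 ^ R))).filter
        (fun x => r v < lev R x)).card : ℝ) / (2 * 2 ^ R)) ≤ -(2 * w0 : ℝ) := by
      have h4 : ∀ v : V, -((((Finset.univ : Finset (Fin (2 ^ R))).filter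
        (fun x => r v < lev R x)).card : ℝ) / (2 * 2 ^ R)) = (-1 / 2) *
        ((((Finset.univ : Finset (Fin (2 ^ R))).filter (fun x => r v < lev R x)).card : ℝ) /
          2 ^ R) := by
        intro v
        field_simp
      rw [Finset.sum_congr rfl (fun v _ => h4 v), ← Finset.mul_sum]
      linarith
    calc (2 : ℝ) ^ w0 * ((2 ^ R) ^ Fintype.card V * Real.exp (∑ v : V,
          -((((Finset.univ : Finset (Fin (2 ^ R))).filter
          (fun x => r v < lev R x)).card : ℝ) / (2 * 2 ^ R))))
        ≤ Real.exp w0 * ((2 ^ R) ^ Fintype.card V * Real.exp (-(2 * w0 : ℝ))) := by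
          gcongr
      _ = Real.exp (-(w0 : ℝ)) * (2 ^ R) ^ Fintype.card V := by
          have : Real.exp (w0 : ℝ) * Real.exp (-(2 * w0 : ℝ)) = Real.exp (-(w0 : ℝ)) := by
            rw [← Real.exp_add]
            congr 1
            ring
          rw [← this]
          ring
      _ ≤ 2 * Real.exp (-(w0 : ℝ) / 8) * (2 ^ R) ^ Fintype.card V := by
          apply mul_le_mul_of_nonneg_right _ (by positivity)
          have h5 : Real.exp (-(w0 : ℝ)) ≤ Real.exp (-(w0 : ℝ) / 8) :=
            Real.exp_le_exp.2 (by linarith)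
          have h6 := Real.exp_pos (-(w0 : ℝ) / 8)
          linarith
  · have hsub : (((Finset.univ : Finset (V → Fin (2 ^ R))).filter (fun ω =>
        (Finset.univ.filter (fun v => r v < lev R (ω v))).card < w0 ∧
        30 * w0 < (Finset.univ.filter (fun v => r v ≤ lev R (ω v))).card)).card : ℝ)
        ≤ (((Finset.univ : Finset (V → Fin (2 ^ R))).filter (fun ω =>
        30 * w0 < (Finset.univ.filter (fun v => r v ≤ lev R (ω v))).card)).card : ℝ) := by
      have := Finset.card_le_card (s := ((Finset.univ : Finset (V → Fin (2 ^ R))).filter (fun ω =>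
        (Finset.univ.filter (fun v => r v < lev R (ω v))).card < w0 ∧
        30 * w0 < (Finset.univ.filter (fun v => r v ≤ lev R (ω v))).card)))
        (t := ((Finset.univ : Finset (V → Fin (2 ^ R))).filter (fun ω =>
        30 * w0 < (Finset.univ.filter (fun v => r v ≤ lev R (ω v))).card)))
        (fun ω hω => by
          rw [Finset.mem_filter] at hω ⊢
          exact ⟨hω.1, hω.2.2⟩)
      exact_mod_cast this
    refine hsub.trans (hhigh.trans ?_)
    have h3 : ∑ v : V, 2 * ((((Finset.univ : Finset (Fin (2 ^ R))).filter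
        (fun x => r v ≤ lev R x)).card : ℝ) / 2 ^ R) ≤ 16 * w0 + 2 := by
      have h4 : ∀ v ∈ (Finset.univ : Finset V), 2 * ((((Finset.univ : Finset (Fin (2 ^ R))).filter
        (fun x => r v ≤ lev R x)).card : ℝ) / 2 ^ R) ≤ 4 *
        ((((Finset.univ : Finset (Fin (2 ^ R))).filter (fun x => r v < lev R x)).card : ℝ) /
          2 ^ R) + 2 * (1 / 2 ^ R) := by
        intro v _
        have h5 : (((Finset.univ : Finset (Fin (2 ^ R))).filter (fun x => r v ≤ lev R x)).card : ℝ)
            ≤ 2 * (((Finset.univ : Finset (Fin (2 ^ R))).filter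
              (fun x => r v < lev R x)).card : ℝ) + 1 := by
          exact_mod_cast cnt hL R (r v)
        have h6 := div_le_div_of_nonneg_right h5 hp.le
        rw [add_div, mul_div_assoc] at h6
        linarith
      refine (Finset.sum_le_sum h4).trans ?_
      rw [Finset.sum_add_distrib, ← Finset.mul_sum, Finset.sum_const, Finset.card_univ,
        nsmul_eq_mul]
      have h7 : ((Fintype.card V : ℕ) : ℝ) * (2 * (1 / 2 ^ R)) ≤ 2 := by
        have : ((Fintype.card V : ℕ) : ℝ) / 2 ^ R ≤ 1 := (div_le_one hp).2 hV'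
        calc ((Fintype.card V : ℕ) : ℝ) * (2 * (1 / 2 ^ R))
            = 2 * (((Fintype.card V : ℕ) : ℝ) / 2 ^ R) := by ring
          _ ≤ 2 * 1 := by linarith
          _ = 2 := by norm_num
      linarith
    have h8 : Real.exp (-((30 * w0 : ℕ) : ℝ)) * Real.exp (16 * w0 + 2)
        ≤ Real.exp (-(w0 : ℝ) / 8) := by
      rw [← Real.exp_add]
      apply Real.exp_le_exp.2
      push_cast
      linarith
    calc Real.exp (-((30 * w0 : ℕ) : ℝ)) * ((2 ^ R) ^ Fintype.card V * Real.exp (∑ v : V,
          2 * ((((Finset.univ : Finset (Fin (2 ^ R))).filter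
          (fun x => r v ≤ lev R x)).card : ℝ) / 2 ^ R)))
        ≤ Real.exp (-((30 * w0 : ℕ) : ℝ)) *
          ((2 ^ R) ^ Fintype.card V * Real.exp (16 * w0 + 2)) := by
          gcongr
      _ = (Real.exp (-((30 * w0 : ℕ) : ℝ)) * Real.exp (16 * w0 + 2)) *
          (2 ^ R) ^ Fintype.card V := by ring
      _ ≤ 2 * Real.exp (-(w0 : ℝ) / 8) * (2 ^ R) ^ Fintype.card V := by
          apply mul_le_mul_of_nonneg_right _ (by positivity)
          have h6 := Real.exp_pos (-(w0 : ℝ) / 8)
          linarith

end Pool.Agent.Work.MP_f7ef37_lc.OP.NFILT
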