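import Pool.Agent.Work.MP_f7ef37_lc.OP.Stmts2

/-!
# Block [f7ef37 OP], item GP: the random set of passive-passive edges
-/

set_option autoImplicit false

open Classical

namespace Pool.Agent.Work.MP_f7ef37_lc.OP.NGP

/-- At most `(card E + 1) ^ k` subsets of `E` have at most `k` elements. -/
theorem card_small (E : Type) [Fintype E] (k : ℕ) :
    ((Finset.univ : Finset (Finset E)).filter (fun c => c.card ≤ k)).card
      ≤ (Fintype.card E + 1) ^ k := by
  induction k with
  | zero =>
    have h : ((Finset.univ : Finset (Finset E)).filter (fun c => c.card ≤ 0)) = {∅} := by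
      ext c
      simp
    rw [h]
    simp
  | succ k ih =>
    have hsub : ((Finset.univ : Finset (Finset E)).filter (fun c => c.card ≤ k + 1)) ⊆
        (((Finset.univ : Finset (Finset E)).filter (fun c => c.card ≤ k)) ×ˢ
          (Finset.univ : Finset (Option E))).image
          (fun x => match x.2 with | none => x.1 | some e => insert e x.1) := by
      intro c hc
      rw [Finset.mem_filter] at hc
      rw [Finset.mem_image]
      by_cases h : c.card ≤ k
      · exact ⟨(c, none), by simp [h], rfl⟩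
      · have hne : c.Nonempty := by
          rw [← Finset.card_pos]
          omega
        obtain ⟨e, he⟩ := hne
        refine ⟨(c.erase e, some e), ?_, ?_⟩
        · have h5 := Finset.card_erase_of_mem he
          simp only [Finset.mem_product, Finset.mem_filter, Finset.mem_univ, true_and, and_true]
          omega
        · simp [Finset.insert_erase he]
    have h1 := Finset.card_le_card hsub
    have h2 := (Finset.card_image_le (s :=
      ((Finset.univ : Finset (Finset E)).filter (fun c => c.card ≤ k)) ×ˢ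
          (Finset.univ : Finset (Option E)))
      (f := (fun x => match x.2 with | none => x.1 | some e => insert e x.1)))
    rw [Finset.card_product] at h2
    have h3 : (Finset.univ : Finset (Option E)).card = Fintype.card E + 1 := by
      rw [Finset.card_univ, Fintype.card_option]
    rw [h3] at h2
    rw [pow_succ]
    exact (h1.trans h2).trans (Nat.mul_le_mul_right _ ih)

variable {I J : Type} [Fintype I] [Fintype J]

omit [Fintype I] [Fintype J] in
theorem notPP {lam : I ⊕ J → ℕ} {e : I × J} (h : AP lam e) : ¬ PP lam e := by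
  rintro ⟨h1, h2⟩
  rcases h with ⟨h3, _⟩ | ⟨_, h3⟩
  · exact h3 h1
  · exact h3 h2

theorem wt_nonneg (lam : I ⊕ J → ℕ) (R : ℕ) (γ : Finset (I × J)) : 0 ≤ wt lam R γ := by
  unfold wt
  apply Finset.prod_nonneg
  intro e _
  split_ifs
  · positivity
  · exact zero_le_one

theorem kap_nonneg (lam : I ⊕ J → ℕ) (R : ℕ) {p : ℝ} (hp : 0 ≤ p) (e : I × J) :
    0 ≤ kap lam R p e := by
  unfold kap
  split_ifs
  · positivity
  · exact hp
  · exact le_refl _

theorem kap_eq (lam : I ⊕ J → ℕ) (R : ℕ) (p : ℝ) (γ : Finset (I × J))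
    (h : ∀ e ∈ γ, AP lam e ∨ PP lam e) :
    ∏ e ∈ γ, kap lam R p e = wt lam R γ * p ^ (γ.filter (fun e => PP lam e)).card := by
  have h0 : p ^ (γ.filter (fun e => PP lam e)).card
      = ∏ e ∈ γ, if PP lam e then p else 1 := by
    rw [Finset.prod_ite]
    simp
  rw [h0]
  unfold wt
  rw [← Finset.prod_mul_distrib]
  apply Finset.prod_congr rfl
  intro e he
  unfold kap
  rcases h e he with h1 | h1
  · rw [if_pos h1, if_pos h1, if_neg (notPP h1), mul_one]
  · have h2 : ¬ AP lam e := fun h2 => notPP h2 h1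
    rw [if_neg h2, if_neg h2, if_pos h1, if_pos h1, one_mul]

theorem prf : S_RS → S_GP := by
  intro hRS I J _ _ lam R n m K Wc N K2 B C Ds Ys hn hm h1 hB h2 hN h3
  have hp0 : (0 : ℝ) ≤ (m : ℝ) / n := by positivity
  let F1 : Fin K × Finset (I × J) × (I ⊕ J) → Finset (I × J) := fun x =>
    (Xs lam x.2.2).filter (fun f => NA x.2.1 f ∧ ¬ Opn (Ds x.1) (insert f x.2.1))
  let T1 : Finset (Fin K × Finset (I × J) × (I ⊕ J)) :=
    ((Finset.univ : Finset (Fin K)) ×ˢ
      (((Finset.univ : Finset (Finset (I × J))).filter (fun c => c.card ≤ Wc)) ×ˢ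
        (Finset.univ : Finset (I ⊕ J)))).filter (fun x => del R x.2.2 ≤ 8 * (F1 x).card)
  let F2 : Fin K × (I × J) × (I ⊕ J) → Finset (I × J) := fun x =>
    CoN (Ds x.1) (Ys x.1) x.2.1 x.2.2
  let T2 : Finset (Fin K × (I × J) × (I ⊕ J)) :=
    Finset.univ.filter (fun x => ¬ Inc x.2.2 x.2.1 ∧ Avd (Ys x.1) x.2.1 ∧ x.2.2 ∉ Ys x.1)
  have hT1 : ((T1.image F1).card : ℝ) ≤ (K : ℝ) *
      (((Fintype.card I * Fintype.card J : ℕ) : ℝ) + 1) ^ Wc *
      ((Fintype.card I + Fintype.card J : ℕ) : ℝ) := by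
    have e1 : (T1.image F1).card ≤ K * ((Fintype.card I * Fintype.card J + 1) ^ Wc *
        (Fintype.card I + Fintype.card J)) := by
      refine Finset.card_image_le.trans ((Finset.card_filter_le _ _).trans ?_)
      rw [Finset.card_product, Finset.card_product, Finset.card_univ, Fintype.card_fin,
        Finset.card_univ, Fintype.card_sum]
      refine Nat.mul_le_mul_left _ (Nat.mul_le_mul_right _ ?_)
      have e2 := card_small (I × J) Wc
      rwa [Fintype.card_prod] at e2
    calc ((T1.image F1).card : ℝ) ≤ ((K * ((Fintype.card I * Fintype.card J + 1) ^ Wc *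
        (Fintype.card I + Fintype.card J)) : ℕ) : ℝ) := by exact_mod_cast e1
      _ = _ := by push_cast; ring
  have hT2 : ((T2.image F2).card : ℝ) ≤ (K : ℝ) *
      ((Fintype.card I * Fintype.card J : ℕ) : ℝ) *
      ((Fintype.card I + Fintype.card J : ℕ) : ℝ) := by
    have e1 : (T2.image F2).card ≤ K * ((Fintype.card I * Fintype.card J) *
        (Fintype.card I + Fintype.card J)) := by
      refine Finset.card_image_le.trans ((Finset.card_filter_le _ _).trans ?_)
      rw [Finset.card_univ, Fintype.card_prod, Fintype.card_prod, Fintype.card_fin,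
        Fintype.card_prod, Fintype.card_sum]
    calc ((T2.image F2).card : ℝ) ≤ ((K * ((Fintype.card I * Fintype.card J) *
        (Fintype.card I + Fintype.card J)) : ℕ) : ℝ) := by exact_mod_cast e1
      _ = _ := by push_cast; ring
  have a1 : ∑ γ ∈ C.filter (fun γ => ∀ e ∈ γ, AP lam e ∨ PP lam e),
      wt lam R γ * ((m : ℝ) / n) ^ (γ.filter (fun e => PP lam e)).card ≤ 1 / 8 := by
    refine le_trans ?_ h1
    calc ∑ γ ∈ C.filter (fun γ => ∀ e ∈ γ, AP lam e ∨ PP lam e),
          wt lam R γ * ((m : ℝ) / n) ^ (γ.filter (fun e => PP lam e)).card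
        = ∑ γ ∈ C.filter (fun γ => ∀ e ∈ γ, AP lam e ∨ PP lam e),
          ∏ e ∈ γ, kap lam R ((m : ℝ) / n) e :=
          Finset.sum_congr rfl (fun γ hγ =>
            (kap_eq lam R ((m : ℝ) / n) γ (Finset.mem_filter.1 hγ).2).symm)
      _ ≤ ∑ γ ∈ C, ∏ e ∈ γ, kap lam R ((m : ℝ) / n) e :=
          Finset.sum_le_sum_of_subset_of_nonneg (Finset.filter_subset _ _)
            (fun γ _ _ => Finset.prod_nonneg (fun e _ => kap_nonneg lam R hp0 e))
  have a2 : ∑ S ∈ T1.image F1, Real.exp (-((m : ℝ) / n) * S.card / 8) ≤ 1 / 4 := by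
    have e1 : ∀ S ∈ T1.image F1, Real.exp (-((m : ℝ) / n) * S.card / 8)
        ≤ Real.exp (-((m : ℝ) / n) * B / 64) := by
      intro S hS
      obtain ⟨x, hx, rfl⟩ := Finset.mem_image.1 hS
      have hx2 := (Finset.mem_filter.1 hx).2
      have hx3 : (del R x.2.2 : ℝ) ≤ 8 * ((F1 x).card : ℝ) := by exact_mod_cast hx2
      have hx4 := hB x.2.2
      apply Real.exp_le_exp.2
      have hx5 : B ≤ 8 * ((F1 x).card : ℝ) := hx4.trans hx3
      have hx6 := mul_le_mul_of_nonneg_left hx5 hp0
      nlinarith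
    have e2 := Finset.sum_le_card_nsmul _ _ _ e1
    rw [nsmul_eq_mul] at e2
    refine e2.trans (le_trans ?_ h2)
    exact mul_le_mul_of_nonneg_right hT1 (Real.exp_nonneg _)
  have a3 : ∑ S ∈ T2.image F2, Real.exp (2 * ((m : ℝ) / n) * S.card - K2) ≤ 1 / 4 := by
    have e1 : ∀ S ∈ T2.image F2, Real.exp (2 * ((m : ℝ) / n) * S.card - K2)
        ≤ Real.exp (2 * ((m : ℝ) / n) * N - K2) := by
      intro S hS
      obtain ⟨x, hx, rfl⟩ := Finset.mem_image.1 hS
      have hx2 := (Finset.mem_filter.1 hx).2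
      have hx3 : ((F2 x).card : ℝ) ≤ (N : ℝ) := by
        exact_mod_cast hN x.1 x.2.1 x.2.2 hx2.1 hx2.2.1 hx2.2.2
      apply Real.exp_le_exp.2
      have hx6 := mul_le_mul_of_nonneg_left hx3 hp0
      nlinarith
    have e2 := Finset.sum_le_card_nsmul _ _ _ e1
    rw [nsmul_eq_mul] at e2
    refine e2.trans (le_trans ?_ h3)
    exact mul_le_mul_of_nonneg_right hT2 (Real.exp_nonneg _)
  obtain ⟨G, g1, g2, g3⟩ := hRS (I × J) (Finset (I × J)) n m hn hm
    (C.filter (fun γ => ∀ e ∈ γ, AP lam e ∨ PP lam e))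
    (fun γ => γ.filter (fun e => PP lam e)) (fun γ => wt lam R γ)
    (fun γ _ => wt_nonneg lam R γ) a1 (T1.image F1) (T2.image F2) K2 a2 a3
  have g1' : ∑ γ ∈ (C.filter (fun γ => ∀ e ∈ γ, AP lam e ∨ PP lam e)).filter
      (fun γ => γ.filter (fun e => PP lam e) ⊆ G), wt lam R γ < 1 := by
    refine lt_of_le_of_lt (le_of_eq ?_) g1
    apply Finset.sum_congr _ (fun _ _ => rfl)
    ext γ
    simp only [Finset.mem_filter]
  have g2' : ∀ S ∈ T1.image F1, (m : ℝ) / n * S.card ≤ 4 * ((S ∩ G).card : ℝ) := by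
    intro S hS
    refine (g2 S hS).trans (le_of_eq ?_)
    apply congrArg (fun k : ℕ => 4 * (k : ℝ))
    apply congrArg Finset.card
    ext f
    simp only [Finset.mem_inter]
  have g3' : ∀ S ∈ T2.image F2, (S ∩ G).card ≤ K2 := by
    intro S hS
    refine le_trans (le_of_eq ?_) (g3 S hS)
    apply congrArg Finset.card
    ext f
    simp only [Finset.mem_inter]
  refine ⟨G, ?_, ?_, ?_⟩
  · refine lt_of_le_of_lt (Finset.sum_le_sum_of_subset_of_nonneg ?_
      (fun γ _ _ => wt_nonneg lam R γ)) g1'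
    intro γ hγ
    obtain ⟨b1, _, b2⟩ := Finset.mem_filter.1 hγ
    refine Finset.mem_filter.2 ⟨Finset.mem_filter.2 ⟨b1, fun e he => ?_⟩, fun e he => ?_⟩
    · rcases b2 e he with b3 | b3
      · exact Or.inl b3
      · exact Or.inr b3.1
    · obtain ⟨b4, b5⟩ := Finset.mem_filter.1 he
      rcases b2 e b4 with b3 | b3
      · exact absurd b5 (notPP b3)
      · exact b3.2
  · intro s c hc v hv
    have c1 : F1 (s, c, v) ∈ T1.image F1 := by
      refine Finset.mem_image_of_mem _ (Finset.mem_filter.2 ⟨?_, hv⟩)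
      simp [hc]
    have c2 := g2' _ c1
    have c3 : (F1 (s, c, v) ∩ G).card = phi (Ds s) c (Xs lam v ∩ G) := by
      unfold phi
      congr 1
      ext f
      simp only [F1, Finset.mem_inter, Finset.mem_filter]
      tauto
    rw [c3] at c2
    exact c2
  · intro s e v d1 d2 d3
    exact g3' (F2 (s, e, v)) (Finset.mem_image_of_mem _ (Finset.mem_filter.2
      ⟨Finset.mem_univ _, d1, d2, d3⟩))

end Pool.Agent.Work.MP_f7ef37_lc.OP.NGP
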