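import Pool.Agent.Work.MP_f7ef37_lc.OP.Stmts2

set_option autoImplicit false

open Classical

namespace Pool.Agent.Work.MP_f7ef37_lc.OP.NLEV

/-- Distribution of the level. -/
theorem prf : S_LEV := by
  intro R
  have key : ∀ (x : Fin (2 ^ R)) (r : ℕ), r ≤ R → (r ≤ lev R x ↔ 2 ^ r ∣ (x : ℕ)) := by
    intro x r hr
    constructor
    · intro h
      obtain ⟨s, _, hs2⟩ := Finset.exists_mem_eq_sup (Finset.range (R + 1))
        ⟨0, Finset.mem_range.2 (Nat.succ_pos R)⟩ (fun r => if 2 ^ r ∣ (x : ℕ) then r else 0)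
      have h' : r ≤ (if 2 ^ s ∣ (x : ℕ) then s else 0) := by
        have h2 : lev R x = (if 2 ^ s ∣ (x : ℕ) then s else 0) := hs2
        rw [← h2]
        exact h
      split_ifs at h' with hd
      · exact (pow_dvd_pow 2 h').trans hd
      · have h0 : r = 0 := by omega
        subst h0
        simp
    · intro hd
      have h2 := Finset.le_sup (f := fun r => if 2 ^ r ∣ (x : ℕ) then r else 0)
        (Finset.mem_range.2 (Nat.lt_succ_of_le hr))
      have h3 : (if 2 ^ r ∣ (x : ℕ) then r else 0) ≤ lev R x := h2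
      rw [if_pos hd] at h3
      exact h3
  refine ⟨fun x => ?_, fun r hr => ?_⟩
  · unfold lev
    apply Finset.sup_le
    intro s hs
    have h1 := Finset.mem_range.1 hs
    split_ifs <;> omega
  · have hpow : 2 ^ r * 2 ^ (R - r) = 2 ^ R := by
      rw [← pow_add]
      congr 1
      omega
    have hlt : ∀ y : Fin (2 ^ (R - r)), 2 ^ r * (y : ℕ) < 2 ^ R := by
      intro y
      rw [← hpow]
      exact Nat.mul_lt_mul_of_pos_left y.2 (pow_pos (by norm_num) r)
    have h1 : ((Finset.univ : Finset (Fin (2 ^ R))).filter (fun x => r ≤ lev R x)) =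
        (Finset.univ : Finset (Fin (2 ^ (R - r)))).image
          (fun y : Fin (2 ^ (R - r)) => (⟨2 ^ r * (y : ℕ), hlt y⟩ : Fin (2 ^ R))) := by
      ext x
      simp only [Finset.mem_filter, Finset.mem_univ, true_and, Finset.mem_image]
      rw [key x r hr]
      constructor
      · rintro ⟨y, hy⟩
        have hy2 : y < 2 ^ (R - r) := by
          have h3 : 2 ^ r * y < 2 ^ r * 2 ^ (R - r) := by
            rw [hpow, ← hy]
            exact x.2
          exact lt_of_mul_lt_mul_left h3 (Nat.zero_le _)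
        exact ⟨⟨y, hy2⟩, Fin.ext hy.symm⟩
      · rintro ⟨y, rfl⟩
        exact ⟨y, rfl⟩
    rw [h1, Finset.card_image_of_injective, Finset.card_univ, Fintype.card_fin]
    intro y z hyz
    have h4 : 2 ^ r * (y : ℕ) = 2 ^ r * (z : ℕ) := congrArg Fin.val hyz
    exact Fin.ext (Nat.eq_of_mul_eq_mul_left (pow_pos (by norm_num) r) h4)

end Pool.Agent.Work.MP_f7ef37_lc.OP.NLEV
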