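import Pool.Agent.Work.MP_f7ef37_lc.OP.Stmts2

/-!
# Item LEVELS of the block [f7ef37 OP]: existence of good levels
-/

set_option autoImplicit false

open Classical

namespace Pool.Agent.Work.MP_f7ef37_lc.OP.NLEVELS

/-- Number of sets with at most `k` elements. -/
theorem card_small (E : Type) [Fintype E] (k : ℕ) :
    ((Finset.univ : Finset (Finset E)).filter (fun a => a.card ≤ k)).card
      ≤ (Fintype.card E + 1) ^ k := by
  let F : (Fin k → Option E) → Finset E := fun g => Finset.univ.filter (fun e => ∃ i, g i = some e)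
  have hsub : (Finset.univ : Finset (Finset E)).filter (fun a => a.card ≤ k)
      ⊆ Finset.univ.image F := by
    intro a ha
    rw [Finset.mem_filter] at ha
    rw [Finset.mem_image]
    refine ⟨fun i => a.toList[(i : ℕ)]?, Finset.mem_univ _, ?_⟩
    ext e
    simp only [F, Finset.mem_filter, Finset.mem_univ, true_and]
    rw [← Finset.mem_toList, List.mem_iff_getElem?]
    constructor
    · rintro ⟨i, hi⟩
      exact ⟨i, hi⟩
    · rintro ⟨i, hi⟩
      have hlt : i < a.toList.length := by
        by_contra hcon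
        rw [List.getElem?_eq_none (by omega)] at hi
        exact absurd hi (by simp)
      rw [Finset.length_toList] at hlt
      exact ⟨⟨i, by omega⟩, hi⟩
  calc ((Finset.univ : Finset (Finset E)).filter (fun a => a.card ≤ k)).card
      ≤ (Finset.univ.image F).card := Finset.card_le_card hsub
    _ ≤ (Finset.univ : Finset (Fin k → Option E)).card := Finset.card_image_le
    _ = (Fintype.card E + 1) ^ k := by
        rw [Finset.card_univ, Fintype.card_fun, Fintype.card_option, Fintype.card_fin]

theorem exp_half : (1 + Real.exp (-(1 / 2))) / 2 ≤ Real.exp (-(3 / 16)) := by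
  have h1 : (1 : ℝ) - 3 / 16 ≤ Real.exp (-(3 / 16)) := by
    have := Real.add_one_le_exp (-(3 / 16) : ℝ)
    linarith
  have h2 : (1.6 : ℝ) ≤ Real.exp (1 / 2) := by
    have h3 : Real.exp (1 / 2) * Real.exp (1 / 2) = Real.exp 1 := by
      rw [← Real.exp_add]
      norm_num
    have h4 := Real.exp_one_gt_d9
    have h5 := Real.exp_pos (1 / 2)
    by_contra hcon
    push Not at hcon
    nlinarith
  have h6 : Real.exp (-(1 / 2)) ≤ 1 / 1.6 := by
    rw [Real.exp_neg, ← one_div]
    exact one_div_le_one_div_of_le (by norm_num) h2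
  have h7 : (1 : ℝ) / 1.6 = 0.625 := by norm_num
  linarith

/-- Chernoff bound for half of the coordinates. -/
theorem chern (V F : Type) [Fintype V] [DecidableEq V] [Fintype F] (S : Finset V) (Q : F → Prop)
    [DecidablePred Q] (hQ : 2 * ((Finset.univ : Finset F).filter Q).card = Fintype.card F) :
    (((Finset.univ : Finset (V → F)).filter (fun ω =>
      4 * (S.filter (fun u => Q (ω u))).card < S.card)).card : ℝ)
      ≤ Real.exp (-(S.card : ℝ) / 16) * (Fintype.card F : ℝ) ^ Fintype.card V := by
  set N := S.card with hN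
  have hsum : ∑ ω : V → F, Real.exp (-(1 / 2) * ((S.filter (fun u => Q (ω u))).card : ℝ))
      = ((1 + Real.exp (-(1 / 2))) / 2) ^ N * (Fintype.card F : ℝ) ^ Fintype.card V := by
    have hprod : ∀ ω : V → F, Real.exp (-(1 / 2) * ((S.filter (fun u => Q (ω u))).card : ℝ))
        = ∏ u : V, (if u ∈ S ∧ Q (ω u) then Real.exp (-(1 / 2)) else 1) := by
      intro ω
      rw [Finset.prod_ite, Finset.prod_const, Finset.prod_const_one, mul_one, ← Real.exp_nat_mul]
      congr 1
      have : (Finset.univ.filter (fun u => u ∈ S ∧ Q (ω u))) = S.filter (fun u => Q (ω u)) := by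
        ext u
        simp
      rw [this]
      ring
    rw [Finset.sum_congr rfl (fun ω _ => hprod ω)]
    have h2 : ∑ ω : V → F, ∏ u : V, (if u ∈ S ∧ Q (ω u) then Real.exp (-(1 / 2)) else 1)
        = ∏ u : V, ∑ x : F, (if u ∈ S ∧ Q x then Real.exp (-(1 / 2)) else 1) := by
      rw [Finset.prod_univ_sum, Fintype.piFinset_univ]
    rw [h2]
    have h3 : ∀ u : V, ∑ x : F, (if u ∈ S ∧ Q x then Real.exp (-(1 / 2)) else 1)
        = (if u ∈ S then (1 + Real.exp (-(1 / 2))) / 2 else 1) * (Fintype.card F : ℝ) := by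
      intro u
      by_cases hu : u ∈ S
      · simp only [hu, true_and, if_true]
        rw [Finset.sum_ite, Finset.sum_const, Finset.sum_const, nsmul_eq_mul, nsmul_eq_mul]
        have h4 : (((Finset.univ : Finset F).filter Q).card : ℝ) = (Fintype.card F : ℝ) / 2 := by
          have : (2 : ℝ) * ((Finset.univ : Finset F).filter Q).card = Fintype.card F := by
            exact_mod_cast hQ
          linarith
        have h5 : (((Finset.univ : Finset F).filter (fun x => ¬ Q x)).card : ℝ)
            = (Fintype.card F : ℝ) / 2 := by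
          have h6 : ((Finset.univ : Finset F).filter Q).card
              + ((Finset.univ : Finset F).filter (fun x => ¬ Q x)).card = Fintype.card F := by
            rw [Finset.card_filter_add_card_filter_not, Finset.card_univ]
          have h7 : (((Finset.univ : Finset F).filter Q).card : ℝ)
              + ((Finset.univ : Finset F).filter (fun x => ¬ Q x)).card = Fintype.card F := by
            exact_mod_cast h6
          linarith
        rw [h4, h5]
        ring
      · simp [hu]
    rw [Finset.prod_congr rfl (fun u _ => h3 u), Finset.prod_mul_distrib, Finset.prod_const,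
      Finset.card_univ]
    congr 1
    rw [Finset.prod_ite, Finset.prod_const, Finset.prod_const_one, mul_one]
    congr 1
    rw [hN]
    congr 1
    ext u
    simp
  have hmark : (((Finset.univ : Finset (V → F)).filter (fun ω =>
      4 * (S.filter (fun u => Q (ω u))).card < N)).card : ℝ) * Real.exp (-((N : ℝ) / 8))
      ≤ ∑ ω : V → F, Real.exp (-(1 / 2) * ((S.filter (fun u => Q (ω u))).card : ℝ)) := by
    have h1 : (((Finset.univ : Finset (V → F)).filter (fun ω =>
        4 * (S.filter (fun u => Q (ω u))).card < N)).card : ℝ) * Real.exp (-((N : ℝ) / 8))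
        = ∑ ω ∈ (Finset.univ : Finset (V → F)).filter (fun ω =>
          4 * (S.filter (fun u => Q (ω u))).card < N), Real.exp (-((N : ℝ) / 8)) := by
      rw [Finset.sum_const, nsmul_eq_mul]
    rw [h1]
    refine le_trans (Finset.sum_le_sum (g := fun ω =>
      Real.exp (-(1 / 2) * ((S.filter (fun u => Q (ω u))).card : ℝ))) ?_) ?_
    · intro ω hω
      rw [Finset.mem_filter] at hω
      apply Real.exp_le_exp.2
      have h2 : (4 : ℝ) * ((S.filter (fun u => Q (ω u))).card : ℝ) ≤ N := by
        exact_mod_cast hω.2.le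
      linarith
    · exact Finset.sum_le_sum_of_subset_of_nonneg (Finset.filter_subset _ _)
        (fun _ _ _ => (Real.exp_pos _).le)
  rw [hsum] at hmark
  have hpow : ((1 + Real.exp (-(1 / 2))) / 2) ^ N ≤ Real.exp (-(3 * (N : ℝ) / 16)) := by
    calc ((1 + Real.exp (-(1 / 2))) / 2) ^ N ≤ (Real.exp (-(3 / 16))) ^ N := by
          apply pow_le_pow_left₀ _ exp_half
          have := Real.exp_pos (-(1 / 2))
          linarith
      _ = Real.exp (-(3 * (N : ℝ) / 16)) := by
          rw [← Real.exp_nat_mul]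
          congr 1
          ring
  have hF : (0 : ℝ) ≤ (Fintype.card F : ℝ) ^ Fintype.card V := by positivity
  have h8 : (((Finset.univ : Finset (V → F)).filter (fun ω =>
      4 * (S.filter (fun u => Q (ω u))).card < N)).card : ℝ)
      = ((((Finset.univ : Finset (V → F)).filter (fun ω =>
      4 * (S.filter (fun u => Q (ω u))).card < N)).card : ℝ) * Real.exp (-((N : ℝ) / 8)))
        * Real.exp ((N : ℝ) / 8) := by
    rw [mul_assoc, ← Real.exp_add]
    simp
  rw [h8]
  calc _ ≤ (Real.exp (-(3 * (N : ℝ) / 16)) * (Fintype.card F : ℝ) ^ Fintype.card V)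
        * Real.exp ((N : ℝ) / 8) := by
        apply mul_le_mul_of_nonneg_right _ (Real.exp_pos _).le
        exact hmark.trans (mul_le_mul_of_nonneg_right hpow hF)
    _ = (Real.exp (-(3 * (N : ℝ) / 16)) * Real.exp ((N : ℝ) / 8))
        * (Fintype.card F : ℝ) ^ Fintype.card V := by ring
    _ = Real.exp (-(N : ℝ) / 16) * (Fintype.card F : ℝ) ^ Fintype.card V := by
        rw [← Real.exp_add]
        congr 2
        ring

variable {I J : Type} [Fintype I] [Fintype J]

theorem split_left (F : Type) [Fintype F] (P : (I ⊕ J → F) → Prop) (c : ℝ)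
    (h : ∀ wJ : J → F, (((Finset.univ : Finset (I → F)).filter
      (fun wI => P (Sum.elim wI wJ))).card : ℝ) ≤ c * (Fintype.card F : ℝ) ^ Fintype.card I) :
    (((Finset.univ : Finset (I ⊕ J → F)).filter P).card : ℝ)
      ≤ c * (Fintype.card F : ℝ) ^ (Fintype.card I + Fintype.card J) := by
  have h1 : ((Finset.univ : Finset (I ⊕ J → F)).filter P).card
      = ∑ b : J → F, (((Finset.univ : Finset (I ⊕ J → F)).filter P).filter
          (fun w => w ∘ Sum.inr = b)).card :=
    Finset.card_eq_sum_card_fiberwise (fun w _ => Finset.mem_univ _)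
  have h2 : ∀ b : J → F, (((Finset.univ : Finset (I ⊕ J → F)).filter P).filter
      (fun w => w ∘ Sum.inr = b)).card
      ≤ ((Finset.univ : Finset (I → F)).filter (fun wI => P (Sum.elim wI b))).card := by
    intro b
    apply Finset.card_le_card_of_injOn (fun w => w ∘ Sum.inl)
    · intro w hw
      simp only [Finset.coe_filter, Finset.mem_filter, Finset.mem_univ, true_and,
        Set.mem_ofPred_eq] at hw ⊢
      rw [← hw.2, Sum.elim_comp_inl_inr]
      exact hw.1
    · intro w hw w' hw' heq
      simp only [Finset.coe_filter, Finset.mem_filter, Finset.mem_univ, true_and,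
        Set.mem_ofPred_eq] at hw hw' heq
      rw [← Sum.elim_comp_inl_inr w, ← Sum.elim_comp_inl_inr w', heq, hw.2, hw'.2]
  have h3 : (((Finset.univ : Finset (I ⊕ J → F)).filter P).card : ℝ)
      ≤ ∑ b : J → F, c * (Fintype.card F : ℝ) ^ Fintype.card I := by
    rw [h1]
    push_cast
    apply Finset.sum_le_sum
    intro b _
    exact le_trans (by exact_mod_cast h2 b) (h b)
  refine h3.trans (le_of_eq ?_)
  rw [Finset.sum_const, Finset.card_univ, Fintype.card_fun, nsmul_eq_mul]
  push_cast
  ring

theorem split_right (F : Type) [Fintype F] (P : (I ⊕ J → F) → Prop) (c : ℝ)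
    (h : ∀ wI : I → F, (((Finset.univ : Finset (J → F)).filter
      (fun wJ => P (Sum.elim wI wJ))).card : ℝ) ≤ c * (Fintype.card F : ℝ) ^ Fintype.card J) :
    (((Finset.univ : Finset (I ⊕ J → F)).filter P).card : ℝ)
      ≤ c * (Fintype.card F : ℝ) ^ (Fintype.card I + Fintype.card J) := by
  have h1 : ((Finset.univ : Finset (I ⊕ J → F)).filter P).card
      = ∑ b : I → F, (((Finset.univ : Finset (I ⊕ J → F)).filter P).filter
          (fun w => w ∘ Sum.inl = b)).card :=
    Finset.card_eq_sum_card_fiberwise (fun w _ => Finset.mem_univ _)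
  have h2 : ∀ b : I → F, (((Finset.univ : Finset (I ⊕ J → F)).filter P).filter
      (fun w => w ∘ Sum.inl = b)).card
      ≤ ((Finset.univ : Finset (J → F)).filter (fun wJ => P (Sum.elim b wJ))).card := by
    intro b
    apply Finset.card_le_card_of_injOn (fun w => w ∘ Sum.inr)
    · intro w hw
      simp only [Finset.coe_filter, Finset.mem_filter, Finset.mem_univ, true_and,
        Set.mem_ofPred_eq] at hw ⊢
      rw [← hw.2, Sum.elim_comp_inl_inr]
      exact hw.1
    · intro w hw w' hw' heq
      simp only [Finset.coe_filter, Finset.mem_filter, Finset.mem_univ, true_and,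
        Set.mem_ofPred_eq] at hw hw' heq
      rw [← Sum.elim_comp_inl_inr w, ← Sum.elim_comp_inl_inr w', heq, hw.2, hw'.2]
  have h3 : (((Finset.univ : Finset (I ⊕ J → F)).filter P).card : ℝ)
      ≤ ∑ b : I → F, c * (Fintype.card F : ℝ) ^ Fintype.card J := by
    rw [h1]
    push_cast
    apply Finset.sum_le_sum
    intro b _
    exact le_trans (by exact_mod_cast h2 b) (h b)
  refine h3.trans (le_of_eq ?_)
  rw [Finset.sum_const, Finset.card_univ, Fintype.card_fun, nsmul_eq_mul]
  push_cast
  ring

/-- The threshold. -/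
noncomputable def thr (R : ℕ) (cov : Prop) (ph de : ℕ) : ℕ :=
  if h : ∃ r, ¬ cov ∧ 4 * ph < 4 * (r * de) + de then Nat.find h else R + 1

theorem thr_le {R : ℕ} {cov : Prop} {ph de l : ℕ} (h1 : ¬ cov) (h2 : 4 * ph < 4 * (l * de) + de) :
    thr R cov ph de ≤ l := by
  unfold thr
  rw [dif_pos ⟨l, h1, h2⟩]
  exact Nat.find_min' _ ⟨h1, h2⟩

theorem thr_lt {R : ℕ} {cov : Prop} {ph de l : ℕ} (hl : l ≤ R) (h : thr R cov ph de < l) :
    ¬ cov ∧ l ≠ 0 ∧ 2 * ph + de ≤ 2 * (l * de) := by
  unfold thr at h
  split_ifs at h with hex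
  · obtain ⟨h1, h2⟩ := Nat.find_spec hex
    set r := Nat.find hex with hr
    refine ⟨h1, by omega, ?_⟩
    have h3 : (r + 1) * de ≤ l * de := Nat.mul_le_mul_right _ h
    rw [Nat.add_mul, Nat.one_mul] at h3
    omega
  · omega

theorem card_sum_filter (p : I ⊕ J → Prop) :
    ((Finset.univ : Finset (I ⊕ J)).filter p).card
      = ((Finset.univ : Finset I).filter (fun i => p (Sum.inl i))).card
        + ((Finset.univ : Finset J).filter (fun j => p (Sum.inr j))).card := by
  rw [Finset.card_filter, Finset.card_filter, Finset.card_filter, Fintype.sum_sum_type]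

/-- Few superheavy and many heavy pigeons. -/
def BadL (R w0 : ℕ) (D : Ln I J) (a : Finset (I × J)) (w : I ⊕ J → Fin (2 ^ R)) : Prop :=
  ((Finset.univ : Finset I).filter
    (fun i => Sup (fun v => lev R (w v)) R D a (Sum.inl i))).card < w0 ∧
  30 * w0 < ((Finset.univ : Finset I).filter
    (fun i => Hev (fun v => lev R (w v)) R D a (Sum.inl i))).card

/-- Few superheavy and many heavy holes. -/
def BadR (R w0 : ℕ) (D : Ln I J) (a : Finset (I × J)) (w : I ⊕ J → Fin (2 ^ R)) : Prop :=
  ((Finset.univ : Finset J).filter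
    (fun j => Sup (fun v => lev R (w v)) R D a (Sum.inr j))).card < w0 ∧
  30 * w0 < ((Finset.univ : Finset J).filter
    (fun j => Hev (fun v => lev R (w v)) R D a (Sum.inr j))).card

/-- Few passive partners. -/
def Few (R : ℕ) (v : I ⊕ J) (w : I ⊕ J → Fin (2 ^ R)) : Prop :=
  4 * (Xs (fun u => lev R (w u)) v).card < (star v).card

/-- Bad event on the side of the pigeons. -/
theorem left_bad (hL : S_LEV) (hF : S_FILT) (R w0 : ℕ) (D : Ln I J) (a : Finset (I × J))
    (hw : 1 ≤ w0) (hc : Fintype.card I ≤ 2 ^ R) :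
    (((Finset.univ : Finset (I ⊕ J → Fin (2 ^ R))).filter (BadL R w0 D a)).card : ℝ)
      ≤ (2 * Real.exp (-(w0 : ℝ) / 8)) * (Fintype.card (Fin (2 ^ R)) : ℝ)
        ^ (Fintype.card I + Fintype.card J) := by
  apply split_left
  intro wJ
  let X : I → Finset (I × J) := fun i => (star (Sum.inl i)).filter (fun f => lev R (wJ f.2) = 0)
  have hX : ∀ (wI : I → Fin (2 ^ R)) (i : I),
      Xs (fun v => lev R (Sum.elim wI wJ v)) (Sum.inl i) = X i := fun wI i => rfl
  let r : I → ℕ := fun i => thr R (Cov a (Sum.inl i)) (phi D a (X i)) (del (J := J) R (Sum.inl i))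
  have hfl := hF I R w0 r hw hc
  have hcard : (Fintype.card (Fin (2 ^ R)) : ℝ) = (2 : ℝ) ^ R := by
    rw [Fintype.card_fin]
    push_cast
    rfl
  rw [hcard]
  refine le_trans ?_ hfl
  have hsub : (Finset.univ : Finset (I → Fin (2 ^ R))).filter (fun wI =>
      BadL R w0 D a (Sum.elim wI wJ)) ⊆ (Finset.univ : Finset (I → Fin (2 ^ R))).filter (fun w =>
      (Finset.univ.filter (fun v => r v < lev R (w v))).card < w0 ∧
      30 * w0 < (Finset.univ.filter (fun v => r v ≤ lev R (w v))).card) := by
    intro wI hwI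
    rw [Finset.mem_filter] at hwI ⊢
    refine ⟨Finset.mem_univ _, lt_of_le_of_lt (Finset.card_le_card ?_) hwI.2.1,
      lt_of_lt_of_le hwI.2.2 (Finset.card_le_card ?_)⟩
    · intro i hi
      rw [Finset.mem_filter] at hi ⊢
      refine ⟨Finset.mem_univ _, ?_⟩
      obtain ⟨h1, h2, h3⟩ := thr_lt ((hL R).1 (wI i)) hi.2
      exact ⟨h1, h2, h3⟩
    · intro i hi
      rw [Finset.mem_filter] at hi ⊢
      refine ⟨Finset.mem_univ _, ?_⟩
      obtain ⟨h1, h2⟩ := hi.2
      exact thr_le h1 h2
  exact_mod_cast Finset.card_le_card hsub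

/-- Bad event on the side of the holes. -/
theorem right_bad (hL : S_LEV) (hF : S_FILT) (R w0 : ℕ) (D : Ln I J) (a : Finset (I × J))
    (hw : 1 ≤ w0) (hc : Fintype.card J ≤ 2 ^ R) :
    (((Finset.univ : Finset (I ⊕ J → Fin (2 ^ R))).filter (BadR R w0 D a)).card : ℝ)
      ≤ (2 * Real.exp (-(w0 : ℝ) / 8)) * (Fintype.card (Fin (2 ^ R)) : ℝ)
        ^ (Fintype.card I + Fintype.card J) := by
  apply split_right
  intro wI
  let X : J → Finset (I × J) := fun j => (star (Sum.inr j)).filter (fun f => lev R (wI f.1) = 0)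
  have hX : ∀ (wJ : J → Fin (2 ^ R)) (j : J),
      Xs (fun v => lev R (Sum.elim wI wJ v)) (Sum.inr j) = X j := fun wJ j => rfl
  let r : J → ℕ := fun j => thr R (Cov a (Sum.inr j)) (phi D a (X j)) (del (I := I) R (Sum.inr j))
  have hfl := hF J R w0 r hw hc
  have hcard : (Fintype.card (Fin (2 ^ R)) : ℝ) = (2 : ℝ) ^ R := by
    rw [Fintype.card_fin]
    push_cast
    rfl
  rw [hcard]
  refine le_trans ?_ hfl
  have hsub : (Finset.univ : Finset (J → Fin (2 ^ R))).filter (fun wJ =>
      BadR R w0 D a (Sum.elim wI wJ)) ⊆ (Finset.univ : Finset (J → Fin (2 ^ R))).filter (fun w =>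
      (Finset.univ.filter (fun v => r v < lev R (w v))).card < w0 ∧
      30 * w0 < (Finset.univ.filter (fun v => r v ≤ lev R (w v))).card) := by
    intro wJ hwJ
    rw [Finset.mem_filter] at hwJ ⊢
    refine ⟨Finset.mem_univ _, lt_of_le_of_lt (Finset.card_le_card ?_) hwJ.2.1,
      lt_of_lt_of_le hwJ.2.2 (Finset.card_le_card ?_)⟩
    · intro j hj
      rw [Finset.mem_filter] at hj ⊢
      refine ⟨Finset.mem_univ _, ?_⟩
      obtain ⟨h1, h2, h3⟩ := thr_lt ((hL R).1 (wJ j)) hj.2
      exact ⟨h1, h2, h3⟩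
    · intro j hj
      rw [Finset.mem_filter] at hj ⊢
      refine ⟨Finset.mem_univ _, ?_⟩
      obtain ⟨h1, h2⟩ := hj.2
      exact thr_le h1 h2
  exact_mod_cast Finset.card_le_card hsub

theorem oth_inj (v : I ⊕ J) : Set.InjOn (oth v) (star v : Finset (I × J)) := by
  intro e he f hf heq
  rw [Finset.mem_coe, mem_star] at he hf
  cases v with
  | inl i =>
    simp only [Inc] at he hf
    simp only [oth, Sum.inr.injEq] at heq
    exact Prod.ext (he.trans hf.symm) heq
  | inr j =>
    simp only [Inc] at he hf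
    simp only [oth, Sum.inl.injEq] at heq
    exact Prod.ext heq (he.trans hf.symm)

theorem h5' (R : ℕ) (v : I ⊕ J) (w : I ⊕ J → Fin (2 ^ R)) :
    (((star v).image (oth v)).filter (fun u => lev R (w u) = 0)).card
      = (Xs (fun u => lev R (w u)) v).card := by
  rw [Finset.filter_image, Finset.card_image_of_injOn]
  · rfl
  · exact (oth_inj v).mono (by
      intro e he
      rw [Finset.mem_coe, Finset.mem_filter] at he
      exact he.1)

/-- Few passive partners at `v`. -/
theorem few_bad (hL : S_LEV) (R : ℕ) (hR : 1 ≤ R) (v : I ⊕ J) :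
    (((Finset.univ : Finset (I ⊕ J → Fin (2 ^ R))).filter (Few R v)).card : ℝ)
      ≤ Real.exp (-((star v).card : ℝ) / 16) * (Fintype.card (Fin (2 ^ R)) : ℝ)
        ^ (Fintype.card I + Fintype.card J) := by
  have hQ : 2 * ((Finset.univ : Finset (Fin (2 ^ R))).filter (fun x => lev R x = 0)).card
      = Fintype.card (Fin (2 ^ R)) := by
    have h1 := (hL R).2 1 hR
    have h2 : ((Finset.univ : Finset (Fin (2 ^ R))).filter (fun x => lev R x = 0)).card
        + ((Finset.univ : Finset (Fin (2 ^ R))).filter (fun x => ¬ lev R x = 0)).card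
        = Fintype.card (Fin (2 ^ R)) := by
      rw [Finset.card_filter_add_card_filter_not, Finset.card_univ]
    have h3 : (Finset.univ : Finset (Fin (2 ^ R))).filter (fun x => ¬ lev R x = 0)
        = (Finset.univ : Finset (Fin (2 ^ R))).filter (fun x => 1 ≤ lev R x) := by
      apply Finset.filter_congr
      intro x _
      omega
    rw [h3, h1] at h2
    rw [Fintype.card_fin] at h2 ⊢
    have h4 : 2 ^ R = 2 * 2 ^ (R - 1) := by
      rw [← pow_succ']
      congr 1
      omega
    omega
  have hS : ((star v).image (oth v)).card = (star v).card :=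
    Finset.card_image_of_injOn (oth_inj v)
  have h := chern (I ⊕ J) (Fin (2 ^ R)) ((star v).image (oth v)) (fun x => lev R x = 0) hQ
  rw [hS, Fintype.card_sum] at h
  refine le_trans ?_ h
  have hsub : ∀ w : I ⊕ J → Fin (2 ^ R), Few R v w →
      4 * (((star v).image (oth v)).filter (fun u => lev R (w u) = 0)).card < (star v).card := by
    intro w hw
    rw [h5' R v w]
    exact hw
  exact_mod_cast Finset.card_le_card (fun w hw => by
    rw [Finset.mem_filter] at hw ⊢
    exact ⟨Finset.mem_univ _, hsub w hw.2⟩)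
theorem prf : S_LEV → S_FILT → S_LEVELS := by
  intro hL hF I J _ _ R w0 K k3 n Ds hR hw0 hn hdel hcard hsum
  have hI : Fintype.card I ≤ 2 ^ R := by omega
  have hJ : Fintype.card J ≤ 2 ^ R := by omega
  set M : ℝ := (Fintype.card (Fin (2 ^ R)) : ℝ) ^ (Fintype.card I + Fintype.card J) with hM
  have hMpos : 0 < M := by
    rw [hM, Fintype.card_fin]
    positivity
  by_contra hne
  push Not at hne
  -- the bad sets
  let B1 : (I ⊕ J) → Finset (I ⊕ J → Fin (2 ^ R)) := fun v =>
    Finset.univ.filter (Few R v)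
  let BL : Fin K × Finset (I × J) → Finset (I ⊕ J → Fin (2 ^ R)) := fun q =>
    Finset.univ.filter (BadL R w0 (Ds q.1) q.2)
  let BR : Fin K × Finset (I × J) → Finset (I ⊕ J → Fin (2 ^ R)) := fun q =>
    Finset.univ.filter (BadR R w0 (Ds q.1) q.2)
  let sm : Finset (Fin K × Finset (I × J)) :=
    (Finset.univ : Finset (Fin K)) ×ˢ (Finset.univ.filter (fun a => a.card ≤ k3))
  have hsm : (sm.card : ℝ) ≤ (K : ℝ) * (((Fintype.card I * Fintype.card J : ℕ) : ℝ) + 1) ^ k3 := by
    have h1 : sm.card ≤ K * (Fintype.card I * Fintype.card J + 1) ^ k3 := by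
      rw [Finset.card_product, Finset.card_univ, Fintype.card_fin]
      apply Nat.mul_le_mul_left
      have := card_small (I × J) k3
      rwa [Fintype.card_prod] at this
    calc (sm.card : ℝ) ≤ ((K * (Fintype.card I * Fintype.card J + 1) ^ k3 : ℕ) : ℝ) := by
          exact_mod_cast h1
      _ = _ := by push_cast; ring
  have hcov : (Finset.univ : Finset (I ⊕ J → Fin (2 ^ R)))
      ⊆ (Finset.univ.biUnion B1) ∪ (sm.biUnion BL ∪ sm.biUnion BR) := by
    intro w _
    by_contra hw
    rw [Finset.mem_union, Finset.mem_union, Finset.mem_biUnion, Finset.mem_biUnion,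
      Finset.mem_biUnion] at hw
    push Not at hw
    obtain ⟨hb1, hbl, hbr⟩ := hw
    obtain ⟨s, a, ha, hsup, hhev⟩ := hne (fun v => lev R (w v)) (fun v => (hL R).1 (w v)) (by
      intro v
      have := hb1 v (Finset.mem_univ _)
      simp only [B1, Few, Finset.mem_filter, Finset.mem_univ, true_and] at this
      omega)
    have hq : (s, a) ∈ sm := by
      simp only [sm, Finset.mem_product, Finset.mem_univ, Finset.mem_filter, true_and]
      exact ha
    have h1 := hbl (s, a) hq
    have h2 := hbr (s, a) hq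
    simp only [BL, BR, BadL, BadR, Finset.mem_filter, Finset.mem_univ, true_and, not_and,
      not_lt] at h1 h2
    unfold supset at hsup
    unfold hevset at hhev
    rw [card_sum_filter] at hsup hhev
    have h3 := h1 (by omega)
    have h4 := h2 (by omega)
    omega
  have hc1 := Finset.card_le_card hcov
  have hc2 : (Finset.univ : Finset (I ⊕ J → Fin (2 ^ R))).card
      ≤ (∑ v : I ⊕ J, (B1 v).card) + ((∑ q ∈ sm, (BL q).card) + ∑ q ∈ sm, (BR q).card) := by
    refine hc1.trans ((Finset.card_union_le _ _).trans ?_)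
    apply Nat.add_le_add Finset.card_biUnion_le
    refine (Finset.card_union_le _ _).trans ?_
    exact Nat.add_le_add Finset.card_biUnion_le Finset.card_biUnion_le
  have hc3 : ((Finset.univ : Finset (I ⊕ J → Fin (2 ^ R))).card : ℝ) = M := by
    rw [Finset.card_univ, Fintype.card_fun, hM, Fintype.card_sum]
    push_cast
    rfl
  have hB1 : ∑ v : I ⊕ J, ((B1 v).card : ℝ)
      ≤ ((Fintype.card I + Fintype.card J : ℕ) : ℝ) * Real.exp (-(n : ℝ) / 16) * M := by
    calc ∑ v : I ⊕ J, ((B1 v).card : ℝ) ≤ ∑ v : I ⊕ J, Real.exp (-(n : ℝ) / 16) * M := by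
          apply Finset.sum_le_sum
          intro v _
          refine (few_bad hL R hR v).trans ?_
          apply mul_le_mul_of_nonneg_right _ hMpos.le
          apply Real.exp_le_exp.2
          have : (n : ℝ) ≤ ((star v).card : ℝ) := by exact_mod_cast hn v
          linarith
      _ = _ := by
          rw [Finset.sum_const, Finset.card_univ, Fintype.card_sum, nsmul_eq_mul]
          ring
  have hBL : ∑ q ∈ sm, ((BL q).card : ℝ) ≤ (sm.card : ℝ) * ((2 * Real.exp (-(w0 : ℝ) / 8)) * M) := by
    calc ∑ q ∈ sm, ((BL q).card : ℝ) ≤ ∑ q ∈ sm, (2 * Real.exp (-(w0 : ℝ) / 8)) * M := by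
          apply Finset.sum_le_sum
          intro q _
          exact left_bad hL hF R w0 (Ds q.1) q.2 hw0 hI
      _ = _ := by rw [Finset.sum_const, nsmul_eq_mul]
  have hBR : ∑ q ∈ sm, ((BR q).card : ℝ) ≤ (sm.card : ℝ) * ((2 * Real.exp (-(w0 : ℝ) / 8)) * M) := by
    calc ∑ q ∈ sm, ((BR q).card : ℝ) ≤ ∑ q ∈ sm, (2 * Real.exp (-(w0 : ℝ) / 8)) * M := by
          apply Finset.sum_le_sum
          intro q _
          exact right_bad hL hF R w0 (Ds q.1) q.2 hw0 hJ
      _ = _ := by rw [Finset.sum_const, nsmul_eq_mul]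
  have hc4 : M ≤ (∑ v : I ⊕ J, ((B1 v).card : ℝ))
      + ((∑ q ∈ sm, ((BL q).card : ℝ)) + ∑ q ∈ sm, ((BR q).card : ℝ)) := by
    rw [← hc3]
    exact_mod_cast hc2
  have hE : 0 ≤ (4 * Real.exp (-(w0 : ℝ) / 8)) * M := by
    have := Real.exp_pos (-(w0 : ℝ) / 8)
    positivity
  have hc5 : (sm.card : ℝ) * ((4 * Real.exp (-(w0 : ℝ) / 8)) * M)
      ≤ ((K : ℝ) * (((Fintype.card I * Fintype.card J : ℕ) : ℝ) + 1) ^ k3)
        * ((4 * Real.exp (-(w0 : ℝ) / 8)) * M) := mul_le_mul_of_nonneg_right hsm hE
  have hc6 : M ≤ ((K : ℝ) * (((Fintype.card I * Fintype.card J : ℕ) : ℝ) + 1) ^ k3 *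
      (4 * Real.exp (-(w0 : ℝ) / 8)) +
    ((Fintype.card I + Fintype.card J : ℕ) : ℝ) * Real.exp (-(n : ℝ) / 16)) * M := by
    nlinarith [hc4, hc5, hB1, hBL, hBR]
  have hc7 := mul_lt_mul_of_pos_right hsum hMpos
  linarith

end Pool.Agent.Work.MP_f7ef37_lc.OP.NLEVELS
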