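import Pool.Agent.Work.MP_f7ef37_lc.OP.Stmts

set_option autoImplicit false

open Classical

namespace Pool.Agent.Work.MP_f7ef37_lc.OP.NLOOP

open Pool.Agent.Work.MP_f7ef37_lc.OP

theorem prf : S_LOOP := by
  intro E _ O k g u W Gd S T hstep hav a b ha hab hb hW
  have key : ∀ m, m ≤ g + 1 → ∃ b', b ⊆ b' ∧ Gd b' ∧ b'.card ≤ b.card + m * u ∧
      (S b' ∨ (∃ s ≤ g, ∃ a' ∈ Reach O k s, a ⊆ a' ∧ a' ⊆ b' ∧ T a') ∨
        ∃ a' ∈ Reach O k m, a ⊆ a' ∧ a' ⊆ b') := by
    intro m
    induction m with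
    | zero =>
      intro _
      exact ⟨b, subset_rfl, hb, by omega, Or.inr (Or.inr ⟨a, ha, subset_rfl, hab⟩)⟩
    | succ m ih =>
      intro hm
      obtain ⟨b', hbb', hb', hcard, h⟩ := ih (by omega)
      have hmono : b'.card ≤ b.card + (m + 1) * u := by
        refine hcard.trans ?_
        have : m * u ≤ (m + 1) * u := Nat.mul_le_mul_right u (by omega)
        omega
      rcases h with h | h | ⟨a', ha', haa', hab'⟩
      · exact ⟨b', hbb', hb', hmono, Or.inl h⟩
      · exact ⟨b', hbb', hb', hmono, Or.inr (Or.inl h)⟩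
      · by_cases hT : T a'
        · exact ⟨b', hbb', hb', hmono, Or.inr (Or.inl ⟨m, by omega, a', ha', haa', hab', hT⟩)⟩
        · have hle : (m + 1) * u ≤ (g + 1) * u := Nat.mul_le_mul_right u hm
          have he : (m + 1) * u = m * u + u := by ring
          obtain ⟨b'', hb1, hb2, hb3, hb4⟩ := hstep m a' b' (by omega) ha' hab' hb' (by omega) hT
          refine ⟨b'', hbb'.trans hb1, hb2, by omega, ?_⟩
          rcases hb4 with h4 | ⟨e, heO, heb, hea⟩
          · exact Or.inl h4
          · refine Or.inr (Or.inr ⟨insert e a', ?_, ?_, ?_⟩)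
            · rw [Reach, Finset.mem_biUnion]
              refine ⟨a', ha', ?_⟩
              rw [Finset.mem_image]
              exact ⟨e, Finset.mem_sdiff.2 ⟨heO, hea⟩, rfl⟩
            · exact haa'.trans (Finset.subset_insert e a')
            · exact Finset.insert_subset heb (hab'.trans hb1)
  obtain ⟨b', h1, h2, h3, h4⟩ := key (g + 1) le_rfl
  refine ⟨b', h1, h2, h3, ?_⟩
  rcases h4 with h | h | ⟨a', ha', -, hab'⟩
  · exact Or.inl h
  · exact Or.inr h
  · exact absurd hab' (hav b' h2 a' ha')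

end Pool.Agent.Work.MP_f7ef37_lc.OP.NLOOP
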