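import Pool.Agent.Work.MP_f7ef37_lc.OP.Stmts

set_option autoImplicit false

open Classical

namespace Pool.Agent.Work.MP_f7ef37_lc.OP.NMATCH

open Pool.Agent.Work.MP_f7ef37_lc.OP

theorem prf : S_MATCH := by
  intro I J _ _ A Gd W hE U
  induction U using Finset.induction_on with
  | empty =>
    intro b hb hW
    exact ⟨b, Finset.Subset.refl b, hb, fun v hv => absurd hv (Finset.notMem_empty v), by simp⟩
  | insert v U hv ih =>
    intro b hb hW
    rw [Finset.card_insert_of_notMem hv] at hW ⊢
    obtain ⟨b1, h1, h2, h3, h4⟩ := hE.ext b v hb (by omega)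
    obtain ⟨b2, h5, h6, h7, h8⟩ := ih b1 h2 (by omega)
    refine ⟨b2, h1.trans h5, h6, ?_, by omega⟩
    intro w hw
    rcases Finset.mem_insert.1 hw with rfl | hw
    · exact h3.mono h5
    · exact h7 w hw

end Pool.Agent.Work.MP_f7ef37_lc.OP.NMATCH
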