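import Pool.Agent.Work.MP_f7ef37_lc.OP.Stmts3

set_option autoImplicit false

open Classical

namespace Pool.Agent.Work.MP_f7ef37_lc.OP.NNUMA

theorem third_le_exp : (1 / 3 : ℝ) ≤ Real.exp (-1) := by
  rw [Real.exp_neg, ← one_div]
  apply one_div_le_one_div_of_le (Real.exp_pos 1)
  have := Real.exp_one_lt_d9
  linarith

theorem pow_le_exp {y : ℝ} (h0 : 0 ≤ y) (h1 : y ≤ 1 / 3) (m : ℕ) :
    y ^ m ≤ Real.exp (-(m : ℝ)) := by
  calc y ^ m ≤ (Real.exp (-1)) ^ m := pow_le_pow_left₀ h0 (h1.trans third_le_exp) m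
    _ = Real.exp (-(m : ℝ)) := by rw [← Real.exp_nat_mul]; congr 1; ring

theorem pow_le_exp' {y a : ℝ} (h0 : 0 ≤ y) (h1 : y ≤ Real.exp a) (m : ℕ) :
    y ^ m ≤ Real.exp ((m : ℝ) * a) := by
  calc y ^ m ≤ (Real.exp a) ^ m := pow_le_pow_left₀ h0 h1 m
    _ = Real.exp ((m : ℝ) * a) := by rw [← Real.exp_nat_mul]

theorem inv_small {x c : ℝ} {k : ℕ} (hx : (10 : ℝ) ^ 30 ≤ x) (hc0 : 0 ≤ c) (hc : c ≤ 10000)
    (hk : 1 ≤ k) : c / x ^ k ≤ 1 / 3 := by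
  have hx1 : (1 : ℝ) ≤ x := le_trans (by norm_num) hx
  have hx0 : 0 < x := by linarith
  have h1 : x ≤ x ^ k := by
    calc x = x ^ 1 := (pow_one x).symm
      _ ≤ x ^ k := pow_le_pow_right₀ hx1 hk
  rw [div_le_div_iff₀ (pow_pos hx0 k) (by norm_num)]
  have : (30000 : ℝ) ≤ (10 : ℝ) ^ 30 := by norm_num
  nlinarith

theorem prf : S_NUMA := by
  refine ⟨10 ^ 30, ?_⟩
  intro L hL n Ec K hn hE0 hE hK0 hK
  obtain ⟨x, hxdef⟩ : ∃ x : ℝ, x = (L : ℝ) := ⟨_, rfl⟩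
  have hx : (10 : ℝ) ^ 30 ≤ x := by
    rw [hxdef]; exact_mod_cast hL
  have hx1 : (1 : ℝ) ≤ x := le_trans (by norm_num) hx
  have hx0 : 0 < x := by linarith
  have hbig : (10 : ℝ) ^ 30 = 1000000000000000000000000000000 := by norm_num
  push_cast
  rw [← hxdef] at hn hE hK ⊢
  have hn0 : 0 < n := lt_of_lt_of_le (pow_pos hx0 80) hn
  obtain ⟨r, hr⟩ : ∃ r : ℝ, r = x ^ 15 / n := ⟨_, rfl⟩
  have hr0 : 0 ≤ r := by rw [hr]; positivity
  have hr1 : r ≤ 1 / x ^ 65 := by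
    rw [hr, div_le_div_iff₀ hn0 (pow_pos hx0 65)]
    calc x ^ 15 * x ^ 65 = x ^ 80 := by ring
      _ ≤ 1 * n := by linarith
  rw [← hr]
  obtain ⟨E, hEd⟩ : ∃ E : ℝ, E = Ec + 1 := ⟨_, rfl⟩
  rw [← hEd] at hE ⊢
  have hEp : 0 ≤ E := by rw [hEd]; linarith
  have hcL : ∀ m : ℕ, ((L ^ m : ℕ) : ℝ) = x ^ m := by
    intro m; rw [hxdef]; push_cast; rfl
  -- powers of E
  have e1 : E ^ L ≤ Real.exp (5 * x ^ 2) := by
    refine (pow_le_exp' hEp hE L).trans (le_of_eq ?_)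
    congr 1; rw [← hxdef]; ring
  have e2 : E ^ (100 * L ^ 6) ≤ Real.exp (500 * x ^ 7) := by
    refine (pow_le_exp' hEp hE _).trans (le_of_eq ?_)
    congr 1; push_cast; rw [← hxdef]; ring
  have e3 : E ^ (L + 20 * L ^ 2) ≤ Real.exp (5 * x ^ 2 + 100 * x ^ 3) := by
    refine (pow_le_exp' hEp hE _).trans (le_of_eq ?_)
    congr 1; push_cast; rw [← hxdef]; ring
  -- T1
  have y1 : (128 * x ^ 44 * r) ^ (20 * L ^ 2 + 1) ≤ Real.exp (-(20 * x ^ 2)) := by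
    have hb : 128 * x ^ 44 * r ≤ 1 / 3 := by
      calc 128 * x ^ 44 * r ≤ 128 * x ^ 44 * (1 / x ^ 65) := by gcongr
        _ = 128 / x ^ 21 := by field_simp
        _ ≤ 1 / 3 := inv_small hx (by norm_num) (by norm_num) (by norm_num)
    refine (pow_le_exp (by positivity) hb _).trans ?_
    apply Real.exp_le_exp.2
    push_cast; rw [← hxdef]; linarith
  have y2 : (x * r) ^ (600 * L ^ 7 + 1) ≤ Real.exp (-(600 * x ^ 7)) := by
    have hb : x * r ≤ 1 / 3 := by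
      calc x * r ≤ x * (1 / x ^ 65) := by gcongr
        _ = 1 / x ^ 64 := by field_simp
        _ ≤ 1 / 3 := inv_small hx (by norm_num) (by norm_num) (by norm_num)
    refine (pow_le_exp (by positivity) hb _).trans ?_
    apply Real.exp_le_exp.2
    push_cast; rw [← hxdef]; linarith
  -- A
  have hlog : x ^ 6 + 1 ≤ Real.exp (x / 1000) := by
    have h7 := Real.pow_div_factorial_le_exp (x := x / 1000) (by positivity) 7
    refine le_trans ?_ h7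
    have hf : ((Nat.factorial 7 : ℕ) : ℝ) = 5040 := by norm_num [Nat.factorial]
    rw [hf, div_pow]
    have h6 : (1 : ℝ) ≤ x ^ 6 := one_le_pow₀ hx1
    have : 2 * x ^ 6 ≤ x ^ 7 / 1000 ^ 7 / 5040 := by
      rw [div_div, le_div_iff₀ (by norm_num)]
      have : (2 : ℝ) * (1000 ^ 7 * 5040) ≤ x := le_trans (by norm_num) hx
      calc 2 * x ^ 6 * (1000 ^ 7 * 5040) = (2 * (1000 ^ 7 * 5040)) * x ^ 6 := by ring
        _ ≤ x * x ^ 6 := by gcongr
        _ = x ^ 7 := by ring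
    linarith
  have a1 : (x ^ 6 + 1) ^ (6 * L ^ 4) ≤ Real.exp (6 * x ^ 5 / 1000) := by
    refine (pow_le_exp' (by positivity) hlog _).trans (le_of_eq ?_)
    congr 1; push_cast; rw [← hxdef]; ring
  have hsub : 6 * L ^ 4 ≤ L ^ 6 := by
    have : 6 ≤ L ^ 2 := by
      calc 6 ≤ 10 ^ 30 := by norm_num
        _ ≤ L := hL
        _ ≤ L ^ 2 := Nat.le_self_pow (by norm_num) L
    calc 6 * L ^ 4 ≤ L ^ 2 * L ^ 4 := Nat.mul_le_mul_right _ this
      _ = L ^ 6 := by ring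
  have a2 : (1 - 1 / (2 * (8 * x))) ^ (L ^ 6 - 6 * L ^ 4) ≤
      Real.exp (-(x ^ 5 / 16) + 6 * x ^ 3 / 16) := by
    have hb0 : 0 ≤ 1 - 1 / (2 * (8 * x)) := by
      have : 1 / (2 * (8 * x)) ≤ 1 := by
        rw [div_le_one (by positivity)]; linarith
      linarith
    have hb1 : 1 - 1 / (2 * (8 * x)) ≤ Real.exp (-(1 / (2 * (8 * x)))) := by
      have := Real.add_one_le_exp (-(1 / (2 * (8 * x))))
      linarith
    refine (pow_le_exp' hb0 hb1 _).trans (le_of_eq ?_)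
    congr 1
    rw [Nat.cast_sub hsub]
    push_cast
    rw [← hxdef]
    field_simp
    ring
  have b1 : (x ^ 6 * (16 * (8 * x) * x * r)) ^ (L ^ 4) ≤ Real.exp (-(x ^ 4)) := by
    have hb : x ^ 6 * (16 * (8 * x) * x * r) ≤ 1 / 3 := by
      calc x ^ 6 * (16 * (8 * x) * x * r) ≤ x ^ 6 * (16 * (8 * x) * x * (1 / x ^ 65)) := by gcongr
        _ = 128 / x ^ 57 := by field_simp; ring
        _ ≤ 1 / 3 := inv_small hx (by norm_num) (by norm_num) (by norm_num)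
    refine (pow_le_exp (by positivity) hb _).trans (le_of_eq ?_)
    congr 1; push_cast; rw [← hxdef]
  have c1 : (x ^ 6 + 1) ^ (12 * L ^ 4) * (16 * (8 * x) * x * (3 * x ^ 4) / x ^ 36) ^ (3 * L ^ 4) ≤
      Real.exp (-(3 * x ^ 4)) := by
    have hexp : 12 * L ^ 4 = 4 * (3 * L ^ 4) := by ring
    rw [hexp, pow_mul (x ^ 6 + 1) 4, ← mul_pow]
    have hb : (x ^ 6 + 1) ^ 4 * (16 * (8 * x) * x * (3 * x ^ 4) / x ^ 36) ≤ 1 / 3 := by
      have h6 : (1 : ℝ) ≤ x ^ 6 := one_le_pow₀ hx1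
      calc (x ^ 6 + 1) ^ 4 * (16 * (8 * x) * x * (3 * x ^ 4) / x ^ 36)
          ≤ (2 * x ^ 6) ^ 4 * (16 * (8 * x) * x * (3 * x ^ 4) / x ^ 36) := by
            gcongr; linarith
        _ = 6144 / x ^ 6 := by field_simp; ring
        _ ≤ 1 / 3 := inv_small hx (by norm_num) (by norm_num) (by norm_num)
    refine (pow_le_exp (by positivity) hb _).trans (le_of_eq ?_)
    congr 1; push_cast; rw [← hxdef]
  -- assembling
  have x2 : x ≤ x ^ 2 := by nlinarith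
  have x3 : 10000 * x ^ 2 ≤ x ^ 3 := by
    have : (10000 : ℝ) ≤ x := le_trans (by norm_num) hx
    calc 10000 * x ^ 2 ≤ x * x ^ 2 := by gcongr
      _ = x ^ 3 := by ring
  have x4 : 10000 * x ^ 3 ≤ x ^ 4 := by
    have : (10000 : ℝ) ≤ x := le_trans (by norm_num) hx
    calc 10000 * x ^ 3 ≤ x * x ^ 3 := by gcongr
      _ = x ^ 4 := by ring
  have x5 : 10000 * x ^ 4 ≤ x ^ 5 := by
    have : (10000 : ℝ) ≤ x := le_trans (by norm_num) hx
    calc 10000 * x ^ 4 ≤ x * x ^ 4 := by gcongr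
      _ = x ^ 5 := by ring
  have x7 : x ≤ x ^ 7 := by
    calc x = x ^ 1 := (pow_one x).symm
      _ ≤ x ^ 7 := pow_le_pow_right₀ hx1 (by norm_num)
  have p3 : 0 ≤ x ^ 3 := by positivity
  have p4 : 0 ≤ x ^ 4 := by positivity
  have p2 : 0 ≤ x ^ 2 := by positivity
  have p5 : 0 ≤ x ^ 5 := by positivity
  have t1 : K * (E ^ L * (128 * x ^ 44 * r) ^ (20 * L ^ 2 + 1)) ≤ Real.exp (-x) := by
    calc K * (E ^ L * (128 * x ^ 44 * r) ^ (20 * L ^ 2 + 1))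
        ≤ Real.exp (2 * x) * (Real.exp (5 * x ^ 2) * Real.exp (-(20 * x ^ 2))) := by gcongr
      _ = Real.exp (2 * x + (5 * x ^ 2 + -(20 * x ^ 2))) := by rw [← Real.exp_add, ← Real.exp_add]
      _ ≤ Real.exp (-x) := Real.exp_le_exp.2 (by linarith)
  have t2 : K * (E ^ (100 * L ^ 6) * (x * r) ^ (600 * L ^ 7 + 1)) ≤ Real.exp (-x) := by
    calc K * (E ^ (100 * L ^ 6) * (x * r) ^ (600 * L ^ 7 + 1))
        ≤ Real.exp (2 * x) * (Real.exp (500 * x ^ 7) * Real.exp (-(600 * x ^ 7))) := by gcongr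
      _ = Real.exp (2 * x + (500 * x ^ 7 + -(600 * x ^ 7))) := by
          rw [← Real.exp_add, ← Real.exp_add]
      _ ≤ Real.exp (-x) := Real.exp_le_exp.2 (by linarith)
  have tA : K * (E ^ (L + 20 * L ^ 2) * ((x ^ 6 + 1) ^ (6 * L ^ 4) *
      (1 - 1 / (2 * (8 * x))) ^ (L ^ 6 - 6 * L ^ 4))) ≤ Real.exp (-x) := by
    have hb0 : 0 ≤ (1 - 1 / (2 * (8 * x))) ^ (L ^ 6 - 6 * L ^ 4) := by
      apply pow_nonneg
      have : 1 / (2 * (8 * x)) ≤ 1 := by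
        rw [div_le_one (by positivity)]; linarith
      linarith
    calc K * (E ^ (L + 20 * L ^ 2) * ((x ^ 6 + 1) ^ (6 * L ^ 4) *
          (1 - 1 / (2 * (8 * x))) ^ (L ^ 6 - 6 * L ^ 4)))
        ≤ Real.exp (2 * x) * (Real.exp (5 * x ^ 2 + 100 * x ^ 3) *
          (Real.exp (6 * x ^ 5 / 1000) * Real.exp (-(x ^ 5 / 16) + 6 * x ^ 3 / 16))) := by gcongr
      _ = Real.exp (2 * x + ((5 * x ^ 2 + 100 * x ^ 3) +
          (6 * x ^ 5 / 1000 + (-(x ^ 5 / 16) + 6 * x ^ 3 / 16)))) := by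
          rw [← Real.exp_add, ← Real.exp_add, ← Real.exp_add]
      _ ≤ Real.exp (-x) := Real.exp_le_exp.2 (by nlinarith)
  have tB : K * (E ^ (L + 20 * L ^ 2) * (x ^ 6 * (16 * (8 * x) * x * r)) ^ (L ^ 4)) ≤
      Real.exp (-x) := by
    calc K * (E ^ (L + 20 * L ^ 2) * (x ^ 6 * (16 * (8 * x) * x * r)) ^ (L ^ 4))
        ≤ Real.exp (2 * x) * (Real.exp (5 * x ^ 2 + 100 * x ^ 3) * Real.exp (-(x ^ 4))) := by
          gcongr
      _ = Real.exp (2 * x + ((5 * x ^ 2 + 100 * x ^ 3) + -(x ^ 4))) := by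
          rw [← Real.exp_add, ← Real.exp_add]
      _ ≤ Real.exp (-x) := Real.exp_le_exp.2 (by linarith)
  have tC : K * (E ^ (L + 20 * L ^ 2) * ((x ^ 6 + 1) ^ (12 * L ^ 4) *
      (16 * (8 * x) * x * (3 * x ^ 4) / x ^ 36) ^ (3 * L ^ 4))) ≤ Real.exp (-x) := by
    calc K * (E ^ (L + 20 * L ^ 2) * ((x ^ 6 + 1) ^ (12 * L ^ 4) *
          (16 * (8 * x) * x * (3 * x ^ 4) / x ^ 36) ^ (3 * L ^ 4)))
        ≤ Real.exp (2 * x) * (Real.exp (5 * x ^ 2 + 100 * x ^ 3) * Real.exp (-(3 * x ^ 4))) := by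
          gcongr
      _ = Real.exp (2 * x + ((5 * x ^ 2 + 100 * x ^ 3) + -(3 * x ^ 4))) := by
          rw [← Real.exp_add, ← Real.exp_add]
      _ ≤ Real.exp (-x) := Real.exp_le_exp.2 (by linarith)
  have hsmall : Real.exp (-x) ≤ 1 / 40 := by
    rw [Real.exp_neg, ← one_div]
    apply one_div_le_one_div_of_le (by norm_num)
    have h := Real.add_one_le_exp x
    linarith
  have key : K * (E ^ L * (128 * x ^ 44 * r) ^ (20 * L ^ 2 + 1) +
      E ^ (100 * L ^ 6) * (x * r) ^ (600 * L ^ 7 + 1) +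
      E ^ (L + 20 * L ^ 2) *
        ((x ^ 6 + 1) ^ (6 * L ^ 4) * (1 - 1 / (2 * (8 * x))) ^ (L ^ 6 - 6 * L ^ 4) +
          (x ^ 6 * (16 * (8 * x) * x * r)) ^ (L ^ 4) +
          (x ^ 6 + 1) ^ (12 * L ^ 4) *
            (16 * (8 * x) * x * (3 * x ^ 4) / x ^ 36) ^ (3 * L ^ 4))) ≤ 1 / 8 := by
    have := add_le_add (add_le_add (add_le_add (add_le_add t1 t2) tA) tB) tC
    refine le_trans (le_of_eq ?_) (this.trans ?_)
    · ring
    · linarith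
  exact key

end Pool.Agent.Work.MP_f7ef37_lc.OP.NNUMA
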