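import Pool.Agent.Work.MP_f7ef37_lc.OP.Stmts3

/-!
# [f7ef37 OP NUMB] the numerical hypothesis of LEVELS
-/

set_option autoImplicit false

open Classical

namespace Pool.Agent.Work.MP_f7ef37_lc.OP.NNUMB

theorem exp_neg_four_le : Real.exp (-4) ≤ 1 / 16 := by
  have h1 : (2 : ℝ) ≤ Real.exp 1 := by
    have := Real.add_one_le_exp (1 : ℝ)
    linarith
  have h2 : Real.exp (-4) = 1 / (Real.exp 1 * Real.exp 1 * Real.exp 1 * Real.exp 1) := by
    rw [← Real.exp_add, ← Real.exp_add, ← Real.exp_add, Real.exp_neg, one_div]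
    norm_num
  have h3 : (4 : ℝ) ≤ Real.exp 1 * Real.exp 1 := by nlinarith
  have h4 : (16 : ℝ) ≤ Real.exp 1 * Real.exp 1 * Real.exp 1 * Real.exp 1 := by
    have : Real.exp 1 * Real.exp 1 * Real.exp 1 * Real.exp 1 =
        (Real.exp 1 * Real.exp 1) * (Real.exp 1 * Real.exp 1) := by ring
    rw [this]
    nlinarith
  rw [h2]
  exact one_div_le_one_div_of_le (by norm_num) h4

theorem prf : S_NUMB := by
  refine ⟨100, ?_⟩
  intro L hL n Ec K V hn hEc hEc1 hK hKe hV hVe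
  have hLr : (100 : ℝ) ≤ (L : ℝ) := by exact_mod_cast hL
  have hL1 : (1 : ℝ) ≤ (L : ℝ) := by linarith
  have h2 : (L : ℝ) ≤ (L : ℝ) ^ 3 := by
    calc (L : ℝ) = (L : ℝ) ^ 1 := (pow_one _).symm
      _ ≤ (L : ℝ) ^ 3 := pow_le_pow_right₀ hL1 (by norm_num)
  have h23 : (L : ℝ) ^ 2 ≤ (L : ℝ) ^ 3 := pow_le_pow_right₀ hL1 (by norm_num)
  have h3 : (1000000 : ℝ) ≤ (L : ℝ) ^ 3 := by
    calc (1000000 : ℝ) = 100 ^ 3 := by norm_num
      _ ≤ (L : ℝ) ^ 3 := pow_le_pow_left₀ (by norm_num) hLr 3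
  have h6 : 1000000 * (L : ℝ) ^ 3 ≤ (L : ℝ) ^ 6 := by
    have : (L : ℝ) ^ 6 = (L : ℝ) ^ 3 * (L : ℝ) ^ 3 := by ring
    rw [this]
    exact mul_le_mul_of_nonneg_right h3 (by positivity)
  have h80 : (L : ℝ) ^ 6 ≤ (L : ℝ) ^ 80 := pow_le_pow_right₀ hL1 (by norm_num)
  have hA : K * (Ec + 1) ^ (L + 20 * L ^ 2) * (4 * Real.exp (-((L ^ 6 : ℕ) : ℝ) / 8)) ≤
      1 / 4 := by
    have e2 : (Ec + 1) ^ (L + 20 * L ^ 2) ≤
        Real.exp (((L + 20 * L ^ 2 : ℕ) : ℝ) * (5 * L)) := by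
      rw [Real.exp_nat_mul]
      exact pow_le_pow_left₀ (by linarith) hEc1 _
    have e3 : K * (Ec + 1) ^ (L + 20 * L ^ 2) * (4 * Real.exp (-((L ^ 6 : ℕ) : ℝ) / 8)) ≤
        Real.exp (2 * L) * Real.exp (((L + 20 * L ^ 2 : ℕ) : ℝ) * (5 * L)) *
          (4 * Real.exp (-((L ^ 6 : ℕ) : ℝ) / 8)) := by
      gcongr
    refine e3.trans ?_
    have e4 : Real.exp (2 * L) * Real.exp (((L + 20 * L ^ 2 : ℕ) : ℝ) * (5 * L)) *
          (4 * Real.exp (-((L ^ 6 : ℕ) : ℝ) / 8)) =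
        4 * Real.exp (2 * L + ((L + 20 * L ^ 2 : ℕ) : ℝ) * (5 * L) +
          -((L ^ 6 : ℕ) : ℝ) / 8) := by
      rw [Real.exp_add, Real.exp_add]
      ring
    rw [e4]
    have e5 : Real.exp (2 * L + ((L + 20 * L ^ 2 : ℕ) : ℝ) * (5 * L) +
          -((L ^ 6 : ℕ) : ℝ) / 8) ≤ Real.exp (-4) := by
      apply Real.exp_le_exp.2
      push_cast
      have e6 : ((L : ℝ) + 20 * (L : ℝ) ^ 2) * (5 * L) = 5 * (L : ℝ) ^ 2 + 100 * (L : ℝ) ^ 3 := by
        ring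
      rw [e6]
      linarith
    have := exp_neg_four_le
    linarith
  have hB : V * Real.exp (-n / 16) ≤ 1 / 4 := by
    have e1 : V * Real.exp (-n / 16) ≤ Real.exp (3 * L) * Real.exp (-n / 16) := by
      gcongr
    refine e1.trans ?_
    rw [← Real.exp_add]
    have e2 : Real.exp (3 * L + -n / 16) ≤ Real.exp (-4) := by
      apply Real.exp_le_exp.2
      linarith
    have := exp_neg_four_le
    linarith
  linarith

end Pool.Agent.Work.MP_f7ef37_lc.OP.NNUMB
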