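import Pool.Agent.Work.MP_f7ef37_lc.OP.Stmts3

/-!
# [f7ef37 OP NUMC] the hypotheses of GP
-/

set_option autoImplicit false

open Classical

namespace Pool.Agent.Work.MP_f7ef37_lc.OP.NNUMC

theorem exp_neg_two_le : Real.exp (-2) ≤ 1 / 4 := by
  have h1 : (2 : ℝ) ≤ Real.exp 1 := by
    have := Real.add_one_le_exp (1 : ℝ)
    linarith
  have h2 : Real.exp (-2) = 1 / (Real.exp 1 * Real.exp 1) := by
    rw [← Real.exp_add, Real.exp_neg, one_div]
    norm_num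
  rw [h2]
  apply one_div_le_one_div_of_le (by norm_num)
  nlinarith

theorem prf : S_NUMC := by
  refine ⟨100, ?_⟩
  intro L hL n Ec K V N hn hEc hEc1 hK hKe hV hVe hN hNn
  have hLr : (100 : ℝ) ≤ (L : ℝ) := by exact_mod_cast hL
  have hL0 : (0 : ℝ) < (L : ℝ) := by linarith
  have hL80 : (0 : ℝ) < (L : ℝ) ^ 80 := by positivity
  have hn0 : 0 < n := lt_of_lt_of_le hL80 hn
  constructor
  · have e1 : -((L : ℝ) ^ 15 / n) * (n / (128 * L)) / 64 = -((L : ℝ) ^ 14 / 8192) := by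
      field_simp
      norm_num
    rw [e1]
    have e2 : (Ec + 1) ^ (100 * L ^ 6 + 600 * L ^ 7) ≤
        Real.exp (((100 * L ^ 6 + 600 * L ^ 7 : ℕ) : ℝ) * (5 * L)) := by
      rw [Real.exp_nat_mul]
      exact pow_le_pow_left₀ (by linarith) hEc1 _
    have e3 : K * (Ec + 1) ^ (100 * L ^ 6 + 600 * L ^ 7) * V * Real.exp (-((L : ℝ) ^ 14 / 8192)) ≤
        Real.exp (2 * L) * Real.exp (((100 * L ^ 6 + 600 * L ^ 7 : ℕ) : ℝ) * (5 * L)) *
          Real.exp (3 * L) * Real.exp (-((L : ℝ) ^ 14 / 8192)) := by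
      gcongr
    refine e3.trans ?_
    rw [← Real.exp_add, ← Real.exp_add, ← Real.exp_add]
    refine le_trans (Real.exp_le_exp.2 ?_) exp_neg_two_le
    push_cast
    have hp6 : (1000000000000 : ℝ) ≤ (L : ℝ) ^ 6 := by
      calc (1000000000000 : ℝ) = 100 ^ 6 := by norm_num
        _ ≤ (L : ℝ) ^ 6 := pow_le_pow_left₀ (by norm_num) hLr 6
    have hp8 : (0 : ℝ) < (L : ℝ) ^ 8 := by positivity
    have h14 : (L : ℝ) ^ 14 = (L : ℝ) ^ 6 * (L : ℝ) ^ 8 := by ring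
    have h7 : (L : ℝ) ^ 7 ≤ (L : ℝ) ^ 8 := pow_le_pow_right₀ (by linarith) (by norm_num)
    have h1 : (L : ℝ) ≤ (L : ℝ) ^ 8 := by
      calc (L : ℝ) = (L : ℝ) ^ 1 := (pow_one _).symm
        _ ≤ (L : ℝ) ^ 8 := pow_le_pow_right₀ (by linarith) (by norm_num)
    have hone : (1 : ℝ) ≤ (L : ℝ) ^ 8 := by linarith
    have hbig : 1000000000000 * (L : ℝ) ^ 8 ≤ (L : ℝ) ^ 14 := by
      rw [h14]
      exact mul_le_mul_of_nonneg_right hp6 hp8.le
    have hexp : (100 * (L : ℝ) ^ 6 + 600 * (L : ℝ) ^ 7) * (5 * L) =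
        500 * (L : ℝ) ^ 7 + 3000 * (L : ℝ) ^ 8 := by ring
    rw [hexp]
    linarith
  · have e1 : 2 * ((L : ℝ) ^ 15 / n) * N ≤ 2 := by
      have hNn' : N * (L : ℝ) ^ 15 ≤ n := by
        refine le_trans ?_ hNn
        apply mul_le_mul_of_nonneg_left _ hN
        exact pow_le_pow_right₀ (by linarith) (by norm_num)
      have : (L : ℝ) ^ 15 / n * N ≤ 1 := by
        rw [div_mul_eq_mul_div, div_le_one hn0]
        linarith
      linarith
    have e2 : Ec ≤ Real.exp (5 * L) := by linarith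
    have e3 : K * Ec * V * Real.exp (2 * ((L : ℝ) ^ 15 / n) * N - ((20 * L : ℕ) : ℝ)) ≤
        Real.exp (2 * L) * Real.exp (5 * L) * Real.exp (3 * L) *
          Real.exp (2 - ((20 * L : ℕ) : ℝ)) := by
      gcongr
    refine e3.trans ?_
    rw [← Real.exp_add, ← Real.exp_add, ← Real.exp_add]
    refine le_trans (Real.exp_le_exp.2 ?_) exp_neg_two_le
    push_cast
    linarith

end Pool.Agent.Work.MP_f7ef37_lc.OP.NNUMC
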