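import Pool.Agent.Work.MP_f7ef37_lc.OP.Stmts3

set_option autoImplicit false

open Classical

namespace Pool.Agent.Work.MP_f7ef37_lc.OP.NNUMD

/-- NUMD: natural number inequalities for large `L` -/
theorem prf : S_NUMD := by
  refine ⟨1000, by norm_num, ?_⟩
  intro L hL n N d h1 h2 h3
  have hL1 : 1 ≤ L := by omega
  have hmono : ∀ i j : ℕ, i ≤ j → L ^ i ≤ L ^ j := fun i j hij => Nat.pow_le_pow_right hL1 hij
  have hsq : 1000000 ≤ L ^ 2 := by
    calc 1000000 = 1000 ^ 2 := by norm_num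
      _ ≤ L ^ 2 := Nat.pow_le_pow_left hL 2
  have e1 : L ≤ L ^ 6 := by simpa using hmono 1 6 (by norm_num)
  have e2 : L ^ 2 ≤ L ^ 6 := hmono 2 6 (by norm_num)
  -- products with the square
  have hstep : ∀ i : ℕ, 1000000 * L ^ i ≤ L ^ (i + 2) := by
    intro i
    rw [pow_add, Nat.mul_comm]
    exact Nat.mul_le_mul_left _ hsq
  refine ⟨?_, ?_, ?_, ?_, ?_, ?_, ?_, ?_, ?_, ?_⟩
  · omega
  · -- `8 L^11 (N+1) ≤ d`
    have a1 : L ^ 80 * (N + 1) ≤ 2 * n := by
      have : L ^ 80 * (N + 1) = N * L ^ 80 + L ^ 80 := by ring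
      omega
    have a2 : 2048 * L ^ 12 ≤ L ^ 80 := by
      have b1 := hstep 12
      have b2 := hmono 14 80 (by norm_num)
      have b3 : (12 : ℕ) + 2 = 14 := rfl
      rw [b3] at b1
      omega
    have a3 : 2048 * L ^ 12 * (N + 1) ≤ 2 * n := (Nat.mul_le_mul_right _ a2).trans a1
    have a4 : 2 * ((128 * L) * (8 * (L ^ 11 * (N + 1)))) = 2048 * L ^ 12 * (N + 1) := by ring
    have a5 : (128 * L) * (8 * (L ^ 11 * (N + 1))) ≤ (128 * L) * d := by omega
    exact Nat.le_of_mul_le_mul_left a5 (by omega)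
  · have c0 : 100 * L ^ 6 + 600 * L ^ 7 + 2 * (L + (20 * L ^ 2 + 1) * (L ^ 6 * (1 + L)) +
        60 * L ^ 6 + (600 * L ^ 7 + 1) * L) =
        4 * L + 222 * L ^ 6 + 602 * L ^ 7 + 1240 * L ^ 8 + 40 * L ^ 9 := by ring
    rw [c0]
    have c1 : L ≤ L ^ 9 := by simpa using hmono 1 9 (by norm_num)
    have c2 := hmono 6 9 (by norm_num)
    have c3 := hmono 7 9 (by norm_num)
    have c4 := hmono 8 9 (by norm_num)
    have c5 := hstep 9
    have c6 : (9 : ℕ) + 2 = 11 := rfl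
    rw [c6] at c5
    omega
  · have c1 := hstep 4
    have c2 := hmono 6 36 (by norm_num)
    have c3 : (4 : ℕ) + 2 = 6 := rfl
    rw [c3] at c1
    omega
  · have c1 := hstep 4
    have c3 : (4 : ℕ) + 2 = 6 := rfl
    rw [c3] at c1
    omega
  · have c1 : L ≤ L ^ 44 := by simpa using hmono 1 44 (by norm_num)
    omega
  · apply le_of_eq
    ring
  · have c1 := hstep 1
    have c2 := hmono 3 15 (by norm_num)
    have c3 : (1 : ℕ) + 2 = 3 := rfl
    rw [c3, pow_one] at c1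
    omega
  · exact (hmono 15 80 (by norm_num)).trans h1
  · have c0 : 32 * 128 * L * (L ^ 11 * (20 * L + 1) + 1) =
        4096 * L + 4096 * L ^ 12 + 81920 * L ^ 13 := by ring
    rw [c0]
    have c1 : L ≤ L ^ 13 := by simpa using hmono 1 13 (by norm_num)
    have c2 := hmono 12 13 (by norm_num)
    have c5 := hstep 13
    have c6 : (13 : ℕ) + 2 = 15 := rfl
    rw [c6] at c5
    omega

end Pool.Agent.Work.MP_f7ef37_lc.OP.NNUMD
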