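import Pool.Agent.Work.MP_f7ef37_lc.OP.Stmts

set_option autoImplicit false

open Classical

namespace Pool.Agent.Work.MP_f7ef37_lc.OP.NPHI

open Pool.Agent.Work.MP_f7ef37_lc.OP

/-- Two edges at `v` which are adjacent to an edge not at `v` are equal. -/
theorem adj_unique {I J : Type} {v : I ⊕ J} {e f g : I × J} (he : ¬ Inc v e)
    (hf : Inc v f) (hg : Inc v g) (haf : Adj e f) (hag : Adj e g) : f = g := by
  cases v with
  | inl i =>
    simp only [Inc] at he hf hg
    rcases haf with h1 | h1
    · exact absurd (h1.trans hf) he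
    · rcases hag with h2 | h2
      · exact absurd (h2.trans hg) he
      · exact Prod.ext (hf.trans hg.symm) (h1.symm.trans h2)
  | inr j =>
    simp only [Inc] at he hf hg
    rcases haf with h1 | h1
    · rcases hag with h2 | h2
      · exact Prod.ext (h1.symm.trans h2) (hf.trans hg.symm)
      · exact absurd (h2.trans hg) he
    · exact absurd (h1.trans hf) he

theorem prf : S_PHI := by
  intro I J _ _ D Y a b Z v N hZ hab hM hD hY hv hN
  set P := Z.filter (fun f => NA a f ∧ ¬ Opn D (insert f a)) with hP
  set Q := Z.filter (fun f => NA b f ∧ ¬ Opn D (insert f b)) with hQ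
  set S : I × J → Finset (I × J) := fun e =>
    (Z.filter (fun f => Adj e f)) ∪ (if Avd Y e then CoN D Y e v ∩ Z else ∅) with hS
  have hvb : ∀ e ∈ b, ¬ Inc v e := fun e he h => hv ⟨e, he, h⟩
  have hScard : ∀ e ∈ b, (S e).card ≤ N + 1 := by
    intro e he
    have h1 : (Z.filter (fun f => Adj e f)).card ≤ 1 := by
      rw [Finset.card_le_one]
      intro f hf g hg
      rw [Finset.mem_filter] at hf hg
      exact adj_unique (hvb e he) (mem_star.1 (hZ hf.1)) (mem_star.1 (hZ hg.1)) hf.2 hg.2
    have h2 : (if Avd Y e then CoN D Y e v ∩ Z else ∅).card ≤ N := by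
      by_cases h : Avd Y e
      · rw [if_pos h]
        exact hN e (hvb e he) h
      · rw [if_neg h]
        simp
    have h3 := Finset.card_union_le (Z.filter (fun f => Adj e f))
      (if Avd Y e then CoN D Y e v ∩ Z else ∅)
    have h4 : (S e).card = ((Z.filter (fun f => Adj e f)) ∪
      (if Avd Y e then CoN D Y e v ∩ Z else ∅)).card := rfl
    omega
  have hsub : P \ Q ⊆ b.biUnion S := by
    intro f hf
    rw [Finset.mem_sdiff, hP, hQ, Finset.mem_filter, Finset.mem_filter] at hf
    obtain ⟨⟨hfZ, hfa, hfo⟩, hfQ⟩ := hf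
    rw [Finset.mem_biUnion]
    by_cases hfb : NA b f
    · have hO : Opn D (insert f b) := by
        by_contra h
        exact hfQ ⟨hfZ, hfb, h⟩
      obtain ⟨T, hT, hT1, hT2⟩ := hO
      have hfT : f ∈ T.1 := by
        by_contra h
        apply hD
        refine ⟨T, hT, ?_, fun e he heb => hT2 e he (Finset.mem_insert_of_mem heb)⟩
        intro e he
        rcases Finset.mem_insert.1 (hT1 he) with h1 | h1
        · exact absurd (h1 ▸ he) h
        · exact h1
      have hne : ¬ T.1 ⊆ insert f a := by
        intro h
        apply hfo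
        refine ⟨T, hT, h, fun e he heb => hT2 e he ?_⟩
        exact Finset.insert_subset_insert f hab heb
      rw [Finset.not_subset] at hne
      obtain ⟨e, heT, hea⟩ := hne
      have hef : e ≠ f := fun h => hea (h ▸ Finset.mem_insert_self f a)
      have heb : e ∈ b := by
        rcases Finset.mem_insert.1 (hT1 heT) with h1 | h1
        · exact absurd h1 hef
        · exact h1
      have hea' : e ∉ a := fun h => hea (Finset.mem_insert_of_mem h)
      have hAe : Avd Y e := by
        intro y hy hye
        obtain ⟨g, hg, hyg⟩ := hY y hy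
        have hadj : Adj g e := (adj_iff g e).2 ⟨y, hyg, hye⟩
        have := hM g (hab hg) e heb hadj
        exact hea' (this ▸ hg)
      have hAf : Avd Y f := by
        intro y hy hyf
        obtain ⟨g, hg, hyg⟩ := hY y hy
        exact hfb g (hab hg) ((adj_iff g f).2 ⟨y, hyg, hyf⟩)
      refine ⟨e, heb, ?_⟩
      rw [hS]
      simp only
      rw [if_pos hAe]
      apply Finset.mem_union_right
      rw [Finset.mem_inter]
      refine ⟨?_, hfZ⟩
      unfold CoN
      rw [Finset.mem_filter]
      exact ⟨hZ hfZ, hAf, T, hT, heT, hfT⟩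
    · unfold NA at hfb
      push Not at hfb
      obtain ⟨e, he, hadj⟩ := hfb
      refine ⟨e, he, ?_⟩
      apply Finset.mem_union_left
      rw [Finset.mem_filter]
      exact ⟨hfZ, hadj⟩
  have h1 : (P \ Q).card ≤ b.card * (N + 1) :=
    (Finset.card_le_card hsub).trans (Finset.card_biUnion_le_card_mul b S (N + 1) hScard)
  have h2 : P.card ≤ Q.card + (P \ Q).card := by
    have := Finset.card_le_card (show P ⊆ Q ∪ (P \ Q) by
      intro x hx
      by_cases hxQ : x ∈ Q
      · exact Finset.mem_union_left _ hxQ
      · exact Finset.mem_union_right _ (Finset.mem_sdiff.2 ⟨hx, hxQ⟩))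
    exact this.trans (Finset.card_union_le Q (P \ Q))
  have h3 : phi D a Z = P.card := rfl
  have h4 : phi D b Z = Q.card := rfl
  rw [h3, h4]
  omega

end Pool.Agent.Work.MP_f7ef37_lc.OP.NPHI
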