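import Pool.Agent.Work.MP_f7ef37_lc.OP.Stmts

/-!
# PROC: processing of a line
-/

set_option autoImplicit false

open Classical

namespace Pool.Agent.Work.MP_f7ef37_lc.OP.NPROC

open Pool.Agent.Work.MP_f7ef37_lc.OP

/-- The edges of `b` at vertices of `U`. -/
noncomputable def edgesAt {I J : Type} (b : Finset (I × J)) (U : Finset (I ⊕ J)) :
    Finset (I × J) := b.filter (fun e => ∃ y ∈ U, Inc y e)

theorem edgesAt_sub {I J : Type} (b : Finset (I × J)) (U : Finset (I ⊕ J)) :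
    edgesAt b U ⊆ b := Finset.filter_subset _ _

theorem edgesAt_cov {I J : Type} {b : Finset (I × J)} {U : Finset (I ⊕ J)}
    (h : ∀ v ∈ U, Cov b v) : ∀ v ∈ U, Cov (edgesAt b U) v := by
  intro v hv
  obtain ⟨e, he, hi⟩ := h v hv
  exact ⟨e, Finset.mem_filter.2 ⟨he, v, hv, hi⟩, hi⟩

theorem edgesAt_card {I J : Type} {b : Finset (I × J)} {U : Finset (I ⊕ J)} (hm : Mat b)
    (h : ∀ v ∈ U, Cov b v) : (edgesAt b U).card ≤ U.card := by
  by_cases hne : (edgesAt b U).Nonempty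
  · obtain ⟨e0, he0⟩ := hne
    have hch : ∀ v : I ⊕ J, ∃ e : I × J, v ∈ U → e ∈ b ∧ Inc v e := by
      intro v
      by_cases hv : v ∈ U
      · obtain ⟨e, he, hi⟩ := h v hv
        exact ⟨e, fun _ => ⟨he, hi⟩⟩
      · exact ⟨e0, fun h => absurd h hv⟩
    choose f hf using hch
    have hsub : edgesAt b U ⊆ U.image f := by
      intro e he
      obtain ⟨heb, y, hy, hi⟩ := Finset.mem_filter.1 he
      refine Finset.mem_image.2 ⟨y, hy, ?_⟩
      exact hm (f y) (hf y hy).1 e heb ((adj_iff _ _).2 ⟨y, (hf y hy).2, hi⟩)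
    exact (Finset.card_le_card hsub).trans Finset.card_image_le
  · rw [Finset.not_nonempty_iff_eq_empty.1 hne]
    simp

theorem prf : S_PHI → S_MATCH → S_STEPA → S_STEPB → S_LOOP → S_PROC := by
  intro hPHI hMATCH hSTEPA hSTEPB hLOOP
  intro I J _ _ lam R w0 w1 x1 b1 k g k2 g2 N t G C A Gd W hA hE D0 Y0 b hw0 hYk hT hTame hCert
    hDich hk2 hdel hGb hW
  have hprod1 : w0 * (1 + t) ≤ (g + 1) * (w0 * (1 + t)) := Nat.le_mul_of_pos_left _ (by omega)
  have hprod2 : t ≤ (g2 + 1) * t := Nat.le_mul_of_pos_left _ (by omega)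
  have htu : t ≤ w0 * (1 + t) := by
    have : 1 * (1 + t) ≤ w0 * (1 + t) := Nat.mul_le_mul_right _ hw0
    omega
  -- Stage 0
  obtain ⟨b0, hbb0, hG0, hcov0, hcard0⟩ := hMATCH I J A Gd W hE Y0 b hGb (by omega)
  have hm0 : Mat b0 := hA.mat b0 (hE.alive b0 hG0)
  set a0 : Finset (I × J) := edgesAt b0 Y0 with ha0
  have ha0b : a0 ⊆ b0 := edgesAt_sub _ _
  have ha0c : a0.card ≤ k := (edgesAt_card hm0 hcov0).trans hYk
  have ha0cov : ∀ y ∈ Y0, Cov a0 y := edgesAt_cov hcov0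
  have ha0R : a0 ∈ Reach (O1 lam R w0 x1 D0) k 0 := by
    simp only [Reach, Finset.mem_filter, Finset.mem_univ, true_and]
    exact ha0c
  -- Stage 1
  have hstep1 : ∀ s (a b : Finset (I × J)), s ≤ g → a ∈ Reach (O1 lam R w0 x1 D0) k s → a ⊆ b →
      Gd b → b.card + w0 * (1 + t) ≤ W →
      ¬ (fun a : Finset (I × J) => ¬ Opn D0 a ∧ (supset lam R D0 a).card < w0) a →
      ∃ b', b ⊆ b' ∧ Gd b' ∧ b'.card ≤ b.card + w0 * (1 + t) ∧
        ((fun b => Sat D0 b) b' ∨ ∃ e ∈ O1 lam R w0 x1 D0 a, e ∈ b' ∧ e ∉ a) := by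
    intro s a b hs haR hab hGb hWb hnT
    by_cases hO : Opn D0 a
    · obtain ⟨b', h1, h2, h3, h4⟩ := hSTEPA I J A Gd W t hE D0 a b hT hGb hab hO (by omega)
      refine ⟨b', h1, h2, by omega, ?_⟩
      rcases h4 with h4 | ⟨e, he, heb⟩
      · exact Or.inl h4
      · refine Or.inr ⟨e, ?_, heb, wit_notMem he⟩
        unfold O1
        rw [if_pos hO]
        exact he
    · have hsup : w0 ≤ (supset lam R D0 a).card := by
        by_contra hlt
        exact hnT ⟨hO, by omega⟩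
      have hac : a.card ≤ k + g := (reach_card haR).trans (by omega)
      obtain ⟨b', h1, h2, h3, h4⟩ := hSTEPB I J lam R w0 x1 b1 G C A Gd W t hA hE hw0 D0 a b hT hGb
        hab hO hsup (by
          intro γ hγ
          apply hCert
          unfold Certs
          refine Finset.mem_union_right _ (Finset.mem_biUnion.2 ⟨a, ?_, hγ⟩)
          exact Finset.mem_filter.2 ⟨Finset.mem_univ _, hac, hsup⟩) hWb
      refine ⟨b', h1, h2, h3, ?_⟩
      rcases h4 with h4 | ⟨e, he, heb, hea⟩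
      · exact Or.inl h4
      · refine Or.inr ⟨e, ?_, heb, hea⟩
        unfold O1
        rw [if_neg hO, if_pos hsup]
        exact he
  have havoid1 : ∀ b, Gd b → ∀ γ ∈ Reach (O1 lam R w0 x1 D0) k (g + 1), ¬ γ ⊆ b := by
    intro b hb γ hγ
    refine hA.avoid b (hE.alive b hb) γ (hCert γ ?_)
    unfold Certs
    exact Finset.mem_union_left _ (Finset.mem_union_left _ hγ)
  obtain ⟨b1', hbb1, hG1, hcard1, hres1⟩ := hLOOP (I × J) (O1 lam R w0 x1 D0) k g
    (w0 * (1 + t)) W Gd (fun b => Sat D0 b)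
    (fun a : Finset (I × J) => ¬ Opn D0 a ∧ (supset lam R D0 a).card < w0)
    hstep1 havoid1 a0 b0 ha0R ha0b hG0 (by omega)
  rcases hres1 with hsat | ⟨s, hs, a, haR, ha0a, hab1, haO, hasup⟩
  · exact ⟨b1', hbb0.trans hbb1, hG1, by omega, Or.inl hsat⟩
  have hac : a.card ≤ k + g := (reach_card haR).trans (by omega)
  have hhev : (hevset lam R D0 a).card ≤ w1 := by
    rcases hDich a hac with h | h
    · omega
    · exact h
  -- matching of the heavy vertices
  obtain ⟨b2, hbb2, hG2, hcov2, hcard2⟩ := hMATCH I J A Gd W hE (hevset lam R D0 a) b1' hG1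
    (by omega)
  have hm2 : Mat b2 := hA.mat b2 (hE.alive b2 hG2)
  set a1 : Finset (I × J) := a ∪ edgesAt b2 (hevset lam R D0 a) with ha1
  have ha1b : a1 ⊆ b2 := Finset.union_subset (hab1.trans hbb2) (edgesAt_sub _ _)
  have ha1c : a1.card ≤ k2 := by
    have h1 : a1.card ≤ a.card + (edgesAt b2 (hevset lam R D0 a)).card :=
      Finset.card_union_le _ _
    have h2 : (edgesAt b2 (hevset lam R D0 a)).card ≤ (hevset lam R D0 a).card :=
      edgesAt_card hm2 hcov2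
    omega
  have haa1 : a ⊆ a1 := Finset.subset_union_left
  have ha1cov : ∀ v ∈ hevset lam R D0 a, Cov a1 v := fun v hv =>
    (edgesAt_cov hcov2 v hv).mono Finset.subset_union_right
  have ha1R : a1 ∈ Reach (wit D0) k2 0 := by
    simp only [Reach, Finset.mem_filter, Finset.mem_univ, true_and]
    exact ha1c
  -- Stage 2
  have hstep2 : ∀ s (a b : Finset (I × J)), s ≤ g2 → a ∈ Reach (wit D0) k2 s → a ⊆ b →
      Gd b → b.card + t ≤ W → ¬ (fun a : Finset (I × J) => ¬ Opn D0 a) a →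
      ∃ b', b ⊆ b' ∧ Gd b' ∧ b'.card ≤ b.card + t ∧
        ((fun b => Sat D0 b) b' ∨ ∃ e ∈ wit D0 a, e ∈ b' ∧ e ∉ a) := by
    intro s a b hs haR hab hGb hWb hnT
    have hO : Opn D0 a := not_not.1 hnT
    obtain ⟨b', h1, h2, h3, h4⟩ := hSTEPA I J A Gd W t hE D0 a b hT hGb hab hO hWb
    refine ⟨b', h1, h2, h3, ?_⟩
    rcases h4 with h4 | ⟨e, he, heb⟩
    · exact Or.inl h4
    · exact Or.inr ⟨e, he, heb, wit_notMem he⟩
  have havoid2 : ∀ b, Gd b → ∀ γ ∈ Reach (wit D0) k2 (g2 + 1), ¬ γ ⊆ b := by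
    intro b hb γ hγ
    refine hA.avoid b (hE.alive b hb) γ (hCert γ ?_)
    unfold Certs
    exact Finset.mem_union_left _ (Finset.mem_union_right _ hγ)
  obtain ⟨b3, hbb3, hG3, hcard3, hres3⟩ := hLOOP (I × J) (wit D0) k2 g2 t W Gd
    (fun b => Sat D0 b) (fun a : Finset (I × J) => ¬ Opn D0 a)
    hstep2 havoid2 a1 b2 ha1R ha1b hG2 (by omega)
  refine ⟨b3, ((hbb0.trans hbb1).trans hbb2).trans hbb3, hG3, by omega, ?_⟩
  rcases hres3 with hsat | ⟨s2, hs2, a2, ha2R, ha1a2, ha2b, ha2O⟩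
  · exact Or.inl hsat
  right
  have ha2c : a2.card ≤ k2 + g2 := (reach_card ha2R).trans (by omega)
  have hm3 : Mat b3 := hA.mat b3 (hE.alive b3 hG3)
  refine ⟨a2, ha2b, ha2c, ha2O, fun y hy =>
    (ha0cov y hy).mono ((ha0a.trans haa1).trans ha1a2), ?_⟩
  intro v hv
  have hnh : ¬ Hev lam R D0 a v := fun hh => hv ((ha1cov v (mem_hevset.2 hh)).mono ha1a2)
  have hva : ¬ Cov a v := fun hh => hv (hh.mono (haa1.trans ha1a2))
  have h1 : 4 * lv lam R v + del R v ≤ 4 * phi D0 a (Xs lam v) := by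
    by_contra hlt
    exact hnh ⟨hva, by omega⟩
  have hvY : v ∉ Y0 := fun hy => hv ((ha0cov v hy).mono ((ha0a.trans haa1).trans ha1a2))
  have h2 := hPHI I J D0 Y0 a a2 (Xs lam v) v N
    (fun e he => mem_star.2 (mem_Xs.1 he).1) (haa1.trans ha1a2) (hm3.mono ha2b) ha2O
    (fun y hy => (ha0cov y hy).mono ha0a) hv
    (fun e he1 he2 => (Finset.card_le_card Finset.inter_subset_left).trans
      (hTame e v he1 he2 hvY))
  have h3 : a2.card * (N + 1) ≤ (k2 + g2) * (N + 1) := Nat.mul_le_mul_right _ ha2c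
  have h4 := hdel v
  omega

end Pool.Agent.Work.MP_f7ef37_lc.OP.NPROC

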