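import Pool.Agent.Work.MP_f7ef37_lc.OP.Stmts2

/-!
# Item QCARD of the block [f7ef37 OP]
-/

set_option autoImplicit false

open Classical

namespace Pool.Agent.Work.MP_f7ef37_lc.OP.NQCARD

variable {I J : Type} [Fintype I] [Fintype J]

theorem one_vertex (lam : I ⊕ J → ℕ) (R x1 t : ℕ) (D : Ln I J) (a : Finset (I × J))
    (hR : 1 ≤ R) (hdel : ∀ v : I ⊕ J, 1 ≤ del R v) (ht : ∀ T ∈ D, T.2.card ≤ t)
    (v : I ⊕ J) (hv : lam v ≠ 0) :
    ((Finset.univ : Finset (I × J)).filter (fun e =>
      lv lam R v < x1 * ((Bd lam D a v).filter (fun f => e ∈ wit D (insert f a))).card)).card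
      ≤ 16 * R * t * x1 := by
  set P : Finset (I × J) := (Finset.univ : Finset (I × J)).filter (fun e =>
      lv lam R v < x1 * ((Bd lam D a v).filter (fun f => e ∈ wit D (insert f a))).card) with hP
  have h1 : P.card * lv lam R v ≤
      ∑ e ∈ P, x1 * ((Bd lam D a v).filter (fun f => e ∈ wit D (insert f a))).card := by
    rw [← smul_eq_mul, ← Finset.sum_const]
    apply Finset.sum_le_sum
    intro e he
    rw [hP, Finset.mem_filter] at he
    exact he.2.le
  have h2 : ∑ e ∈ P, x1 * ((Bd lam D a v).filter (fun f => e ∈ wit D (insert f a))).card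
      ≤ x1 * ∑ e : I × J, ((Bd lam D a v).filter (fun f => e ∈ wit D (insert f a))).card := by
    rw [← Finset.mul_sum]
    exact Nat.mul_le_mul_left _ (Finset.sum_le_sum_of_subset (Finset.subset_univ _))
  have h3 : ∑ e : I × J, ((Bd lam D a v).filter (fun f => e ∈ wit D (insert f a))).card
      = ∑ f ∈ Bd lam D a v, (wit D (insert f a)).card := by
    simp only [Finset.card_filter]
    rw [Finset.sum_comm]
    apply Finset.sum_congr rfl
    intro f _
    rw [← Finset.card_filter]
    congr 1
    ext e
    simp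
  have h4 : ∑ f ∈ Bd lam D a v, (wit D (insert f a)).card ≤ (Bd lam D a v).card * t := by
    rw [← smul_eq_mul, ← Finset.sum_const]
    exact Finset.sum_le_sum (fun f _ => wit_card ht _)
  have h5 : (Bd lam D a v).card ≤ (star v).card := by
    apply Finset.card_le_card
    intro f hf
    unfold Bd at hf
    rw [Finset.mem_filter, mem_Xs] at hf
    exact mem_star.2 hf.1.1
  have h6 : (star v).card ≤ 16 * R * del R v := by
    have hd := hdel v
    have hlt : (star v).card < 8 * R * (del R v + 1) := by
      have := Nat.lt_mul_div_succ (star v).card (show 0 < 8 * R by omega)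
      unfold del
      exact this
    nlinarith [Nat.mul_le_mul_left (8 * R) hd]
  have h7 : del R v ≤ lv lam R v := by
    unfold lv
    exact Nat.le_mul_of_pos_left _ (Nat.pos_of_ne_zero hv)
  have h8 : P.card * del R v ≤ (16 * R * t * x1) * del R v := by
    calc P.card * del R v ≤ P.card * lv lam R v := Nat.mul_le_mul_left _ h7
      _ ≤ x1 * ∑ e : I × J,
            ((Bd lam D a v).filter (fun f => e ∈ wit D (insert f a))).card := h1.trans h2
      _ = x1 * ∑ f ∈ Bd lam D a v, (wit D (insert f a)).card := by rw [h3]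
      _ ≤ x1 * ((Bd lam D a v).card * t) := Nat.mul_le_mul_left _ h4
      _ ≤ x1 * ((16 * R * del R v) * t) :=
          Nat.mul_le_mul_left _ (Nat.mul_le_mul_right _ (h5.trans h6))
      _ = (16 * R * t * x1) * del R v := by ring
  exact Nat.le_of_mul_le_mul_right h8 (hdel v)

theorem prf : S_QCARD := by
  intro I J _ _ lam R w0 x1 t D a hR hdel ht
  have hsub : Qs lam R w0 x1 D a ⊆ (W0 lam R w0 D a).biUnion (fun v =>
      (Finset.univ : Finset (I × J)).filter (fun e =>
        lv lam R v < x1 * ((Bd lam D a v).filter (fun f => e ∈ wit D (insert f a))).card)) := by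
    intro e he
    unfold Qs at he
    rw [Finset.mem_filter] at he
    obtain ⟨_, v, hv, h⟩ := he
    rw [Finset.mem_biUnion]
    exact ⟨v, hv, Finset.mem_filter.2 ⟨Finset.mem_univ _, h⟩⟩
  calc (Qs lam R w0 x1 D a).card ≤ _ := Finset.card_le_card hsub
    _ ≤ (W0 lam R w0 D a).card * (16 * R * t * x1) := by
        apply Finset.card_biUnion_le_card_mul
        intro v hv
        exact one_vertex lam R x1 t D a hR hdel ht v (W0_sub hv).2.1
    _ ≤ w0 * (16 * R * t * x1) := Nat.mul_le_mul_right _ W0_card_le

end Pool.Agent.Work.MP_f7ef37_lc.OP.NQCARD
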