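import Pool.Agent.Work.MP_f7ef37_lc.OP.Stmts2

/-!
# Item REACHW of the block [f7ef37 OP]: weight of the reachable sets
-/

set_option autoImplicit false

open Classical

namespace Pool.Agent.Work.MP_f7ef37_lc.OP.NREACHW

theorem sum_biUnion_le' {ι α : Type} [DecidableEq α] (s : Finset ι) (t : ι → Finset α) (f : α → ℝ)
    (hf : ∀ x, 0 ≤ f x) : ∑ x ∈ s.biUnion t, f x ≤ ∑ i ∈ s, ∑ x ∈ t i, f x := by
  induction s using Finset.induction_on with
  | empty => simp
  | insert i s hi ih =>
    rw [Finset.biUnion_insert, Finset.sum_insert hi]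
    have h1 := Finset.sum_union_inter (s₁ := t i) (s₂ := s.biUnion t) (f := f)
    have h2 : 0 ≤ ∑ x ∈ t i ∩ s.biUnion t, f x := Finset.sum_nonneg (fun x _ => hf x)
    linarith

theorem sum_image_le' {ι α : Type} [DecidableEq α] (s : Finset ι) (g : ι → α) (f : α → ℝ)
    (hf : ∀ x, 0 ≤ f x) : ∑ x ∈ s.image g, f x ≤ ∑ i ∈ s, f (g i) := by
  have h := sum_biUnion_le' s (fun i => ({g i} : Finset α)) f hf
  rw [Finset.biUnion_singleton] at h
  simpa using h

theorem card_small (E : Type) [Fintype E] (k : ℕ) :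
    ((Finset.univ : Finset (Finset E)).filter (fun a => a.card ≤ k)).card
      ≤ (Fintype.card E + 1) ^ k := by
  induction k with
  | zero =>
    have : (Finset.univ : Finset (Finset E)).filter (fun a => a.card ≤ 0) = {∅} := by
      ext a
      simp
    rw [this]
    simp
  | succ k ih =>
    have hsub : (Finset.univ : Finset (Finset E)).filter (fun a => a.card ≤ k + 1) ⊆
        (((Finset.univ : Finset (Finset E)).filter (fun a => a.card ≤ k)) ×ˢ
          (Finset.univ : Finset (Option E))).image
          (fun x => x.2.elim x.1 (fun e => insert e x.1)) := by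
      intro a ha
      rw [Finset.mem_filter] at ha
      rw [Finset.mem_image]
      by_cases hk : a.card ≤ k
      · exact ⟨(a, none), by simp [hk], rfl⟩
      · have hne : a.Nonempty := by
          rw [← Finset.card_pos]
          omega
        obtain ⟨x, hx⟩ := hne
        refine ⟨(a.erase x, some x), ?_, ?_⟩
        · simp only [Finset.mem_product, Finset.mem_filter, Finset.mem_univ, true_and, and_true]
          rw [Finset.card_erase_of_mem hx]
          omega
        · simp only [Option.elim_some]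
          exact Finset.insert_erase hx
    refine (Finset.card_le_card hsub).trans (Finset.card_image_le.trans ?_)
    rw [Finset.card_product, Finset.card_univ, Fintype.card_option, pow_succ]
    exact Nat.mul_le_mul_right _ ih

theorem prf : S_REACHW := by
  intro E _ O k s q κm κ h0 hm hm0 hm1 hq
  have hnn : ∀ a : Finset E, 0 ≤ ∏ e ∈ a, κ e := fun a => Finset.prod_nonneg (fun e _ => h0 e)
  induction s with
  | zero =>
    have h1 : ∑ γ ∈ Reach O k 0, ∏ e ∈ γ, κ e ≤ ∑ γ ∈ Reach O k 0, (1 : ℝ) := by
      apply Finset.sum_le_sum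
      intro γ _
      exact Finset.prod_le_one (fun e _ => h0 e) (fun e _ => (hm e).trans hm1)
    refine h1.trans ?_
    rw [Finset.sum_const, nsmul_eq_mul, mul_one, pow_zero, mul_one]
    have h2 := card_small E k
    have h3 : ((Reach O k 0).card : ℝ) ≤ (((Fintype.card E + 1) ^ k : ℕ) : ℝ) := by
      exact_mod_cast h2
    refine h3.trans (le_of_eq ?_)
    push_cast
    ring
  | succ s ih =>
    have h1 : ∑ γ ∈ Reach O k (s + 1), ∏ e ∈ γ, κ e ≤
        ∑ a ∈ Reach O k s, ∑ γ ∈ ((O a) \ a).image (fun e => insert e a), ∏ e ∈ γ, κ e := by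
      have hR : Reach O k (s + 1) =
          (Reach O k s).biUnion (fun a => ((O a) \ a).image (fun e => insert e a)) := rfl
      rw [hR]
      exact sum_biUnion_le' (Reach O k s) (fun a => ((O a) \ a).image (fun e => insert e a))
        (fun γ => ∏ e ∈ γ, κ e) hnn
    have h2 : ∀ a ∈ Reach O k s,
        ∑ γ ∈ ((O a) \ a).image (fun e => insert e a), ∏ e ∈ γ, κ e ≤
          (∏ e ∈ a, κ e) * ((q : ℝ) * κm) := by
      intro a _
      refine (sum_image_le' _ _ _ hnn).trans ?_
      have h3 : ∀ e ∈ (O a) \ a, ∏ x ∈ insert e a, κ x ≤ κm * ∏ x ∈ a, κ x := by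
        intro e he
        rw [Finset.prod_insert (Finset.mem_sdiff.1 he).2]
        exact mul_le_mul_of_nonneg_right (hm e) (hnn a)
      refine (Finset.sum_le_sum h3).trans ?_
      rw [Finset.sum_const, nsmul_eq_mul]
      have h4 : (((O a) \ a).card : ℝ) ≤ q := by
        exact_mod_cast (Finset.card_le_card Finset.sdiff_subset).trans (hq a)
      have h5 : 0 ≤ κm * ∏ x ∈ a, κ x := mul_nonneg hm0 (hnn a)
      calc (((O a) \ a).card : ℝ) * (κm * ∏ x ∈ a, κ x) ≤ (q : ℝ) * (κm * ∏ x ∈ a, κ x) :=
            mul_le_mul_of_nonneg_right h4 h5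
        _ = (∏ e ∈ a, κ e) * ((q : ℝ) * κm) := by ring
    refine h1.trans ((Finset.sum_le_sum h2).trans ?_)
    rw [← Finset.sum_mul, pow_succ, ← mul_assoc ((Fintype.card E + 1 : ℝ) ^ k)]
    exact mul_le_mul_of_nonneg_right ih (mul_nonneg (Nat.cast_nonneg q) hm0)

end Pool.Agent.Work.MP_f7ef37_lc.OP.NREACHW
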