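import Pool.Agent.Work.MP_f7ef37_lc.OP.Stmts2
import Pool.Agent.Work.MP_f7ef37_lc.OP.I_BW1

/-!
# Item REACHW of the block [f7ef37 OP]
-/

set_option autoImplicit false

open Classical

namespace Pool.Agent.Work.MP_f7ef37_lc.OP.NREACHW2

theorem prf : S_REACHW := by
  intro E _ O k s q κm κ h0 hm hm0 hm1 hq
  have hprod0 : ∀ γ : Finset E, 0 ≤ ∏ e ∈ γ, κ e := fun γ => Finset.prod_nonneg (fun e _ => h0 e)
  induction s with
  | zero =>
    have h1 : ∑ γ ∈ Reach O k 0, ∏ e ∈ γ, κ e ≤ ∑ γ ∈ Reach O k 0, (1 : ℝ) := by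
      apply Finset.sum_le_sum
      intro γ _
      exact Finset.prod_le_one (fun e _ => h0 e) (fun e _ => (hm e).trans hm1)
    have h2 : (Reach O k 0).card ≤ (Fintype.card E + 1) ^ k := by
      have h3 := NBW1.few_subsets (Finset.univ : Finset E) k
      rw [Finset.card_univ] at h3
      refine le_trans (Finset.card_le_card ?_) h3
      intro a ha
      simp only [Reach, Finset.mem_filter] at ha
      simp [ha.2]
    rw [Finset.sum_const, nsmul_eq_mul, mul_one] at h1
    rw [pow_zero, mul_one]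
    refine h1.trans ?_
    exact_mod_cast h2
  | succ s ih =>
    have h1 : ∑ γ ∈ Reach O k (s + 1), ∏ e ∈ γ, κ e ≤
        ∑ a ∈ Reach O k s, ∑ γ ∈ ((O a) \ a).image (fun e => insert e a), ∏ e ∈ γ, κ e := by
      show ∑ γ ∈ (Reach O k s).biUnion (fun a => ((O a) \ a).image (fun e => insert e a)),
        ∏ e ∈ γ, κ e ≤ _
      exact NBW1.sum_biUnion_le' _ _ _ hprod0
    have h2 : ∀ a ∈ Reach O k s,
        ∑ γ ∈ ((O a) \ a).image (fun e => insert e a), ∏ e ∈ γ, κ e ≤
          ((q : ℝ) * κm) * ∏ e ∈ a, κ e := by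
      intro a _
      have h3 : ∑ γ ∈ ((O a) \ a).image (fun e => insert e a), ∏ e ∈ γ, κ e =
          ∑ e ∈ (O a) \ a, ∏ f ∈ insert e a, κ f := by
        apply Finset.sum_image
        intro e he e' he' hee
        have h4 : e ∈ insert e' a := by
          have h5 : insert e a = insert e' a := hee
          rw [← h5]
          exact Finset.mem_insert_self _ _
        rcases Finset.mem_insert.1 h4 with h | h
        · exact h
        · exact absurd h (Finset.mem_sdiff.1 he).2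
      rw [h3]
      have h4 : ∀ e ∈ (O a) \ a, ∏ f ∈ insert e a, κ f ≤ κm * ∏ f ∈ a, κ f := by
        intro e he
        rw [Finset.prod_insert (Finset.mem_sdiff.1 he).2]
        exact mul_le_mul_of_nonneg_right (hm e) (hprod0 a)
      calc ∑ e ∈ (O a) \ a, ∏ f ∈ insert e a, κ f ≤ ∑ e ∈ (O a) \ a, κm * ∏ f ∈ a, κ f :=
            Finset.sum_le_sum h4
        _ = (((O a) \ a).card : ℝ) * (κm * ∏ f ∈ a, κ f) := by
            rw [Finset.sum_const, nsmul_eq_mul]
        _ ≤ (q : ℝ) * (κm * ∏ f ∈ a, κ f) := by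
            apply mul_le_mul_of_nonneg_right _ (mul_nonneg hm0 (hprod0 a))
            exact_mod_cast (Finset.card_le_card Finset.sdiff_subset).trans (hq a)
        _ = ((q : ℝ) * κm) * ∏ e ∈ a, κ e := by ring
    calc ∑ γ ∈ Reach O k (s + 1), ∏ e ∈ γ, κ e
        ≤ ∑ a ∈ Reach O k s, ((q : ℝ) * κm) * ∏ e ∈ a, κ e := h1.trans (Finset.sum_le_sum h2)
      _ = ((q : ℝ) * κm) * ∑ a ∈ Reach O k s, ∏ e ∈ a, κ e := by rw [Finset.mul_sum]
      _ ≤ ((q : ℝ) * κm) * (((Fintype.card E : ℝ) + 1) ^ k * ((q : ℝ) * κm) ^ s) :=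
          mul_le_mul_of_nonneg_left ih (by positivity)
      _ = ((Fintype.card E : ℝ) + 1) ^ k * ((q : ℝ) * κm) ^ (s + 1) := by ring

end Pool.Agent.Work.MP_f7ef37_lc.OP.NREACHW2
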