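import Pool.Agent.Work.MP_f7ef37_lc.OP.Stmts2

set_option autoImplicit false

open Classical

namespace Pool.Agent.Work.MP_f7ef37_lc.OP.NRS

variable {E : Type} [Fintype E]

/-- The weight of the random subset `G`. -/
noncomputable def W (p : ℝ) (G : Finset E) : ℝ :=
  (∏ _i ∈ G, p) * ∏ _i ∈ Finset.univ \ G, (1 - p)

lemma W_nonneg {p : ℝ} (h0 : 0 ≤ p) (h1 : p ≤ 1) (G : Finset E) : 0 ≤ W p G :=
  mul_nonneg (Finset.prod_nonneg fun _ _ => h0) (Finset.prod_nonneg fun _ _ => by linarith)

lemma sum_W (p : ℝ) : ∑ G : Finset E, W p G = 1 := by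
  have h := Finset.prod_add (fun _ : E => p) (fun _ : E => 1 - p) Finset.univ
  rw [Finset.powerset_univ] at h
  unfold W
  rw [← h]
  simp

lemma sum_W_sub (p : ℝ) (γ : Finset E) :
    ∑ G : Finset E, W p G * (if γ ⊆ G then 1 else 0) = p ^ γ.card := by
  have h := Finset.prod_add (fun _ : E => p) (fun i : E => if i ∈ γ then 0 else 1 - p)
    Finset.univ
  rw [Finset.powerset_univ] at h
  have h1 : ∏ i : E, (p + if i ∈ γ then 0 else 1 - p) = p ^ γ.card := by
    have : ∀ i : E, (p + if i ∈ γ then 0 else 1 - p) = if i ∈ γ then p else 1 := by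
      intro i
      split_ifs <;> ring
    simp only [this]
    rw [Finset.prod_ite]
    simp
  rw [← h1, h]
  refine Finset.sum_congr rfl fun G _ => ?_
  unfold W
  by_cases hG : γ ⊆ G
  · rw [if_pos hG, mul_one]
    congr 1
    refine Finset.prod_congr rfl fun i hi => ?_
    rw [if_neg]
    intro hi2
    exact (Finset.mem_sdiff.1 hi).2 (hG hi2)
  · rw [if_neg hG, mul_zero]
    obtain ⟨i, hi1, hi2⟩ := Finset.not_subset.1 hG
    symm
    apply mul_eq_zero_of_right
    exact Finset.prod_eq_zero (i := i) (by simp [hi2]) (if_pos hi1)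

lemma sum_W_pow (p l : ℝ) (S : Finset E) :
    ∑ G : Finset E, W p G * l ^ (S ∩ G).card = (1 + p * (l - 1)) ^ S.card := by
  have h := Finset.prod_add (fun i : E => p * if i ∈ S then l else 1) (fun _ : E => 1 - p)
    Finset.univ
  rw [Finset.powerset_univ] at h
  have h1 : ∏ i : E, ((p * if i ∈ S then l else 1) + (1 - p)) = (1 + p * (l - 1)) ^ S.card := by
    have : ∀ i : E, ((p * if i ∈ S then l else 1) + (1 - p))
        = if i ∈ S then (1 + p * (l - 1)) else 1 := by
      intro i
      split_ifs <;> ring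
    simp only [this]
    rw [Finset.prod_ite]
    simp
  rw [← h1, h]
  refine Finset.sum_congr rfl fun G _ => ?_
  unfold W
  rw [Finset.prod_mul_distrib]
  have h2 : ∏ i ∈ G, (if i ∈ S then l else 1) = l ^ (S ∩ G).card := by
    rw [Finset.prod_ite, Finset.prod_const, Finset.prod_const_one, mul_one]
    have h5 : G.filter (fun i => i ∈ S) = S ∩ G := by
      ext i
      simp only [Finset.mem_filter, Finset.mem_inter]
      tauto
    rw [h5]
  rw [h2]
  ring

lemma low_bound {p : ℝ} (h0 : 0 ≤ p) (h1 : p ≤ 1) (S : Finset E) :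
    ∑ G : Finset E, W p G * Real.exp (p * S.card / 4 - ((S ∩ G).card : ℝ))
      ≤ Real.exp (-p * S.card / 8) := by
  have e1 : Real.exp (-1) ≤ 1 / 2 := by
    have h2 : (2 : ℝ) ≤ Real.exp 1 := by
      have := Real.add_one_le_exp (1 : ℝ)
      linarith
    rw [Real.exp_neg]
    rw [one_div]
    exact inv_anti₀ (by norm_num) h2
  have e2 : 0 < Real.exp (-1) := Real.exp_pos _
  have h2 : ∀ G : Finset E, W p G * Real.exp (p * S.card / 4 - ((S ∩ G).card : ℝ))
      = Real.exp (p * S.card / 4) * (W p G * Real.exp (-1) ^ (S ∩ G).card) := by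
    intro G
    rw [← Real.exp_nat_mul]
    have : p * S.card / 4 - ((S ∩ G).card : ℝ)
        = p * S.card / 4 + ((S ∩ G).card : ℝ) * (-1) := by ring
    rw [this, Real.exp_add]
    ring
  simp only [h2]
  rw [← Finset.mul_sum, sum_W_pow]
  have h3 : (1 + p * (Real.exp (-1) - 1)) ≤ Real.exp (p * (Real.exp (-1) - 1)) := by
    have := Real.add_one_le_exp (p * (Real.exp (-1) - 1))
    linarith
  have h3' : 0 ≤ 1 + p * (Real.exp (-1) - 1) := by nlinarith
  have h4 : (1 + p * (Real.exp (-1) - 1)) ^ S.card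
      ≤ Real.exp (S.card * (p * (Real.exp (-1) - 1))) := by
    rw [Real.exp_nat_mul]
    exact pow_le_pow_left₀ h3' h3 _
  refine (mul_le_mul_of_nonneg_left h4 (Real.exp_pos _).le).trans ?_
  rw [← Real.exp_add]
  apply Real.exp_le_exp.2
  have h5 : 0 ≤ (S.card : ℝ) * p := mul_nonneg (Nat.cast_nonneg _) h0
  nlinarith

lemma high_bound {p : ℝ} (h0 : 0 ≤ p) (S : Finset E) (K2 : ℕ) :
    ∑ G : Finset E, W p G * Real.exp (((S ∩ G).card : ℝ) - K2)
      ≤ Real.exp (2 * p * S.card - K2) := by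
  have e1 : Real.exp 1 ≤ 3 := by
    have := Real.exp_one_lt_d9
    linarith
  have e2 : 1 ≤ Real.exp 1 := by
    have := Real.add_one_le_exp (1 : ℝ)
    linarith
  have h2 : ∀ G : Finset E, W p G * Real.exp (((S ∩ G).card : ℝ) - K2)
      = Real.exp (-(K2 : ℝ)) * (W p G * Real.exp 1 ^ (S ∩ G).card) := by
    intro G
    rw [← Real.exp_nat_mul]
    have : ((S ∩ G).card : ℝ) - K2 = -(K2 : ℝ) + ((S ∩ G).card : ℝ) * 1 := by ring
    rw [this, Real.exp_add]
    ring
  simp only [h2]
  rw [← Finset.mul_sum, sum_W_pow]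
  have h3 : (1 + p * (Real.exp 1 - 1)) ≤ Real.exp (2 * p) := by
    have := Real.add_one_le_exp (2 * p)
    nlinarith
  have h3' : 0 ≤ 1 + p * (Real.exp 1 - 1) := by nlinarith
  have h4 : (1 + p * (Real.exp 1 - 1)) ^ S.card ≤ Real.exp (S.card * (2 * p)) := by
    rw [Real.exp_nat_mul]
    exact pow_le_pow_left₀ h3' h3 _
  refine (mul_le_mul_of_nonneg_left h4 (Real.exp_pos _).le).trans ?_
  rw [← Real.exp_add]
  apply Real.exp_le_exp.2
  linarith

theorem prf : S_RS := by
  intro E ι _ n m hn hmn C γ c hc hC S1 S2 K2 hS1 hS2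
  have hn' : (0 : ℝ) < n := by exact_mod_cast hn
  set p : ℝ := (m : ℝ) / n with hp
  have h0 : 0 ≤ p := by positivity
  have h1 : p ≤ 1 := by
    rw [hp, div_le_one hn']
    exact_mod_cast hmn
  set X : Finset E → ℝ := fun G => ∑ i ∈ C.filter (fun i => γ i ⊆ G), c i with hX
  set L : Finset E → ℝ := fun G => ∑ S ∈ S1, Real.exp (p * S.card / 4 - ((S ∩ G).card : ℝ))
    with hL
  set U : Finset E → ℝ := fun G => ∑ S ∈ S2, Real.exp (((S ∩ G).card : ℝ) - K2) with hU
  have hXs : ∑ G : Finset E, W p G * X G ≤ 1 / 8 := by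
    have : ∀ G : Finset E, W p G * X G
        = ∑ i ∈ C, c i * (W p G * (if γ i ⊆ G then 1 else 0)) := by
      intro G
      rw [hX]
      simp only
      rw [Finset.sum_filter, Finset.mul_sum]
      refine Finset.sum_congr rfl fun i _ => ?_
      split_ifs <;> ring
    simp only [this]
    rw [Finset.sum_comm]
    simp only [← Finset.mul_sum, sum_W_sub]
    exact hC
  have hLs : ∑ G : Finset E, W p G * L G ≤ 1 / 4 := by
    simp only [hL, Finset.mul_sum]
    rw [Finset.sum_comm]
    refine (Finset.sum_le_sum fun S _ => low_bound h0 h1 S).trans hS1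
  have hUs : ∑ G : Finset E, W p G * U G ≤ 1 / 4 := by
    simp only [hU, Finset.mul_sum]
    rw [Finset.sum_comm]
    refine (Finset.sum_le_sum fun S _ => high_bound h0 S K2).trans hS2
  have hex : ∃ G : Finset E, X G + L G + U G < 1 := by
    by_contra hcon
    push Not at hcon
    have h2 : ∑ G : Finset E, W p G * 1 ≤ ∑ G : Finset E, W p G * (X G + L G + U G) :=
      Finset.sum_le_sum fun G _ => mul_le_mul_of_nonneg_left (hcon G) (W_nonneg h0 h1 G)
    have h3 : ∑ G : Finset E, W p G * (X G + L G + U G)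
        = ∑ G : Finset E, W p G * X G + ∑ G : Finset E, W p G * L G
          + ∑ G : Finset E, W p G * U G := by
      rw [← Finset.sum_add_distrib, ← Finset.sum_add_distrib]
      exact Finset.sum_congr rfl fun G _ => by ring
    simp only [mul_one, sum_W] at h2
    linarith
  obtain ⟨G, hG⟩ := hex
  have hX0 : 0 ≤ X G := Finset.sum_nonneg fun i hi => hc i (Finset.mem_filter.1 hi).1
  have hL0 : 0 ≤ L G := Finset.sum_nonneg fun i _ => (Real.exp_pos _).le
  have hU0 : 0 ≤ U G := Finset.sum_nonneg fun i _ => (Real.exp_pos _).le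
  refine ⟨G, ?_, ?_, ?_⟩
  · have : X G < 1 := by linarith
    exact this
  · intro S hS
    have h2 : Real.exp (p * S.card / 4 - ((S ∩ G).card : ℝ)) ≤ L G :=
      Finset.single_le_sum (f := fun S : Finset E =>
        Real.exp (p * S.card / 4 - ((S ∩ G).card : ℝ))) (fun i _ => (Real.exp_pos _).le) hS
    have h3 : Real.exp (p * S.card / 4 - ((S ∩ G).card : ℝ)) < 1 := by linarith
    have h4 := Real.exp_lt_one_iff.1 h3
    linarith
  · intro S hS
    have h2 : Real.exp (((S ∩ G).card : ℝ) - K2) ≤ U G :=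
      Finset.single_le_sum (f := fun S : Finset E =>
        Real.exp (((S ∩ G).card : ℝ) - K2)) (fun i _ => (Real.exp_pos _).le) hS
    have h3 : Real.exp (((S ∩ G).card : ℝ) - K2) < 1 := by linarith
    have h4 := Real.exp_lt_one_iff.1 h3
    have h5 : ((S ∩ G).card : ℝ) < K2 := by linarith
    exact_mod_cast h5.le

end Pool.Agent.Work.MP_f7ef37_lc.OP.NRS
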