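import Pool.Agent.Work.MP_f7ef37_lc.OP.Stmts2

/-! # Item SECW of the block [f7ef37 OP] -/

set_option autoImplicit false

open Classical

namespace Pool.Agent.Work.MP_f7ef37_lc.OP.NSECW

theorem prf : S_SECW := by
  intro V E _ _ U Z κ hκ hdis
  rw [Finset.prod_sum]
  have hnn : ∀ p : (a : V) → a ∈ U → E, 0 ≤ ∏ x ∈ U.attach, κ (p x.1 x.2) :=
    fun p => Finset.prod_nonneg fun x _ => hκ _
  refine le_trans ?_ (Finset.sum_fiberwise_le_sum_of_sum_fiber_nonneg (s := U.pi Z)
    (t := (Finset.univ : Finset (Finset E)).filter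
      (fun γ => ∃ h : V → E, (∀ v ∈ U, h v ∈ Z v) ∧ γ = U.image h))
    (g := fun p => U.attach.image (fun x => p x.1 x.2))
    (f := fun p => ∏ x ∈ U.attach, κ (p x.1 x.2))
    (fun y _ => Finset.sum_nonneg fun p _ => hnn p))
  refine Finset.sum_le_sum fun γ hγ => ?_
  obtain ⟨h, hh, rfl⟩ := (Finset.mem_filter.1 hγ).2
  have hinj : Set.InjOn h (U : Set V) := by
    intro a ha b hb hab
    by_contra hne
    have hd := hdis a ha b hb hne
    exact (Finset.disjoint_left.1 hd) (hh a ha) (hab ▸ hh b hb)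
  have hmem : (fun (a : V) (_ : a ∈ U) => h a) ∈ (U.pi Z).filter
      (fun p => U.attach.image (fun x => p x.1 x.2) = U.image h) := by
    rw [Finset.mem_filter]
    refine ⟨Finset.mem_pi.2 fun a ha => hh a ha, ?_⟩
    ext e
    simp
  refine le_trans ?_ (Finset.single_le_sum (fun p _ => hnn p) hmem)
  rw [Finset.prod_image hinj]
  exact le_of_eq (Finset.prod_attach U (fun x => κ (h x))).symm

end Pool.Agent.Work.MP_f7ef37_lc.OP.NSECW
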