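import Pool.Agent.Work.MP_f7ef37_lc.OP.Stmts

/-!
# STEPA from MATCH
-/

set_option autoImplicit false

open Classical

namespace Pool.Agent.Work.MP_f7ef37_lc.OP.NSTEPA

theorem prf : S_MATCH → S_STEPA := by
  intro hM I J _ _ A Gd W t hE D0 a b ht hGd hab hop hW
  obtain ⟨T, hTD, hTa, hTn, hw⟩ := wit_spec hop
  have hcard : (T.2.image (fun e : I × J => (Sum.inl e.1 : I ⊕ J))).card ≤ t :=
    le_trans Finset.card_image_le (ht T hTD)
  obtain ⟨b', hbb', hGd', hcov, hcb'⟩ :=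
    hM I J A Gd W hE (T.2.image (fun e : I × J => (Sum.inl e.1 : I ⊕ J))) b hGd (by omega)
  refine ⟨b', hbb', hGd', by omega, ?_⟩
  by_cases hex : ∃ e ∈ T.2, e ∈ b'
  · right
    rw [hw]
    exact hex
  · left
    push Not at hex
    refine ⟨T, hTD, hTa.trans (hab.trans hbb'), ?_⟩
    intro e he
    refine ⟨hex e he, ?_⟩
    intro hna
    obtain ⟨g, hg, hgi⟩ := hcov (Sum.inl e.1) (Finset.mem_image.mpr ⟨e, he, rfl⟩)
    have h1 : ¬ Adj g e := hna g hg
    apply h1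
    left
    exact hgi

end Pool.Agent.Work.MP_f7ef37_lc.OP.NSTEPA
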