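import Pool.Agent.Work.MP_f7ef37_lc.OP.Stmts

/-!
# Item STEPB of the block [f7ef37 OP]
-/

set_option autoImplicit false

open Classical

namespace Pool.Agent.Work.MP_f7ef37_lc.OP.NSTEPB

/-- A legal edge at an active vertex has a passive partner. -/
theorem legal_xs {I J : Type} [Fintype I] [Fintype J] {lam : I ⊕ J → ℕ} {G : Finset (I × J)}
    {v : I ⊕ J} {e : I × J} (hl : Legal lam G e) (hv : lam v ≠ 0) (hi : Inc v e) :
    e ∈ Xs lam v := by
  rw [mem_Xs]
  refine ⟨hi, ?_⟩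
  cases v with
  | inl i =>
    simp only [Inc] at hi
    subst hi
    simp only [oth]
    rcases hl with (⟨_, h⟩ | ⟨h, _⟩) | ⟨⟨h, _⟩, _⟩
    · exact h
    · exact absurd h hv
    · exact absurd h hv
  | inr j =>
    simp only [Inc] at hi
    subst hi
    simp only [oth]
    rcases hl with (⟨_, h⟩ | ⟨h, _⟩) | ⟨⟨_, h⟩, _⟩
    · exact absurd h hv
    · exact h
    · exact absurd h hv

theorem qs_notMem {I J : Type} [Fintype I] [Fintype J] {lam : I ⊕ J → ℕ} {R w0 x1 : ℕ}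
    {D : Ln I J} {a : Finset (I × J)} {e : I × J} (h : e ∈ Qs lam R w0 x1 D a) : e ∉ a := by
  unfold Qs at h
  rw [Finset.mem_filter] at h
  obtain ⟨_, v, _, h2⟩ := h
  have hpos : 0 < ((Bd lam D a v).filter (fun f => e ∈ wit D (insert f a))).card := by
    rcases Nat.eq_zero_or_pos ((Bd lam D a v).filter (fun f => e ∈ wit D (insert f a))).card
      with h0 | h0
    · rw [h0, Nat.mul_zero] at h2
      exact absurd h2 (Nat.not_lt_zero _)
    · exact h0
  obtain ⟨f, hf⟩ := Finset.card_pos.1 hpos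
  rw [Finset.mem_filter] at hf
  intro hea
  exact wit_notMem hf.2 (Finset.mem_insert_of_mem hea)

/-- Stage 2: the bound edges of a set of vertices are hit one after the other. -/
theorem hits (hA : S_STEPA) {I J : Type} [Fintype I] [Fintype J]
    {A Gd : Finset (I × J) → Prop} {W t : ℕ} (hEx : ExtSys A Gd W)
    (D0 : Ln I J) (a c : Finset (I × J)) (hD : ∀ T ∈ D0, T.2.card ≤ t) (hGc : Gd c)
    (hac : a ⊆ c) (h : I ⊕ J → I × J) (S : Finset (I ⊕ J)) (hS : ∀ v ∈ S, h v ∈ c)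
    (hW : c.card + S.card * t ≤ W) :
    ∃ b', c ⊆ b' ∧ Gd b' ∧ b'.card ≤ c.card + S.card * t ∧
      (Sat D0 b' ∨ ∀ v ∈ S, Opn D0 (insert (h v) a) →
        ∃ e ∈ wit D0 (insert (h v) a), e ∈ b') := by
  induction S using Finset.induction_on with
  | empty =>
    refine ⟨c, Finset.Subset.refl c, hGc, Nat.le_add_right _ _, Or.inr ?_⟩
    intro v hv
    exact absurd hv (Finset.notMem_empty v)
  | insert v S hvS ih =>
    rw [Finset.card_insert_of_notMem hvS] at hW ⊢
    have hmul : (S.card + 1) * t = S.card * t + t := by ring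
    rw [hmul] at hW ⊢
    obtain ⟨b1, hcb1, hGb1, hb1c, hb1⟩ :=
      ih (fun w hw => hS w (Finset.mem_insert_of_mem hw)) (by omega)
    rcases hb1 with hsat | hhit
    · exact ⟨b1, hcb1, hGb1, by omega, Or.inl hsat⟩
    · by_cases hO : Opn D0 (insert (h v) a)
      · have hsub : insert (h v) a ⊆ b1 := by
          intro e he
          rcases Finset.mem_insert.1 he with he | he
          · subst he
            exact hcb1 (hS v (Finset.mem_insert_self _ _))
          · exact hcb1 (hac he)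
        obtain ⟨b2, hb12, hGb2, hb2c, hb2⟩ :=
          hA I J A Gd W t hEx D0 (insert (h v) a) b1 hD hGb1 hsub hO (by omega)
        refine ⟨b2, hcb1.trans hb12, hGb2, by omega, ?_⟩
        rcases hb2 with hsat | ⟨e, he, heb⟩
        · exact Or.inl hsat
        · right
          intro w hw hOw
          rcases Finset.mem_insert.1 hw with hw | hw
          · subst hw
            exact ⟨e, he, heb⟩
          · obtain ⟨e', he', heb'⟩ := hhit w hw hOw
            exact ⟨e', he', hb12 heb'⟩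
      · refine ⟨b1, hcb1, hGb1, by omega, Or.inr ?_⟩
        intro w hw hOw
        rcases Finset.mem_insert.1 hw with hw | hw
        · subst hw
          exact absurd hOw hO
        · exact hhit w hw hOw

theorem prf0 : S_MATCH → S_STEPA → S_CLAIMB →
    ∀ (I J : Type) [Fintype I] [Fintype J] (lam : I ⊕ J → ℕ)
      (R w0 x1 b1 : ℕ) (G : Finset (I × J)) (C : Finset (Finset (I × J)))
      (A Gd : Finset (I × J) → Prop) (W t : ℕ), AliveSys lam R G C A → ExtSys A Gd W →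
      1 ≤ w0 →
      ∀ (D0 : Ln I J) (a b : Finset (I × J)),
      (∀ T ∈ D0, T.2.card ≤ t) → Gd b → a ⊆ b → ¬ Opn D0 a →
      w0 ≤ (supset lam R D0 a).card →
      (∀ γ ∈ CB1 lam R w0 b1 D0 a ∪ CB2 lam R w0 b1 D0 a ∪ CB3 lam R w0 x1 b1 D0 a, γ ∈ C) →
      b.card + w0 * (1 + t) ≤ W →
      ∃ b', b ⊆ b' ∧ Gd b' ∧ b'.card ≤ b.card + w0 * (1 + t) ∧
        (Sat D0 b' ∨ ∃ e ∈ Qs lam R w0 x1 D0 a, e ∈ b' ∧ e ∉ a) := by
  intro hM hA hB I J _ _ lam R w0 x1 b1 G C A Gd W t hAl hEx hw1 D0 a b hD hGb hab hnO hw hC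
    hcard
  -- stage 1: match the vertices of `W0`
  have hmul : w0 * (1 + t) = w0 + w0 * t := by ring
  rw [hmul] at hcard
  rw [hmul]
  have hWc : (W0 lam R w0 D0 a).card = w0 := W0_card hw
  obtain ⟨c, hbc, hGc, hcov, hcc⟩ := hM I J A Gd W hEx (W0 lam R w0 D0 a) b hGb
    (by rw [hWc]; omega)
  rw [hWc] at hcc
  have hMc : Mat c := hAl.mat c (hEx.alive c hGc)
  obtain ⟨v0, hv0⟩ : (W0 lam R w0 D0 a).Nonempty := by
    rw [← Finset.card_pos, hWc]
    exact hw1
  obtain ⟨e0, _, _⟩ := hcov v0 hv0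
  have hch : ∀ v : I ⊕ J, ∃ e : I × J, v ∈ W0 lam R w0 D0 a → e ∈ c ∧ Inc v e := by
    intro v
    by_cases hv : v ∈ W0 lam R w0 D0 a
    · obtain ⟨e, he, hi⟩ := hcov v hv
      exact ⟨e, fun _ => ⟨he, hi⟩⟩
    · exact ⟨e0, fun h => absurd h hv⟩
  choose h hh using hch
  have hac : a ⊆ c := hab.trans hbc
  have hh2 : ∀ v ∈ W0 lam R w0 D0 a, h v ∈ Xs lam v ∧ NA a (h v) := by
    intro v hv
    obtain ⟨h1, h2⟩ := hh v hv
    obtain ⟨h3, h4, _⟩ := W0_sub hv
    refine ⟨legal_xs (hAl.legal c (hEx.alive c hGc) (h v) h1) h4 h2, ?_⟩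
    refine hMc.na hac h1 ?_
    intro h5
    exact h3 ⟨h v, h5, h2⟩
  -- stage 2: hit the bound edges
  obtain ⟨b', hcb', hGb', hb'c, hb'⟩ := hits hA hEx D0 a c hD hGc hac h
    (W0 lam R w0 D0 a) (fun v hv => (hh v hv).1) (by rw [hWc]; omega)
  rw [hWc] at hb'c
  refine ⟨b', hbc.trans hcb', hGb', by omega, ?_⟩
  rcases hb' with hsat | hhit
  · exact Or.inl hsat
  · right
    by_contra hcon
    have hQ : ∀ e ∈ b', e ∉ Qs lam R w0 x1 D0 a := by
      intro e he heQ
      exact hcon ⟨e, heQ, he, qs_notMem heQ⟩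
    obtain ⟨γ, hγ, hγb⟩ := hB I J lam R w0 x1 b1 D0 a b' h
      (hAl.mat b' (hEx.alive b' hGb')) (hac.trans hcb')
      (fun v hv => ⟨hcb' (hh v hv).1, (hh2 v hv).1, (hh2 v hv).2⟩)
      (fun v hv hBd => hhit v hv (by
        unfold Bd at hBd
        rw [Finset.mem_filter] at hBd
        exact hBd.2.2)) hQ
    exact hAl.avoid b' (hEx.alive b' hGb') γ (hC γ hγ) hγb

theorem prf : S_MATCH → S_STEPA → S_CLAIMB → S_STEPB := prf0

end Pool.Agent.Work.MP_f7ef37_lc.OP.NSTEPB
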