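import Pool.Agent.Work.MP_f7ef37_lc.OP.Stmts2

/-!
# Item TOTAL of the block [f7ef37 OP]: weight of all certificates of a line
-/

set_option autoImplicit false

open Classical

namespace Pool.Agent.Work.MP_f7ef37_lc.OP.NTOTAL

theorem sum_union_le' {α : Type} [DecidableEq α] {s t : Finset α} {f : α → ℝ} (hf : ∀ x, 0 ≤ f x) :
    ∑ x ∈ s ∪ t, f x ≤ ∑ x ∈ s, f x + ∑ x ∈ t, f x := by
  have h := Finset.sum_union_inter (s₁ := s) (s₂ := t) (f := f)
  have h2 : 0 ≤ ∑ x ∈ s ∩ t, f x := Finset.sum_nonneg (fun x _ => hf x)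
  linarith

theorem sum_biUnion_le' {α β : Type} [DecidableEq β] {s : Finset α} {t : α → Finset β} {f : β → ℝ}
    (hf : ∀ x, 0 ≤ f x) :
    ∑ x ∈ s.biUnion t, f x ≤ ∑ a ∈ s, ∑ x ∈ t a, f x := by
  induction s using Finset.induction_on with
  | empty => simp
  | insert a s ha ih =>
    rw [Finset.biUnion_insert, Finset.sum_insert ha]
    exact (sum_union_le' hf).trans (by linarith)

theorem prf : S_REACHW → S_QCARD → S_BW1 → S_BW2 → S_BW3 → S_TOTAL := by
  intro hRW hQ h1 h2 h3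
  intro I J _ _ lam R w0 x1 b1 k g k2 g2 t q p κm D hR hlam hdel hp hκ hκ0 hκ1 ht hx1 hx hw htq hq hD
  have hk0 : ∀ e, 0 ≤ kap lam R p e := by
    intro e
    unfold kap
    split_ifs
    · positivity
    · exact hp
    · exact le_refl _
  have hprod : ∀ γ : Finset (I × J), 0 ≤ ∏ e ∈ γ, kap lam R p e :=
    fun γ => Finset.prod_nonneg (fun e _ => hk0 e)
  have hcard : (Fintype.card (I × J) : ℝ) = ((Fintype.card I * Fintype.card J : ℕ) : ℝ) := by
    rw [Fintype.card_prod]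
  -- the three parts
  have hA : ∑ γ ∈ Reach (O1 lam R w0 x1 D) k (g + 1), ∏ e ∈ γ, kap lam R p e
      ≤ (((Fintype.card I * Fintype.card J : ℕ) : ℝ) + 1) ^ k * ((q : ℝ) * κm) ^ (g + 1) := by
    have := hRW (I × J) (O1 lam R w0 x1 D) k (g + 1) q κm (kap lam R p) hk0 hκ hκ0 hκ1 (by
      intro a
      unfold O1
      split_ifs with ho hs
      · exact (wit_card hD a).trans htq
      · exact (hQ I J lam R w0 x1 t D a hR hdel hD).trans hq
      · simp)
    rwa [hcard] at this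
  have hB : ∑ γ ∈ Reach (wit D) k2 (g2 + 1), ∏ e ∈ γ, kap lam R p e
      ≤ (((Fintype.card I * Fintype.card J : ℕ) : ℝ) + 1) ^ k2 * ((t : ℝ) * κm) ^ (g2 + 1) := by
    have := hRW (I × J) (wit D) k2 (g2 + 1) t κm (kap lam R p) hk0 hκ hκ0 hκ1
      (fun a => wit_card hD a)
    rwa [hcard] at this
  -- number of sets with at most `k + g` elements
  have hN : (((Finset.univ : Finset (Finset (I × J))).filter
      (fun a => a.card ≤ k + g)).card : ℝ)
      ≤ (((Fintype.card I * Fintype.card J : ℕ) : ℝ) + 1) ^ (k + g) := by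
    have := hRW (I × J) (fun _ => (∅ : Finset (I × J))) (k + g) 0 0 1 (fun _ => 1)
      (fun _ => zero_le_one) (fun _ => le_refl _) zero_le_one (le_refl _) (fun _ => by simp)
    rw [hcard] at this
    simpa [Reach] using this
  set S : ℝ := ((w0 : ℝ) + 1) ^ (6 * b1) * (1 - 1 / (2 * (R : ℝ))) ^ (w0 - 6 * b1) +
          ((w0 : ℝ) * (16 * R * t * κm)) ^ b1 +
          ((w0 : ℝ) + 1) ^ (12 * b1) * ((16 * R * t) * (3 * b1) / (x1 : ℝ)) ^ (3 * b1) with hS
  have hRr : (1 : ℝ) ≤ R := by exact_mod_cast hR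
  have hS0 : 0 ≤ S := by
    have h01 : (0 : ℝ) ≤ 1 - 1 / (2 * (R : ℝ)) := by
      have : 1 / (2 * (R : ℝ)) ≤ 1 := by
        rw [div_le_one (by positivity)]
        linarith
      linarith
    rw [hS]
    positivity
  have hC : ∑ γ ∈ (Finset.univ.filter (fun a : Finset (I × J) => a.card ≤ k + g ∧
      w0 ≤ (supset lam R D a).card)).biUnion
      (fun a => CB1 lam R w0 b1 D a ∪ CB2 lam R w0 b1 D a ∪ CB3 lam R w0 x1 b1 D a),
        ∏ e ∈ γ, kap lam R p e
      ≤ (((Fintype.card I * Fintype.card J : ℕ) : ℝ) + 1) ^ (k + g) * S := by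
    refine (sum_biUnion_le' hprod).trans ?_
    have hle : ∀ a ∈ Finset.univ.filter (fun a : Finset (I × J) => a.card ≤ k + g ∧
        w0 ≤ (supset lam R D a).card),
        ∑ γ ∈ CB1 lam R w0 b1 D a ∪ CB2 lam R w0 b1 D a ∪ CB3 lam R w0 x1 b1 D a,
          ∏ e ∈ γ, kap lam R p e ≤ S := by
      intro a ha
      rw [Finset.mem_filter] at ha
      have e1 := h1 I J lam R w0 b1 p D a hR hlam hdel hp ha.2.2 hw
      have e2 := h2 I J lam R w0 b1 t p κm D a hR hlam hdel hp hκ hκ0 hD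
      have e3 := h3 I J lam R w0 x1 b1 t p D a hR hlam hdel hp ht hx1 hx hD
      have u1 := sum_union_le' (s := CB1 lam R w0 b1 D a ∪ CB2 lam R w0 b1 D a)
        (t := CB3 lam R w0 x1 b1 D a) hprod
      have u2 := sum_union_le' (s := CB1 lam R w0 b1 D a) (t := CB2 lam R w0 b1 D a) hprod
      rw [hS]
      linarith
    refine (Finset.sum_le_sum hle).trans ?_
    rw [Finset.sum_const, nsmul_eq_mul]
    refine mul_le_mul_of_nonneg_right (le_trans ?_ hN) hS0
    exact_mod_cast Finset.card_le_card (by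
      intro a ha
      rw [Finset.mem_filter] at ha ⊢
      exact ⟨ha.1, ha.2.1⟩)
  have hU : ∑ γ ∈ Certs lam R w0 x1 b1 k g k2 g2 D, ∏ e ∈ γ, kap lam R p e ≤
      ∑ γ ∈ Reach (O1 lam R w0 x1 D) k (g + 1), ∏ e ∈ γ, kap lam R p e +
      ∑ γ ∈ Reach (wit D) k2 (g2 + 1), ∏ e ∈ γ, kap lam R p e +
      ∑ γ ∈ (Finset.univ.filter (fun a : Finset (I × J) => a.card ≤ k + g ∧
        w0 ≤ (supset lam R D a).card)).biUnion
        (fun a => CB1 lam R w0 b1 D a ∪ CB2 lam R w0 b1 D a ∪ CB3 lam R w0 x1 b1 D a),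
        ∏ e ∈ γ, kap lam R p e := by
    unfold Certs
    refine (sum_union_le' hprod).trans ?_
    have := sum_union_le' (s := Reach (O1 lam R w0 x1 D) k (g + 1))
      (t := Reach (wit D) k2 (g2 + 1)) hprod
    linarith
  linarith

end Pool.Agent.Work.MP_f7ef37_lc.OP.NTOTAL
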