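import Pool.Agent.Work.MP_f7ef37_lc.OP.Core
import Pool.Agent.Work.MP_f7ef37_lc.OP.Final
import Pool.Agent.Work.MP_f7ef37_lc.OP.I_PHI
import Pool.Agent.Work.MP_f7ef37_lc.OP.I_ALIVE
import Pool.Agent.Work.MP_f7ef37_lc.OP.I_EXT
import Pool.Agent.Work.MP_f7ef37_lc.OP.I_MATCH
import Pool.Agent.Work.MP_f7ef37_lc.OP.I_STEPA
import Pool.Agent.Work.MP_f7ef37_lc.OP.I_CLAIMB
import Pool.Agent.Work.MP_f7ef37_lc.OP.I_STEPB
import Pool.Agent.Work.MP_f7ef37_lc.OP.I_LOOP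
import Pool.Agent.Work.MP_f7ef37_lc.OP.I_PROC
import Pool.Agent.Work.MP_f7ef37_lc.OP.I_AX
import Pool.Agent.Work.MP_f7ef37_lc.OP.I_EMPTY
import Pool.Agent.Work.MP_f7ef37_lc.OP.I_ADV
import Pool.Agent.Work.MP_f7ef37_lc.OP.I_REACHW2
import Pool.Agent.Work.MP_f7ef37_lc.OP.I_SECW
import Pool.Agent.Work.MP_f7ef37_lc.OP.I_QCARD
import Pool.Agent.Work.MP_f7ef37_lc.OP.I_BW1
import Pool.Agent.Work.MP_f7ef37_lc.OP.I_BW2
import Pool.Agent.Work.MP_f7ef37_lc.OP.I_BW3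
import Pool.Agent.Work.MP_f7ef37_lc.OP.I_TOTAL
import Pool.Agent.Work.MP_f7ef37_lc.OP.I_RS
import Pool.Agent.Work.MP_f7ef37_lc.OP.I_GP
import Pool.Agent.Work.MP_f7ef37_lc.OP.I_LEV
import Pool.Agent.Work.MP_f7ef37_lc.OP.I_FILT
import Pool.Agent.Work.MP_f7ef37_lc.OP.I_LEVELS
import Pool.Agent.Work.MP_f7ef37_lc.OP.I_BOARD
import Pool.Agent.Work.MP_f7ef37_lc.OP.I_NUMA
import Pool.Agent.Work.MP_f7ef37_lc.OP.I_NUMB
import Pool.Agent.Work.MP_f7ef37_lc.OP.I_NUMC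
import Pool.Agent.Work.MP_f7ef37_lc.OP.I_NUMD

/-!
# Assembly of all items of the block [f7ef37 OP]
-/

set_option autoImplicit false

open Classical

namespace Pool.Agent.Work.MP_f7ef37_lc.OP

theorem pSTEPA : S_STEPA := NSTEPA.prf NMATCH.prf

theorem pSTEPB : S_STEPB := NSTEPB.prf NMATCH.prf pSTEPA NCLAIMB.prf

theorem pPROC : S_PROC := NPROC.prf NPHI.prf NMATCH.prf pSTEPA pSTEPB NLOOP.prf

theorem pADV : S_ADV := NADV.prf (NEXT.prf NPHI.prf) pPROC NAX.prf NEMPTY.prf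

theorem pTOTAL : S_TOTAL :=
  NTOTAL.prf NREACHW2.prf NQCARD.prf (NBW1.prf NSECW.prf) NBW2.prf NBW3.prf

theorem pLEVELS : S_LEVELS := NLEVELS.prf NLEV.prf (NFILT.prf NLEV.prf)

theorem core : S_CORE :=
  core_of NALIVE.prf pADV pTOTAL (NGP.prf NRS.prf) pLEVELS NNUMA.prf NNUMB.prf NNUMC.prf NNUMD.prf

theorem final : S_FINAL := final_of core NBOARD.prf

end Pool.Agent.Work.MP_f7ef37_lc.OP
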