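import Pool.Agent.Work.MP_f7ef37_lc.OP.Basic

/-!
# Statements of the block [f7ef37 OP], part 1: the adversary
-/

set_option autoImplicit false

open Classical

namespace Pool.Agent.Work.MP_f7ef37_lc.OP

/-- ALIVE. From the key lemma (`OP/Key.lean`, theorem `key`) with index type `{v // lam v ≠ 0}`,
alphabet `I × J`, `X v = Xs lam v`, `l v = lv lam R v`, and the certificates
`γ ↦ {(act e, e) : e ∈ γ, AP lam e}` for the `γ ∈ C` which are matchings of legal edges.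
`A b := Mat b ∧ (∀ e ∈ b, Legal lam G e) ∧ ∃ z, (∀ v, z v ∈ X v) ∧ F z ≠ 0 ∧
∀ e ∈ b, AP lam e → z ⟨act lam e, _⟩ = e`. The product over the image is `wt lam R γ`, because for a
matching the active ends are distinct. If several `γ` have the same image, the sum over the
image is at most the sum over the `γ`. `avoid`: a subset of an alive `b` is a legal matching.
`active`: update `z` at `v`; the other edges of `b` do not have the active end `v` since `v` is
not covered. -/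
def S_ALIVE : Prop := ∀ (I J : Type) [Fintype I] [Fintype J] (lam : I ⊕ J → ℕ) (R : ℕ)
  (G : Finset (I × J)) (C : Finset (Finset (I × J))),
  (∀ v, lam v ≠ 0 → 1 ≤ lv lam R v ∧ lv lam R v ≤ (Xs lam v).card) →
  ∑ γ ∈ C.filter (fun γ => Mat γ ∧ ∀ e ∈ γ, Legal lam G e), wt lam R γ < 1 →
  ∃ A : Finset (I × J) → Prop, AliveSys lam R G C A

/-- PHI. `Z` a set of edges at `v`, `a ⊆ b`, `b` a matching with `D` not open at `b`, `Y` covered
by `a`, `v` not covered by `b`. Then `phi D a Z ≤ phi D b Z + b.card * (N + 1)`.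
Proof: let `f ∈ Z` be counted in `phi D a Z` and not in `phi D b Z`. Either `f` is adjacent to an
edge `e ∈ b` (then `e` determines the other end of `f`, so for every `e` at most one such `f`), or
`Opn D (insert f b)`, witness `T`. As `D` is not open at `b`, `f ∈ T.1`. If `T.1 ⊆ insert f a` then
`Opn D (insert f a)`, contradiction; so there is `e ∈ T.1` with `e ∈ b`, `e ∉ a`, `e ≠ f`; `e` is
disjoint from `a`, so `Avd Y e`, also `¬ Inc v e`; `Avd Y f` because `f` is not adjacent to `b`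
and `Y` is covered. So `f ∈ CoN D Y e v ∩ Z`, at most `N` for every `e ∈ b`. -/
def S_PHI : Prop := ∀ (I J : Type) [Fintype I] [Fintype J] (D : Ln I J) (Y : Finset (I ⊕ J))
  (a b Z : Finset (I × J)) (v : I ⊕ J) (N : ℕ),
  Z ⊆ star v → a ⊆ b → Mat b → ¬ Opn D b → (∀ y ∈ Y, Cov a y) → ¬ Cov b v →
  (∀ e, ¬ Inc v e → Avd Y e → (CoN D Y e v ∩ Z).card ≤ N) →
  phi D a Z ≤ phi D b Z + b.card * (N + 1)

/-- EXT. From a `D`-stable alive `c` all alive matchings `b ⊇ c` at which `D` is not open can be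
extended. Proof: let `v` be a vertex; if `b` covers `v` take `b' = b`. Active `v`: PHI with
`Z = Xs lam v` and stability give `lv lam R v ≤ phi D b (Xs lam v)`; apply `active` to the set
counted by `phi D b (Xs lam v)`. Passive `v`: PHI with `Z = Xs lam v ∩ G` and `K2` instead of `N`
gives a free edge `f ∈ Xs lam v ∩ G`; `PP lam f`; apply `passive`. -/
def S_EXT : Prop := ∀ (I J : Type) [Fintype I] [Fintype J] (lam : I ⊕ J → ℕ) (R : ℕ)
  (G : Finset (I × J)) (C : Finset (Finset (I × J))) (A : Finset (I × J) → Prop)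
  (D : Ln I J) (Y : Finset (I ⊕ J)) (c : Finset (I × J)) (N K2 W : ℕ),
  AliveSys lam R G C A → TameAt D Y N → A c → Stb lam R D Y c →
  (∀ v : I ⊕ J, 8 * (W * (N + 1)) ≤ del R v) →
  (∀ v, lam v = 0 → ¬ Cov c v → W * (K2 + 1) + 1 ≤ phi D c (Xs lam v ∩ G)) →
  (∀ (e : I × J) (v : I ⊕ J), ¬ Inc v e → Avd Y e → v ∉ Y → (CoN D Y e v ∩ G).card ≤ K2) →
  ExtSys A (fun b => c ⊆ b ∧ A b ∧ ¬ Opn D b) W

/-- MATCH. All vertices of a finite set can be matched (induction on `U`). -/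
def S_MATCH : Prop := ∀ (I J : Type) [Fintype I] [Fintype J] (A Gd : Finset (I × J) → Prop)
  (W : ℕ), ExtSys A Gd W → ∀ (U : Finset (I ⊕ J)) (b : Finset (I × J)), Gd b →
  b.card + U.card ≤ W →
  ∃ b', b ⊆ b' ∧ Gd b' ∧ (∀ v ∈ U, Cov b' v) ∧ b'.card ≤ b.card + U.card

/-- STEPA. `D0` is open at `a ⊆ b`: match the pigeons of the negated edges of the witness. If no
such edge is in `b'` then all of them are false in `b'` and `Sat D0 b'`. (`wit_spec`.) -/
def S_STEPA : Prop := ∀ (I J : Type) [Fintype I] [Fintype J] (A Gd : Finset (I × J) → Prop)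
  (W t : ℕ), ExtSys A Gd W → ∀ (D0 : Ln I J) (a b : Finset (I × J)),
  (∀ T ∈ D0, T.2.card ≤ t) → Gd b → a ⊆ b → Opn D0 a → b.card + t ≤ W →
  ∃ b', b ⊆ b' ∧ Gd b' ∧ b'.card ≤ b.card + t ∧ (Sat D0 b' ∨ ∃ e ∈ wit D0 a, e ∈ b')

/-- CLAIMB. `b` is a matching containing `a` and an edge `h v` for every `v ∈ W0`, the bound ones
are hit, and no popular edge is in `b`. Then `b` contains a certificate. Proof: `h` is injective
on `W0` (`act_eq`). `Bnd := {v ∈ W0 : h v ∈ Bd lam D a v}`. If `Bnd.card < 6 b1`: `CB1` with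
`B = Bnd`. Otherwise let `V ⊆ Bnd` with `V.card = 6 b1` and choose hits `g v ∈ b`,
`g v ∈ wit D (insert (h v) a)`, so `g v ≠ h v`. If `(V.image g).card ≥ 3 b1`: choose `I1 ⊆ V`,
`I1.card = 3 b1`, `g` injective on `I1`; choose `U ⊆ I1`, `U.card = b1`, with `h v ≠ g v'` for
`v, v' ∈ U` (for every `v` there is at most one `v'` with `g v' = h v` and at most one with
`h v' = g v`: greedy, or induction: a set of size `3 b` contains a good one of size `b`); `CB2`.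
Otherwise let `K ⊆ V` contain exactly one representative of every value of `g` on `V`,
`M = V \ K`: `CB3`. -/
def S_CLAIMB : Prop := ∀ (I J : Type) [Fintype I] [Fintype J] (lam : I ⊕ J → ℕ)
  (R w0 x1 b1 : ℕ) (D : Ln I J) (a b : Finset (I × J)) (h : I ⊕ J → I × J),
  Mat b → a ⊆ b → (∀ v ∈ W0 lam R w0 D a, h v ∈ b ∧ h v ∈ Xs lam v ∧ NA a (h v)) →
  (∀ v ∈ W0 lam R w0 D a, h v ∈ Bd lam D a v → ∃ e ∈ wit D (insert (h v) a), e ∈ b) →
  (∀ e ∈ b, e ∉ Qs lam R w0 x1 D a) →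
  ∃ γ ∈ CB1 lam R w0 b1 D a ∪ CB2 lam R w0 b1 D a ∪ CB3 lam R w0 x1 b1 D a, γ ⊆ b

/-- STEPB. `D0` is not open at `a ⊆ b`, and there are `w0` superheavy vertices: match the vertices
of `W0` (MATCH); the edge `h v` of `b` at `v ∈ W0` is legal and `v` is active, so `h v ∈ Xs lam v`,
and `NA a (h v)` (`Mat.na`; `v` is not covered by `a`). For every `v ∈ W0` with
`Opn D0 (insert (h v) a)` apply STEPA with `insert (h v) a` (at most `w0` times, every time the
matching grows by at most `t`, `sat_mono`). If never `Sat`, CLAIMB gives an edge `e ∈ b'` in `Qs`,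
because certificates are avoided; `e ∉ a` because `e ∈ wit D0 (insert f a)` for some `f`. -/
def S_STEPB : Prop := ∀ (I J : Type) [Fintype I] [Fintype J] (lam : I ⊕ J → ℕ)
  (R w0 x1 b1 : ℕ) (G : Finset (I × J)) (C : Finset (Finset (I × J)))
  (A Gd : Finset (I × J) → Prop) (W t : ℕ), AliveSys lam R G C A → ExtSys A Gd W → 1 ≤ w0 →
  ∀ (D0 : Ln I J) (a b : Finset (I × J)),
  (∀ T ∈ D0, T.2.card ≤ t) → Gd b → a ⊆ b → ¬ Opn D0 a → w0 ≤ (supset lam R D0 a).card →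
  (∀ γ ∈ CB1 lam R w0 b1 D0 a ∪ CB2 lam R w0 b1 D0 a ∪ CB3 lam R w0 x1 b1 D0 a, γ ∈ C) →
  b.card + w0 * (1 + t) ≤ W →
  ∃ b', b ⊆ b' ∧ Gd b' ∧ b'.card ≤ b.card + w0 * (1 + t) ∧
    (Sat D0 b' ∨ ∃ e ∈ Qs lam R w0 x1 D0 a, e ∈ b' ∧ e ∉ a)

/-- LOOP. Iterate a step; the sets `Reach O k (g + 1)` are avoided, so after at most `g` steps
`T` (terminal) or `S` (satisfied) holds. Induction on the number of steps made: after `s` steps
`a' ∈ Reach O k s`, `a ⊆ a' ⊆ b'`, `b'.card ≤ b.card + s * u`. -/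
def S_LOOP : Prop := ∀ (E : Type) [Fintype E] (O : Finset E → Finset E) (k g u W : ℕ)
  (Gd S T : Finset E → Prop),
  (∀ s a b, s ≤ g → a ∈ Reach O k s → a ⊆ b → Gd b → b.card + u ≤ W → ¬ T a →
    ∃ b', b ⊆ b' ∧ Gd b' ∧ b'.card ≤ b.card + u ∧ (S b' ∨ ∃ e ∈ O a, e ∈ b' ∧ e ∉ a)) →
  (∀ b, Gd b → ∀ γ ∈ Reach O k (g + 1), ¬ γ ⊆ b) →
  ∀ a b, a ∈ Reach O k 0 → a ⊆ b → Gd b → b.card + (g + 1) * u ≤ W →
    ∃ b', b ⊆ b' ∧ Gd b' ∧ b'.card ≤ b.card + (g + 1) * u ∧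
      (S b' ∨ ∃ s ≤ g, ∃ a' ∈ Reach O k s, a ⊆ a' ∧ a' ⊆ b' ∧ T a')

/-- PROC. Processing of a line `D0`. Stage 0: MATCH `Y0`; `a0` = the edges of `b` at `Y0` (at most
`k`, every vertex is on one edge of the matching). Stage 1: LOOP with `O1 lam R w0 x1 D0`,
`u = w0 * (1 + t)`, `T a := ¬ Opn D0 a ∧ (supset lam R D0 a).card < w0`, steps by STEPA (`Opn`) and
STEPB. For the resulting `a` the set `hevset` has at most `w1` elements: MATCH it, `a1` = `a` and
the edges of `b` at it, `a1.card ≤ k + g + w1 ≤ k2`. Stage 2: LOOP with `wit D0`, `u = t`,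
`T a := ¬ Opn D0 a`, steps by STEPA. The resulting `a2` has at most `k2 + g2` elements and is
stable: a `v` not covered by `a2` is not heavy for `(D0, a)`, so
`4 lv + del ≤ 4 phi D0 a (Xs lam v)`, and PHI (`a ⊆ a2`, bound `N` from TameAt; `v ∉ Y0` since
`Y0` is covered) gives `8 lv + del ≤ 8 phi D0 a2 (Xs lam v)`. -/
def S_PROC : Prop := ∀ (I J : Type) [Fintype I] [Fintype J] (lam : I ⊕ J → ℕ)
  (R w0 w1 x1 b1 k g k2 g2 N t : ℕ) (G : Finset (I × J)) (C : Finset (Finset (I × J)))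
  (A Gd : Finset (I × J) → Prop) (W : ℕ), AliveSys lam R G C A → ExtSys A Gd W →
  ∀ (D0 : Ln I J) (Y0 : Finset (I ⊕ J)) (b : Finset (I × J)),
  1 ≤ w0 → Y0.card ≤ k → (∀ T ∈ D0, T.2.card ≤ t) → TameAt D0 Y0 N →
  (∀ γ ∈ Certs lam R w0 x1 b1 k g k2 g2 D0, γ ∈ C) →
  (∀ a : Finset (I × J), a.card ≤ k + g →
    w0 ≤ (supset lam R D0 a).card ∨ (hevset lam R D0 a).card ≤ w1) →
  k + g + w1 ≤ k2 → (∀ v : I ⊕ J, 8 * ((k2 + g2) * (N + 1)) ≤ del R v) →
  Gd b → b.card + (k + (g + 1) * (w0 * (1 + t)) + w1 + (g2 + 1) * t) ≤ W →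
  ∃ b', b ⊆ b' ∧ Gd b' ∧
    b'.card ≤ b.card + (k + (g + 1) * (w0 * (1 + t)) + w1 + (g2 + 1) * t) ∧
    (Sat D0 b' ∨ ∃ a, a ⊆ b' ∧ a.card ≤ k2 + g2 ∧ Stb lam R D0 Y0 a)

/-- An axiom line (weakenings included): a vertex axiom, two adjacent negated edges, or an
excluded middle. -/
def AxLine {I J : Type} (D : Ln I J) : Prop :=
  (∃ v : I ⊕ J, ∀ f, Inc v f → (({f}, ∅) : Finset (I × J) × Finset (I × J)) ∈ D) ∨
  (∃ e f : I × J, e ≠ f ∧ Adj e f ∧ ((∅, {e}) : Finset (I × J) × Finset (I × J)) ∈ D ∧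
    ((∅, {f}) : Finset (I × J) × Finset (I × J)) ∈ D) ∨
  (∃ e : I × J, (({e}, ∅) : Finset (I × J) × Finset (I × J)) ∈ D ∧
    ((∅, {e}) : Finset (I × J) × Finset (I × J)) ∈ D)

/-- The line number `s` is an axiom line or follows (for matchings) from two earlier lines. -/
def OkLine {I J : Type} {K : ℕ} (Ds : Fin K → Ln I J) (s : Fin K) : Prop :=
  AxLine (Ds s) ∨ ∃ r r' : Fin K, r < s ∧ r' < s ∧
    ∀ b, Mat b → Sat (Ds r) b → Sat (Ds r') b → Sat (Ds s) b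

/-- AX. An axiom line has no stable matching. Vertex axiom at `v`: if `v` is covered by `c`, by
the edge `f`, the term `({f}, ∅)` makes `D` open at `c`; otherwise `D` is open at `insert f c` for
all `f` at `v`, so `phi = 0`, and `del R v ≥ 1`. -/
def S_AX : Prop := ∀ (I J : Type) [Fintype I] [Fintype J] (lam : I ⊕ J → ℕ) (R : ℕ)
  (D : Ln I J) (Y : Finset (I ⊕ J)) (c : Finset (I × J)),
  AxLine D → (∀ v : I ⊕ J, 1 ≤ del R v) → Mat c → ¬ Stb lam R D Y c

/-- EMPTY. The empty matching is stable for the empty line (`Opn ∅ c` is false;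
`phi ∅ ∅ Z = Z.card`; `lv ≤ R * del R v`, `8 * R * del R v ≤ (star v).card`). -/
def S_EMPTY : Prop := ∀ (I J : Type) [Fintype I] [Fintype J] (lam : I ⊕ J → ℕ) (R : ℕ),
  1 ≤ R → (∀ v, lam v ≤ R) → (∀ v, (star v).card ≤ 4 * (Xs lam v).card) →
  Stb lam R (∅ : Ln I J) ∅ ∅

/-- ADV. The whole adversary argument. By strong induction on `s`: there is no alive matching with
at most `k2 + g2` edges which is stable for `(Ds s, Ys s)`. Axiom lines: AX. A line which follows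
from `r, r'`: EXT (with `D = Ds s`, `c` the stable matching, `Gd b := c ⊆ b ∧ A b ∧ ¬ Opn D b`),
then PROC for `Ds r` starting with `b = c`; it gives a stable matching for `Ds r` (alive by
`mono`), contradiction to the induction hypothesis, or `Sat (Ds r) b'`; then PROC for `Ds r'`
starting with `b'`; if this also gives `Sat (Ds r') b''`, then `Sat (Ds s) b''` by `sat_mono`, so
`Opn`, contradiction. Finally if `Ds s = ∅`, then `Ys s = ∅` by hypothesis and EMPTY gives a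
stable matching. The two hypotheses on `G` are those of EXT, for all lines. -/
def S_ADV : Prop := ∀ (I J : Type) [Fintype I] [Fintype J] (lam : I ⊕ J → ℕ)
  (R w0 w1 x1 b1 k g k2 g2 N K2 t W K : ℕ) (G : Finset (I × J)) (C : Finset (Finset (I × J)))
  (A : Finset (I × J) → Prop) (Ds : Fin K → Ln I J) (Ys : Fin K → Finset (I ⊕ J)),
  AliveSys lam R G C A → 1 ≤ R → 1 ≤ w0 → (∀ v, lam v ≤ R) →
  (∀ v, (star v).card ≤ 4 * (Xs lam v).card) →
  (∀ s, OkLine Ds s) → (∀ s, (Ys s).card ≤ k) → (∀ s, ∀ T ∈ Ds s, T.2.card ≤ t) →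
  (∀ s, TameAt (Ds s) (Ys s) N) → (∀ s, Ds s = ∅ → Ys s = ∅) →
  (∀ s, ∀ γ ∈ Certs lam R w0 x1 b1 k g k2 g2 (Ds s), γ ∈ C) →
  (∀ s, ∀ a : Finset (I × J), a.card ≤ k + g →
    w0 ≤ (supset lam R (Ds s) a).card ∨ (hevset lam R (Ds s) a).card ≤ w1) →
  (∀ s, ∀ c : Finset (I × J), c.card ≤ k2 + g2 → ∀ v, lam v = 0 → ¬ Cov c v →
    del R v ≤ 8 * phi (Ds s) c (Xs lam v) →
    W * (K2 + 1) + 1 ≤ phi (Ds s) c (Xs lam v ∩ G)) →
  (∀ s, ∀ (e : I × J) (v : I ⊕ J), ¬ Inc v e → Avd (Ys s) e → v ∉ Ys s →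
    (CoN (Ds s) (Ys s) e v ∩ G).card ≤ K2) →
  k + g + w1 ≤ k2 → (∀ v : I ⊕ J, 8 * (W * (N + 1)) ≤ del R v) → 1 ≤ W →
  k2 + g2 + 2 * (k + (g + 1) * (w0 * (1 + t)) + w1 + (g2 + 1) * t) ≤ W →
  ∀ s, Ds s ≠ ∅

end Pool.Agent.Work.MP_f7ef37_lc.OP
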