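import Pool.Agent.Work.MP_f7ef37_lc.OP.Basic

/-!
# Statements of the block [f7ef37 OP], part 2: weights of the certificates and random choices
-/

set_option autoImplicit false

open Classical

namespace Pool.Agent.Work.MP_f7ef37_lc.OP

/-! ## Weights -/

/-- REACHW. Weight of the reachable sets. `s = 0`: at most `(card E + 1) ^ k` sets with at most `k`
elements, every product is at most `1`. Step: for `e ∉ a` the product over `insert e a` is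
`κ e` times the product over `a`. -/
def S_REACHW : Prop := ∀ (E : Type) [Fintype E] (O : Finset E → Finset E) (k s q : ℕ) (κm : ℝ)
  (κ : E → ℝ), (∀ e, 0 ≤ κ e) → (∀ e, κ e ≤ κm) → 0 ≤ κm → κm ≤ 1 →
  (∀ a, (O a).card ≤ q) →
  ∑ γ ∈ Reach O k s, ∏ e ∈ γ, κ e ≤ ((Fintype.card E : ℝ) + 1) ^ k * ((q : ℝ) * κm) ^ s

/-- SECW. Weight of a family of sections of pairwise disjoint sets. -/
def S_SECW : Prop := ∀ (V E : Type) [Fintype V] [Fintype E] (U : Finset V) (Z : V → Finset E)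
  (κ : E → ℝ), (∀ e, 0 ≤ κ e) → (∀ v ∈ U, ∀ v' ∈ U, v ≠ v' → Disjoint (Z v) (Z v')) →
  ∑ γ ∈ (Finset.univ : Finset (Finset E)).filter
      (fun γ => ∃ h : V → E, (∀ v ∈ U, h v ∈ Z v) ∧ γ = U.image h), ∏ e ∈ γ, κ e
    ≤ ∏ v ∈ U, ∑ f ∈ Z v, κ f

/-- QCARD. Number of popular edges. For `v ∈ W0` (active, so `del ≤ lv`): the number of `e` with
`lv < x1 * count` is at most `x1 / lv * ∑ e, count e ≤ x1 * t * (Xs lam v).card / lv`, and
`(star v).card ≤ 16 * R * del R v` since `del R v = (star v).card / (8 * R) ≥ 1`. -/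
def S_QCARD : Prop := ∀ (I J : Type) [Fintype I] [Fintype J] (lam : I ⊕ J → ℕ)
  (R w0 x1 t : ℕ) (D : Ln I J) (a : Finset (I × J)), 1 ≤ R → (∀ v : I ⊕ J, 1 ≤ del R v) →
  (∀ T ∈ D, T.2.card ≤ t) →
  (Qs lam R w0 x1 D a).card ≤ w0 * (16 * R * t * x1)

/-- BW1. Weight of `CB1`. There are at most `(w0 + 1) ^ (6 b1)` sets `B`; for every `B` use SECW
(`U = W0 \ B`, `Z v = Fr lam D a v`, disjoint by `act_eq`): `kap f = 1 / lv` for `f ∈ Xs lam v`,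
`(Fr lam D a v).card = phi D a (Xs lam v) ≤ lv - del / 2 ≤ lv * (1 - 1 / (2 R))` as `lv ≤ R * del`;
at least `w0 - 6 b1` factors. -/
def S_BW1 : Prop := ∀ (I J : Type) [Fintype I] [Fintype J] (lam : I ⊕ J → ℕ)
  (R w0 b1 : ℕ) (p : ℝ) (D : Ln I J) (a : Finset (I × J)), 1 ≤ R → (∀ v, lam v ≤ R) →
  (∀ v : I ⊕ J, 1 ≤ del R v) → 0 ≤ p → w0 ≤ (supset lam R D a).card → 6 * b1 ≤ w0 →
  ∑ γ ∈ CB1 lam R w0 b1 D a, ∏ e ∈ γ, kap lam R p e
    ≤ ((w0 : ℝ) + 1) ^ (6 * b1) * (1 - 1 / (2 * (R : ℝ))) ^ (w0 - 6 * b1)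

/-- BW2. Weight of `CB2`. At most `w0 ^ b1` sets `U`. For every `U` the sum over `γ` is at most the
sum over the functions `v ↦ (h v, g v)` on `U` of `∏ v ∈ U, kap (h v) * kap (g v)` (for
`γ.card = 2 b1` all these edges are distinct), which is the product over `v ∈ U` of
`∑ f ∈ Bd v, (1 / lv) * ∑ e ∈ wit D (insert f a), kap e ≤ (16 R) * t * κm`. -/
def S_BW2 : Prop := ∀ (I J : Type) [Fintype I] [Fintype J] (lam : I ⊕ J → ℕ)
  (R w0 b1 t : ℕ) (p κm : ℝ) (D : Ln I J) (a : Finset (I × J)), 1 ≤ R → (∀ v, lam v ≤ R) →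
  (∀ v : I ⊕ J, 1 ≤ del R v) → 0 ≤ p → (∀ e, kap lam R p e ≤ κm) → 0 ≤ κm →
  (∀ T ∈ D, T.2.card ≤ t) →
  ∑ γ ∈ CB2 lam R w0 b1 D a, ∏ e ∈ γ, kap lam R p e
    ≤ ((w0 : ℝ) * (16 * R * t * κm)) ^ b1

/-- BW3. Weight of `CB3`. At most `(w0 + 1) ^ (12 b1)` pairs `(K, M)`. For every pair the sum over
`γ` is at most the sum over `(h v, g v)`, `v ∈ K`, and `h v`, `v ∈ M`, of
`∏ v ∈ K ∪ M, kap (h v)`; for `v ∈ K` the sum over `(h v, g v)` gives at most `16 R t`, for `v ∈ M`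
the sum over `h v` gives at most `K.card / x1` because `g r ∉ Qs` means
`x1 * (number of f ∈ Bd v with g r ∈ wit D (insert f a)) ≤ lv` for every `v ∈ W0`.
`K.card ≤ 3 b1 ≤ M.card`, `K.card / x1 ≤ 1`. -/
def S_BW3 : Prop := ∀ (I J : Type) [Fintype I] [Fintype J] (lam : I ⊕ J → ℕ)
  (R w0 x1 b1 t : ℕ) (p : ℝ) (D : Ln I J) (a : Finset (I × J)), 1 ≤ R → (∀ v, lam v ≤ R) →
  (∀ v : I ⊕ J, 1 ≤ del R v) → 0 ≤ p → 1 ≤ t → 1 ≤ x1 → 3 * b1 ≤ x1 →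
  (∀ T ∈ D, T.2.card ≤ t) →
  ∑ γ ∈ CB3 lam R w0 x1 b1 D a, ∏ e ∈ γ, kap lam R p e
    ≤ ((w0 : ℝ) + 1) ^ (12 * b1) * ((16 * R * t) * (3 * b1) / (x1 : ℝ)) ^ (3 * b1)

/-- TOTAL. Weight of all certificates of a line: REACHW twice (with `O1`: `wit_card`, QCARD, and
with `wit D`), BW1, BW2, BW3 for the at most `(card + 1) ^ (k + g)` sets `a`. -/
def S_TOTAL : Prop := ∀ (I J : Type) [Fintype I] [Fintype J] (lam : I ⊕ J → ℕ)
  (R w0 x1 b1 k g k2 g2 t q : ℕ) (p κm : ℝ) (D : Ln I J), 1 ≤ R → (∀ v, lam v ≤ R) →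
  (∀ v : I ⊕ J, 1 ≤ del R v) → 0 ≤ p → (∀ e, kap lam R p e ≤ κm) → 0 ≤ κm → κm ≤ 1 →
  1 ≤ t → 1 ≤ x1 → 3 * b1 ≤ x1 → 6 * b1 ≤ w0 → t ≤ q → w0 * (16 * R * t * x1) ≤ q →
  (∀ T ∈ D, T.2.card ≤ t) →
  ∑ γ ∈ Certs lam R w0 x1 b1 k g k2 g2 D, ∏ e ∈ γ, kap lam R p e
    ≤ (((Fintype.card I * Fintype.card J : ℕ) : ℝ) + 1) ^ k * ((q : ℝ) * κm) ^ (g + 1) +
      (((Fintype.card I * Fintype.card J : ℕ) : ℝ) + 1) ^ k2 * ((t : ℝ) * κm) ^ (g2 + 1) +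
      (((Fintype.card I * Fintype.card J : ℕ) : ℝ) + 1) ^ (k + g) *
        (((w0 : ℝ) + 1) ^ (6 * b1) * (1 - 1 / (2 * (R : ℝ))) ^ (w0 - 6 * b1) +
          ((w0 : ℝ) * (16 * R * t * κm)) ^ b1 +
          ((w0 : ℝ) + 1) ^ (12 * b1) * ((16 * R * t) * (3 * b1) / (x1 : ℝ)) ^ (3 * b1))

/-! ## The random set of passive-passive edges -/

/-- RS. Random subset of `E` with probability `m / n`: count functions `ω : E → Fin n`,
`G = {e : ω e < m}`. Expectation and Markov for the first, `P(|S ∩ G| < μ / 4) ≤ exp (-μ / 8)` and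
`P(|S ∩ G| > K2) ≤ exp (2 μ - K2)` (`μ = |S| m / n`; exponential moments
`E exp (± |S ∩ G|) = (1 + (m / n) (exp (± 1) - 1)) ^ |S|`) for the second and third; the three
failure probabilities sum to at most `1/8 + 1/4 + 1/4 < 1`. -/
def S_RS : Prop := ∀ (E ι : Type) [Fintype E] (n m : ℕ), 0 < n → m ≤ n →
  ∀ (C : Finset ι) (γ : ι → Finset E) (c : ι → ℝ), (∀ i ∈ C, 0 ≤ c i) →
  ∑ i ∈ C, c i * ((m : ℝ) / n) ^ (γ i).card ≤ 1 / 8 →
  ∀ (S1 S2 : Finset (Finset E)) (K2 : ℕ),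
  ∑ S ∈ S1, Real.exp (-((m : ℝ) / n) * S.card / 8) ≤ 1 / 4 →
  ∑ S ∈ S2, Real.exp (2 * ((m : ℝ) / n) * S.card - K2) ≤ 1 / 4 →
  ∃ G : Finset E, ∑ i ∈ C.filter (fun i => γ i ⊆ G), c i < 1 ∧
    (∀ S ∈ S1, (m : ℝ) / n * S.card ≤ 4 * ((S ∩ G).card : ℝ)) ∧
    (∀ S ∈ S2, (S ∩ G).card ≤ K2)

/-- GP. From RS with `E = I × J`, `ι = Finset (I × J)`, the certificates `γ ∈ C` without
active-active edges, `γ i` = the passive-passive edges of the certificate, `c = wt lam R`; the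
product of `kap` with `p = m / n` is `wt * p ^ (number of passive-passive edges)`. `S1` = all sets
`(Xs lam v).filter (NA c ∧ ¬ Opn (Ds s) (insert · c))` with `c.card ≤ Wc` and
`del R v ≤ 8 * card` (at most `K (card I card J + 1) ^ Wc (card I + card J)` of them), `S2` = all
`CoN (Ds s) (Ys s) e v` (assumed to have at most `N` elements). -/
def S_GP : Prop := ∀ (I J : Type) [Fintype I] [Fintype J] (lam : I ⊕ J → ℕ)
  (R n m K Wc N K2 : ℕ) (B : ℝ) (C : Finset (Finset (I × J))) (Ds : Fin K → Ln I J)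
  (Ys : Fin K → Finset (I ⊕ J)), 0 < n → m ≤ n →
  ∑ γ ∈ C, ∏ e ∈ γ, kap lam R ((m : ℝ) / n) e ≤ 1 / 8 →
  (∀ v : I ⊕ J, B ≤ del R v) →
  (K : ℝ) * (((Fintype.card I * Fintype.card J : ℕ) : ℝ) + 1) ^ Wc *
    ((Fintype.card I + Fintype.card J : ℕ) : ℝ) *
    Real.exp (-((m : ℝ) / n) * B / 64) ≤ 1 / 4 →
  (∀ s (e : I × J) (v : I ⊕ J), ¬ Inc v e → Avd (Ys s) e → v ∉ Ys s →
    (CoN (Ds s) (Ys s) e v).card ≤ N) →
  (K : ℝ) * ((Fintype.card I * Fintype.card J : ℕ) : ℝ) *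
    ((Fintype.card I + Fintype.card J : ℕ) : ℝ) *
    Real.exp (2 * ((m : ℝ) / n) * N - K2) ≤ 1 / 4 →
  ∃ G : Finset (I × J),
    ∑ γ ∈ C.filter (fun γ => Mat γ ∧ ∀ e ∈ γ, Legal lam G e), wt lam R γ < 1 ∧
    (∀ s, ∀ c : Finset (I × J), c.card ≤ Wc → ∀ v, del R v ≤ 8 * phi (Ds s) c (Xs lam v) →
      (m : ℝ) / n * phi (Ds s) c (Xs lam v) ≤ 4 * (phi (Ds s) c (Xs lam v ∩ G) : ℝ)) ∧
    (∀ s (e : I × J) (v : I ⊕ J), ¬ Inc v e → Avd (Ys s) e → v ∉ Ys s →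
      (CoN (Ds s) (Ys s) e v ∩ G).card ≤ K2)

/-! ## The random levels -/

/-- The level of `x : Fin (2 ^ R)`: the largest `r ≤ R` with `2 ^ r ∣ x`. -/
noncomputable def lev (R : ℕ) (x : Fin (2 ^ R)) : ℕ :=
  (Finset.range (R + 1)).sup (fun r => if 2 ^ r ∣ (x : ℕ) then r else 0)

/-- LEV. Distribution of the level. -/
def S_LEV : Prop := ∀ R : ℕ, (∀ x : Fin (2 ^ R), lev R x ≤ R) ∧
  ∀ r ≤ R, ((Finset.univ : Finset (Fin (2 ^ R))).filter (fun x => r ≤ lev R x)).card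
    = 2 ^ (R - r)

/-- FILT. The filter lemma on one side, counting functions `ω : V → Fin (2 ^ R)`; `r v` is the
threshold. Let `A = ∑ v with r v < R, 2 ^ (-(r v + 1))`, the expected number of `v` with
`r v < lev`. If `A ≥ 4 w0`: `P(#{r v < lev} < w0) ≤ 2 ^ w0 * E 2 ^ (-#) ≤ 2 ^ w0 exp (-A / 2)`.
Otherwise the expected number of `v` with `r v ≤ lev` is at most `2 A + card V * 2 ^ (-R) ≤
8 w0 + 1`, and `P(# > 30 w0) ≤ exp (-30 w0) E exp # ≤ exp (2 (8 w0 + 1) - 30 w0)`. -/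
def S_FILT : Prop := ∀ (V : Type) [Fintype V] (R w0 : ℕ) (r : V → ℕ), 1 ≤ w0 →
  Fintype.card V ≤ 2 ^ R →
  (((Finset.univ : Finset (V → Fin (2 ^ R))).filter (fun ω =>
      (Finset.univ.filter (fun v => r v < lev R (ω v))).card < w0 ∧
      30 * w0 < (Finset.univ.filter (fun v => r v ≤ lev R (ω v))).card)).card : ℝ)
    ≤ 2 * Real.exp (-(w0 : ℝ) / 8) * ((2 : ℝ) ^ R) ^ Fintype.card V

/-- LEVELS. Existence of good levels, `lam v = lev R (ω v)` for `ω : I ⊕ J → Fin (2 ^ R)`.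
(1) `(Xs lam v).card` is binomial with probability `1/2` (`R ≥ 1`: level `0` means odd), at most
`(star v).card / 4` with probability at most `exp (-(star v).card / 16) ≤ exp (-n / 16)`.
(2) For a line `D` and a set `a` the pair (few superheavy, many heavy): one of the two sides has
fewer than `w0` superheavy vertices and more than `30 w0` heavy ones. Fix `ω` on the other side:
then `Xs lam v`, so `phi D a (Xs lam v)` is fixed for the `v` of this side; with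
`r v` = least `r` with `4 phi < 4 r del + del` if there is such an `r ≤ R` and `v` is not covered
by `a`, otherwise `r v = R + 1`, heavy implies `r v ≤ lev` and `r v < lev` implies superheavy.
FILT, and the union bound over `K * (card + 1) ^ k3` pairs and two sides. -/
def S_LEVELS : Prop := ∀ (I J : Type) [Fintype I] [Fintype J] (R w0 K k3 n : ℕ)
  (Ds : Fin K → Ln I J), 1 ≤ R → 1 ≤ w0 → (∀ v : I ⊕ J, n ≤ (star v).card) →
  (∀ v : I ⊕ J, 1 ≤ del R v) → Fintype.card I + Fintype.card J ≤ 2 ^ R →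
  (K : ℝ) * (((Fintype.card I * Fintype.card J : ℕ) : ℝ) + 1) ^ k3 *
      (4 * Real.exp (-(w0 : ℝ) / 8)) +
    ((Fintype.card I + Fintype.card J : ℕ) : ℝ) * Real.exp (-(n : ℝ) / 16) < 1 →
  ∃ lam : I ⊕ J → ℕ, (∀ v, lam v ≤ R) ∧ (∀ v, (star v).card ≤ 4 * (Xs lam v).card) ∧
    ∀ s, ∀ a : Finset (I × J), a.card ≤ k3 →
      w0 ≤ (supset lam R (Ds s) a).card ∨ (hevset lam R (Ds s) a).card ≤ 60 * w0

end Pool.Agent.Work.MP_f7ef37_lc.OP
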