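import Pool.Agent.Work.MP_f7ef37_lc.OP.Stmts
import Pool.Agent.Work.MP_f7ef37_lc.OP.Stmts2

/-!
# Statements of the block [f7ef37 OP], part 3: refutations, numbers, the theorem
-/

set_option autoImplicit false

open Classical

namespace Pool.Agent.Work.MP_f7ef37_lc.OP

/-- `P 0, ..., P k` is a Res(t) refutation of the onto functional pigeonhole principle with `m`
pigeons and `n` holes, in the calculus of the frozen statement. A literal is `(i, j, b)`: `x_ij`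
for `b = true`, `¬ x_ij` for `b = false`; a line is a finite set of conjunctions of between `1`
and `t` literals. Axioms: every pigeon is somewhere, every hole is used, no two pigeons in a hole,
no pigeon in two holes, excluded middle. Rules: weakening, conjunction introduction, conjunction
elimination, cut. The last line is empty. -/
def IsRef (t m n k : ℕ) (P : Fin (k + 1) → Finset (Finset (Fin m × Fin n × Bool))) : Prop :=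
  (∀ s, ∀ T ∈ P s, 1 ≤ T.card ∧ T.card ≤ t) ∧
  P (Fin.last k) = ∅ ∧
  (∀ s : Fin (k + 1),
    (∃ i : Fin m, P s = Finset.univ.image
        (fun j : Fin n => ({(i, j, true)} : Finset (Fin m × Fin n × Bool)))) ∨
    (∃ j : Fin n, P s = Finset.univ.image
        (fun i : Fin m => ({(i, j, true)} : Finset (Fin m × Fin n × Bool)))) ∨
    (∃ i i' : Fin m, ∃ j : Fin n, i ≠ i' ∧ P s = {{(i, j, false)}, {(i', j, false)}}) ∨
    (∃ i : Fin m, ∃ j j' : Fin n, j ≠ j' ∧ P s = {{(i, j, false)}, {(i, j', false)}}) ∨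
    (∃ i : Fin m, ∃ j : Fin n, P s = {{(i, j, true)}, {(i, j, false)}}) ∨
    (∃ r : Fin (k + 1), r < s ∧ P r ⊆ P s) ∨
    (∃ r r' : Fin (k + 1), r < s ∧ r' < s ∧ ∃ T ∈ P r, ∃ T' ∈ P r',
        (P r).erase T ∪ (P r').erase T' ∪ {T ∪ T'} ⊆ P s) ∨
    (∃ r : Fin (k + 1), r < s ∧ ∃ T ∈ P r, ∃ l ∈ T, insert {l} ((P r).erase T) ⊆ P s) ∨
    (∃ r r' : Fin (k + 1), r < s ∧ r' < s ∧ ∃ T ∈ P r,
        T.image (fun l => ({(l.1, l.2.1, !l.2.2)} : Finset (Fin m × Fin n × Bool))) ⊆ P r' ∧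
        (P r).erase T ∪ (P r' \ T.image
          (fun l => ({(l.1, l.2.1, !l.2.2)} : Finset (Fin m × Fin n × Bool)))) ⊆ P s))

/-- The size: the number of literal occurrences. -/
def size {m n k : ℕ} (P : Fin (k + 1) → Finset (Finset (Fin m × Fin n × Bool))) : ℝ :=
  ∑ s, ∑ T ∈ P s, (T.card : ℝ)

/-- A line `D` is `(L, N)`-tame: there is a set `Y` of at most `L` pigeons and holes such that for
every variable `x_e` and every pigeon or hole `v`, with `e` and `v` outside `Y` and `v` not on `e`,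
there are at most `N` variables `x_f`, `f` at `v` and outside `Y`, which occur together with `x_e`
unnegated in a conjunction of `D`. -/
def TameLine {m n : ℕ} (L N : ℕ) (D : Finset (Finset (Fin m × Fin n × Bool))) : Prop :=
  ∃ Y : Finset (Fin m ⊕ Fin n), Y.card ≤ L ∧
    ∀ (e : Fin m × Fin n) (v : Fin m ⊕ Fin n), ¬ Inc v e → Avd Y e → v ∉ Y →
      ((Finset.univ : Finset (Fin m × Fin n)).filter (fun f => Inc v f ∧ Avd Y f ∧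
        ∃ T ∈ D, (e.1, e.2, true) ∈ T ∧ (f.1, f.2, true) ∈ T)).card ≤ N

/-- BOARD. From a refutation to the setting of the core theorem. Let `s0` be the first empty line
and `M` the set of the pigeons mentioned in the lines before `s0`, `K = s0 + 1`. The lines before
`s0` are not empty and terms are not empty, so `s0 ≤ size` and `M.card ≤ size`. Let
`M' ⊇ M` have `max M.card n` elements (`n < m`); if the hole axiom is one of the lines before `s0`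
then `M` is everything. `I = {i // i ∈ M'}`. A term `T` becomes (positive edges, negated edges)
as edges of the board `I × Fin n`. The rules give `Sat r → Sat r' → Sat s` for matchings.
The tame condition is inherited: `Y' =` the part of `Y` in the board. -/
def S_BOARD : Prop := ∀ (t m n k : ℕ) (P : Fin (k + 1) → Finset (Finset (Fin m × Fin n × Bool)))
  (L N : ℕ), 1 ≤ n → n < m → IsRef t m n k P → (∀ s, TameLine L N (P s)) →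
  ∃ (I : Type) (_ : Fintype I) (K : ℕ) (Ds : Fin K → Ln I (Fin n)),
    n ≤ Fintype.card I ∧ (Fintype.card I : ℝ) ≤ max (size P) n ∧ (K : ℝ) ≤ size P + 1 ∧
    (∀ s, ∀ T ∈ Ds s, T.2.card ≤ t) ∧ (∀ s, OkLine Ds s) ∧ (∃ s, Ds s = ∅) ∧
    ∀ s, ∃ Y : Finset (I ⊕ Fin n), Y.card ≤ L ∧ TameAt (Ds s) Y N

/-- The core theorem. -/
def S_CORE : Prop := ∃ L0 : ℕ, ∀ (L : ℕ), L0 ≤ L → ∀ (I J : Type) [Fintype I] [Fintype J],
  L ^ 80 ≤ Fintype.card J → Fintype.card J ≤ Fintype.card I →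
  (Fintype.card I : ℝ) ≤ Real.exp (2 * L) → ∀ (K : ℕ) (Ds : Fin K → Ln I J),
  (K : ℝ) ≤ Real.exp (2 * L) → (∀ s, ∀ T ∈ Ds s, T.2.card ≤ L) → (∀ s, OkLine Ds s) →
  (∀ s, ∃ Y : Finset (I ⊕ J), Y.card ≤ L ∧
    TameAt (Ds s) Y (Fintype.card J / L ^ 80)) →
  ∀ s, Ds s ≠ ∅

/-- NUMA. The weight of the certificates: parameters `R = 8 L`, `k = L`, `g = 20 L²`, `b1 = L⁴`,
`w0 = L⁶`, `x1 = L³⁶`, `k2 = 100 L⁶`, `g2 = 600 L⁷`, `t = L`, `q = 128 L⁴⁴`, `κm = L¹⁵ / n`,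
`Ec` = number of edges. -/
def S_NUMA : Prop := ∃ L0 : ℕ, ∀ L : ℕ, L0 ≤ L → ∀ (n Ec K : ℝ), (L : ℝ) ^ 80 ≤ n → 0 ≤ Ec →
  Ec + 1 ≤ Real.exp (5 * L) → 0 ≤ K → K ≤ Real.exp (2 * L) →
  K * ((Ec + 1) ^ L * (((128 * L ^ 44 : ℕ) : ℝ) * ((L : ℝ) ^ 15 / n)) ^ (20 * L ^ 2 + 1) +
      (Ec + 1) ^ (100 * L ^ 6) * ((L : ℝ) * ((L : ℝ) ^ 15 / n)) ^ (600 * L ^ 7 + 1) +
      (Ec + 1) ^ (L + 20 * L ^ 2) *
        ((((L ^ 6 : ℕ) : ℝ) + 1) ^ (6 * L ^ 4) *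
            (1 - 1 / (2 * ((8 * L : ℕ) : ℝ))) ^ (L ^ 6 - 6 * L ^ 4) +
          (((L ^ 6 : ℕ) : ℝ) * (16 * ((8 * L : ℕ) : ℝ) * L * ((L : ℝ) ^ 15 / n))) ^ (L ^ 4) +
          (((L ^ 6 : ℕ) : ℝ) + 1) ^ (12 * L ^ 4) *
            ((16 * ((8 * L : ℕ) : ℝ) * L) * (3 * ((L ^ 4 : ℕ) : ℝ)) / ((L ^ 36 : ℕ) : ℝ)) ^
              (3 * L ^ 4))) ≤ 1 / 8

/-- NUMB. The hypothesis of LEVELS: `k3 = L + 20 L²`, `w0 = L⁶`, `n0` = number of holes. -/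
def S_NUMB : Prop := ∃ L0 : ℕ, ∀ L : ℕ, L0 ≤ L → ∀ (n Ec K V : ℝ), (L : ℝ) ^ 80 ≤ n → 0 ≤ Ec →
  Ec + 1 ≤ Real.exp (5 * L) → 0 ≤ K → K ≤ Real.exp (2 * L) → 0 ≤ V → V ≤ Real.exp (3 * L) →
  K * (Ec + 1) ^ (L + 20 * L ^ 2) * (4 * Real.exp (-((L ^ 6 : ℕ) : ℝ) / 8)) +
    V * Real.exp (-n / 16) < 1

/-- NUMC. The hypotheses of GP: `m = L¹⁵`, `B = n / (128 L)`, `Wc = 100 L⁶ + 600 L⁷`,
`K2 = 20 L`, `N ≤ n / L⁸⁰`. -/
def S_NUMC : Prop := ∃ L0 : ℕ, ∀ L : ℕ, L0 ≤ L → ∀ (n Ec K V N : ℝ), (L : ℝ) ^ 80 ≤ n →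
  0 ≤ Ec → Ec + 1 ≤ Real.exp (5 * L) → 0 ≤ K → K ≤ Real.exp (2 * L) → 0 ≤ V →
  V ≤ Real.exp (3 * L) → 0 ≤ N → N * (L : ℝ) ^ 80 ≤ n →
  K * (Ec + 1) ^ (100 * L ^ 6 + 600 * L ^ 7) * V *
      Real.exp (-((L : ℝ) ^ 15 / n) * (n / (128 * L)) / 64) ≤ 1 / 4 ∧
    K * Ec * V * Real.exp (2 * ((L : ℝ) ^ 15 / n) * N - ((20 * L : ℕ) : ℝ)) ≤ 1 / 4

/-- NUMD. Natural number inequalities for ADV with the parameters of NUMA, `w1 = 60 L⁶`,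
`W = L¹¹`, `K2 = 20 L`; `d ≥ n / (128 L)` is `del`. -/
def S_NUMD : Prop := ∃ L0 : ℕ, 1 ≤ L0 ∧ ∀ L : ℕ, L0 ≤ L → ∀ n N d : ℕ, L ^ 80 ≤ n →
  N * L ^ 80 ≤ n → n ≤ 128 * L * d →
  L + 20 * L ^ 2 + 60 * L ^ 6 ≤ 100 * L ^ 6 ∧
  8 * (L ^ 11 * (N + 1)) ≤ d ∧
  100 * L ^ 6 + 600 * L ^ 7 + 2 * (L + (20 * L ^ 2 + 1) * (L ^ 6 * (1 + L)) + 60 * L ^ 6 +
    (600 * L ^ 7 + 1) * L) ≤ L ^ 11 ∧
  3 * L ^ 4 ≤ L ^ 36 ∧ 6 * L ^ 4 ≤ L ^ 6 ∧ L ≤ 128 * L ^ 44 ∧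
  L ^ 6 * (16 * (8 * L) * L * L ^ 36) ≤ 128 * L ^ 44 ∧
  128 * L ≤ L ^ 15 ∧ L ^ 15 ≤ n ∧
  32 * 128 * L * (L ^ 11 * (20 * L + 1) + 1) ≤ L ^ 15

/-- The statement of the theorem. -/
def S_FINAL : Prop := ∃ n0 : ℕ, ∀ n ≥ n0, ∀ m > n, ∀ L : ℕ, Real.log n ≤ L → L ^ 80 ≤ n →
  ∀ t ≤ L, ∀ (k : ℕ) (P : Fin (k + 1) → Finset (Finset (Fin m × Fin n × Bool))),
    IsRef t m n k P → size P ≤ Real.exp L → ∃ s, ¬ TameLine L (n / L ^ 80) (P s)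

end Pool.Agent.Work.MP_f7ef37_lc.OP
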